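import Pool.Agent.Lib.MP_a4d326_an.Q1.Stmt

/-! Abel summation against `φ(k)/k` and the bounds for `xS` and `kS`. -/

namespace Pool.Agent.Lib.MP_a4d326_an.Q1

open MeasureTheory Set

namespace ABx

def A7 (k : ℕ) : ℕ :=
  (if 2 ∣ k then 1 else 2) * (if 3 ∣ k then 2 else 3) * (if 5 ∣ k then 4 else 5) *
    (if 7 ∣ k then 6 else 7)

def S7 : ℕ → ℕ
  | 0 => 0
  | n + 1 => S7 n + A7 (n + 1)

lemma tot_le {k : ℕ} (hk : 1 ≤ k) : (Nat.totient k : ℝ) / k ≤ A7 k / 210 := by
  have h0 : (0 : ℚ) < k := by exact_mod_cast hk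
  have h1 : ∏ p ∈ k.primeFactors, (1 - (p : ℚ)⁻¹) ≤
      ∏ p ∈ ({2, 3, 5, 7} : Finset ℕ).filter (· ∣ k), (1 - (p : ℚ)⁻¹) := by
    refine Finset.prod_le_prod_of_subset_of_le_one (fun p hp => ?_) (fun p hp => ?_)
      (fun p _ _ => ?_)
    · rw [Finset.mem_filter] at hp
      refine Nat.mem_primeFactors.2 ⟨?_, hp.2, by omega⟩
      have := hp.1
      simp only [Finset.mem_insert, Finset.mem_singleton] at this
      rcases this with rfl | rfl | rfl | rfl <;> norm_num
    · have : (1 : ℚ) ≤ p := by exact_mod_cast Nat.pos_of_mem_primeFactors hp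
      exact sub_nonneg.2 (inv_le_one_of_one_le₀ this)
    · have : (0 : ℚ) ≤ (p : ℚ)⁻¹ := by positivity
      linarith
  have h2 : ∏ p ∈ ({2, 3, 5, 7} : Finset ℕ).filter (· ∣ k), (1 - (p : ℚ)⁻¹) = A7 k / 210 := by
    rw [Finset.prod_filter, Finset.prod_insert (by decide), Finset.prod_insert (by decide),
      Finset.prod_pair (by decide), A7]
    split_ifs <;> norm_num
  have h3 : (Nat.totient k : ℚ) / k ≤ A7 k / 210 := by
    rw [Nat.totient_eq_mul_prod_factors, mul_div_cancel_left₀ _ h0.ne', ← h2]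
    exact h1
  have := (Rat.cast_le (K := ℝ)).2 h3
  push_cast at this
  exact this

lemma A7_add (k : ℕ) : A7 (k + 210) = A7 k := by
  unfold A7
  rw [if_congr (show 2 ∣ k + 210 ↔ 2 ∣ k by omega) rfl rfl,
    if_congr (show 3 ∣ k + 210 ↔ 3 ∣ k by omega) rfl rfl,
    if_congr (show 5 ∣ k + 210 ↔ 5 ∣ k by omega) rfl rfl,
    if_congr (show 7 ∣ k + 210 ↔ 7 ∣ k by omega) rfl rfl]

lemma S7_add (n : ℕ) : S7 (n + 210) = S7 n + 27648 := by
  induction n with
  | zero => decide +kernel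
  | succ n ih =>
    have : S7 (n + 1 + 210) = S7 (n + 210) + A7 (n + 1 + 210) := by
      rw [show n + 1 + 210 = n + 210 + 1 by ring, S7]
    rw [this, ih, A7_add, S7]
    ring

lemma S7_small : ∀ r < 210, 4608 * r ≤ 35 * S7 r + 478 ∧ 35 * S7 r ≤ 4608 * r + 3406 := by
  decide +kernel

lemma S7_bd (n : ℕ) : 4608 * n ≤ 35 * S7 n + 478 ∧ 35 * S7 n ≤ 4608 * n + 3406 := by
  induction n using Nat.strong_induction_on with
  | _ n ih =>
    by_cases h : n < 210
    · exact S7_small n h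
    · obtain ⟨m, rfl⟩ : ∃ m, n = m + 210 := ⟨n - 210, by omega⟩
      have := ih m (by omega)
      rw [S7_add]
      omega

lemma abel (w : ℕ → ℝ) (hw : Monotone w) (h0 : ∀ k, 0 ≤ w k) (n : ℕ) :
    ∑ k ∈ Finset.Icc 1 n, (Nat.totient k : ℝ) / k * w k ≤
      4608 / 7350 * ∑ k ∈ Finset.Icc 1 n, w k + (35 * S7 n + 478 - 4608 * n) / 7350 * w n := by
  induction n with
  | zero =>
    have := h0 0
    simp only [S7, zero_lt_one, Finset.Icc_eq_empty_of_lt, Finset.sum_empty]
    push_cast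
    linarith
  | succ n ih =>
    rw [Finset.sum_Icc_succ_top (by omega), Finset.sum_Icc_succ_top (by omega), S7]
    have h1 : (4608 * n : ℝ) ≤ 35 * S7 n + 478 := by exact_mod_cast (S7_bd n).1
    have h2 := mul_le_mul_of_nonneg_right (tot_le (k := n + 1) (by omega)) (h0 (n + 1))
    have h3 := mul_le_mul_of_nonneg_left (hw (Nat.le_succ n))
      (show (0 : ℝ) ≤ (35 * S7 n + 478 - 4608 * n) / 7350 by linarith)
    push_cast at h2 h3 ⊢
    linarith

lemma sum_max (M : ℝ) (hM : 0 < M) (n : ℕ) :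
    ∑ k ∈ Finset.Icc 1 n, max 0 ((k : ℝ) / M - 5 / 6) ≤
      M / 2 * (max 0 ((n + 1 : ℝ) / M - 5 / 6)) ^ 2 := by
  induction n with
  | zero => simp only [zero_lt_one, Finset.Icc_eq_empty_of_lt, Finset.sum_empty]; positivity
  | succ n ih =>
    rw [Finset.sum_Icc_succ_top (by omega)]
    push_cast
    set u : ℝ := (n + 1) / M - 5 / 6 with hu
    have e : (n + 1 + 1 : ℝ) / M - 5 / 6 = u + 1 / M := by rw [hu]; ring
    have hi : 0 < 1 / M := by positivity
    rw [e]
    rcases le_total 0 u with h | h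
    · rw [max_eq_right h] at ih ⊢
      rw [max_eq_right (by linarith)]
      have : M / 2 * (u + 1 / M) ^ 2 = M / 2 * u ^ 2 + u + 1 / M / 2 := by field_simp; ring
      linarith
    · rw [max_eq_left h] at ih ⊢
      have : 0 ≤ M / 2 * (max 0 (u + 1 / M)) ^ 2 := by positivity
      linarith

lemma sum_id (n : ℕ) : ∑ k ∈ Finset.Icc 1 n, (k : ℝ) = n * (n + 1) / 2 := by
  induction n with
  | zero => simp
  | succ n ih => rw [Finset.sum_Icc_succ_top (by omega), ih]; push_cast; ring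

noncomputable def wf (M x : ℝ) : ℝ := x ^ 2 / max (1 / 6) (1 - x / M)

lemma wf_mono {M : ℝ} (hM : 0 < M) {x y : ℝ} (hx : 0 ≤ x) (h : x ≤ y) : wf M x ≤ wf M y := by
  unfold wf
  have : x / M ≤ y / M := by gcongr
  have h6 : (0 : ℝ) < max (1 / 6) (1 - y / M) := lt_max_of_lt_left (by norm_num)
  gcongr

lemma wf_cont (M : ℝ) : Continuous (wf M) :=
  Continuous.div (by fun_prop) (by fun_prop)
    fun x => (lt_max_of_lt_left (by norm_num : (0 : ℝ) < 1 / 6)).ne'

lemma wf_int {M : ℝ} (hM : 0 < M) : ∫ x in (0 : ℝ)..M, wf M x ≤ 1.4538 * M ^ 3 := by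
  have hc := wf_cont M
  rw [← intervalIntegral.integral_add_adjacent_intervals (b := 5 / 6 * M)
    (hc.intervalIntegrable _ _) (hc.intervalIntegrable _ _)]
  have h1 : ∫ x in (0 : ℝ)..5 / 6 * M, wf M x =
      (-(M ^ 3 * Real.log (1 - 5 / 6 * M / M)) - M ^ 2 * (5 / 6 * M) - M * (5 / 6 * M) ^ 2 / 2) -
        (-(M ^ 3 * Real.log (1 - 0 / M)) - M ^ 2 * 0 - M * 0 ^ 2 / 2) := by
    refine intervalIntegral.integral_eq_sub_of_hasDerivAt
      (f := fun x => -(M ^ 3 * Real.log (1 - x / M)) - M ^ 2 * x - M * x ^ 2 / 2)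
      (fun x hx => ?_) (hc.intervalIntegrable _ _)
    rw [uIcc_of_le (by positivity)] at hx
    have hx1 : x / M ≤ 5 / 6 := by rw [div_le_iff₀ hM]; exact hx.2
    have hne : 1 - x / M ≠ 0 := (show (0 : ℝ) < 1 - x / M by linarith).ne'
    have d1 := ((((hasDerivAt_id' x).div_const M).const_sub 1).log hne).const_mul (M ^ 3)
    have d2 := (hasDerivAt_id' x).const_mul (M ^ 2)
    have d3 := (((hasDerivAt_id' x).fun_pow 2).const_mul M).div_const 2
    convert (d1.fun_neg.fun_sub d2).fun_sub d3 using 1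
    have hne' : M - x ≠ 0 := (show (0 : ℝ) < M - x by linarith [hx.2]).ne'
    rw [wf, max_eq_right (by linarith)]
    field_simp
    ring
  have h2 : ∫ x in (5 / 6 * M)..M, wf M x = 2 * M ^ 3 - 2 * (5 / 6 * M) ^ 3 := by
    refine intervalIntegral.integral_eq_sub_of_hasDerivAt (f := fun x => 2 * x ^ 3)
      (fun x hx => ?_) (hc.intervalIntegrable _ _)
    rw [uIcc_of_le (by linarith)] at hx
    have hx1 : 5 / 6 ≤ x / M := by rw [le_div_iff₀ hM]; exact hx.1
    refine (((hasDerivAt_id' x).fun_pow 3).const_mul 2).congr_deriv ?_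
    rw [wf, max_eq_left (by linarith)]
    ring
  have h3 : Real.log (1 - 5 / 6 * M / M) = -(Real.log 2 + Real.log 3) := by
    rw [← Real.log_mul (by norm_num) (by norm_num), ← Real.log_inv]
    congr 1
    field_simp
    norm_num
  rw [h1, h2, h3]
  have h4 : M ^ 3 * (Real.log 2 + Real.log 3) ≤ M ^ 3 * 1.79176 :=
    mul_le_mul_of_nonneg_left (by linarith [Real.log_two_lt_d9, Real.log_three_lt_d9])
      (by positivity)
  have h5 : 0 ≤ M ^ 3 := by positivity
  simp only [zero_div, sub_zero, Real.log_one]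
  nlinarith

end ABx

open ABx

theorem AB_pf : AB := by
  intro w hw h0 n
  have h1 := abel w hw h0 n
  have h2 : (35 * S7 n : ℝ) ≤ 4608 * n + 3406 := by exact_mod_cast (S7_bd n).2
  have h3 : 0 ≤ ∑ k ∈ Finset.Icc 1 n, w k := Finset.sum_nonneg fun k _ => h0 k
  have h4 := mul_le_mul_of_nonneg_right
    (show (35 * S7 n + 478 - 4608 * n : ℝ) / 7350 ≤ 0.5286 by linarith) (h0 n)
  linarith

theorem KX_pf (h1 : AB) (h2 : N2) (h3 : N3) : KX := by
  intro m hm
  have hm' : (154 : ℝ) ≤ m := by exact_mod_cast hm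
  have hM : (0 : ℝ) < m + 4 := by linarith
  have hI : Finset.Ico 1 (m + 4) = Finset.Icc 1 (m + 3) := rfl
  constructor
  · set w : ℕ → ℝ := fun k => max 0 ((k : ℝ) / (m + 4) - 5 / 6) + 4 / (m * (m + 4)) * k with hw
    have hmono : Monotone w := fun a b hab => by
      have : (a : ℝ) ≤ b := by exact_mod_cast hab
      simp only [hw]
      gcongr
    have hA := h1 w hmono (fun k => by simp only [hw]; positivity) (m + 3)
    have hx : xS m ≤ Phi (m + 3) +
        ∑ k ∈ Finset.Icc 1 (m + 3), (Nat.totient k : ℝ) / k * w k := by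
      rw [xS, Phi, hI, ← Finset.sum_add_distrib]
      refine Finset.sum_le_sum fun k _ => ?_
      rw [← mul_one_add]
      refine mul_le_mul_of_nonneg_left ?_ (by positivity)
      have e : (k : ℝ) / m = k / (m + 4) + 4 / (m * (m + 4)) * k := by field_simp
      have := min_le_right 1 ((k : ℝ) / m)
      have a1 := le_max_left 0 ((k : ℝ) / (m + 4) - 5 / 6)
      have a2 := le_max_right 0 ((k : ℝ) / (m + 4) - 5 / 6)
      have : lam m k ≤ 1 - k / (m + 4) + max 0 ((k : ℝ) / (m + 4) - 5 / 6) :=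
        max_le (by linarith) (by linarith)
      simp only [hw]
      linarith
    have hP := (h3 (m + 3)).trans (h2.1 (m + 3))
    have hs := sum_max _ hM (m + 3)
    have e1 : (((m + 3 : ℕ) : ℝ) + 1) / (m + 4) - 5 / 6 = 1 / 6 := by
      push_cast; field_simp; ring
    rw [e1, max_eq_right (by norm_num)] at hs
    have hu : 4 / (m : ℝ) ≤ 4 / 154 := by gcongr
    have e2 : 4 / (m * (m + 4) : ℝ) * ∑ k ∈ Finset.Icc 1 (m + 3), (k : ℝ) = 2 + 3 / 2 * (4 / m) := by
      rw [sum_id]; push_cast; field_simp; ring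
    have e3 : w (m + 3) ≤ 1 / 6 + 4 / m := by
      simp only [hw]
      push_cast
      have a1 : (m + 3 : ℝ) / (m + 4) ≤ 1 := by rw [div_le_one hM]; linarith
      have a2 : 4 / (m * (m + 4) : ℝ) * (m + 3) = 4 / m * ((m + 3) / (m + 4)) := by field_simp
      have a3 : 4 / (m : ℝ) * ((m + 3) / (m + 4)) ≤ 4 / m :=
        mul_le_of_le_one_right (by positivity) a1
      have : max 0 ((m + 3 : ℝ) / (m + 4) - 5 / 6) ≤ 1 / 6 := max_le (by norm_num) (by linarith)
      linarith
    have e4 : ∑ k ∈ Finset.Icc 1 (m + 3), w k =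
        ∑ k ∈ Finset.Icc 1 (m + 3), max 0 ((k : ℝ) / (m + 4) - 5 / 6) + (2 + 3 / 2 * (4 / m)) := by
      rw [← e2, Finset.mul_sum, ← Finset.sum_add_distrib]
    push_cast at hP
    linarith
  · have hmono : Monotone fun k : ℕ => wf (m + 4) k := fun a b hab =>
      wf_mono hM (by positivity) (by exact_mod_cast hab)
    have h0 : ∀ k : ℕ, 0 ≤ wf (m + 4) k := fun k =>
      div_nonneg (by positivity) (le_max_of_le_left (by norm_num))
    have hA := h1 _ hmono h0 (m + 3)
    have hk : kS m = ∑ k ∈ Finset.Icc 1 (m + 3), (Nat.totient k : ℝ) / k * wf (m + 4) k := by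
      rw [kS, hI]
      refine Finset.sum_congr rfl fun k hk => ?_
      have : (k : ℝ) ≠ 0 := by
        have := (Finset.mem_Icc.1 hk).1
        positivity
      rw [wf, lam]
      field_simp
    have hs : ∑ k ∈ Finset.Icc 1 (m + 3), wf (m + 4) k ≤ 1.4538 * (m + 4) ^ 3 := by
      have a1 := MonotoneOn.sum_le_integral_Ico (f := wf (m + 4)) (a := 0) (b := m + 4)
        (by omega) fun x hx y _ h => wf_mono hM (by simpa using hx.1) h
      push_cast at a1
      refine le_trans ?_ (a1.trans (wf_int hM))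
      exact Finset.sum_le_sum_of_subset_of_nonneg
        (fun k hk => by simp only [Finset.mem_Icc, Finset.mem_Ico] at hk ⊢; omega)
        fun k _ _ => h0 k
    have he : wf (m + 4) ((m + 3 : ℕ) : ℝ) ≤ 6 * (m + 4) ^ 2 := by
      refine (wf_mono hM (by positivity) (y := m + 4) (by push_cast; linarith)).trans ?_
      rw [wf, div_self hM.ne', max_eq_left (by norm_num)]
      linarith
    have q1 : (154 : ℝ) * m ≤ m ^ 2 := by nlinarith
    rw [hk]
    nlinarith

end Pool.Agent.Lib.MP_a4d326_an.Q1
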