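import Pool.Agent.Lib.MP_a4d326_an.Q1.Stmt

/-! One step of inclusion and exclusion. -/

namespace Pool.Agent.Lib.MP_a4d326_an.Q1

open MeasureTheory Set

namespace B1x

lemma trap_cont (δ ρ : ℝ) : Continuous (trap δ ρ) := by unfold trap; fun_prop

lemma trap_nonneg (δ ρ v : ℝ) : 0 ≤ trap δ ρ v := le_max_left _ _

lemma trap_le {δ : ℝ} (hδ : 0 ≤ δ) (ρ v : ℝ) : trap δ ρ v ≤ δ := max_le hδ (min_le_left _ _)

lemma trap_supp {δ ρ : ℝ} (hδ : 0 < δ) (hρ : 0 < ρ) :
    Function.support (trap δ ρ) ⊆ Ioc (-(ρ * δ)) (δ + δ * (1 + ρ)) := by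
  intro v hv
  by_contra h
  apply hv
  unfold trap
  apply max_eq_left
  rw [mem_Ioc, not_and_or, not_lt, not_le] at h
  rcases h with h | h
  · have : v / ρ ≤ -δ := by rw [div_le_iff₀ hρ]; linarith
    exact (min_le_right _ _).trans ((min_le_left _ _).trans (by linarith))
  · have : (δ - v) / ρ ≤ -δ := by rw [div_le_iff₀ hρ]; nlinarith
    exact (min_le_right _ _).trans ((min_le_right _ _).trans (by linarith))

lemma trap_int {δ ρ : ℝ} (hδ : 0 < δ) (hρ : 0 < ρ) : Integrable (trap δ ρ) :=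
  (trap_cont δ ρ).integrable_of_hasCompactSupport
    (HasCompactSupport.intro (K := Icc (-(ρ * δ)) (δ + δ * (1 + ρ))) isCompact_Icc fun x hx => by
      by_contra h
      exact hx (Ioc_subset_Icc_self (trap_supp hδ hρ h)))

lemma trap_val {δ ρ : ℝ} (hδ : 0 < δ) (hρ : 0 < ρ) : ∫ v, trap δ ρ v ≤ δ ^ 2 * (1 + ρ) := by
  have hc := trap_cont δ ρ
  have hle : -(ρ * δ) ≤ δ := by nlinarith
  rw [← intervalIntegral.integral_eq_integral_of_support_subset (trap_supp hδ hρ),
    ← intervalIntegral.integral_add_adjacent_intervals (b := δ) (hc.intervalIntegrable _ _)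
      (hc.intervalIntegrable _ _)]
  have h1 := intervalIntegral.integral_comp_add_right (a := -(ρ * δ)) (b := δ) (trap δ ρ)
    (δ * (1 + ρ))
  rw [show -(ρ * δ) + δ * (1 + ρ) = δ by ring] at h1
  have hc2 : Continuous fun x => trap δ ρ (x + δ * (1 + ρ)) := hc.comp (by fun_prop)
  rw [← h1, ← intervalIntegral.integral_add (hc.intervalIntegrable _ _)
    (hc2.intervalIntegrable _ _)]
  have h2 := intervalIntegral.integral_mono_on (μ := volume) (g := fun _ => δ) hle
    ((hc.add hc2).intervalIntegrable _ _) (continuous_const.intervalIntegrable _ _) (by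
      intro v hv
      have e1 : (δ - (v + δ * (1 + ρ))) / ρ = -δ - v / ρ := by field_simp; ring
      have e2 : -δ ≤ v / ρ := by rw [le_div_iff₀ hρ]; linarith [hv.1]
      have a1 : trap δ ρ v ≤ δ + v / ρ :=
        max_le (by linarith) ((min_le_right _ _).trans (min_le_left _ _))
      have a2 := trap_le hδ.le ρ v
      have a3 : trap δ ρ (v + δ * (1 + ρ)) ≤ max 0 (-(v / ρ)) :=
        max_le_max le_rfl ((min_le_right _ _).trans ((min_le_right _ _).trans (by
          rw [e1]; linarith)))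
      show trap δ ρ v + trap δ ρ (v + δ * (1 + ρ)) ≤ δ
      rcases le_total 0 (-(v / ρ)) with h | h
      · rw [max_eq_right h] at a3; linarith
      · rw [max_eq_left h] at a3; linarith)
  refine h2.trans (le_of_eq ?_)
  rw [intervalIntegral.integral_const, smul_eq_mul]
  ring

lemma int_nh (δ : ℝ) (N m : ℕ) (hm : 1 ≤ m) :
    ∫ α in (0 : ℝ)..1, nh δ N (-(m * α)) = 1 - mU δ N := by
  have hm0 : (m : ℝ) ≠ 0 := by positivity
  have hii : ∀ a b, IntervalIntegrable (nh δ N) volume a b :=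
    bdd_ii (measurable_nh _ _) 1 fun x => by
      rw [abs_of_nonneg (nh_nonneg _ _ _)]; exact nh_le_one _ _ _
  have hper : Function.Periodic (nh δ N) 1 := fun x => by simpa using nh_add_int δ N x 1
  have h1 := intervalIntegral.integral_comp_mul_left (a := 0) (b := 1) (nh δ N)
    (neg_ne_zero.2 hm0)
  have h2 := hper.intervalIntegral_add_zsmul_eq (-(m : ℤ)) 0 hii
  simp only [neg_mul, mul_zero, mul_one, smul_eq_mul] at h1
  simp only [zero_add, zsmul_eq_mul, mul_one, Int.cast_neg, Int.cast_natCast] at h2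
  rw [h1, h2, ← mul_assoc, inv_mul_cancel₀ (neg_ne_zero.2 hm0), one_mul]
  have hms : MeasurableSet {x | ¬ NoHit δ N x} := (measurableSet_noHit δ N measurable_id).compl
  have h3 : (fun x => 1 - nh δ N x) = {x | ¬ NoHit δ N x}.indicator 1 := by
    ext x
    by_cases h : NoHit δ N x
    · rw [nh, ind_pos h, indicator_of_notMem (show x ∉ {x | ¬ NoHit δ N x} from fun h' => h' h)]
      ring
    · rw [nh, ind_neg h, indicator_of_mem (show x ∈ {x | ¬ NoHit δ N x} from h)]
      simp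
  have h4 : ∫ x in (0 : ℝ)..1, (1 - nh δ N x) = mU δ N := by
    rw [intervalIntegral.integral_of_le zero_le_one, h3, integral_indicator_one hms,
      ← Measure.restrict_congr_set Ico_ae_eq_Ioc, measureReal_restrict_apply hms, mU]
    congr 1
    ext x
    simp only [mem_ofPred_eq, mem_inter_iff, and_comm]
  rw [intervalIntegral.integral_sub (continuous_const.intervalIntegrable _ _) (hii _ _)] at h4
  simp only [intervalIntegral.integral_const, sub_zero, smul_eq_mul, mul_one] at h4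
  linarith

/-- The kernel attached to `k`. -/
noncomputable def bk (δ : ℝ) (m k : ℕ) (y : ℝ) : ℝ :=
  trap δ ((m - k) / k) (-(m / k) * y)

lemma cover {δ : ℝ} (hδ : 0 < δ) (hδ1 : δ ≤ 1) (m : ℕ) {α : ℝ} (h0 : 0 ≤ α) (h1 : α ≤ 1) :
    δ - ∑ k ∈ Finset.Ico 1 m, ∑ p ∈ (Finset.Icc (-1 : ℤ) (m + 2)).filter
      (fun p => Int.gcd p k = 1), bk δ m k (k * α - p) ≤ fU δ m α := by
  let A : ℕ → ℤ → Set ℝ := fun k p =>
    Ico (max 0 (-(-(m / k : ℝ) * (k * α - p) / ((m - k) / k))))
      (min δ (δ + (δ - -(m / k : ℝ) * (k * α - p)) / ((m - k) / k)))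
  have hA : ∀ k p, volume.real (A k p) ≤ bk δ m k (k * α - p) := by
    intro k p
    simp only [A, Real.volume_real_Ico, bk, trap]
    rw [max_comm]
    refine max_le_max le_rfl (le_min ?_ (le_min ?_ ?_))
    · linarith [min_le_left δ (δ + (δ - -(m / k : ℝ) * (k * α - p)) / ((m - k) / k)),
        le_max_left 0 (-(-(m / k : ℝ) * (k * α - p) / ((m - k) / k)))]
    · linarith [min_le_left δ (δ + (δ - -(m / k : ℝ) * (k * α - p)) / ((m - k) / k)),
        le_max_right 0 (-(-(m / k : ℝ) * (k * α - p) / ((m - k) / k)))]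
    · linarith [min_le_right δ (δ + (δ - -(m / k : ℝ) * (k * α - p)) / ((m - k) / k)),
        le_max_left 0 (-(-(m / k : ℝ) * (k * α - p) / ((m - k) / k)))]
  have hsub : Ico 0 δ ⊆ {s ∈ Ico (0 : ℝ) δ | ∀ k : ℕ, 1 ≤ k → k < m →
      δ ≤ Int.fract (s - k * (α + s / m))} ∪ ⋃ k ∈ Finset.Ico 1 m,
      ⋃ p ∈ (Finset.Icc (-1 : ℤ) (m + 2)).filter (fun p => Int.gcd p k = 1), A k p := by
    intro s hs
    by_cases hf : ∀ k : ℕ, 1 ≤ k → k < m → δ ≤ Int.fract (s - k * (α + s / m))
    · exact Or.inl ⟨hs, hf⟩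
    right
    push Not at hf
    obtain ⟨k, hk1, hkm, hk⟩ := hf
    have hw0 := Int.fract_nonneg (s - k * (α + s / m))
    rw [Int.fract] at hk hw0
    generalize ⌊s - k * (α + s / m)⌋ = f at hk hw0
    have hg : 0 < Int.gcd (-f) k := Int.gcd_pos_of_ne_zero_right _ (by omega)
    obtain ⟨p, k', hpk, hp, hk'⟩ := Int.exists_gcd_one hg
    generalize Int.gcd (-f) k = g at hg hp hk'
    have hk'0 : 0 < k' := by
      by_contra h
      have : k' * g ≤ 0 := mul_nonpos_of_nonpos_of_nonneg (not_lt.1 h) (by positivity)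
      omega
    lift k' to ℕ using hk'0.le
    have hkk : k = k' * g := by exact_mod_cast hk'
    have hk'1 : 1 ≤ k' := by exact_mod_cast hk'0
    have hk'k : k' ≤ k := by rw [hkk]; exact Nat.le_mul_of_pos_right _ hg
    have hg1 : (1 : ℝ) ≤ g := by exact_mod_cast hg
    have hf' : (f : ℝ) = -(p * g) := by
      have : f = -(p * g) := by omega
      rw [this]; push_cast; ring
    have hkR : (k : ℝ) = k' * g := by exact_mod_cast hkk
    have hmR : (0 : ℝ) < m := by have : 0 < m := by omega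
                                 exact_mod_cast this
    have hk'R : (1 : ℝ) ≤ k' := by exact_mod_cast hk'1
    have hk'm : (k' : ℝ) < m := by exact_mod_cast hk'k.trans_lt hkm
    obtain ⟨hs0, hs1⟩ := hs
    set z : ℝ := k' * (α + s / m) - p with hz
    have hzg : s - k * (α + s / m) - f = s - z * g := by rw [hf', hkR, hz]; ring
    rw [hzg] at hk hw0
    have z1 : z ≤ s := by
      by_contra h
      have : z * 1 ≤ z * g := mul_le_mul_of_nonneg_left hg1 (by linarith [not_le.1 h])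
      linarith [not_le.1 h]
    have z2 : s - δ < z := by
      by_contra h
      have : z * g ≤ z * 1 := mul_le_mul_of_nonpos_left hg1 (by linarith [not_lt.1 h])
      linarith [not_lt.1 h]
    have t0 : 0 ≤ s / m := by positivity
    have t1 : (k' : ℝ) * (s / m) ≤ 1 := by
      rw [← mul_div_assoc, div_le_one hmR]; nlinarith
    have t2 : (k' : ℝ) * α ≤ m := by nlinarith
    have t3 : 0 ≤ (k' : ℝ) * (α + s / m) := by positivity
    have hρ : (0 : ℝ) < (m - k') / k' := div_pos (by linarith) (by linarith)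
    simp only [mem_iUnion]
    refine ⟨k', Finset.mem_Ico.2 ⟨hk'1, hk'k.trans_lt hkm⟩, p,
      Finset.mem_filter.2 ⟨Finset.mem_Icc.2 ⟨?_, ?_⟩, hpk⟩, ?_⟩
    · have : (-1 : ℝ) ≤ p := by linarith
      exact_mod_cast this
    · have : (p : ℝ) ≤ m + 2 := by nlinarith
      exact_mod_cast this
    · have e : -(m / k' : ℝ) * (k' * α - p) + s * ((m - k') / k') = (m / k') * (s - z) := by
        rw [hz]; field_simp; ring
      have e2 : δ * ((m - k') / k') + δ = (m / k' : ℝ) * δ := by field_simp; ring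
      have q0 : (0 : ℝ) < m / k' := div_pos hmR (by linarith)
      refine ⟨max_le hs0 ?_, lt_min hs1 ?_⟩
      · rw [neg_le, le_div_iff₀ hρ]
        nlinarith [mul_nonneg q0.le (sub_nonneg.2 z1)]
      · rw [← sub_lt_iff_lt_add', lt_div_iff₀ hρ]
        nlinarith [mul_lt_mul_of_pos_left (show s - z < δ by linarith) q0]
  have hfin : volume (⋃ k ∈ Finset.Ico 1 m, ⋃ p ∈ (Finset.Icc (-1 : ℤ) (m + 2)).filter
      (fun p => Int.gcd p k = 1), A k p) ≠ ⊤ :=
    (measure_biUnion_lt_top (Finset.finite_toSet _) fun k _ =>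
      measure_biUnion_lt_top (Finset.finite_toSet _) fun p _ => measure_Ico_lt_top).ne
  have h2 := (measureReal_mono hsub (measure_union_ne_top (slice_ne_top _ _ _) hfin)).trans
    (measureReal_union_le _ _)
  rw [Real.volume_real_Ico_of_le hδ.le, sub_zero] at h2
  have h3 := (measureReal_biUnion_finset_le (μ := volume) (Finset.Ico 1 m) fun k =>
    ⋃ p ∈ (Finset.Icc (-1 : ℤ) (m + 2)).filter (fun p => Int.gcd p k = 1), A k p).trans
    (Finset.sum_le_sum fun k _ => (measureReal_biUnion_finset_le _ _).trans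
      (Finset.sum_le_sum fun p _ => hA k p))
  unfold fU
  linarith

lemma line {δ₁ : ℝ} (hδ : 0 < δ₁) (δ₂ : ℝ) (N : ℕ) {m k : ℕ} (hk : 1 ≤ k) (hkm : k < m) (p : ℝ) :
    ∫ α : ℝ, bk δ₁ m k (k * α - p) * nh δ₂ N (-(m * α)) ≤
      δ₁ ^ 2 / k - 1 / (m : ℝ) * TI δ₁ δ₂ N ((m - k) / k) (m * p / k) := by
  have hkR : (0 : ℝ) < k := by exact_mod_cast hk
  have hkm' : (k : ℝ) < m := by exact_mod_cast hkm
  have hmR : (0 : ℝ) < m := hkR.trans hkm'
  have hρ : (0 : ℝ) < (m - k) / k := div_pos (by linarith) hkR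
  let F : ℝ → ℝ := fun v => trap δ₁ ((m - k) / k) v * nh δ₂ N (v - m * p / k)
  have h1 : (fun α : ℝ => bk δ₁ m k (k * α - p) * nh δ₂ N (-(m * α))) =
      fun α => (fun w => F (w + m * p / k)) (-(m : ℝ) * α) := by
    ext α
    simp only [F, bk, add_sub_cancel_right, neg_mul]
    congr 2
    field_simp
    ring
  have hI := trap_int hδ hρ
  have hF : Integrable F := by
    refine hI.mul_bdd (c := 1)
      ((measurable_nh _ _).comp (measurable_id.sub_const _)).aestronglyMeasurable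
      (Filter.Eventually.of_forall fun x => ?_)
    rw [Real.norm_eq_abs, abs_of_nonneg (nh_nonneg _ _ _)]
    exact nh_le_one _ _ _
  have h2 : TI δ₁ δ₂ N ((m - k) / k) (m * p / k) = (∫ v, trap δ₁ ((m - k) / k) v) - ∫ v, F v := by
    rw [← integral_sub hI hF, TI]
    congr 1
    ext v
    simp only [F]
    ring
  rw [h1, Measure.integral_comp_mul_left (fun w => F (w + m * p / k)), integral_add_right_eq_self F,
    h2, abs_inv, abs_neg, abs_of_pos hmR, smul_eq_mul]
  have h3 := trap_val hδ hρ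
  have e : δ₁ ^ 2 / k = 1 / (m : ℝ) * (δ₁ ^ 2 * (1 + (m - k) / k)) := by field_simp; ring
  have h4 := mul_le_mul_of_nonneg_left h3 (one_div_pos.2 hmR).le
  rw [e, ← one_div]
  linarith

end B1x

open B1x in
theorem B1_pf (h1 : Unf) : B1 := by
  intro δ₁ δ₂ hδ hδ1 m hm
  let ψ : ℝ → ℝ := fun α => nh δ₂ (m + 1) (-(m * α))
  have hψm : Measurable ψ := (measurable_nh _ _).comp (by fun_prop)
  have hψ0 : ∀ x, 0 ≤ ψ x := fun x => nh_nonneg _ _ _
  have hψ1 : ∀ x, ψ x ≤ 1 := fun x => nh_le_one _ _ _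
  have hψp : Function.Periodic ψ 1 := fun x => by
    have := nh_add_int δ₂ (m + 1) (-(m * x)) (-(m : ℤ))
    simp only [ψ]
    rw [← this]
    congr 1
    push_cast
    ring
  have hbm : ∀ k, Measurable (bk δ₁ m k) := fun k =>
    ((trap_cont _ _).comp (by fun_prop : Continuous fun y : ℝ => -(m / k : ℝ) * y)).measurable
  have hb0 : ∀ k y, 0 ≤ bk δ₁ m k y := fun k y => trap_nonneg _ _ _
  have hmul : ∀ {f : ℝ → ℝ}, Measurable f → (∀ x, 0 ≤ f x) → (∀ x, f x ≤ δ₁) →
      IntervalIntegrable (fun α => f α * ψ α) volume 0 1 := fun {f} a b c =>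
    bdd_ii (a.mul hψm) δ₁ (fun x => by
      rw [Pi.mul_apply, abs_of_nonneg (mul_nonneg (b x) (hψ0 x))]
      exact (mul_le_of_le_one_right (b x) (hψ1 x)).trans (c x)) _ _
  have hii : ∀ (k : ℕ) (p : ℤ),
      IntervalIntegrable (fun α => bk δ₁ m k (k * α - p) * ψ α) volume 0 1 := fun k p =>
    hmul ((hbm k).comp (by fun_prop)) (fun x => hb0 _ _) fun x => trap_le hδ.le _ _
  have hc : IntervalIntegrable (fun α => δ₁ * ψ α) volume 0 1 :=
    hmul measurable_const (fun _ => hδ.le) fun _ => le_rfl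
  let P : ℕ → Finset ℤ := fun k => (Finset.Icc (-1 : ℤ) (m + 2)).filter fun p => Int.gcd p k = 1
  have hs1 : ∀ k : ℕ, IntervalIntegrable
      (fun α => ∑ p ∈ P k, bk δ₁ m k (k * α - p) * ψ α) volume 0 1 := fun k => by
    have := IntervalIntegrable.sum (P k) fun p _ => hii k p
    rwa [Finset.sum_fn] at this
  have hs2 : IntervalIntegrable (fun α => ∑ k ∈ Finset.Ico 1 m,
      ∑ p ∈ P k, bk δ₁ m k (k * α - p) * ψ α) volume 0 1 := by
    have := IntervalIntegrable.sum (Finset.Ico 1 m) fun k _ => hs1 k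
    rwa [Finset.sum_fn] at this
  have key := intervalIntegral.integral_mono_on zero_le_one (hc.sub hs2)
    (hmul (measurable_fU δ₁ m) (fU_nonneg _ _) (fU_le hδ.le _)) (by
      intro α hα
      have := mul_le_mul_of_nonneg_right (cover hδ hδ1 m hα.1 hα.2) (hψ0 α)
      simpa only [sub_mul, Finset.sum_mul] using this)
  rw [intervalIntegral.integral_sub hc hs2, intervalIntegral.integral_const_mul,
    int_nh δ₂ (m + 1) m hm, intervalIntegral.integral_finsetSum fun k _ => hs1 k] at key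
  have h2 : ∀ k ∈ Finset.Ico 1 m,
      ∫ α in (0 : ℝ)..1, ∑ p ∈ P k, bk δ₁ m k (k * α - p) * ψ α ≤
        δ₁ ^ 2 * ((Nat.totient k : ℝ) / k) - ∑ p ∈ cop k,
          1 / (m : ℝ) * TI δ₁ δ₂ (m + 1) ((m - k) / k) (m * p / k) := by
    intro k hk
    obtain ⟨a, b⟩ := Finset.mem_Ico.1 hk
    have hkR : (0 : ℝ) < k := by exact_mod_cast a
    have hkm : (k : ℝ) < m := by exact_mod_cast b
    have hI : Integrable (bk δ₁ m k) :=
      (trap_int hδ (div_pos (by linarith) hkR)).comp_mul_left'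
        (neg_ne_zero.2 (div_pos (hkR.trans hkm) hkR).ne')
    rw [intervalIntegral.integral_finsetSum fun p _ => hii k p]
    refine (h1 k a _ _ ψ (hbm k) hI (hb0 k) hψm hψ0 hψ1 hψp).trans
      ((Finset.sum_le_sum fun (p : ℕ) _ => line hδ δ₂ (m + 1) a b (p : ℝ)).trans (le_of_eq ?_))
    rw [Finset.sum_sub_distrib, Finset.sum_const, card_cop, nsmul_eq_mul]
    ring
  have h3 := Finset.sum_le_sum h2
  rw [Finset.sum_sub_distrib, ← Finset.mul_sum] at h3
  have h4 : Finset.Icc 1 (m - 1) = Finset.Ico 1 m := by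
    ext k
    simp only [Finset.mem_Icc, Finset.mem_Ico]
    omega
  unfold Im Pm Phi
  rw [h4]
  linarith

end Pool.Agent.Lib.MP_a4d326_an.Q1
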