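import Pool.Agent.Lib.MP_a4d326_an.Q1.Stmt

/-! The certificate of the middle range. -/

namespace Pool.Agent.Lib.MP_a4d326_an.Q1

open MeasureTheory Set

namespace BFx

lemma trap_nonneg (δ ρ v : ℝ) : 0 ≤ trap δ ρ v := le_max_left _ _

lemma trap_cont (δ ρ : ℝ) : Continuous (trap δ ρ) := by
  unfold trap
  fun_prop

lemma trap_int (δ : ℝ) {ρ : ℝ} (hρ : 0 < ρ) : Integrable (trap δ ρ) := by
  refine (trap_cont δ ρ).integrable_of_hasCompactSupport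
    (HasCompactSupport.intro (isCompact_Icc (a := -(δ * ρ)) (b := δ + δ * ρ)) fun v hv => ?_)
  rw [mem_Icc, not_and_or, not_le, not_le] at hv
  unfold trap
  refine max_eq_left ((min_le_right _ _).trans ?_)
  rcases hv with hv | hv
  · refine (min_le_left _ _).trans ?_
    have : v / ρ ≤ -δ := by rw [div_le_iff₀ hρ]; linarith
    linarith
  · refine (min_le_right _ _).trans ?_
    have : (δ - v) / ρ ≤ -δ := by rw [div_le_iff₀ hρ]; linarith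
    linarith

lemma TI_nonneg (δ₁ δ₂ : ℝ) (N : ℕ) (ρ x : ℝ) : 0 ≤ TI δ₁ δ₂ N ρ x :=
  integral_nonneg fun _ => mul_nonneg (trap_nonneg _ _ _) (sub_nonneg.2 (nh_le_one _ _ _))

lemma TI_per (δ₁ δ₂ : ℝ) (N : ℕ) (ρ x : ℝ) (z : ℤ) : TI δ₁ δ₂ N ρ (x + z) = TI δ₁ δ₂ N ρ x := by
  unfold TI
  congr 1
  ext v
  rw [show v - (x + z) = v - x + ((-z : ℤ) : ℝ) by push_cast; ring, nh_add_int]

lemma TI_mono (δ₁ δ₂ : ℝ) {N N' : ℕ} (h : N ≤ N') {ρ : ℝ} (hρ : 0 < ρ) (x : ℝ) :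
    TI δ₁ δ₂ N ρ x ≤ TI δ₁ δ₂ N' ρ x := by
  refine integral_mono_of_nonneg (Filter.Eventually.of_forall fun _ =>
    mul_nonneg (trap_nonneg _ _ _) (sub_nonneg.2 (nh_le_one _ _ _))) ?_
    (Filter.Eventually.of_forall fun v =>
      mul_le_mul_of_nonneg_left (sub_le_sub_left (nh_anti _ h _) _) (trap_nonneg _ _ _))
  refine (trap_int δ₁ hρ).mono' ?_ (Filter.Eventually.of_forall fun v => ?_)
  · exact ((trap_cont δ₁ ρ).measurable.mul (measurable_const.sub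
      ((measurable_nh δ₂ N').comp (measurable_id.sub_const x)))).aestronglyMeasurable
  · rw [Real.norm_of_nonneg (mul_nonneg (trap_nonneg _ _ _) (sub_nonneg.2 (nh_le_one _ _ _)))]
    exact mul_le_of_le_one_right (trap_nonneg _ _ _) (by linarith [nh_nonneg δ₂ N' (v - x)])

lemma Pm_nonneg (δ₁ δ₂ : ℝ) (N m : ℕ) : 0 ≤ Pm δ₁ δ₂ N m :=
  Finset.sum_nonneg fun _ _ => Finset.sum_nonneg fun _ _ =>
    mul_nonneg (by positivity) (TI_nonneg _ _ _ _ _)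

lemma Pm_mono (δ₁ δ₂ : ℝ) {N N' : ℕ} (h : N ≤ N') (m : ℕ) : Pm δ₁ δ₂ N m ≤ Pm δ₁ δ₂ N' m := by
  refine Finset.sum_le_sum fun k hk => Finset.sum_le_sum fun p _ =>
    mul_le_mul_of_nonneg_left (TI_mono _ _ h ?_ _) (by positivity)
  obtain ⟨h1, h2⟩ := Finset.mem_Ico.1 hk
  have h3 : (0 : ℝ) < k := by exact_mod_cast h1
  have h4 : (k : ℝ) < m := by exact_mod_cast h2
  exact div_pos (by linarith) h3

lemma chunk_eq (b Y R S RS Sb Q dc Dn D cap Z Hh m₀ nb : ℕ) :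
    chunk b Y R S RS Sb Q dc Dn D cap Z Hh m₀ nb = ∑ i ∈ Finset.range nb,
      dig b Y R S RS Sb Q dc Dn D cap Z (m₀ + i * Hh) (m₀ + i * Hh + Hh - 1) := by
  induction nb with
  | zero => rfl
  | succ n ih =>
    rw [Finset.sum_range_succ, ← ih]
    rfl

lemma blocks (P : ℕ → ℝ) {Hh : ℕ} (hH : 1 ≤ Hh) (m₀ nb : ℕ) :
    ∑ i ∈ Finset.range nb, ∑ m ∈ Finset.Icc (m₀ + i * Hh) (m₀ + i * Hh + Hh - 1), P m =
      ∑ m ∈ Finset.Ico m₀ (m₀ + nb * Hh), P m := by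
  induction nb with
  | zero => simp
  | succ n ih =>
    have : Finset.Icc (m₀ + n * Hh) (m₀ + n * Hh + Hh - 1) =
        Finset.Ico (m₀ + n * Hh) (m₀ + (n + 1) * Hh) := by
      ext m
      rw [Finset.mem_Icc, Finset.mem_Ico, add_mul, one_mul]
      omega
    rw [Finset.sum_range_succ, ih, this, Finset.sum_Ico_consecutive _ (by omega)
      (by rw [add_mul]; omega)]

lemma rho_pos (Dn cap q m : ℕ) : 0 < rho Dn cap q m := by
  rw [rho, mx_eq]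
  exact lt_of_lt_of_le Nat.one_pos (le_max_right _ _)

/-- One block. -/
lemma one (h4 : EB4) (h5 : SB) (h6 : RI) {b R S Sb dc D cap Z m₀ m₁ M : ℕ} (hb : 1 ≤ b)
    (hR : 0 < R) (hS : 2 ≤ S) (hSb : 0 < Sb) (hdc : 1 ≤ dc) (hD : 0 < D) (hDQ : D ≤ R * Sb)
    (hcap : 1 ≤ cap) (h0 : 1 ≤ m₀) (h01 : m₀ ≤ m₁) (h1 : m₁ ≤ M) (hM : M < 16384) :
    ((S * (dc + 1) + 1 : ℕ) : ℝ) / (R * S) *
      ((dig b (2 ^ b - 1) R S (R * S) Sb (R * Sb) dc (S * (dc + 1) + 1) D cap Z m₀ m₁ : ℝ) -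
        3 * (S : ℝ) * Z * Sb * R * (M + 1) ^ 5 / (2 ^ b - 1)) ≤
      (Z * S * (R * Sb) : ℝ) * ∑ m ∈ Finset.Icc m₀ m₁,
        Pm (((S * (dc + 1) + 1 : ℕ) : ℝ) / (R * S)) (D / (R * Sb)) (m + 1) m := by
  have e := h4 b R S Sb dc (S * (dc + 1) + 1) D cap Z m₀ m₁ hb hR (by omega) hSb hdc hD hDQ hcap
    h0 h01 (by omega)
  have f := h6 (TI (((S * (dc + 1) + 1 : ℕ) : ℝ) / (R * S)) (D / (R * Sb)) (m₀ + 1))
    (TI_nonneg _ _ _) (TI_per _ _ _) m₀ m₁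
  have s := fun q m r => h5 R S Sb dc D cap (m₀ + 1) q m r hR hS hSb hD hDQ
  generalize hδ : ((S * (dc + 1) + 1 : ℕ) : ℝ) / (R * S) = δ at *
  have hδ0 : 0 ≤ δ := by rw [← hδ]; positivity
  have h2b : (0 : ℝ) < 2 ^ b - 1 := by
    have : (2 : ℝ) ^ 1 ≤ 2 ^ b := pow_le_pow_right₀ (by norm_num) hb
    linarith
  have herr : 3 * (S : ℝ) * Z * Sb * R * (m₁ + 1) ^ 5 / (2 ^ b - 1) ≤
      3 * (S : ℝ) * Z * Sb * R * (M + 1) ^ 5 / (2 ^ b - 1) := by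
    have : (m₁ : ℝ) ≤ M := by exact_mod_cast h1
    gcongr
  have hK : (0 : ℝ) ≤ Z * S * (R * Sb) := by positivity
  refine (mul_le_mul_of_nonneg_left (sub_le_iff_le_add.2 (e.trans (add_le_add_right herr _)))
    hδ0).trans (le_trans ?_ (mul_le_mul_of_nonneg_left (f.trans (Finset.sum_le_sum fun m hm =>
      Pm_mono δ (D / (R * Sb)) (Nat.succ_le_succ (Finset.mem_Icc.1 hm).1) m)) hK))
  simp only [Finset.mul_sum]
  refine Finset.sum_le_sum fun q hq => Finset.sum_le_sum fun g hg =>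
    Finset.sum_le_sum fun m hm => Finset.sum_le_sum fun r _ => ?_
  have hq1 := (Finset.mem_Ico.1 hq).1
  have hm1 : q < m := (Finset.mem_Icc.1 (Finset.mem_filter.1 hm).1).1
  have t := s q m r hq1 hm1
  have hρ : (0 : ℝ) < rho (S * (dc + 1) + 1) cap q m := by exact_mod_cast rho_pos _ _ _ _
  generalize (rho (S * (dc + 1) + 1) cap q m : ℝ) = ρ at t hρ ⊢
  generalize lane R S Sb D dc _ (m₀ + 1) q r = L at t ⊢
  generalize TI δ _ (m₀ + 1) _ _ = T at t ⊢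
  have hc : (0 : ℝ) ≤ (Z : ℝ) * Nat.totient (g * q) / (Nat.totient q * g * m * ρ) := by positivity
  calc _ = (Z : ℝ) * Nat.totient (g * q) / (Nat.totient q * g * m * ρ) * (δ * L) := by ring
    _ ≤ (Z : ℝ) * Nat.totient (g * q) / (Nat.totient q * g * m * ρ) * (S * ρ * (R * Sb) * T) :=
      mul_le_mul_of_nonneg_left t hc
    _ = (Z : ℝ) * S * (R * Sb) * (Nat.totient (g * q) / (Nat.totient q * g * m) * T) *
        (ρ * ρ⁻¹) := by
      rw [div_eq_mul_inv, div_eq_mul_inv, mul_inv _ ρ]; ring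
    _ = _ := by rw [mul_inv_cancel₀ hρ.ne', mul_one]

end BFx

open BFx in
theorem BF_pf (h1 : FH) (h2 : B1) (h3 : MT) (h4 : EB4) (h5 : SB) (h6 : RI) : BF := by
  intro b R S Sb dc D cap Z Hh m₀ nb M x y z hb hR hS hSb hdc hD hDQ hcap hZ hH h0 hnb hM hDn
    hx hy hz
  have hone := fun i (hi : i ∈ Finset.range nb) => one h4 h5 h6 (Z := Z) (M := M)
    (m₀ := m₀ + i * Hh) (m₁ := m₀ + i * Hh + Hh - 1) hb hR hS hSb hdc hD hDQ hcap (by omega)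
    (by omega) (by
      have : (i + 1) * Hh ≤ nb * Hh := Nat.mul_le_mul_right _ (Finset.mem_range.1 hi)
      rw [add_mul] at this
      omega) hM
  have hsum := Finset.sum_le_sum hone
  have hRS : (0 : ℝ) < R * S := by positivity
  have hQ : (0 : ℝ) < R * Sb := by positivity
  have hδ0 : 0 < ((S * (dc + 1) + 1 : ℕ) : ℝ) / (R * S) := by positivity
  have hδ1 : ((S * (dc + 1) + 1 : ℕ) : ℝ) / (R * S) ≤ 1 := by
    rw [div_le_one hRS]; exact_mod_cast hDn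
  have hz' : (z : ℝ) ≤ ∑ i ∈ Finset.range nb, (dig b (2 ^ b - 1) R S (R * S) Sb (R * Sb) dc
      (S * (dc + 1) + 1) D cap Z (m₀ + i * Hh) (m₀ + i * Hh + Hh - 1) : ℝ) := by
    rw [chunk_eq] at hz
    exact_mod_cast hz
  have hu := h3.2.1 (R * Sb) D M hD hDQ
  have hp := h3.2.2 (R * Sb) M
  have hx' : (su (R * Sb) D M : ℝ) ≤ x := by exact_mod_cast hx
  have hy' : (sp (R * Sb) M : ℝ) ≤ y := by exact_mod_cast hy
  rw [Nat.cast_mul] at hu hp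
  generalize ((S * (dc + 1) + 1 : ℕ) : ℝ) / (R * S) = δ at *
  generalize (D : ℝ) / (R * Sb) = δ' at *
  generalize 3 * (S : ℝ) * Z * Sb * R * (M + 1) ^ 5 / (2 ^ b - 1) = E at *
  rw [← Finset.mul_sum, ← Finset.mul_sum, blocks _ hH, Finset.sum_sub_distrib, Finset.sum_const,
    Finset.card_range, nsmul_eq_mul] at hsum
  have hsub : ∑ m ∈ Finset.Ico m₀ (m₀ + nb * Hh), Pm δ δ' (m + 1) m ≤
      ∑ m ∈ Finset.Icc 1 M, Pm δ δ' (m + 1) m :=
    Finset.sum_le_sum_of_subset_of_nonneg (fun m hm => by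
      rw [Finset.mem_Ico] at hm
      rw [Finset.mem_Icc]
      omega) fun _ _ _ => Pm_nonneg _ _ _ _
  have hB := (Finset.sum_le_sum fun m (hm : m ∈ Finset.Icc 1 M) =>
    h2 δ δ' hδ0 hδ1 m (Finset.mem_Icc.1 hm).1).trans (h1 δ δ' hδ0 hδ1 M)
  rw [Finset.sum_add_distrib, Finset.sum_sub_distrib, ← Finset.mul_sum, ← Finset.mul_sum,
    Finset.sum_sub_distrib, Finset.sum_const, Nat.card_Icc, Nat.add_sub_cancel, nsmul_eq_mul,
    mul_one] at hB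
  have hK : (0 : ℝ) < Z * S * (R * Sb) := by positivity
  have a1 : ∑ m ∈ Finset.Icc 1 M, mU δ' (m + 1) ≤ x / (R * Sb) := by
    rw [le_div_iff₀ hQ]; linarith
  have a2 : ∑ m ∈ Finset.Icc 1 M, Phi (m - 1) ≤ y / (R * Sb) := by
    rw [le_div_iff₀ hQ]; linarith
  have a3 : δ * ((z - nb * E) / (Z * S * (R * Sb))) ≤ ∑ m ∈ Finset.Icc 1 M, Pm δ δ' (m + 1) m := by
    rw [← mul_div_assoc, div_le_iff₀ hK]
    have := mul_le_mul_of_nonneg_left (sub_le_sub_right hz' (nb * E)) hδ0.le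
    have := mul_le_mul_of_nonneg_left hsub hK.le
    linarith
  have a4 := mul_le_mul_of_nonneg_left a1 hδ0.le
  have a5 := mul_le_mul_of_nonneg_left a2 (sq_nonneg δ)
  have a6 : δ * (M - x / (R * Sb) - δ * y / (R * Sb) + (z - nb * E) / (Z * S * (R * Sb))) =
      δ * M - δ * (x / (R * Sb)) - δ ^ 2 * (y / (R * Sb)) +
        δ * ((z - nb * E) / (Z * S * (R * Sb))) := by ring
  rw [a6]
  linarith

end Pool.Agent.Lib.MP_a4d326_an.Q1
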