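import Pool.Agent.Lib.MP_a4d326_an.Q1.Stmt

/-! One block of five values of `m`. -/

namespace Pool.Agent.Lib.MP_a4d326_an.Q1

open MeasureTheory Set

namespace BLx

lemma ii {f : ℝ → ℝ} (h : Nice f) : IntervalIntegrable f volume 0 1 := by
  obtain ⟨h1, ⟨C, h2⟩, -⟩ := h
  exact bdd_ii h1 C h2 0 1

lemma mul {f g : ℝ → ℝ} (hf : Nice f) (hg : Nice g) : Nice fun x => f x * g x := by
  obtain ⟨h1, ⟨C, h2⟩, h3⟩ := hf
  obtain ⟨k1, ⟨D, k2⟩, k3⟩ := hg
  refine ⟨h1.mul k1, ⟨C * D, fun x => ?_⟩, fun x => by simp only [h3 x, k3 x]⟩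
  rw [abs_mul]
  exact mul_le_mul (h2 x) (k2 x) (abs_nonneg _) ((abs_nonneg _).trans (h2 x))

lemma dil {F : ℝ → ℝ} (h : Nice F) (m : ℕ) : Nice fun α => F (-(m * α)) := by
  obtain ⟨h1, ⟨C, h2⟩, h3⟩ := h
  refine ⟨h1.comp (by fun_prop), ⟨C, fun x => h2 _⟩, fun x => ?_⟩
  have := h3.nat_mul m (-(m * (x + 1)))
  simp only [mul_one] at this
  show F _ = F _
  rw [← this]
  congr 1
  ring

lemma sum {F : ℕ → ℝ → ℝ} (h : ∀ m, Nice (F m)) (s : Finset ℕ) : Nice fun x => ∑ m ∈ s, F m x := by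
  choose C hC using fun m => (h m).2.1
  exact ⟨Finset.measurable_sum _ fun m _ => (h m).1, ⟨∑ m ∈ s, C m, fun x =>
    (Finset.abs_sum_le_sum_abs _ _).trans (Finset.sum_le_sum fun m _ => hC m x)⟩,
    fun x => Finset.sum_congr rfl fun m _ => (h m).2.2 x⟩

lemma mean (hDL : DL) {F : ℝ → ℝ} (h : Nice F) {m : ℕ} (hm : 1 ≤ m) :
    ∫ α in (0 : ℝ)..1, F (-(m * α)) = ∫ α in (0 : ℝ)..1, F α := by
  have := hDL F h (-m) 0 (by omega)
  simp only [dvd_zero, if_true, Int.zero_ediv, fc, Int.cast_zero, mul_zero, zero_mul, neg_zero,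
    Complex.exp_zero, one_mul, intervalIntegral.integral_ofReal, Int.cast_neg, Int.cast_natCast,
    neg_mul] at this
  exact_mod_cast this

end BLx

open BLx in
theorem BL_pf (hFB1 : FB1) (hFB2 : FB2) (hFB3 : FB3) (hKX : KX) (hNE : NE) (hDU : DU) (hDL : DL)
    (hQQ : QQ) (hPS : PS) (hPT : PT) (hSN : SN) (hN2 : N2) (hN3 : N3) (hY1 : Y1) : BL := by
  intro δ m₀ h0 h1 h2 h3
  have hm : 154 ≤ m₀ := by
    by_contra hc
    have : (m₀ : ℝ) ≤ 153 := by exact_mod_cast (by omega : m₀ ≤ 153)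
    nlinarith
  have hm' : (154 : ℝ) ≤ m₀ := by exact_mod_cast hm
  have hδ : δ ≤ 1 := by linarith
  obtain ⟨nf, hf⟩ := hFB1 δ m₀ h0 (by omega)
  obtain ⟨y1, nF, y2⟩ := hY1 δ (m₀ + 5) h0 hδ
  obtain ⟨kx, kk⟩ := hKX m₀ hm
  set F := Ys δ (m₀ + 5)
  set f := fB δ m₀
  have ng := sum (fun m => dil nF m) (Finset.Icc m₀ (m₀ + 4))
  have hP : 0 ≤ PhiP (m₀ + 5) :=
    (Finset.sum_nonneg fun k _ => by positivity).trans (hN3 (m₀ + 5))
  have hy : δ * PhiP (m₀ + 5) ≤ δ * (0.61027 * (m₀ + 5) + 0.651) := by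
    have := hN2.1 (m₀ + 5)
    push_cast at this
    gcongr
  have hy0 : 0 ≤ δ * PhiP (m₀ + 5) := by positivity
  have hD := hDU f _ _ _ nf ng (hQQ F _ _ m₀ (by omega) nF (fun x => (y1 x).2) y2.le
    (hPS δ (m₀ + 5) h0 hδ (by push_cast; linarith))) (hFB3 δ m₀ h0 hδ (by omega))
  have hK : 0 ≤ 2 * δ * kS m₀ := by
    have := hFB3 δ m₀ h0 hδ (by omega) 1 one_pos le_rfl
    rw [one_pow, mul_one] at this
    exact (intervalIntegral.integral_nonneg zero_le_one fun x _ => sq_nonneg _).trans this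
  have hE := hNE δ m₀ _ _ (pairs (m₀ + 5) (pterm δ)) h0 h1 h2 h3 hK (by gcongr) hy0 hy (by
    have a := hPT δ (m₀ + 5) h0
    have b := hSN (m₀ + 5) (by omega)
    have c := hN2.2.1 (m₀ + 5) (by omega)
    have d := hN2.2.2 (m₀ + 5) (by omega)
    push_cast at b
    have e : Sq (m₀ + 5) ≤ 3.61 / m₀ + 0.00108 := by
      have e1 : Sq (m₀ + 5) ≤ 3.61 / (m₀ + 5) + 0.00108 := by
        rw [div_add' _ _ _ (by positivity), le_div_iff₀ (by positivity)]
        linarith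
      refine e1.trans ?_
      gcongr
      linarith
    refine a.trans ?_
    rw [show δ ^ 4 / 3 * (PhiP (m₀ + 5) * ZP (m₀ + 5)) =
      δ ^ 3 / 3 * (δ * PhiP (m₀ + 5) * ZP (m₀ + 5)) by ring]
    gcongr)
  have hg : ∫ α in (0 : ℝ)..1, ∑ m ∈ Finset.Icc m₀ (m₀ + 4), F (-(m * α)) =
      5 * (δ * PhiP (m₀ + 5)) := by
    rw [intervalIntegral.integral_finsetSum fun m _ => ii (dil nF m),
      Finset.sum_congr rfl fun m hm => (mean hDL nF (by
        have := (Finset.mem_Icc.1 hm).1; omega)).trans y2]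
    simp only [Finset.sum_const, Nat.card_Icc, show m₀ + 4 + 1 - m₀ = 5 by omega, nsmul_eq_mul]
    norm_num
  have hI : 5 * (∫ α in (0 : ℝ)..1, f α) - ∫ α in (0 : ℝ)..1,
      f α * ∑ m ∈ Finset.Icc m₀ (m₀ + 4), F (-(m * α)) ≤
      ∑ m ∈ Finset.Icc m₀ (m₀ + 4), Im δ δ m := by
    simp only [Finset.mul_sum]
    rw [intervalIntegral.integral_finsetSum fun m _ => ii (mul nf (dil nF m)),
      show 5 * (∫ α in (0 : ℝ)..1, f α) =
        ∑ _m ∈ Finset.Icc m₀ (m₀ + 4), ∫ α in (0 : ℝ)..1, f α by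
        simp only [Finset.sum_const, Nat.card_Icc, show m₀ + 4 + 1 - m₀ = 5 by omega, nsmul_eq_mul]
        norm_num, ← Finset.sum_sub_distrib]
    refine Finset.sum_le_sum fun m hm => ?_
    obtain ⟨a, b⟩ := Finset.mem_Icc.1 hm
    rw [← intervalIntegral.integral_sub (ii nf) (ii (mul nf (dil nF m)))]
    refine intervalIntegral.integral_mono zero_le_one ((ii nf).sub (ii (mul nf (dil nF m))))
      (bdd_ii ((measurable_fU δ m).mul ((measurable_nh δ (m + 1)).comp (by fun_prop))) δ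
        (fun x => ?_) 0 1) fun α => ?_
    · show |fU δ m x * nh δ (m + 1) (-(m * x))| ≤ δ
      rw [abs_of_nonneg (mul_nonneg (fU_nonneg _ _ _) (nh_nonneg _ _ _))]
      exact (mul_le_of_le_one_right (fU_nonneg _ _ _) (nh_le_one _ _ _)).trans (fU_le h0.le _ _)
    · have c : 0 ≤ f α := measureReal_nonneg
      have d := ((y1 (-(m * α))).1).trans (nh_anti δ (show m + 1 ≤ m₀ + 5 by omega) _)
      show f α - f α * F (-(m * α)) ≤ _
      rw [← mul_one_sub]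
      exact (mul_le_mul_of_nonneg_left d c).trans
        (mul_le_mul_of_nonneg_right (hf m a b α) (nh_nonneg _ _ _))
  have hA := hFB2 δ m₀ h0 hδ (by omega)
  rw [hg] at hD
  generalize (∫ α in (0 : ℝ)..1, f α) = A at *
  generalize δ * PhiP (m₀ + 5) = y at *
  have hx : δ * (1 - (0.61898 * (m₀ * δ) + 3.905 / 512)) ≤ A := by
    have : δ * xS m₀ ≤ 0.61898 * (m₀ * δ) + 3.905 / 512 := by nlinarith
    nlinarith
  have hy' : 1 - (0.61027 * (m₀ * δ) + 3.70235 / 512) ≤ 1 - y := by nlinarith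
  generalize (m₀ : ℝ) * δ = t at *
  have hp := mul_le_mul hx hy' (by linarith) (le_trans (mul_nonneg h0.le (by linarith)) hx)
  have hq : 0.9604 - 1.2092 * t + 0.3665 * t ^ 2 + (0.02475 - 0.01097 * t + 0.0112 * t ^ 2) ≤
      (1 - (0.61898 * t + 3.905 / 512)) * (1 - (0.61027 * t + 3.70235 / 512)) := by
    nlinarith [sq_nonneg t]
  have := mul_le_mul_of_nonneg_left hq h0.le
  nlinarith

end Pool.Agent.Lib.MP_a4d326_an.Q1
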