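import Pool.Agent.Lib.MP_a4d326_an.Q1.Stmt

/-! The tree builder, the comb, the kernel and the reading of one digit. -/

namespace Pool.Agent.Lib.MP_a4d326_an.Q1

open Polynomial

namespace Bldx

lemma bld_succ (b q : ℕ) (leaf : ℕ → ℕ → ℕ) (pos : ℕ → ℕ) (d l h : ℕ) :
    bld b q leaf pos (d + 1) l h = if h ≤ l + 8 then smc (leaf (pos l)) q l (h - l) else
      bld b q leaf pos d l ((l + h) / 2) +
        bld b q leaf pos d ((l + h) / 2) h * (2 ^ b) ^ (pos ((l + h) / 2) - pos l) := by
  show @Bool.rec (fun _ => ℕ)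
    (bld b q leaf pos d l ((l + h) / 2) +
      (bld b q leaf pos d ((l + h) / 2) h) <<< (b * (pos ((l + h) / 2) - pos l)))
    (smc (leaf (pos l)) q l (h - l)) (Nat.ble h (l + 8)) = _
  by_cases hh : h ≤ l + 8
  · rw [if_pos hh, Nat.ble_eq_true_of_le hh]
  · rw [if_neg hh, Bool.eq_false_iff.2 fun h' => hh (Nat.le_of_ble_eq_true h'),
      Nat.shiftLeft_eq, pow_mul]

lemma box_eq {b : ℕ} (hb : 1 ≤ b) (a : ℕ) :
    box b (2 ^ b - 1) a = ∑ i ∈ Finset.range a, (2 ^ b) ^ i := by
  have h2 : 2 ≤ 2 ^ b := by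
    calc 2 = 2 ^ 1 := rfl
      _ ≤ 2 ^ b := Nat.pow_le_pow_right (by norm_num) hb
  rw [Nat.geomSum_eq h2]
  show (1 <<< (b * a) - 1) / (2 ^ b - 1) = _
  rw [Nat.shiftLeft_eq, one_mul, pow_mul]

/-- The polynomial with `a` coefficients equal to one. -/
noncomputable def bx (a : ℕ) : Polynomial ℕ := ∑ i ∈ Finset.range a, X ^ i

lemma bx_eval (a x : ℕ) : (bx a).eval x = ∑ i ∈ Finset.range a, x ^ i := by
  simp [bx, eval_finsetSum]

lemma bx_coeff (a e : ℕ) : (bx a).coeff e = if e < a then 1 else 0 := by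
  simp [bx, coeff_X_pow]

lemma bx_mul (r s e : ℕ) : (bx r * bx s).coeff e ≤ min r (e + 1) - (e + 1 - s) := by
  rw [coeff_mul, Finset.Nat.sum_antidiagonal_eq_sum_range_succ_mk]
  have : ∀ i, (bx r).coeff i * (bx s).coeff (e - i) = if i < r ∧ e - i < s then 1 else 0 := by
    intro i
    rw [bx_coeff, bx_coeff]
    by_cases h1 : i < r <;> by_cases h2 : e - i < s <;> simp [h1, h2]
  simp only [this]
  rw [← Finset.card_filter, ← Nat.card_Ico]
  apply Finset.card_le_card
  intro i hi
  simp only [Finset.mem_filter, Finset.mem_range, Finset.mem_Ico] at hi ⊢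
  omega

lemma low_le (c : ℕ → ℕ) (x C : ℕ) (hc : ∀ i, c i ≤ C) (o : ℕ) :
    (∑ i ∈ Finset.range o, c i * (x + 1) ^ i) * x ≤ C * (x + 1) ^ o := by
  induction o with
  | zero => simp
  | succ o ih =>
    rw [Finset.sum_range_succ, add_mul, pow_succ]
    have h1 : c o * (x + 1) ^ o * x ≤ C * (x + 1) ^ o * x :=
      Nat.mul_le_mul_right _ (Nat.mul_le_mul_right _ (hc o))
    calc _ ≤ C * (x + 1) ^ o + C * (x + 1) ^ o * x := Nat.add_le_add ih h1
      _ = _ := by ring

end Bldx

open Bldx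

theorem Bld_pf : Bld := by
  intro b q leaf pos val hpos hleaf d
  induction d with
  | zero => intro l h _ _ hd; omega
  | succ d ih =>
    intro l h hlh hsz _
    rw [bld_succ]
    split_ifs with hh
    · rw [smc_eq, Nat.add_sub_cancel' hlh]
      refine Finset.sum_congr rfl fun r hr => hleaf _ _ (hpos ?_)
      exact (Finset.mem_Ico.1 (Finset.mem_filter.1 hr).1).1
    · have hd : 1 ≤ d := by
        rcases Nat.eq_zero_or_pos d with h0 | h0
        · subst h0; omega
        · exact h0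
      rw [pow_succ] at hsz
      have h1 : l ≤ (l + h) / 2 := by omega
      have h2 : (l + h) / 2 ≤ h := by omega
      rw [ih l _ h1 (by omega) hd, ih _ h h2 (by omega) hd, Finset.sum_mul, Finset.sum_filter,
        Finset.sum_filter, Finset.sum_filter, ← Finset.sum_Ico_consecutive _ h1 h2]
      congr 1
      refine Finset.sum_congr rfl fun r hr => ?_
      have h3 : pos ((l + h) / 2) ≤ pos r := hpos (Finset.mem_Ico.1 hr).1
      have h4 : pos l ≤ pos ((l + h) / 2) := hpos h1
      split_ifs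
      · rw [mul_assoc, ← pow_add]
        congr 2
        omega
      · rfl

theorem EB1_pf (h1 : Bld) : EB1 := by
  intro b R S q hS hq hq'
  have hpos : Monotone fun r : ℕ => r * R / q := fun x y hxy =>
    Nat.div_le_div_right (Nat.mul_le_mul_right _ hxy)
  have key := h1 b q (fun base r => cl2 b S (2 ^ b - 1) base (r * (R * S) / q))
    (fun r => r * R / q) (fun r => S - r * (R * S) / q % S + r * (R * S) / q % S * 2 ^ b) hpos
    (fun base r _ => by
      show (S + r * (R * S) / q % S * (2 ^ b - 1)) <<< (b * (r * (R * S) / q / S - base)) = _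
      have e1 : r * (R * S) / q / S = r * R / q := by
        rw [Nat.div_div_eq_div_mul, ← mul_assoc, Nat.mul_div_mul_right _ _ hS]
      have e2 : r * (R * S) / q % S < S := Nat.mod_lt _ hS
      have e3 : 1 ≤ 2 ^ b := Nat.one_le_two_pow
      rw [Nat.shiftLeft_eq, pow_mul, e1]
      congr 1
      obtain ⟨y, hy⟩ : ∃ y, 2 ^ b = y + 1 := ⟨2 ^ b - 1, by omega⟩
      rw [hy, Nat.add_sub_cancel, mul_add, mul_one]
      omega)
    12 0 q (Nat.zero_le _) (by omega) (by norm_num)
  refine Eq.trans key ?_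
  rw [cop, Finset.range_eq_Ico]
  simp

theorem EB3_pf : EB3 := by
  intro b S dc rs hb hS hdc
  refine ⟨C S * (bx (rs / S) * bx (dc + rs / S)) + C (rs % S) * bx (dc + (rs / S + rs / S) - 1),
    ?_, fun e => ?_⟩
  · show S * (box b (2 ^ b - 1) (rs / S) * box b (2 ^ b - 1) (dc + rs / S)) +
      rs % S * box b (2 ^ b - 1) (dc + (rs / S + rs / S) - 1) = _
    simp only [box_eq hb, eval_add, eval_mul, eval_C, bx_eval]
  · rw [coeff_add, coeff_C_mul, coeff_C_mul, bx_coeff, kz]
    have hc := bx_mul (rs / S) (dc + rs / S) e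
    have hrs := Nat.div_add_mod rs S
    generalize (bx (rs / S) * bx (dc + rs / S)).coeff e = c at hc ⊢
    generalize rs / S = r at hc hrs ⊢
    generalize rs % S = f at hrs ⊢
    have c1 : c ≤ r := by omega
    have c2 : S * c ≤ S * r := Nat.mul_le_mul_left _ c1
    by_cases he : e < dc + (r + r) - 1
    · rw [if_pos he, if_pos (by omega), mul_one]
      refine ⟨by omega, ?_⟩
      have c3 : (c : ℝ) ≤ r := by exact_mod_cast c1
      have c4 : (c : ℝ) ≤ e + 1 := by exact_mod_cast (show c ≤ e + 1 by omega)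
      have c5 : (c : ℝ) + e + 1 ≤ dc + r + r := by
        exact_mod_cast (show c + e + 1 ≤ dc + r + r by omega)
      have c6 : (rs : ℝ) = S * r + f := by exact_mod_cast hrs.symm
      have c7 : (0 : ℝ) ≤ S := Nat.cast_nonneg _
      push_cast
      rw [c6]
      refine le_min ?_ (le_min ?_ ?_) <;> nlinarith
    · have c0 : c = 0 := by omega
      rw [if_neg he, if_neg (by omega), c0]
      simp

theorem Dgt_pf : Dgt := by
  intro p x C o hx hC
  obtain ⟨y, rfl⟩ : ∃ y, x = y + 1 := ⟨x - 1, by omega⟩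
  have hlow := low_le (fun i => p.coeff i) y C hC o
  have hev : p.eval (y + 1) = (∑ i ∈ Finset.range o, p.coeff i * (y + 1) ^ i) + (y + 1) ^ o *
      (p.coeff o + (y + 1) * ∑ i ∈ Finset.range p.natDegree, p.coeff (o + (i + 1)) * (y + 1) ^ i) := by
    rw [eval_eq_sum_range' (n := o + (p.natDegree + 1)) (by omega), Finset.sum_range_add,
      Finset.sum_range_succ', mul_add, Finset.mul_sum, Finset.mul_sum, add_zero, add_comm (_ * _),
      mul_comm ((y + 1) ^ o)]
    congr 2
    refine Finset.sum_congr rfl fun i _ => ?_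
    ring
  generalize (∑ i ∈ Finset.range o, p.coeff i * (y + 1) ^ i) = L at hlow hev
  have hp : 0 < (y + 1) ^ o := by positivity
  rw [hev, Nat.add_mul_div_left _ _ hp, ← add_assoc, Nat.add_mul_mod_self_left]
  have h1 : (L / (y + 1) ^ o + p.coeff o) % (y + 1) ≤ L / (y + 1) ^ o + p.coeff o := Nat.mod_le _ _
  have h2 : L / (y + 1) ^ o * y ≤ C := by
    refine Nat.le_of_mul_le_mul_right ?_ hp
    calc L / (y + 1) ^ o * y * (y + 1) ^ o = L / (y + 1) ^ o * (y + 1) ^ o * y := by ring
      _ ≤ L * y := Nat.mul_le_mul_right _ (Nat.div_mul_le_self _ _)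
      _ ≤ _ := hlow
  have hy : (0 : ℝ) < y := by exact_mod_cast (show 0 < y by omega)
  generalize L / (y + 1) ^ o = t at h1 h2 ⊢
  have h3 : (t : ℝ) ≤ C / y := by
    rw [le_div_iff₀ hy]
    exact_mod_cast h2
  have h4 : (((t + p.coeff o) % (y + 1) : ℕ) : ℝ) ≤ t + p.coeff o := by exact_mod_cast h1
  have h5 : ((y + 1 : ℕ) : ℝ) - 1 = y := by push_cast; ring
  rw [h5]
  linarith

end Pool.Agent.Lib.MP_a4d326_an.Q1
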