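import Pool.Agent.Lib.MP_a4d326_an.Q1.Stmt

/-! The certificates by cells: lower and upper bounds. -/

namespace Pool.Agent.Lib.MP_a4d326_an.Q1

open MeasureTheory Set

theorem CL_pf (h1 : Pop) (h2 : Inner) (_h3 : Outer) (h4 : Bits) (h5 : Scan) (h6 : Cells) : CL := by
  intro G R D₁ D₂ w thr n₀ sg fu k hG hR h32 hRl hk
  have := (h6 G (greedy G D₂ D₂ n₀ w) (vlo G R D₁ D₂ w thr) sg fu k
    (fun γ => R * sl (D₁ / G) (D₂ / G) γ) hG hk ((ii_sl _ _ _ _).const_mul _)).1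
    (fun γ => mul_nonneg R.cast_nonneg (sl_nonneg _ _ _)) fun c l x _ _ γ a b => ?_
  · rw [intervalIntegral.integral_const_mul, ← mul_assoc] at this
    exact this
  have z : (0 : ℝ) ≤ R * sl (D₁ / G) (D₂ / G) γ := mul_nonneg R.cast_nonneg (sl_nonneg _ _ _)
  simp only [vlo, cnd_eq, Nat.ble_eq, Nat.sub_eq]
  split_ifs with c1 c2 c3
  · exact Nat.cast_zero.trans_le z
  · rw [h1 R _ h32 hRl]
    refine (h4 R _ (fun α => Ev (D₁ / G) (D₂ / G) α γ) hR).1 fun i _ hi α a1 a2 => ?_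
    have lw : (l : ℝ) ≤ w := Nat.cast_le.2 c2
    obtain ⟨m, m1, m2, m3⟩ := h2 G R D₁ w c _ i hG hR hi α γ a1 a2 a (by linarith)
    have m4 : m ≤ lo x - 2 := m2
    exact ⟨m, m1, m3, (h5.1 G D₂ c l _ hG c3 γ a b).mono le_rfl
      (show m + 1 ≤ lo x - 1 by omega)⟩
  · exact Nat.cast_zero.trans_le z
  · exact Nat.cast_zero.trans_le z

theorem CU_pf (h1 : Pop) (_h2 : Inner) (h3 : Outer) (h4 : Bits) (h5 : Scan) (h6 : Cells) : CU := by
  intro G R D₁ D₂ w thr n₀ sg fu k hG hR h32 hRl hk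
  have := (h6 G (greedy G D₂ D₂ n₀ w) (vhi G R D₁ D₂ w thr) sg fu k
    (fun γ => R * sl (D₁ / G) (D₂ / G) γ) hG hk ((ii_sl _ _ _ _).const_mul _)).2 R
    (Filter.Eventually.of_forall fun γ g0 g1 => ?_)
  · rw [intervalIntegral.integral_const_mul, ← mul_assoc] at this
    exact this
  have z : R * sl (D₁ / G) (D₂ / G) γ ≤ R :=
    mul_le_of_le_one_right R.cast_nonneg (sl_le_one _ _ _)
  refine ⟨z, fun c l x _ _ a b => ?_⟩
  simp only [vhi, cnd_eq, Nat.ble_eq, Nat.sub_eq, Nat.add_eq]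
  split_ifs with c1 c2 c3
  · exact z
  · rw [h1 R _ h32 hRl]
    refine (h4 R _ (fun α => Ev (D₁ / G) (D₂ / G) α γ) hR).2 fun i hi' α a1 a2 ⟨m, m1, m2, m3⟩ => ?_
    have lw : (l : ℝ) ≤ w := Nat.cast_le.2 c2
    obtain ⟨n1, n2⟩ := h5.2.1 G D₂ c l _ hG c3 γ a b
    have n3 : m + 1 < hi x := not_le.1 fun h => n2.not_ge (m3 _ n1 h)
    refine h3 G R D₁ w (c + l) _ i m hG hR hi' m1 (show m ≤ hi x - 2 by omega) α γ a1 a2 g0 g1
      ?_ ?_ m2 <;> push_cast <;> linarith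
  · exact z
  · exact z

end Pool.Agent.Lib.MP_a4d326_an.Q1
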