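import Pool.Agent.Lib.MP_a4d326_an.Q1.Stmt

/-! Continuity of `H` on the diagonal and the set that is gained. -/

namespace Pool.Agent.Lib.MP_a4d326_an.Q1

open MeasureTheory Set

namespace CTx

lemma cover {p q : ℝ → Prop} {r : ℕ → ℝ → Prop} (s : Finset ℕ)
    (h : ∀ y, p y → q y ∨ ∃ m ∈ s, r m y) :
    volume.real {y ∈ Ico (0 : ℝ) 1 | p y} ≤ volume.real {y ∈ Ico (0 : ℝ) 1 | q y} +
      ∑ m ∈ s, volume.real {y ∈ Ico (0 : ℝ) 1 | r m y} := by
  have h1 : {y ∈ Ico (0 : ℝ) 1 | p y} ⊆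
      {y ∈ Ico (0 : ℝ) 1 | q y} ∪ ⋃ m ∈ s, {y ∈ Ico (0 : ℝ) 1 | r m y} := fun y hy => by
    rcases h y hy.2 with h2 | ⟨m, h2, h3⟩
    · exact Or.inl ⟨hy.1, h2⟩
    · exact Or.inr (mem_iUnion₂.2 ⟨m, h2, hy.1, h3⟩)
  have h2 : {y ∈ Ico (0 : ℝ) 1 | q y} ∪ ⋃ m ∈ s, {y ∈ Ico (0 : ℝ) 1 | r m y} ⊆ Ico 0 1 :=
    union_subset (sep_subset _ _) (iUnion₂_subset fun _ _ => sep_subset _ _)
  refine (measureReal_mono h1 (measure_ne_top_of_subset h2 measure_Ico_lt_top.ne)).trans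
    ((measureReal_union_le _ _).trans ?_)
  gcongr
  exact measureReal_biUnion_finset_le _ _

lemma int_ind {p : ℝ → Prop} (hm : MeasurableSet {x | p x}) :
    ∫ x in (0 : ℝ)..1, ind (p x) = volume.real {x ∈ Ico (0 : ℝ) 1 | p x} := by
  have : (fun x => ind (p x)) = {x | p x}.indicator 1 := by
    ext x
    by_cases h : p x
    · rw [ind_pos h, indicator_of_mem (show x ∈ {x | p x} from h)]; rfl
    · rw [ind_neg h, indicator_of_notMem (show x ∉ {x | p x} from h)]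
  rw [intervalIntegral.integral_of_le zero_le_one, this, integral_indicator_one hm,
    ← Measure.restrict_congr_set Ico_ae_eq_Ioc, measureReal_restrict_apply hm]
  congr 1
  ext x
  simp only [mem_ofPred_eq, mem_inter_iff, and_comm]

lemma arcs (h2 : GM1) {a b : ℝ} (hab : a ≤ b) (γ : ℝ) (n : ℕ) :
    ∑ m ∈ Finset.Icc 1 n, volume.real
      {α ∈ Ico (0 : ℝ) 1 | a ≤ Int.fract (m * α + γ) ∧ Int.fract (m * α + γ) < b} ≤
      n * (b - a) := by
  refine (Finset.sum_le_card_nsmul _ _ (b - a) fun m hm =>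
    h2 a b γ m (Finset.mem_Icc.1 hm).1 hab).trans ?_
  simp

/-- The condition under which nothing is claimed. -/
def Bad (a b : ℝ) (n : ℕ) (γ : ℝ) : Prop :=
  NoHit a n γ ∨ ∃ k ∈ Finset.Icc 1 n, a ≤ Int.fract (k * γ + 0) ∧ Int.fract (k * γ + 0) < b

lemma bad_meas (a b : ℝ) (n : ℕ) : MeasurableSet {γ | Bad a b n γ} := by
  unfold Bad
  simp only [ofPred_or, ofPred_exists, ofPred_and]
  have h : ∀ k : ℕ, Measurable fun γ : ℝ => Int.fract (k * γ + 0) := fun k =>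
    measurable_fract.comp (by fun_prop)
  exact (measurableSet_noHit a n measurable_id).union (MeasurableSet.iUnion fun k =>
    (MeasurableSet.const _).inter ((measurableSet_le measurable_const (h k)).inter
      (measurableSet_lt (h k) measurable_const)))

lemma point (h2 : GM1) {a b : ℝ} (hab : a ≤ b) (n : ℕ) (γ : ℝ) :
    sl b a γ ≤ sl a b γ + (ind (Bad a b n γ) + n * (b - a)) := by
  have h0 : 0 ≤ n * (b - a) := mul_nonneg n.cast_nonneg (sub_nonneg.2 hab)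
  by_cases h : Bad a b n γ
  · rw [ind_pos h]
    linarith [sl_le_one b a γ, sl_nonneg a b γ]
  rw [ind_neg h, zero_add]
  obtain ⟨h3, h4⟩ := not_or.1 h
  refine (cover (q := fun α => Ev a b α γ) (r := fun m α =>
    a ≤ Int.fract (m * α + γ) ∧ Int.fract (m * α + γ) < b) (Finset.Icc 1 n) ?_).trans
    (add_le_add le_rfl (arcs h2 hab γ n))
  rintro α ⟨m, h5, h6, h7⟩
  have h8 : m + 1 ≤ n := le_of_not_gt fun h9 => h3 (h7.mono le_rfl h9.le)
  rcases lt_or_ge (Int.fract (m * α + γ)) a with h9 | h9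
  · refine Or.inl ⟨m, h5, h9, fun k k1 k2 => le_of_not_gt fun k3 => h4 ⟨k, Finset.mem_Icc.2
      ⟨k1, k2.trans h8⟩, ?_⟩⟩
    rw [add_zero]
    exact ⟨h7 k k1 k2, k3⟩
  · exact Or.inr ⟨m, Finset.mem_Icc.2 ⟨h5, by omega⟩, h9, h6⟩

lemma key (h1 : Nf) (h2 : GM1) {a b : ℝ} (hab : a ≤ b) {K n : ℕ} (hK : 1 ≤ K)
    (ha : 1 / (K + 1 : ℝ) < a) (hn : K ≤ n) : H b a ≤ H a b + (K / n + 2 * (n * (b - a))) := by
  have i1 : IntervalIntegrable (fun γ => ind (Bad a b n γ)) volume 0 1 :=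
    bdd_ii (measurable_ind (bad_meas a b n)) 1
      (fun x => by rw [abs_of_nonneg (ind_nonneg _)]; exact ind_le_one _) 0 1
  have h3 := intervalIntegral.integral_mono zero_le_one (ii_sl b a 0 1)
    ((ii_sl a b 0 1).add (i1.add intervalIntegrable_const)) (point h2 hab n)
  rw [intervalIntegral.integral_add (ii_sl a b 0 1) (i1.add intervalIntegrable_const),
    intervalIntegral.integral_add i1 intervalIntegrable_const, int_ind (bad_meas a b n),
    intervalIntegral.integral_const, sub_zero, one_smul] at h3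
  have h4 := cover (p := Bad a b n) (q := NoHit a n) (r := fun k γ =>
    a ≤ Int.fract (k * γ + 0) ∧ Int.fract (k * γ + 0) < b) (Finset.Icc 1 n) fun _ h => h
  have h5 := arcs h2 hab 0 n
  have h6 := (h1 a K hK ha).1 n hn
  unfold H
  linarith

lemma fsub {x y : ℝ} (h : Int.fract y ≤ Int.fract x) :
    Int.fract (x - y) = Int.fract x - Int.fract y :=
  Int.fract_eq_iff.2 ⟨sub_nonneg.2 h, by linarith [Int.fract_lt_one x, Int.fract_nonneg y],
    ⌊x⌋ - ⌊y⌋, by push_cast; linarith [Int.floor_add_fract x, Int.floor_add_fract y]⟩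

lemma fadd {x y : ℝ} (h : 1 ≤ Int.fract x + Int.fract y) :
    Int.fract (x + y) = Int.fract x + Int.fract y - 1 :=
  Int.fract_eq_iff.2 ⟨sub_nonneg.2 h, by linarith [Int.fract_lt_one x, Int.fract_lt_one y],
    ⌊x⌋ + ⌊y⌋ + 1, by push_cast; linarith [Int.floor_add_fract x, Int.floor_add_fract y]⟩

end CTx

theorem CT_pf (h1 : Nf) (h2 : GM1) : CT := by
  intro x y hx
  obtain ⟨K₀, hK₀⟩ := exists_nat_one_div_lt hx
  have hK : 1 / ((K₀ + 1 : ℕ) + 1 : ℝ) < x :=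
    lt_of_le_of_lt (one_div_le_one_div_of_le (by positivity) (by push_cast; linarith)) hK₀
  obtain ⟨K, k1, k2⟩ : ∃ K : ℕ, 1 ≤ K ∧ 1 / (K + 1 : ℝ) < x := ⟨K₀ + 1, by omega, hK⟩
  refine Metric.continuousOn_iff.2 fun b hb ε hε => ?_
  obtain ⟨n₀, hn₀⟩ := exists_nat_gt (2 * K / ε)
  obtain ⟨n, n1, n2⟩ : ∃ n : ℕ, K ≤ n ∧ 2 * K / ε < n :=
    ⟨max K n₀, le_max_left _ _, hn₀.trans_le (Nat.cast_le.2 (le_max_right _ _))⟩
  have n0 : (0 : ℝ) < n := Nat.cast_pos.2 (by omega)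
  have n3 : (K : ℝ) / n < ε / 2 := by
    rw [div_lt_iff₀ hε] at n2
    rw [div_lt_iff₀ n0]
    linarith
  have main : ∀ u v : ℝ, x ≤ u → u ≤ v → v - u < ε / (4 * n) → |H u u - H v v| < ε := by
    intro u v hu huv h
    have a1 := CTx.key h1 h2 huv k1 (k2.trans_le hu) n1
    have a2 : H u v ≤ H u u := H_mono le_rfl huv
    have a3 : H u v ≤ H v v := H_mono huv le_rfl
    have a4 : H u u ≤ H v u := H_mono huv le_rfl
    have a5 : H v v ≤ H v u := H_mono le_rfl huv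
    rw [lt_div_iff₀ (by positivity)] at h
    rw [abs_lt]
    constructor <;> linarith
  refine ⟨ε / (4 * n), by positivity, fun a ha h => ?_⟩
  rw [Real.dist_eq] at h ⊢
  obtain ⟨h3, h4⟩ := abs_lt.1 h
  rcases le_total a b with h5 | h5
  · exact main a b ha.1 h5 (by linarith)
  · rw [abs_sub_comm]
    exact main b a hb.1 h5 h4

theorem GS_pf : GS := by
  classical
  intro δ₀ a b γ N _h0 h1 _hab hN h2 h3
  rw [sub_le_iff_le_add']
  refine CTx.cover (q := fun α => Ev a b α γ) (r := fun m α =>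
    a ≤ Int.fract (m * α + γ) ∧ Int.fract (m * α + γ) < b ∧
    (∀ j : ℕ, 1 ≤ j → j < m → δ₀ < Int.fract (j * α)) ∧
    (∀ j : ℕ, 1 ≤ j → j ≤ N - 2 - m → Int.fract (j * α) < 1 - δ₀)) (Finset.Icc 1 (N - 2)) ?_
  rintro α ⟨m₀, h4, h5, h6⟩
  refine or_iff_not_imp_left.2 fun h7 => ?_
  have h8 : m₀ + 1 < N := lt_of_not_ge fun h => (h6 N hN h).not_gt h2
  have hm₀ : m₀ ∈ Finset.Icc 1 (N - 2) := Finset.mem_Icc.2 ⟨h4, by omega⟩
  have ex : ∃ m, m ∈ Finset.Icc 1 (N - 2) ∧ ∀ m' ∈ Finset.Icc 1 (N - 2),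
      Int.fract ((m : ℕ) * α + γ) ≤ Int.fract ((m' : ℕ) * α + γ) :=
    Finset.exists_min_image _ (fun m : ℕ => Int.fract (m * α + γ)) ⟨m₀, hm₀⟩
  obtain ⟨m, ⟨m1, m2⟩, m3⟩ : ∃ m : ℕ, (m ∈ Finset.Icc 1 (N - 2) ∧ ∀ m' ∈ Finset.Icc 1 (N - 2),
      Int.fract (m * α + γ) ≤ Int.fract ((m' : ℕ) * α + γ)) ∧ ∀ i < m,
      ¬ (i ∈ Finset.Icc 1 (N - 2) ∧ ∀ m' ∈ Finset.Icc 1 (N - 2),
        Int.fract (i * α + γ) ≤ Int.fract ((m' : ℕ) * α + γ)) :=
    ⟨Nat.find ex, Nat.find_spec ex, fun i hi => Nat.find_min ex hi⟩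
  obtain ⟨m4, m5⟩ := Finset.mem_Icc.1 m1
  have ha : a ≤ Int.fract (m * α + γ) :=
    le_of_not_gt fun h => h7 ⟨m, m4, h, h3.mono le_rfl (by omega)⟩
  refine ⟨m, m1, ha, (m2 _ hm₀).trans_lt h5, fun j j1 j2 => lt_of_not_ge fun h => ?_,
    fun j j1 j2 => lt_of_not_ge fun h => ?_⟩
  · refine m3 (m - j) (by omega) ⟨Finset.mem_Icc.2 ⟨by omega, by omega⟩, fun m' hm' =>
      le_trans ?_ (m2 m' hm')⟩
    rw [show ((m - j : ℕ) : ℝ) * α + γ = (m * α + γ) - j * α by rw [Nat.cast_sub j2.le]; ring,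
      CTx.fsub (x := m * α + γ) (y := j * α) (by linarith)]
    linarith [Int.fract_nonneg (j * α)]
  · have h9 := m2 (m + j) (Finset.mem_Icc.2 ⟨by omega, by omega⟩)
    rw [show ((m + j : ℕ) : ℝ) * α + γ = (m * α + γ) + j * α by push_cast; ring,
      CTx.fadd (x := m * α + γ) (y := j * α) (by linarith)] at h9
    linarith [Int.fract_lt_one (j * α)]

end Pool.Agent.Lib.MP_a4d326_an.Q1
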