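import Pool.Agent.Lib.MP_a4d326_an.Q1.Stmt

/-! The scans along an orbit and the loop over cells. -/

namespace Pool.Agent.Lib.MP_a4d326_an.Q1

open MeasureTheory Set

namespace Cellsx

lemma miss1_iff (G D l n a : ℕ) : miss1 G D l n a = true ↔ D ≤ a ∧ a + n * l ≤ G := by
  show @Bool.rec (fun _ => Bool) false (Nat.ble (a + n * l) G) (Nat.ble D a) = true ↔ _
  rw [← Nat.ble_eq, ← Nat.ble_eq]
  cases Nat.ble D a <;> simp

lemma fract_eq {G : ℕ} (hG : 0 < G) (c n : ℕ) (γ : ℝ) :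
    Int.fract (n * γ) = Int.fract ((((n * c % G : ℕ) : ℝ) + n * (G * γ - c)) / G) := by
  have hG' : (0 : ℝ) < G := by exact_mod_cast hG
  have h : ((n * c : ℕ) : ℝ) = G * (n * c / G : ℕ) + (n * c % G : ℕ) := by
    exact_mod_cast (Nat.div_add_mod (n * c) G).symm
  have : (n : ℝ) * γ =
      (((n * c % G : ℕ) : ℝ) + n * (G * γ - c)) / G + ((n * c / G : ℕ) : ℝ) := by
    rw [Nat.cast_mul] at h
    field_simp
    linarith
  rw [this, Int.fract_add_natCast]

lemma miss {G D c l n : ℕ} (hG : 0 < G) (hn : 1 ≤ n) (h : miss1 G D l n (n * c % G) = true)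
    {γ : ℝ} (h1 : c ≤ G * γ) (h2 : G * γ < c + l) : D / G ≤ Int.fract (n * γ) := by
  obtain ⟨ha, hb⟩ := (miss1_iff _ _ _ _ _).1 h
  have hG' : (0 : ℝ) < G := by exact_mod_cast hG
  have hn' : (0 : ℝ) < n := by exact_mod_cast hn
  have ha' : (D : ℝ) ≤ (n * c % G : ℕ) := by exact_mod_cast ha
  have hb' : ((n * c % G : ℕ) : ℝ) + n * l ≤ G := by exact_mod_cast hb
  have h3 : 0 ≤ (n : ℝ) * (G * γ - c) := mul_nonneg hn'.le (by linarith)
  have h4 : (n : ℝ) * (G * γ - c) < n * l := mul_lt_mul_of_pos_left (by linarith) hn'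
  have h5 : (0 : ℝ) ≤ (n * c % G : ℕ) := Nat.cast_nonneg _
  rw [fract_eq hG c n γ, Int.fract_eq_self.2
    ⟨div_nonneg (by linarith) hG'.le, (div_lt_one hG').2 (by linarith)⟩]
  exact div_le_div_of_nonneg_right (by linarith) hG'.le

lemma allMiss_succ (G D c l n : ℕ) (h : allMiss G D c l (n + 1) = true) :
    miss1 G D l (n + 1) ((n + 1) * c % G) = true ∧ allMiss G D c l n = true := by
  change @Bool.rec (fun _ => Bool) false (allMiss G D c l n)
    (miss1 G D l (n + 1) ((n + 1) * c % G)) = true at h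
  revert h
  cases miss1 G D l (n + 1) ((n + 1) * c % G) <;> simp

lemma hit_imp (G D c l n : ℕ) (h : hit G D c l n = true) : 1 ≤ n ∧ n * c % G + n * l ≤ D := by
  change @Bool.rec (fun _ => Bool) false (Nat.ble (n * c % G + n * l) D) (Nat.ble 1 n) = true at h
  rw [← Nat.ble_eq, ← Nat.ble_eq]
  revert h
  cases Nat.ble 1 n <;> simp

lemma run_succ (G D c l n i : ℕ) : run G D c l n (i + 1) =
    if miss1 G D l (n - (i + 1)) ((n - (i + 1)) * c % G) = true then run G D c l n i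
      else n - (i + 1) := by
  rw [← cnd_eq]
  rfl

lemma cells_zero (G : ℕ) (g : ℕ → ℕ) (val : ℕ → ℕ → ℕ → ℕ) (top c1 c : ℕ) :
    cells G g val top c1 0 c = (c1 - c) * top := rfl

lemma cells_succ (G : ℕ) (g : ℕ → ℕ) (val : ℕ → ℕ → ℕ → ℕ) (top c1 fu c : ℕ) :
    cells G g val top c1 (fu + 1) c = if c1 ≤ c then 0 else
      max (min (g c % G) (c1 - c)) 1 * val c (max (min (g c % G) (c1 - c)) 1) (g c / G) +
        cells G g val top c1 fu (c + max (min (g c % G) (c1 - c)) 1) := by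
  have : cells G g val top c1 (fu + 1) c = cnd (Nat.ble c1 c) 0
      (mx (mn (g c % G) (c1 - c)) 1 * val c (mx (mn (g c % G) (c1 - c)) 1) (g c / G) +
        cells G g val top c1 fu (c + mx (mn (g c % G) (c1 - c)) 1)) := rfl
  rw [this, cnd_eq, mx_eq, mn_eq]
  simp only [Nat.ble_eq]

lemma up {f : ℝ → ℝ} {a b v : ℝ} (hab : a ≤ b) (hf : IntervalIntegrable f volume a b)
    (h : ∀ᵐ γ : ℝ, a ≤ γ → γ < b → f γ ≤ v) : ∫ γ in a..b, f γ ≤ (b - a) * v := by
  have h' : f ≤ᵐ[volume.restrict (Icc a b)] fun _ => v := by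
    rw [← Measure.restrict_congr_set Ico_ae_eq_Icc]
    exact (ae_restrict_iff' measurableSet_Ico).2 (h.mono fun γ hγ hm => hγ hm.1 hm.2)
  have := intervalIntegral.integral_mono_ae_restrict hab hf intervalIntegrable_const h'
  simpa using this

lemma ii_sub {G : ℕ} (hG : 0 < G) {f : ℝ → ℝ} (hf : IntervalIntegrable f volume 0 1) {c d : ℕ}
    (hc : c ≤ G) (hd : d ≤ G) : IntervalIntegrable f volume (c / G) (d / G) := by
  have hG' : (0 : ℝ) < G := by exact_mod_cast hG
  have key : ∀ e : ℕ, e ≤ G → (e : ℝ) / G ∈ uIcc (0 : ℝ) 1 := fun e he => by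
    rw [uIcc_of_le zero_le_one]
    exact ⟨by positivity, (div_le_one hG').2 (by exact_mod_cast he)⟩
  exact hf.mono_set (uIcc_subset_uIcc (key c hc) (key d hd))

lemma piece {G : ℕ} (hG : 0 < G) {f : ℝ → ℝ} (hf : IntervalIntegrable f volume 0 1) {c d : ℕ}
    (hcd : c ≤ d) (hd : d ≤ G) {s v : ℝ}
    (h : ∀ᵐ γ : ℝ, 0 ≤ γ → γ < 1 → c ≤ G * γ → G * γ < d → s * f γ ≤ s * v) :
    s * (G * ∫ γ in ((c : ℝ) / G)..(d / G), f γ) ≤ s * ((d - c) * v) := by
  have hG' : (0 : ℝ) < G := by exact_mod_cast hG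
  have hcd' : (c : ℝ) ≤ d := by exact_mod_cast hcd
  have hd' : (d : ℝ) ≤ G := by exact_mod_cast hd
  have := up (f := fun γ => s * f γ) (v := s * v) (div_le_div_of_nonneg_right hcd' hG'.le)
    ((ii_sub hG hf (hcd.trans hd) hd).const_mul s) (h.mono fun γ hγ h1 h2 => by
      have h3 : (c : ℝ) ≤ G * γ := by rwa [div_le_iff₀' hG'] at h1
      have h4 : G * γ < d := by rwa [lt_div_iff₀' hG'] at h2
      exact hγ (le_trans (by positivity) h1) (h2.trans_le ((div_le_one hG').2 hd')) h3 h4)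
  rw [intervalIntegral.integral_const_mul] at this
  have h2 := mul_le_mul_of_nonneg_left this hG'.le
  have h3 : (G : ℝ) * ((d / G - c / G) * (s * v)) = s * ((d - c) * v) := by field_simp
  linarith

lemma core {G : ℕ} (hG : 0 < G) (g : ℕ → ℕ) (val : ℕ → ℕ → ℕ → ℕ) (top : ℕ) {f : ℝ → ℝ}
    (hf : IntervalIntegrable f volume 0 1) (s : ℝ)
    (h : ∀ᵐ γ : ℝ, 0 ≤ γ → γ < 1 → s * f γ ≤ s * top ∧ ∀ c l x : ℕ, 1 ≤ l → c + l ≤ G →
      c ≤ G * γ → G * γ < c + l → s * f γ ≤ s * val c l x) {c1 : ℕ} (hc1 : c1 ≤ G) (fu : ℕ) :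
    ∀ c : ℕ, c ≤ c1 →
      s * (G * ∫ γ in ((c : ℝ) / G)..(c1 / G), f γ) ≤ s * cells G g val top c1 fu c := by
  induction fu with
  | zero =>
    intro c hc
    rw [cells_zero, Nat.cast_mul, Nat.cast_sub hc]
    exact piece hG hf hc hc1 (h.mono fun γ hγ a b _ _ => (hγ a b).1)
  | succ fu ih =>
    intro c hc
    rw [cells_succ]
    split_ifs with h1
    · obtain rfl : c = c1 := le_antisymm hc h1
      simp
    · obtain ⟨l, hl⟩ : ∃ l, l = max (min (g c % G) (c1 - c)) 1 := ⟨_, rfl⟩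
      rw [← hl]
      have hl1 : 1 ≤ l := by omega
      have hl2 : c + l ≤ c1 := by omega
      have h2 := ih (c + l) hl2
      have h3 := piece hG hf (Nat.le_add_right c l) (hl2.trans hc1) (s := s)
        (v := val c l (g c / G)) (h.mono fun γ hγ a b a' b' =>
          (hγ a b).2 c l _ hl1 (hl2.trans hc1) a' (by exact_mod_cast b'))
      rw [← intervalIntegral.integral_add_adjacent_intervals
        (ii_sub hG hf (hc.trans hc1) (hl2.trans hc1)) (ii_sub hG hf (hl2.trans hc1) hc1)]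
      rw [Nat.cast_add (l * _), Nat.cast_mul]
      have h4 : ((c + l : ℕ) : ℝ) - c = l := by push_cast; ring
      rw [h4] at h3
      rw [mul_add, mul_add, mul_add]
      exact add_le_add h3 h2

lemma total {G : ℕ} (hG : 0 < G) (g : ℕ → ℕ) (val : ℕ → ℕ → ℕ → ℕ) (top : ℕ) {f : ℝ → ℝ}
    (hf : IntervalIntegrable f volume 0 1) (s : ℝ)
    (h : ∀ᵐ γ : ℝ, 0 ≤ γ → γ < 1 → s * f γ ≤ s * top ∧ ∀ c l x : ℕ, 1 ≤ l → c + l ≤ G →
      c ≤ G * γ → G * γ < c + l → s * f γ ≤ s * val c l x) (sg fu k : ℕ) (hk : k * sg = G) :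
    s * (G * ∫ γ in (0 : ℝ)..1, f γ) ≤ s * segs G g val top sg fu 0 k := by
  have hG' : (0 : ℝ) < G := by exact_mod_cast hG
  have hle : ∀ i, i ≤ k → i * sg ≤ G := fun i hi => hk ▸ Nat.mul_le_mul_right sg hi
  have e1 : segs G g val top sg fu 0 k =
      ∑ i ∈ Finset.range k, cells G g val top ((i + 1) * sg) fu (i * sg) := by
    rw [segs, sm_eq, zero_add, Finset.range_eq_Ico]
    refine Finset.sum_congr rfl fun i _ => ?_
    rw [add_mul, one_mul]
    rfl
  have e2 := intervalIntegral.sum_integral_adjacent_intervals (f := f) (μ := volume)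
    (a := fun i => ((i * sg : ℕ) : ℝ) / G) (n := k)
    (fun i hi => ii_sub hG hf (hle i hi.le) (hle (i + 1) hi))
  simp only [zero_mul, Nat.cast_zero, zero_div, hk, div_self hG'.ne'] at e2
  rw [e1, ← e2, Nat.cast_sum, Finset.mul_sum, Finset.mul_sum, Finset.mul_sum]
  refine Finset.sum_le_sum fun i hi => ?_
  exact core hG g val top hf s h (hle (i + 1) (Finset.mem_range.1 hi)) fu _
    (Nat.mul_le_mul_right sg (Nat.le_succ i))

end Cellsx

open Cellsx

theorem Scan_pf : Scan := by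
  refine ⟨fun G D c l N hG h γ h1 h2 => ?_, fun G D c l n hG h γ h1 h2 => ?_,
    fun G D c l n fu hG hfu γ h1 h2 => ?_⟩
  · induction N with
    | zero => intro n a b; omega
    | succ N ih =>
      obtain ⟨ha, hb⟩ := allMiss_succ _ _ _ _ _ h
      intro n a b
      rcases Nat.lt_or_ge N n with hn | hn
      · obtain rfl : n = N + 1 := by omega
        exact miss hG a ha h1 h2
      · exact ih hb n a hn
  · obtain ⟨hn, hb⟩ := hit_imp _ _ _ _ _ h
    refine ⟨hn, ?_⟩
    have hG' : (0 : ℝ) < G := by exact_mod_cast hG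
    have hn' : (0 : ℝ) < n := by exact_mod_cast hn
    have hb' : ((n * c % G : ℕ) : ℝ) + n * l ≤ D := by exact_mod_cast hb
    have h3 : 0 ≤ (n : ℝ) * (G * γ - c) := mul_nonneg hn'.le (by linarith)
    have h4 : (n : ℝ) * (G * γ - c) < n * l := mul_lt_mul_of_pos_left (by linarith) hn'
    have h5 : (0 : ℝ) ≤ (n * c % G : ℕ) := Nat.cast_nonneg _
    have h6 : 0 ≤ (((n * c % G : ℕ) : ℝ) + n * (G * γ - c)) / G :=
      div_nonneg (by linarith) hG'.le
    have h7 : (0 : ℝ) ≤ ⌊(((n * c % G : ℕ) : ℝ) + n * (G * γ - c)) / G⌋ := by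
      exact_mod_cast Int.floor_nonneg.2 h6
    have h8 : (((n * c % G : ℕ) : ℝ) + n * (G * γ - c)) / G < D / G :=
      div_lt_div_of_pos_right (by linarith) hG'
    rw [fract_eq hG c n γ, Int.fract]
    linarith
  · induction fu with
    | zero =>
      intro k _ a b
      have : run G D c l n 0 = n := rfl
      omega
    | succ i ih =>
      intro k hk a b
      rw [run_succ] at b
      split_ifs at b with hm
      · rcases Nat.lt_or_ge k (n - i) with hn | hn
        · obtain rfl : k = n - (i + 1) := by omega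
          exact miss hG hk hm h1 h2
        · exact ih (by omega) k hk hn b
      · omega

theorem Cells_pf : Cells := by
  intro G g val sg fu k f hG hk hf
  refine ⟨fun h0 h => ?_, fun top h => ?_⟩
  · have := total hG g val 0 hf (-1) (Filter.Eventually.of_forall fun γ _ _ =>
      ⟨by simpa using h0 γ, fun c l x a b a' b' => by simpa using h c l x a b γ a' b'⟩) sg fu k hk
    linarith
  · have := total hG g val top hf 1 (h.mono fun γ hγ a b => by simpa using hγ a b) sg fu k hk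
    linarith

end Pool.Agent.Lib.MP_a4d326_an.Q1
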