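import Pool.Agent.Lib.MP_a4d326_an.Q1.Stmt

/-! One-sided Dirichlet approximation, rarity of late hits, measure of an arc. -/

namespace Pool.Agent.Lib.MP_a4d326_an.Q1

open MeasureTheory Set

namespace DIx

lemma di1 (x : ℝ) (K : ℕ) (hK : 1 ≤ K) :
    (∃ b : ℕ, 1 ≤ b ∧ b ≤ K ∧ Int.fract (b * x) ≤ 1 / (K + 1)) ∨
    (∃ (b : ℕ) (a : ℤ), 1 ≤ b ∧ b ≤ K ∧ Int.gcd a b = 1 ∧ 0 < a - b * x ∧
      a - b * x ≤ 1 / (K + 1)) := by
  obtain ⟨k, hk0, hkK, hk⟩ := Real.exists_nat_abs_mul_sub_round_le x (n := K) hK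
  set z : ℤ := round ((k : ℝ) * x) with hz
  have hK1 : (1 : ℝ) ≤ K := by exact_mod_cast hK
  have hlt : 1 / ((K : ℝ) + 1) < 1 := by
    rw [div_lt_one (by linarith)]; linarith
  rw [abs_le] at hk
  by_cases h : (z : ℝ) ≤ k * x
  · left
    refine ⟨k, hk0, hkK, ?_⟩
    have : Int.fract ((k : ℝ) * x) = k * x - z :=
      Int.fract_eq_iff.2 ⟨by linarith, by linarith [hk.2], z, by ring⟩
    rw [this]; exact hk.2
  · right
    push Not at h
    have hg : 0 < Int.gcd z k := Int.gcd_pos_of_ne_zero_right _ (by exact_mod_cast hk0.ne')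
    obtain ⟨a, b', hab, ha, hb⟩ := Int.exists_gcd_one hg
    set g : ℕ := Int.gcd z k with hgdef
    have hb0 : 0 < b' := by
      have h1 : (0 : ℤ) < b' * g := by rw [← hb]; exact_mod_cast hk0
      have h2 : (0 : ℤ) < g := by exact_mod_cast hg
      exact pos_of_mul_pos_left h1 h2.le
    obtain ⟨b, rfl⟩ := Int.eq_ofNat_of_zero_le hb0.le
    have hb1 : 1 ≤ b := by exact_mod_cast hb0
    have hkb : k = b * g := by exact_mod_cast hb
    have hg1 : (1 : ℝ) ≤ g := by exact_mod_cast hg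
    have e : (z : ℝ) - k * x = ((a : ℝ) - b * x) * g := by
      rw [ha, hkb]; push_cast; ring
    have hpos : 0 < (a : ℝ) - b * x := by
      have h1 : 0 < ((a : ℝ) - b * x) * g := by rw [← e]; linarith
      exact pos_of_mul_pos_left h1 (by linarith)
    refine ⟨b, a, hb1, ?_, hab, hpos, ?_⟩
    · calc b ≤ b * g := Nat.le_mul_of_pos_right _ hg
        _ = k := hkb.symm
        _ ≤ K := hkK
    · nlinarith [hk.1]

lemma di2 (x : ℝ) (b : ℕ) (a : ℤ) (hb : 1 ≤ b) (hab : Int.gcd a b = 1) (h0 : 0 < a - b * x)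
    (h1 : b * (a - b * x) ≤ 1) :
    ∃ j : ℕ, 1 ≤ j ∧ j * (a - b * x) ≤ 1 ∧ Int.fract (j * x) < a - b * x := by
  obtain ⟨u, v, huv⟩ := Int.isCoprime_iff_gcd_eq_one.2 hab
  set η : ℝ := a - b * x with hη
  have hbR : (1 : ℝ) ≤ b := by exact_mod_cast hb
  have hbη : 0 < (b : ℝ) * η := by positivity
  set t : ℤ := ⌊(1 - u * η) / (b * η)⌋ with ht
  have t1 : (t : ℝ) * (b * η) ≤ 1 - u * η := by
    rw [← le_div_iff₀ hbη]; exact Int.floor_le _
  have t2 : 1 - u * η < ((t : ℝ) + 1) * (b * η) := by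
    rw [← div_lt_iff₀ hbη]; exact Int.lt_floor_add_one _
  have j1 : ((u + b * t : ℤ) : ℝ) * η ≤ 1 := by push_cast; nlinarith
  have j2 : 1 - ((u + b * t : ℤ) : ℝ) * η < b * η := by push_cast; nlinarith
  have j0 : 0 < u + b * t := by
    have h2 : 0 < ((u + b * t : ℤ) : ℝ) * η := by linarith
    have h3 := pos_of_mul_pos_left h2 h0.le
    exact_mod_cast h3
  obtain ⟨j, hj⟩ := Int.eq_ofNat_of_zero_le j0.le
  rw [hj] at j1 j2 j0
  rw [Int.cast_natCast] at j1 j2
  have hjR : (j : ℝ) = u + b * t := by exact_mod_cast hj.symm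
  have huvR : (u : ℝ) * a + v * b = 1 := by exact_mod_cast huv
  refine ⟨j, by exact_mod_cast j0, j1, ?_⟩
  have hb0 : (0 : ℝ) < b := by linarith
  have hlt : (1 - j * η) / b < η := by rw [div_lt_iff₀ hb0]; linarith
  have : Int.fract ((j : ℝ) * x) = (1 - j * η) / b := by
    refine Int.fract_eq_iff.2 ⟨div_nonneg (by linarith) hb0.le, ?_, t * a - v, ?_⟩
    · nlinarith
    · rw [hη, hjR]
      field_simp
      push_cast
      linear_combination huvR
  rw [this]; exact hlt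

lemma nf1 (h : DI) (δ : ℝ) (K : ℕ) (hK : 1 ≤ K) (hδ : 1 / (K + 1 : ℝ) < δ) (n : ℕ) (hn : K ≤ n) :
    volume.real {γ ∈ Ico (0 : ℝ) 1 | NoHit δ n γ} ≤ K / n := by
  have hK1 : (1 : ℝ) ≤ K := by exact_mod_cast hK
  have hn0 : (0 : ℝ) < n := by exact_mod_cast (by omega : 0 < n)
  have hsub : {γ ∈ Ico (0 : ℝ) 1 | NoHit δ n γ} ⊆ ⋃ b ∈ Finset.Icc 1 K, ⋃ a ∈ Finset.Icc 1 b,
      Ico ((a : ℝ) / b - 1 / (n * b)) ((a : ℝ) / b) := by
    rintro γ ⟨⟨g0, g1⟩, hγ⟩
    rcases h.1 γ K hK with ⟨b, b1, b2, b3⟩ | ⟨b, a, b1, b2, b3, b4, b5⟩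
    · have := hγ b b1 (b2.trans hn)
      linarith
    · have hbK : (b : ℝ) ≤ K := by exact_mod_cast b2
      have hb1 : (1 : ℝ) ≤ b := by exact_mod_cast b1
      have hb0 : (0 : ℝ) < b := by linarith
      have b6 : ((a : ℝ) - b * γ) * (K + 1) ≤ 1 := by
        rwa [le_div_iff₀ (by linarith)] at b5
      obtain ⟨j, j1, j2, j3⟩ := h.2 γ b a b1 b3 b4 (by nlinarith)
      have hjn : n < j := by
        by_contra hc
        have := hγ j j1 (not_lt.1 hc)
        linarith
      have hjn' : (n : ℝ) < j := by exact_mod_cast hjn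
      have a0 : 0 < a := by
        have : (0 : ℝ) < a := by nlinarith
        exact_mod_cast this
      obtain ⟨a, rfl⟩ := Int.eq_ofNat_of_zero_le a0.le
      rw [Int.cast_natCast] at b4 b5 b6 j2 j3
      have a1 : a < b + 1 := by
        have : (a : ℝ) < b + 1 := by nlinarith
        exact_mod_cast this
      simp only [mem_iUnion, Finset.mem_Icc]
      refine ⟨b, ⟨b1, b2⟩, a, ⟨by exact_mod_cast a0, by omega⟩, ?_, ?_⟩
      · have e : (a : ℝ) / b - 1 / (n * b) = (n * a - 1) / (n * b) := by field_simp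
        rw [e, div_le_iff₀ (by positivity)]
        nlinarith
      · rw [lt_div_iff₀ hb0]; linarith
  have hfin : ∀ b : ℕ, volume (⋃ a ∈ Finset.Icc 1 b,
      Ico ((a : ℝ) / b - 1 / (n * b)) ((a : ℝ) / b)) ≠ ⊤ := fun b =>
    (measure_biUnion_lt_top (Finset.finite_toSet _) fun _ _ => measure_Ico_lt_top).ne
  calc volume.real {γ ∈ Ico (0 : ℝ) 1 | NoHit δ n γ}
      ≤ volume.real (⋃ b ∈ Finset.Icc 1 K, ⋃ a ∈ Finset.Icc 1 b,
          Ico ((a : ℝ) / b - 1 / (n * b)) ((a : ℝ) / b)) :=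
        measureReal_mono hsub
          (measure_biUnion_lt_top (Finset.finite_toSet _) fun b _ => (hfin b).lt_top).ne
    _ ≤ ∑ b ∈ Finset.Icc 1 K, volume.real (⋃ a ∈ Finset.Icc 1 b,
          Ico ((a : ℝ) / b - 1 / (n * b)) ((a : ℝ) / b)) := measureReal_biUnion_finset_le _ _
    _ ≤ ∑ b ∈ Finset.Icc 1 K, (1 : ℝ) / n := by
        refine Finset.sum_le_sum fun b hb => (measureReal_biUnion_finset_le _ _).trans ?_
        have hb0 : (0 : ℝ) < b := by exact_mod_cast (Finset.mem_Icc.1 hb).1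
        have : ∀ a ∈ Finset.Icc 1 b, volume.real (Ico ((a : ℝ) / b - 1 / (n * b)) ((a : ℝ) / b))
            = 1 / (n * b) := fun a _ => by
          rw [Real.volume_real_Ico_of_le (by
            have : (0 : ℝ) ≤ 1 / (n * b) := by positivity
            linarith)]
          ring
        rw [Finset.sum_congr rfl this, Finset.sum_const, Nat.card_Icc, nsmul_eq_mul]
        apply le_of_eq
        simp only [Nat.add_sub_cancel]
        field_simp
    _ = K / n := by
        rw [Finset.sum_const, Nat.card_Icc, nsmul_eq_mul]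
        simp only [Nat.add_sub_cancel]
        ring

end DIx

theorem DI_pf : DI := ⟨DIx.di1, DIx.di2⟩

theorem Nf_pf (h : DI) : Nf := by
  intro δ K hK hδ
  refine ⟨DIx.nf1 h δ K hK hδ, ?_⟩
  set N : Set ℝ := {γ ∈ Ico (0 : ℝ) 1 | ∀ n : ℕ, NoHit δ n γ} with hN
  have h1 : ∀ n : ℕ, K ≤ n → volume.real N ≤ K / n := fun n hn =>
    (slice_mono 0 1 fun _ _ hy => hy n).trans (DIx.nf1 h δ K hK hδ n hn)
  have h2 : volume.real N ≤ 0 :=
    ge_of_tendsto (tendsto_const_div_atTop_nhds_zero_nat (K : ℝ))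
      (Filter.eventually_atTop.2 ⟨K, h1⟩)
  have h3 : volume N = 0 :=
    (measureReal_eq_zero_iff (slice_ne_top 0 1 _)).1 (le_antisymm h2 measureReal_nonneg)
  filter_upwards [measure_eq_zero_iff_ae_notMem.1 h3] with γ hγ g0 g1
  by_contra hc
  push Not at hc
  exact hγ ⟨⟨g0, g1⟩, fun n k k1 _ => hc k k1⟩

theorem GM1_pf : GM1 := by
  intro a b γ m hm hab
  have hm0 : (0 : ℝ) < m := by exact_mod_cast hm
  set a' : ℝ := max a 0 with ha'
  by_cases hb : b ≤ a'
  · have : {α ∈ Ico (0 : ℝ) 1 | a ≤ Int.fract (m * α + γ) ∧ Int.fract (m * α + γ) < b} = ∅ := by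
      rw [eq_empty_iff_forall_notMem]
      rintro α ⟨_, h1, h2⟩
      have := max_le h1 (Int.fract_nonneg (m * α + γ))
      linarith
    rw [this, measureReal_empty]
    linarith
  push Not at hb
  have hme : Measurable fun α : ℝ => Int.fract (m * α + γ) := measurable_fract.comp (by fun_prop)
  rw [vol_shift (p := fun α => a ≤ Int.fract (m * α + γ) ∧ Int.fract (m * α + γ) < b)
    ((measurableSet_le measurable_const hme).inter (measurableSet_lt hme measurable_const))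
    (fun x => by
      rw [show (m : ℝ) * (x + 1) + γ = m * x + γ + (m : ℕ) by ring, Int.fract_add_natCast])
    ((a' - γ) / m)]
  have hsub : {α ∈ Ico ((a' - γ) / m) ((a' - γ) / m + 1) |
      a ≤ Int.fract (m * α + γ) ∧ Int.fract (m * α + γ) < b} ⊆
      ⋃ p ∈ Finset.range m, Ico ((p + a' - γ) / m) ((p + b - γ) / m) := by
    rintro α ⟨⟨g0, g1⟩, h1, h2⟩
    have h3 : a' ≤ Int.fract (m * α + γ) := max_le h1 (Int.fract_nonneg _)
    have h4 := Int.fract_lt_one (m * α + γ)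
    have h5 := Int.floor_add_fract (m * α + γ)
    have h6 : 0 ≤ a' := le_max_right _ _
    rw [div_le_iff₀ hm0] at g0
    have g2 : α * m < a' - γ + m := by
      rw [div_add_one hm0.ne', lt_div_iff₀ hm0] at g1; exact g1
    have p0 : (-1 : ℤ) < ⌊(m : ℝ) * α + γ⌋ := by
      have : ((-1 : ℤ) : ℝ) < ⌊(m : ℝ) * α + γ⌋ := by push_cast; linarith
      exact_mod_cast this
    obtain ⟨p, hp⟩ := Int.eq_ofNat_of_zero_le (show 0 ≤ ⌊(m : ℝ) * α + γ⌋ by omega)
    rw [hp, Int.cast_natCast] at h5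
    have p1 : p < m := by
      have : (p : ℝ) < m := by linarith
      exact_mod_cast this
    simp only [mem_iUnion, Finset.mem_range]
    refine ⟨p, p1, ?_, ?_⟩
    · rw [div_le_iff₀ hm0]; linarith
    · rw [lt_div_iff₀ hm0]; linarith
  calc _ ≤ volume.real (⋃ p ∈ Finset.range m, Ico ((p + a' - γ) / m) ((p + b - γ) / m)) :=
        measureReal_mono hsub
          (measure_biUnion_lt_top (Finset.finite_toSet _) fun _ _ => measure_Ico_lt_top).ne
    _ ≤ ∑ p ∈ Finset.range m, volume.real (Ico (((p : ℝ) + a' - γ) / m) ((p + b - γ) / m)) :=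
        measureReal_biUnion_finset_le _ _
    _ = ∑ p ∈ Finset.range m, (b - a') / m := by
        refine Finset.sum_congr rfl fun p _ => ?_
        rw [Real.volume_real_Ico_of_le (by gcongr)]
        ring
    _ = b - a' := by
        rw [Finset.sum_const, Finset.card_range, nsmul_eq_mul]
        field_simp
    _ ≤ b - a := by linarith [le_max_left a 0]

end Pool.Agent.Lib.MP_a4d326_an.Q1
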