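import Pool.Agent.Lib.MP_a4d326_an.Q1.Stmt

/-! Fourier coefficients under dilation, and the duality estimate. -/

namespace Pool.Agent.Lib.MP_a4d326_an.Q1

open MeasureTheory Set Filter Topology

namespace DUx

noncomputable def E (l : ℤ) (x : ℝ) : ℂ := Complex.exp (-(2 * Real.pi * Complex.I * l * x))

lemma fc_eq (f : ℝ → ℝ) (l : ℤ) : fc f l = ∫ x in (0 : ℝ)..1, E l x * (f x : ℂ) := rfl

lemma E_add (l : ℤ) (x y : ℝ) : E l (x + y) = E l x * E l y := by
  simp only [E, ← Complex.exp_add]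
  congr 1
  push_cast
  ring

lemma E_one (l : ℤ) : E l 1 = 1 := by
  have := Complex.exp_int_mul_two_pi_mul_I (-l)
  rw [E, ← this]
  congr 1
  push_cast
  ring

lemma E_cont (l : ℤ) : Continuous (E l) := by
  unfold E
  fun_prop

lemma per {F : ℝ → ℝ} (hF : Function.Periodic F 1) (l : ℤ) :
    Function.Periodic (fun x => E l x * (F x : ℂ)) 1 := fun x => by
  simp only [E_add, E_one, mul_one, hF x]

lemma ii {F : ℝ → ℝ} (hF : Nice F) (l : ℤ) (a b : ℝ) :
    IntervalIntegrable (fun x => E l x * (F x : ℂ)) volume a b := by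
  obtain ⟨hm, ⟨C, hC⟩, -⟩ := hF
  have h := bdd_ii hm C hC a b
  have h' : IntervalIntegrable (fun x => (F x : ℂ)) volume a b := ⟨h.1.ofReal, h.2.ofReal⟩
  exact h'.continuousOn_mul (E_cont l).continuousOn

lemma shift {F : ℝ → ℝ} (hF : Function.Periodic F 1) (l : ℤ) (h : ℝ) :
    fc (fun x => F (x + h)) l = E l (-h) * fc F l := by
  have h1 := intervalIntegral.integral_comp_add_right (a := 0) (b := 1)
    (fun y => E l y * (F y : ℂ)) h
  have h2 := (per hF l).intervalIntegral_add_eq h 0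
  rw [zero_add, add_comm 1 h, h2, zero_add] at h1
  rw [fc_eq, fc_eq, ← h1, ← intervalIntegral.integral_const_mul]
  refine intervalIntegral.integral_congr fun x _ => ?_
  simp only [← mul_assoc, ← E_add]
  congr 2
  ring

lemma nice_add {f g : ℝ → ℝ} (hf : Nice f) (hg : Nice g) (c : ℝ) : Nice fun x => f x + c * g x := by
  obtain ⟨m1, ⟨C1, b1⟩, p1⟩ := hf
  obtain ⟨m2, ⟨C2, b2⟩, p2⟩ := hg
  refine ⟨m1.add (m2.const_mul c), ⟨C1 + |c| * C2, fun x => (abs_add_le _ _).trans ?_⟩, fun x => ?_⟩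
  · rw [abs_mul]
    exact add_le_add (b1 x) (mul_le_mul_of_nonneg_left (b2 x) (abs_nonneg c))
  · simp only [p1 x, p2 x]

lemma nice_shift {f : ℝ → ℝ} (hf : Nice f) (h : ℝ) : Nice fun x => f (x + h) := by
  obtain ⟨m1, ⟨C1, b1⟩, p1⟩ := hf
  exact ⟨m1.comp (measurable_add_const h), ⟨C1, fun x => b1 _⟩, p1.add_const h⟩

lemma fc_add {f g : ℝ → ℝ} (hf : Nice f) (hg : Nice g) (c : ℝ) (l : ℤ) :
    fc (fun x => f x + c * g x) l = fc f l + c * fc g l := by
  rw [fc_eq, fc_eq, fc_eq, ← intervalIntegral.integral_const_mul,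
    ← intervalIntegral.integral_add (ii hf l 0 1) ((ii hg l 0 1).const_mul _)]
  refine intervalIntegral.integral_congr fun x _ => ?_
  push_cast
  ring

lemma fc_zero (f : ℝ → ℝ) : fc f 0 = ((∫ x in (0 : ℝ)..1, f x : ℝ) : ℂ) := by
  rw [← intervalIntegral.integral_ofReal]
  simp [fc]

lemma parseval {f : ℝ → ℝ} (hf : Nice f) :
    HasSum (fun l => ‖fc f l‖ ^ 2) (∫ x in (0 : ℝ)..1, f x ^ 2) := by
  obtain ⟨hm, ⟨C, hC⟩, -⟩ := hf
  have hL : MemLp (fun x => (f x : ℂ)) 2 (volume.restrict (Ioc (0 : ℝ) 1)) :=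
    MemLp.of_bound (Complex.measurable_ofReal.comp hm).aestronglyMeasurable C
      (Eventually.of_forall fun x => by simpa using hC x)
  have h := hasSum_sq_fourierCoeffOn zero_lt_one hL
  convert h using 1
  · funext l
    rw [fourierCoeffOn_eq_integral, fc]
    simp only [fourier_coe_apply, smul_eq_mul]
    simp
  · simp

lemma sq_ii {f g : ℝ → ℝ} (hf : Nice f) (hg : Nice g) :
    IntervalIntegrable (fun x => f x * g x) volume 0 1 := by
  obtain ⟨m1, ⟨C1, b1⟩, -⟩ := hf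
  obtain ⟨m2, ⟨C2, b2⟩, -⟩ := hg
  refine bdd_ii (m1.mul m2) (C1 * C2) (fun x => ?_) 0 1
  rw [Pi.mul_apply, abs_mul]
  exact mul_le_mul (b1 x) (b2 x) (abs_nonneg _) ((abs_nonneg _).trans (b1 x))

lemma polar {f g : ℝ → ℝ} (hf : Nice f) (hg : Nice g) :
    HasSum (fun l => (fc f l * (starRingEnd ℂ) (fc g l)).re) (∫ x in (0 : ℝ)..1, f x * g x) := by
  have n1 := nice_add hf hg 1
  have n2 := nice_add hf hg (-1)
  have h := ((parseval n1).sub (parseval n2)).div_const 4
  have e1 : (fun l => (fc f l * (starRingEnd ℂ) (fc g l)).re) = fun l =>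
      (‖fc (fun x => f x + 1 * g x) l‖ ^ 2 - ‖fc (fun x => f x + -1 * g x) l‖ ^ 2) / 4 := by
    funext l
    rw [fc_add hf hg, fc_add hf hg, Complex.sq_norm, Complex.sq_norm]
    simp [Complex.normSq_apply]
    ring
  have e2 : ∫ x in (0 : ℝ)..1, f x * g x = ((∫ x in (0 : ℝ)..1, (f x + 1 * g x) ^ 2) -
      ∫ x in (0 : ℝ)..1, (f x + -1 * g x) ^ 2) / 4 := by
    simp only [sq]
    rw [← intervalIntegral.integral_sub (sq_ii n1 n1) (sq_ii n2 n2),
      ← intervalIntegral.integral_div]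
    refine intervalIntegral.integral_congr fun x _ => ?_
    ring
  rw [e1, e2]
  exact h

lemma sob {f : ℝ → ℝ} {K : ℝ} (hf : Nice f)
    (hK : ∀ h : ℝ, 0 < h → h ≤ 1 → ∫ x in (0 : ℝ)..1, (f (x + h) - f x) ^ 2 ≤ K * h ^ 2)
    (s : Finset ℤ) : ∑ l ∈ s, (2 * Real.pi * |(l : ℝ)| * ‖fc f l‖) ^ 2 ≤ K := by
  have hd : ∀ l : ℤ, HasDerivAt (fun h : ℝ => E l (-h)) (2 * Real.pi * Complex.I * l) 0 := by
    intro l
    have h1 : HasDerivAt (fun h : ℝ => (2 * Real.pi * Complex.I * l * h : ℂ))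
        (2 * Real.pi * Complex.I * l) 0 := by
      simpa using (Complex.ofRealCLM.hasDerivAt (x := (0 : ℝ))).const_mul
        (2 * Real.pi * Complex.I * l : ℂ)
    have h2 := h1.cexp
    simp only [Complex.ofReal_zero, mul_zero, Complex.exp_zero, one_mul] at h2
    convert h2 using 2 with h
    simp [E]
  have ht : Tendsto (fun h : ℝ => ∑ l ∈ s, (‖h⁻¹ • (E l (-(0 + h)) - E l (-0))‖ * ‖fc f l‖) ^ 2)
      (𝓝[>] 0) (𝓝 (∑ l ∈ s, (‖(2 * Real.pi * Complex.I * l : ℂ)‖ * ‖fc f l‖) ^ 2)) :=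
    tendsto_finsetSum _ fun l _ =>
      (((hd l).tendsto_slope_zero_right.norm).mul_const _).pow 2
  have hn : ∀ l : ℤ, ‖(2 * Real.pi * Complex.I * l : ℂ)‖ = 2 * Real.pi * |(l : ℝ)| := by
    intro l
    simp [abs_of_pos Real.pi_pos]
  simp only [hn] at ht
  refine le_of_tendsto ht ?_
  filter_upwards [Ioc_mem_nhdsGT (zero_lt_one' ℝ)] with h hh
  have n1 := nice_add (nice_shift hf h) hf (-1)
  have h1 := sum_le_hasSum s (fun l _ => by positivity) (parseval n1)
  have h2 := hK h hh.1 hh.2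
  have h3 : ∫ x in (0 : ℝ)..1, (f (x + h) + -1 * f x) ^ 2 =
      ∫ x in (0 : ℝ)..1, (f (x + h) - f x) ^ 2 :=
    intervalIntegral.integral_congr fun x _ => by ring
  have h0 : (0 : ℝ) < h := hh.1
  have h4 : ∀ l : ℤ, (‖h⁻¹ • (E l (-(0 + h)) - E l (-0))‖ * ‖fc f l‖) ^ 2 =
      ‖fc (fun x => f (x + h) + -1 * f x) l‖ ^ 2 / h ^ 2 := by
    intro l
    have e0 : E l (-0) = 1 := by simp [E]
    have e1 : E l (-h) * fc f l + ((-1 : ℝ) : ℂ) * fc f l = (E l (-h) - 1) * fc f l := by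
      push_cast
      ring
    rw [fc_add (nice_shift hf h) hf, shift hf.2.2, e1, e0, zero_add, norm_smul, norm_mul,
      Real.norm_eq_abs, abs_of_pos (inv_pos.2 h0)]
    field_simp
  simp only [h4]
  rw [← Finset.sum_div, div_le_iff₀ (by positivity)]
  linarith

end DUx

open DUx

theorem DL_pf : DL := by
  intro F hF M l hM
  have hM' : (M : ℝ) ≠ 0 := Int.cast_ne_zero.2 hM
  split_ifs with hd
  · obtain ⟨j, rfl⟩ := hd
    have h1 := intervalIntegral.integral_comp_mul_left (a := 0) (b := 1)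
      (fun y => E j y * (F y : ℂ)) hM'
    have h2 := (per hF.2.2 j).intervalIntegral_add_zsmul_eq M 0 (ii hF j)
    simp only [zero_add, zsmul_eq_mul, mul_one, mul_zero] at h1 h2
    rw [h2, Complex.real_smul, ← mul_assoc] at h1
    have h3 : ((M : ℝ)⁻¹ : ℝ) * (M : ℂ) = 1 := by
      have : (M : ℂ) ≠ 0 := Int.cast_ne_zero.2 hM
      push_cast
      field_simp
    rw [h3, one_mul] at h1
    rw [Int.mul_ediv_cancel_left _ hM, fc_eq, fc_eq, ← h1]
    refine intervalIntegral.integral_congr fun x _ => ?_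
    simp only [E]
    congr 2
    push_cast
    ring
  · have hp : Function.Periodic (fun x : ℝ => F (M * x)) 1 := fun x => by
      have := hF.2.2.int_mul M (M * x)
      simpa [mul_add] using this
    have h1 := shift hp l (1 / M)
    have h2 : (fun x : ℝ => F (M * (x + 1 / M))) = fun x : ℝ => F (M * x) := by
      funext x
      rw [mul_add, mul_one_div_cancel hM', hF.2.2]
    rw [h2] at h1
    by_contra hne
    have h3 : E l (-(1 / M)) = 1 := by
      have : (E l (-(1 / M)) - 1) * fc (fun x : ℝ => F (M * x)) l = 0 := by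
        rw [sub_mul, ← h1, one_mul, sub_self]
      exact sub_eq_zero.1 ((mul_eq_zero.1 this).resolve_right hne)
    obtain ⟨n, hn⟩ := Complex.exp_eq_one_iff.1 h3
    have hM2 : (M : ℂ) ≠ 0 := Int.cast_ne_zero.2 hM
    have hpi : (2 * Real.pi * Complex.I : ℂ) ≠ 0 := Complex.two_pi_I_ne_zero
    refine hd ⟨n, ?_⟩
    have h4 : (2 * Real.pi * Complex.I : ℂ) * l = (2 * Real.pi * Complex.I) * (M * n) := by
      push_cast at hn
      field_simp at hn
      linear_combination (2 * Real.pi * Complex.I : ℂ) * hn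
    exact_mod_cast mul_left_cancel₀ hpi h4

theorem DU_pf : DU := by
  intro f g K Q hf hg hQ hK
  have h := (polar hf hg).update 0 0
  have h0 : (fc f 0 * (starRingEnd ℂ) (fc g 0)).re =
      (∫ x in (0 : ℝ)..1, f x) * (∫ x in (0 : ℝ)..1, g x) := by
    rw [fc_zero, fc_zero, Complex.conj_ofReal, ← Complex.ofReal_mul, Complex.ofReal_re]
  rw [h0] at h
  have h1 := hasSum_le_of_sum_le h (c := √(K * Q)) fun s => by
    have e : ∑ l ∈ s, Function.update (fun l => (fc f l * (starRingEnd ℂ) (fc g l)).re) 0 0 l ≤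
        ∑ l ∈ s.erase 0, (2 * Real.pi * |(l : ℝ)| * ‖fc f l‖) *
          (‖fc g l‖ / (2 * Real.pi * |(l : ℝ)|)) := by
      rw [← Finset.sum_erase s (a := 0) (by simp)]
      refine Finset.sum_le_sum fun l hl => ?_
      have hl0 := Finset.ne_of_mem_erase hl
      have hl1 : (0 : ℝ) < |(l : ℝ)| := abs_pos.2 (Int.cast_ne_zero.2 hl0)
      rw [Function.update_of_ne hl0]
      refine (Complex.re_le_norm _).trans (le_of_eq ?_)
      have := Real.pi_pos
      rw [norm_mul, Complex.norm_conj]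
      field_simp
    refine e.trans (Real.le_sqrt_of_sq_le ((Finset.sum_mul_sq_le_sq_mul_sq _ _ _).trans ?_))
    have a1 := sob hf hK (s.erase 0)
    have a2 := hQ (s.erase 0) (Finset.notMem_erase _ _)
    have a3 : ∑ l ∈ s.erase 0, (‖fc g l‖ / (2 * Real.pi * |(l : ℝ)|)) ^ 2 ≤ Q := by
      simpa only [div_pow, mul_pow, sq_abs] using a2
    exact mul_le_mul a1 a3 (Finset.sum_nonneg fun _ _ => sq_nonneg _)
      ((Finset.sum_nonneg fun _ _ => sq_nonneg _).trans a1)
  linarith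

end Pool.Agent.Lib.MP_a4d326_an.Q1
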