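import Pool.Agent.Lib.MP_a4d326_an.Q1.Stmt

/-! The value of the program that adds the pieces of all levels. -/

namespace Pool.Agent.Lib.MP_a4d326_an.Q1

open Finset

namespace EB2x

theorem key {Sb st en j : ℕ} (hS : 0 < Sb) (h : ovn Sb st en j ≠ 0) :
    st / Sb ≤ j ∧ j * Sb < en := by
  rw [ovn] at h
  exact ⟨Nat.lt_add_one_iff.1 ((Nat.div_lt_iff_lt_mul hS).2 (by omega)), by omega⟩

theorem sum_eq {Sb st en R X : ℕ} {A : Finset ℕ} (hS : 0 < Sb) (he : en ≤ R * Sb)
    (hA : ∀ j, st / Sb ≤ j → j * Sb < en → j ∈ A) :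
    ∑ j ∈ A, ovn Sb st en j * X ^ j = ∑ j ∈ range R, ovn Sb st en j * X ^ j := by
  rw [← sum_filter_ne_zero A, ← sum_filter_ne_zero (range R)]
  refine sum_congr (ext fun j => ?_) fun _ _ => rfl
  simp only [mem_filter, mem_range]
  refine and_congr_left fun h => ?_
  have k := key hS (left_ne_zero_of_mul h)
  exact iff_of_true (hA j k.1 k.2) (Nat.lt_of_mul_lt_mul_right (k.2.trans_le he))

theorem piece_eq (b Sb base st en : ℕ) : piece b Sb base st en =
    ∑ j ∈ Ico (st / Sb) (st / Sb + (en / Sb + 1 - st / Sb)),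
      ovn Sb st en j * (2 ^ b) ^ (j - base) := by
  rw [piece, sm_eq]
  refine sum_congr rfl fun j _ => ?_
  show (en - (en - (j + 1) * Sb) - (st + (j * Sb - st))) <<< (b * (j - base)) = _
  rw [Nat.shiftLeft_eq, pow_mul, ovn]
  congr 1
  omega

theorem pc2_eq (b Y Sb base st en : ℕ) : pc2 b Y Sb base st en =
    (en - st + (st % Sb + (en - st) - Sb) * Y) * (2 ^ b) ^ (st / Sb - base) := by
  show (en - st + (st % Sb + (en - st) - Sb) * Y) <<< (b * (st / Sb - base)) = _
  rw [Nat.shiftLeft_eq, pow_mul]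

theorem pc2_sum {b Sb st en R : ℕ} (hS : 0 < Sb) (he : en ≤ R * Sb) (hl : en ≤ st + Sb) :
    pc2 b (2 ^ b - 1) Sb 0 st en = ∑ j ∈ range R, ovn Sb st en j * (2 ^ b) ^ j := by
  have e := Nat.div_add_mod' st Sb
  have e' := Nat.mod_lt st hS
  rw [← sum_eq (A := {st / Sb, st / Sb + 1}) hS he fun j h1 h2 => by
    have : j < st / Sb + 2 := Nat.lt_of_mul_lt_mul_right (a := Sb) (by rw [add_mul]; omega)
    simp only [mem_insert, mem_singleton]
    omega, sum_pair (by omega), pc2_eq, Nat.sub_zero, pow_succ, mul_comm _ (2 ^ b), ← mul_assoc,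
    ← add_mul]
  congr 1
  obtain ⟨Y, hY⟩ : ∃ Y, 2 ^ b = Y + 1 := ⟨2 ^ b - 1, (Nat.sub_add_cancel Nat.one_le_two_pow).symm⟩
  have e1 : ovn Sb st en (st / Sb + 1) = st % Sb + (en - st) - Sb := by
    rw [ovn, add_mul, add_mul]
    omega
  have e2 : ovn Sb st en (st / Sb) + (st % Sb + (en - st) - Sb) = en - st := by
    rw [ovn, add_mul]
    omega
  rw [e1, hY, Nat.add_sub_cancel, mul_add, mul_one]
  omega

theorem lv_eq (h : Bld) {b R n : ℕ} {leaf : ℕ → ℕ → ℕ} (hn : n ≤ 16384)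
    (hl : ∀ base r, base ≤ r * R / n →
      leaf base r = leaf (r * R / n) r * (2 ^ b) ^ (r * R / n - base)) :
    lv b R n leaf = ∑ r ∈ cop n, leaf 0 r := by
  have := h b n leaf (fun r => r * R / n) (fun r => leaf (r * R / n) r)
    (fun x y e => Nat.div_le_div_right (Nat.mul_le_mul_right _ e)) hl 12 0 n (Nat.zero_le _)
    (by omega) (by omega)
  refine this.trans ?_
  rw [cop, range_eq_Ico]
  refine sum_congr rfl fun r _ => ?_
  rw [hl 0 r (Nat.zero_le _), zero_mul, Nat.zero_div]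

theorem lv2_eq (h : Bld) {b R Sb D n : ℕ} {st : ℕ → ℕ} (hS : 0 < Sb) (hD : D ≤ R * Sb)
    (h1 : 1 ≤ n) (hn : n ≤ 16384) (hs : ∀ r, r * (R * Sb) / n + 1 ≤ st r) :
    lv2 b (2 ^ b - 1) R Sb (R * Sb) D n st =
      ∑ r ∈ cop n, ∑ j ∈ range R, ovn Sb (st r) (en0 (R * Sb) D n r) j * (2 ^ b) ^ j := by
  have p : ∀ r, r * R / n ≤ st r / Sb := fun r => (Nat.le_div_iff_mul_le hS).2
    (((Nat.le_div_iff_mul_le h1).2 (by
      rw [mul_right_comm, ← mul_assoc]
      exact Nat.mul_le_mul_right _ (Nat.div_mul_le_self _ _))).trans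
        ((Nat.le_succ _).trans (hs r)))
  have q : ∀ r ∈ cop n, en0 (R * Sb) D n r ≤ R * Sb := fun r hr => by
    have : r + 1 ≤ n := mem_range.1 (mem_filter.1 hr).1
    show (r * (R * Sb) + D) / n ≤ _
    refine Nat.div_le_of_le_mul ?_
    nlinarith [Nat.mul_le_mul_right (R * Sb) this]
  rw [lv2]
  cases e : Nat.ble D (Nat.mul n Sb)
  · refine (lv_eq h hn fun base r hb => ?_).trans (sum_congr rfl fun r hr => ?_)
    · simp only [piece_eq, sum_mul]
      refine sum_congr rfl fun j hj => ?_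
      have := (p r).trans (mem_Ico.1 hj).1
      rw [mul_assoc, ← pow_add]
      congr 2
      omega
    · simp only [piece_eq, Nat.sub_zero]
      refine sum_eq hS (q r hr) fun j h1 h2 => ?_
      have := (Nat.le_div_iff_mul_le hS).2 h2.le
      rw [mem_Ico]
      omega
  · refine (lv_eq h hn fun base r hb => ?_).trans (sum_congr rfl fun r hr => ?_)
    · have := p r
      simp only [pc2_eq]
      rw [mul_assoc, ← pow_add]
      congr 2
      omega
    · refine pc2_sum hS (q r hr) ?_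
      have e1 : D ≤ n * Sb := Nat.le_of_ble_eq_true e
      have e2 : (r * (R * Sb) + D) / n ≤ (r * (R * Sb) + n * Sb) / n :=
        Nat.div_le_div_right (by omega)
      rw [Nat.add_mul_div_left _ _ h1] at e2
      have := hs r
      show (r * (R * Sb) + D) / n ≤ _
      omega

end EB2x

theorem EB2_pf (h1 : Bld) : EB2 := by
  intro b R Sb D N _ hS _ hD hN
  simp only [pre_eq, bco, sum_mul]
  rw [sum_comm]
  refine sum_congr rfl fun n hn => ?_
  have h := mem_Icc.1 hn
  rw [sum_comm, lev]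
  cases e : Nat.ble (Nat.mul n D) (R * Sb)
  · have e1 : ¬ n * D ≤ R * Sb := fun k =>
      Bool.false_ne_true (e.symm.trans (Nat.ble_eq_true_of_le k))
    simp only [stF, if_neg e1, ← phi_eq h.1]
    refine EB2x.lv2_eq h1 hS hD h.1 (h.2.trans hN) fun r => ?_
    rw [st1, mx_eq]
    exact le_max_left _ _
  · have e1 : n * D ≤ R * Sb := Nat.le_of_ble_eq_true e
    simp only [stF, if_pos e1]
    exact EB2x.lv2_eq h1 hS hD h.1 (h.2.trans hN) fun r => le_rfl

end Pool.Agent.Lib.MP_a4d326_an.Q1
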