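import Pool.Agent.Lib.MP_a4d326_an.Q1.Stmt

/-! The digit read by `dig` is a coefficient of a product of polynomials. -/

namespace Pool.Agent.Lib.MP_a4d326_an.Q1

open Polynomial Finset

namespace EB4x

noncomputable def Cq (R S q : ℕ) : ℕ[X] :=
  ∑ r ∈ cop q, (C (S - r * (R * S) / q % S) + C (r * (R * S) / q % S) * X) * X ^ (r * R / q)

noncomputable def B3 (R : ℕ) (β : ℕ → ℕ) : ℕ[X] :=
  ∑ c ∈ range 3, ∑ j ∈ range R, C (β j) * X ^ (j + c * R)

lemma coef_le (p K : ℕ[X]) (M : ℕ) (h : ∀ e, K.coeff e ≤ M) (i : ℕ) :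
    (p * K).coeff i ≤ p.eval 1 * M := by
  induction p using Polynomial.induction_on' with
  | add p q hp hq =>
    rw [add_mul, coeff_add, eval_add, add_mul]
    exact add_le_add hp hq
  | monomial n a =>
    rw [← C_mul_X_pow_eq_monomial, mul_assoc, coeff_C_mul, coeff_X_pow_mul']
    simp only [eval_mul, eval_C, eval_pow, eval_X, one_pow, mul_one]
    split_ifs
    · exact Nat.mul_le_mul_left _ (h _)
    · simp

lemma kz_nonneg (S dc rs : ℕ) (l : ℤ) : 0 ≤ kz S dc rs l := by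
  unfold kz
  split_ifs with h
  · have e : (S : ℝ) * (rs / S : ℕ) ≤ rs := by exact_mod_cast Nat.mul_div_le rs S
    have h1 : -((rs / S : ℕ) : ℝ) ≤ l := by exact_mod_cast h.1.le
    have h2 : (l : ℝ) ≤ dc + ((rs / S : ℕ) : ℝ) := by
      have := (Int.cast_le (R := ℝ)).2 h.2.le
      rwa [Int.cast_add, Int.cast_natCast, Int.cast_natCast] at this
    have S0 : (0 : ℝ) ≤ S := Nat.cast_nonneg _
    refine le_min ?_ (le_min (Nat.cast_nonneg _) ?_)
    · nlinarith [mul_le_mul_of_nonneg_left h1 S0]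
    · nlinarith [mul_le_mul_of_nonneg_left h2 S0]
  · exact le_rfl

lemma sh_le {S dc rs : ℕ} {K : ℕ[X]}
    (h : ∀ e : ℕ, (K.coeff e : ℝ) ≤ kz S dc rs ((dc : ℤ) + (rs / S : ℕ) - 1 - e)) (n o : ℕ) (l : ℤ)
    (e : l = (dc : ℤ) + (rs / S : ℕ) - 1 - (o - n)) : ((X ^ n * K).coeff o : ℝ) ≤ kz S dc rs l := by
  rw [coeff_X_pow_mul']
  split_ifs with c
  · have := h (o - n)
    rwa [Nat.cast_sub c, ← e] at this
  · rw [Nat.cast_zero]
    exact kz_nonneg _ _ _ _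

lemma top_le {R S Sb D dc rs N q cp : ℕ} {K : ℕ[X]} (hS : 0 < S) (hd : 1 ≤ dc) (hc : rs / S ≤ cp)
    (h : ∀ e : ℕ, (K.coeff e : ℝ) ≤ kz S dc rs ((dc : ℤ) + (rs / S : ℕ) - 1 - e)) :
    ((Cq R S q * X ^ (cp - rs / S) * B3 R (bco Sb (R * Sb) D N) * K).coeff
      (R + R + cp + dc - 1) : ℝ) ≤ ∑ r ∈ cop q, lane R S Sb D dc rs N q r := by
  rw [Cq, sum_mul, sum_mul, sum_mul, finsetSum_coeff, Nat.cast_sum]
  refine sum_le_sum fun r _ => ?_
  rw [B3, mul_sum, sum_mul, finsetSum_coeff, Nat.cast_sum, lane]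
  refine sum_le_sum fun c _ => ?_
  rw [mul_sum, sum_mul, finsetSum_coeff, Nat.cast_sum]
  refine sum_le_sum fun j _ => ?_
  have f1 := (Nat.mod_lt (r * (R * S) / q) hS).le
  generalize r * (R * S) / q % S = f at f1 ⊢
  generalize r * R / q = i
  generalize bco Sb (R * Sb) D N j = β
  have e : (C (S - f) + C f * X) * X ^ i * X ^ (cp - rs / S) * (C β * X ^ (j + c * R)) * K =
      C β * (C (S - f) * (X ^ (i + (cp - rs / S) + (j + c * R)) * K) +
        C f * (X ^ (i + (cp - rs / S) + (j + c * R) + 1) * K)) := by ring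
  have o : ((R + R + cp + dc - 1 : ℕ) : ℤ) = R + R + cp + dc - 1 := by omega
  have s : ((cp - rs / S : ℕ) : ℤ) = cp - (rs / S : ℕ) := Nat.cast_sub hc
  rw [e, coeff_C_mul, coeff_add, coeff_C_mul, coeff_C_mul, Nat.cast_mul, Nat.cast_add, Nat.cast_mul,
    Nat.cast_mul, Nat.cast_sub f1]
  have f2 : (0 : ℝ) ≤ (S : ℝ) - f := sub_nonneg.2 (Nat.cast_le.2 f1)
  gcongr
  · refine sh_le h _ _ _ ?_
    rw [o, Nat.cast_add, Nat.cast_add, s, Nat.cast_add, Nat.cast_mul]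
    ring
  · refine sh_le h _ _ _ ?_
    rw [o, Nat.cast_add, Nat.cast_add, Nat.cast_add, s, Nat.cast_add, Nat.cast_mul, Nat.cast_one]
    ring

lemma Cq_one {R S : ℕ} (hS : 0 < S) (q : ℕ) : (Cq R S q).eval 1 = Nat.totient q * S := by
  rw [Cq, eval_finsetSum, ← card_cop]
  refine sum_const_nat fun r _ => ?_
  have f1 := (Nat.mod_lt (r * (R * S) / q) hS).le
  simp only [eval_mul, eval_add, eval_C, eval_pow, eval_X, one_pow, mul_one]
  omega

lemma bco_le (Sb Q D N j : ℕ) : bco Sb Q D N j ≤ N * (N * Sb) := by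
  refine (sum_le_card_nsmul _ _ (N * Sb) fun n hn => ?_).trans (by simp)
  refine (sum_le_card_nsmul _ _ Sb fun r _ => ?_).trans ?_
  · rw [ovn, add_mul, one_mul]
    omega
  · rw [card_cop, smul_eq_mul]
    exact Nat.mul_le_mul_right _ ((Nat.totient_le n).trans (mem_Icc.1 hn).2)

lemma B3_one (R : ℕ) (β : ℕ → ℕ) (M : ℕ) (h : ∀ j, β j ≤ M) : (B3 R β).eval 1 ≤ 3 * (R * M) := by
  rw [B3, eval_finsetSum]
  refine (sum_le_card_nsmul _ _ (R * M) fun c _ => ?_).trans (by simp)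
  rw [eval_finsetSum]
  refine (sum_le_card_nsmul _ _ M fun j _ => ?_).trans (by simp)
  simpa using h j

lemma ext3_eq (b R : ℕ) (β : ℕ → ℕ) :
    ext3 (b * R) (∑ j ∈ range R, β j * (2 ^ b) ^ j) = (B3 R β).eval (2 ^ b) := by
  have e : ∀ c, (∑ j ∈ range R, C (β j) * X ^ (j + c * R) : ℕ[X]).eval (2 ^ b) =
      (∑ j ∈ range R, β j * (2 ^ b) ^ j) * ((2 ^ b) ^ R) ^ c := fun c => by
    rw [eval_finsetSum, sum_mul]
    refine sum_congr rfl fun j _ => ?_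
    simp only [eval_mul, eval_C, eval_pow, eval_X]
    ring
  rw [B3, eval_finsetSum]
  simp only [e]
  generalize ∑ j ∈ range R, β j * (2 ^ b) ^ j = x
  show x + (x + x <<< (b * R)) <<< (b * R) = _
  rw [Nat.shiftLeft_eq, Nat.shiftLeft_eq, pow_mul]
  simp only [sum_range_succ, sum_range_zero]
  ring

lemma rho_eq (Dn cap q m : ℕ) : rho Dn cap q m = max (min cap (Dn * (m - q) / q)) 1 := by
  rw [rho, mx_eq, mn_eq]
  rfl

lemma rho_le {cap : ℕ} (h : 1 ≤ cap) (Dn q m : ℕ) : rho Dn cap q m ≤ cap := by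
  rw [rho_eq]
  omega

lemma rho_mono (Dn cap q : ℕ) {m m' : ℕ} (h : m ≤ m') : rho Dn cap q m ≤ rho Dn cap q m' := by
  have : Dn * (m - q) / q ≤ Dn * (m' - q) / q :=
    Nat.div_le_div_right (Nat.mul_le_mul_left _ (by omega))
  rw [rho_eq, rho_eq]
  omega

lemma blk_eq {m₀ g : ℕ} (h0 : 1 ≤ m₀) (hg : 1 ≤ g) (m₁ q : ℕ) : blk m₀ m₁ q g =
    (Ico (max q ((m₀ - 1) / g) + 1) (m₁ / g + 1)).filter fun m => Nat.gcd m q = 1 := by
  ext m
  have e1 : (m₀ - 1) / g < m ↔ m₀ - 1 < m * g := Nat.div_lt_iff_lt_mul hg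
  have e2 : m ≤ m₁ / g ↔ m * g ≤ m₁ := Nat.le_div_iff_mul_le hg
  have e3 : m ≤ m * g := Nat.le_mul_of_pos_right m hg
  simp only [blk, mem_filter, mem_Icc, mem_Ico, mul_comm g m]
  omega

lemma kg_eq {m₀ g q : ℕ} (h0 : 1 ≤ m₀) (hg : 1 ≤ g) (hq : 1 ≤ q) (b Y S dc Dn cap Z m₁ om : ℕ) :
    kg b Y S dc Dn cap Z m₀ m₁ q om g = ∑ m ∈ blk m₀ m₁ q g,
      kt b Y S dc Dn cap q om (Z * Nat.totient (g * q) / (Nat.totient q * g)) m := by
  rw [blk_eq h0 hg, kg, mx_eq, ← phi_eq hq, ← phi_eq (Nat.mul_pos hg hq)]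
  show cnd (Nat.ble (max q ((m₀ - 1) / g) + 1) (m₁ / g))
    (smc (kt b Y S dc Dn cap q om (Z * phi (g * q) / (phi q * g))) q (max q ((m₀ - 1) / g) + 1)
      (m₁ / g + 1 - (max q ((m₀ - 1) / g) + 1))) 0 = _
  rw [cnd_eq]
  split_ifs with c <;> rw [Nat.ble_eq] at c
  · rw [smc_eq, Nat.add_sub_cancel' (by omega)]
  · rw [Ico_eq_empty (by omega), filter_empty, sum_empty]

lemma aq_eq (h1 : EB1) {b R S dc Dn cap Z m₀ m₁ q : ℕ} {K : ℕ → ℕ[X]} (hS : 0 < S) (hc : 1 ≤ cap)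
    (h0 : 1 ≤ m₀) (hq : 1 ≤ q) (hq' : q ≤ 16384)
    (hK : ∀ rs, kern b (2 ^ b - 1) S dc rs = (K rs).eval (2 ^ b)) :
    aq b (2 ^ b - 1) R S (R * S) dc Dn cap Z m₀ m₁ q = ∑ g ∈ Icc 1 m₁, ∑ m ∈ blk m₀ m₁ q g,
      Z * Nat.totient (g * q) / (Nat.totient q * g) / (m * rho Dn cap q m) *
        (Cq R S q * X ^ (cap / S - rho Dn cap q m / S) * K (rho Dn cap q m)).eval (2 ^ b) := by
  have e : comb b (2 ^ b - 1) R S (R * S) q = (Cq R S q).eval (2 ^ b) := by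
    rw [h1 b R S q hS hq hq', Cq, eval_finsetSum]
    simp only [eval_mul, eval_add, eval_C, eval_pow, eval_X]
  show (comb b (2 ^ b - 1) R S (R * S) q * pre (kg b (2 ^ b - 1) S dc Dn cap Z m₀ m₁ q
    (rho Dn cap q m₁ / S)) (m₁ / (q + 1))) <<< (b * (cap / S - rho Dn cap q m₁ / S)) = _
  rw [Nat.shiftLeft_eq, pre_eq, e, sum_subset (Icc_subset_Icc_right (Nat.div_le_self m₁ (q + 1))),
    mul_sum, sum_mul]
  · refine sum_congr rfl fun g hg => ?_
    rw [kg_eq h0 (mem_Icc.1 hg).1 hq, mul_sum, sum_mul]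
    refine sum_congr rfl fun m hm => ?_
    have a1 : rho Dn cap q m / S ≤ rho Dn cap q m₁ / S :=
      Nat.div_le_div_right (rho_mono _ _ _ (mem_Icc.1 (mem_filter.1 hm).1).2)
    have a2 : rho Dn cap q m₁ / S ≤ cap / S := Nat.div_le_div_right (rho_le hc _ _ _)
    show _ * ((_ / (m * rho Dn cap q m) * kern b (2 ^ b - 1) S dc (rho Dn cap q m)) <<<
      (b * (rho Dn cap q m₁ / S - rho Dn cap q m / S))) * _ = _
    rw [Nat.shiftLeft_eq, hK, show cap / S - rho Dn cap q m / S =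
      rho Dn cap q m₁ / S - rho Dn cap q m / S + (cap / S - rho Dn cap q m₁ / S) by omega]
    simp only [eval_mul, eval_pow, eval_X]
    ring
  · intro g hg hg'
    rw [kg_eq h0 (mem_Icc.1 hg).1 hq]
    refine sum_eq_zero fun m hm => absurd (mem_Icc.2 ⟨(mem_Icc.1 hg).1, ?_⟩) hg'
    obtain ⟨a, -, -, c⟩ := mem_filter.1 hm
    exact (Nat.le_div_iff_mul_le q.succ_pos).2 ((Nat.mul_le_mul_left g (mem_Icc.1 a).1).trans c)

lemma c_le {g q m : ℕ} (hg : 1 ≤ g) (hm : q + 1 ≤ m) (Z rs : ℕ) :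
    Z * Nat.totient (g * q) / (Nat.totient q * g) / (m * rs) * (Nat.totient q * rs) ≤ Z := by
  have a1 := Nat.div_mul_le_self (Z * Nat.totient (g * q)) (Nat.totient q * g)
  have a2 := Nat.div_mul_le_self (Z * Nat.totient (g * q) / (Nat.totient q * g)) (m * rs)
  have a3 := Nat.totient_le (g * q)
  generalize Z * Nat.totient (g * q) / (Nat.totient q * g) = n at a1 a2 ⊢
  generalize n / (m * rs) = c at a2 ⊢
  refine Nat.le_of_mul_le_mul_right (c := g * m) ?_ (Nat.mul_pos hg (by omega))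
  calc c * (Nat.totient q * rs) * (g * m) = c * (m * rs) * (Nat.totient q * g) := by ring
    _ ≤ n * (Nat.totient q * g) := Nat.mul_le_mul_right _ a2
    _ ≤ Z * (g * q) := a1.trans (Nat.mul_le_mul_left _ a3)
    _ ≤ Z * (g * m) := Nat.mul_le_mul_left _ (Nat.mul_le_mul_left _ (by omega))

end EB4x

open EB4x in
theorem EB4_pf (h1 : EB1) (h2 : EB2) (h3 : EB3) (h4 : Dgt) : EB4 := by
  intro b R S Sb dc Dn D cap Z m₀ m₁ hb hR hS hSb hd hD hD' hc h0 h01 hm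
  choose K hK hK' using fun rs => h3 b S dc rs hb hS hd
  let P : ℕ[X] := ∑ q ∈ Ico 1 m₁, ∑ g ∈ Icc 1 m₁, ∑ m ∈ blk m₀ m₁ q g,
    C (Z * Nat.totient (g * q) / (Nat.totient q * g) / (m * rho Dn cap q m)) *
      (Cq R S q * X ^ (cap / S - rho Dn cap q m / S) * B3 R (bco Sb (R * Sb) D (m₀ + 1)) *
        K (rho Dn cap q m))
  have X2 : 2 ≤ 2 ^ b := Nat.le_self_pow (by omega) 2
  have e : dig b (2 ^ b - 1) R S (R * S) Sb (R * Sb) dc Dn D cap Z m₀ m₁ =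
      P.eval (2 ^ b) / (2 ^ b) ^ (R + R + cap / S + dc - 1) % 2 ^ b := by
    show (pre (aq b (2 ^ b - 1) R S (R * S) dc Dn cap Z m₀ m₁) (m₁ - 1) *
      ext3 (b * R) (pre (lev b (2 ^ b - 1) R Sb (R * Sb) D) (m₀ + 1))) >>>
        (b * (R + R + cap / S + dc - 1)) % (2 ^ b - 1 + 1) = _
    rw [Nat.shiftRight_eq_div_pow, pow_mul, Nat.sub_add_cancel (by omega),
      h2 b R Sb D (m₀ + 1) hR hSb hD hD' (by omega), ext3_eq, pre_eq,
      show Icc 1 (m₁ - 1) = Ico 1 m₁ by ext; simp only [mem_Icc, mem_Ico]; omega, sum_mul,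
      eval_finsetSum]
    congr 2
    refine sum_congr rfl fun q hq => ?_
    have := mem_Ico.1 hq
    rw [aq_eq h1 hS hc h0 this.1 (by omega) hK, sum_mul, eval_finsetSum]
    refine sum_congr rfl fun g _ => ?_
    rw [sum_mul, eval_finsetSum]
    refine sum_congr rfl fun m _ => ?_
    simp only [eval_mul, eval_C]
    ring
  have hP : ∀ i, P.coeff i ≤ 3 * S * Z * Sb * R * (m₁ + 1) ^ 5 := fun i => by
    obtain ⟨M, hM⟩ : ∃ M, M = Z * S * (3 * (R * ((m₀ + 1) * ((m₀ + 1) * Sb)))) := ⟨_, rfl⟩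
    rw [finsetSum_coeff]
    refine (sum_le_card_nsmul _ _ (m₁ * (m₁ * M)) fun q _ => ?_).trans ?_
    · rw [finsetSum_coeff]
      refine (sum_le_card_nsmul _ _ (m₁ * M) fun g hg => ?_).trans (by simp)
      rw [finsetSum_coeff]
      refine (sum_le_card_nsmul _ _ M fun m hm => ?_).trans (Nat.mul_le_mul_right _
        ((card_filter_le _ _).trans (by rw [Nat.card_Icc]; omega)))
      have a1 := c_le (mem_Icc.1 hg).1 (mem_Icc.1 (mem_filter.1 hm).1).1 Z (rho Dn cap q m)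
      have a2 := B3_one R _ _ (bco_le Sb (R * Sb) D (m₀ + 1))
      rw [coeff_C_mul, hM]
      refine (Nat.mul_le_mul_left _ (coef_le _ _ _ (fun e => (hK' _ e).1) i)).trans ?_
      rw [eval_mul, eval_mul, Cq_one hS, eval_pow, eval_X, one_pow, mul_one]
      refine le_trans (le_of_eq ?_) (Nat.mul_le_mul (Nat.mul_le_mul_right S a1) a2)
      ring
    · rw [Nat.card_Ico, smul_eq_mul, hM]
      calc _ ≤ (m₁ + 1) * ((m₁ + 1) * ((m₁ + 1) *
            (Z * S * (3 * (R * ((m₁ + 1) * ((m₁ + 1) * Sb))))))) := by gcongr <;> omega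
        _ = _ := by ring
  have := h4 P (2 ^ b) _ (R + R + cap / S + dc - 1) X2 hP
  rw [e]
  refine this.trans (add_le_add ?_ (le_of_eq (by push_cast; rfl)))
  rw [finsetSum_coeff, Nat.cast_sum]
  refine sum_le_sum fun q _ => ?_
  rw [finsetSum_coeff, Nat.cast_sum]
  refine sum_le_sum fun g _ => ?_
  rw [finsetSum_coeff, Nat.cast_sum]
  refine sum_le_sum fun m _ => ?_
  rw [coeff_C_mul, Nat.cast_mul]
  refine mul_le_mul ?_ (top_le hS hd (Nat.div_le_div_right (rho_le hc _ _ _)) fun e => (hK' _ e).2)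
    (Nat.cast_nonneg _) (by positivity)
  rw [Nat.div_div_eq_div_mul]
  refine Nat.cast_div_le.trans (le_of_eq ?_)
  push_cast
  ring

end Pool.Agent.Lib.MP_a4d326_an.Q1
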