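import Pool.Agent.Lib.MP_a4d326_an.Q1.Stmt

/-! The minorant `fB`: comparison with `fU` and its mean. -/

namespace Pool.Agent.Lib.MP_a4d326_an.Q1

open MeasureTheory Set

namespace FB1x

lemma lam_pos (m₀ k : ℕ) : 0 < lam m₀ k := lt_of_lt_of_le (by norm_num) (le_max_left _ _)

lemma lam_le_one (m₀ k : ℕ) : lam m₀ k ≤ 1 := by
  refine max_le (by norm_num) ?_
  have : (0 : ℝ) ≤ k / (m₀ + 4 : ℝ) := by positivity
  linarith

lemma cont_aa (δ : ℝ) (m₀ k : ℕ) : Continuous (aa δ m₀ k) := by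
  unfold aa
  fun_prop

lemma cont_bb (δ : ℝ) (m₀ k : ℕ) : Continuous (bb δ m₀ k) := by
  unfold bb
  exact (cont_aa δ m₀ k).comp (by fun_prop)

lemma meas_fB (δ : ℝ) (m₀ : ℕ) : Measurable (fB δ m₀) := by
  refine measurable_slice (p := fun α s => ∀ k : ℕ, 1 ≤ k → k < m₀ + 4 → ∀ p : ℤ,
    Int.gcd p k = 1 → s < aa δ m₀ k (k * α - p) ∨ bb δ m₀ k (k * α - p) ≤ s) 0 δ ?_
  simp only [ofPred_forall, ofPred_or]
  refine MeasurableSet.iInter fun k => MeasurableSet.iInter fun _ => MeasurableSet.iInter fun _ =>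
    MeasurableSet.iInter fun p => MeasurableSet.iInter fun _ => MeasurableSet.union ?_ ?_
  · exact measurableSet_lt measurable_snd
      (((cont_aa δ m₀ k).comp (by fun_prop : Continuous fun z : ℝ × ℝ =>
        (k : ℝ) * z.1 - p)).measurable)
  · exact measurableSet_le
      (((cont_bb δ m₀ k).comp (by fun_prop : Continuous fun z : ℝ × ℝ =>
        (k : ℝ) * z.1 - p)).measurable) measurable_snd

lemma fB_nonneg (δ : ℝ) (m₀ : ℕ) (α : ℝ) : 0 ≤ fB δ m₀ α := measureReal_nonneg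

lemma fB_le {δ : ℝ} (hδ : 0 ≤ δ) (m₀ : ℕ) (α : ℝ) : fB δ m₀ α ≤ δ := by
  simpa [fB] using slice_le hδ fun s => ∀ k : ℕ, 1 ≤ k → k < m₀ + 4 → ∀ p : ℤ,
    Int.gcd p k = 1 → s < aa δ m₀ k (k * α - p) ∨ bb δ m₀ k (k * α - p) ≤ s

lemma per_fB (δ : ℝ) (m₀ : ℕ) : Function.Periodic (fB δ m₀) 1 := by
  intro α
  unfold fB
  congr 1
  ext s
  simp only [mem_ofPred_eq]
  refine and_congr_right fun _ => ⟨fun h k h1 h2 p hp => ?_, fun h k h1 h2 p hp => ?_⟩
  · have := h k h1 h2 (p + k) (by rw [Int.gcd_add_self_left]; exact hp)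
    rwa [show (k : ℝ) * (α + 1) - ((p + k : ℤ) : ℝ) = k * α - p by push_cast; ring] at this
  · have := h k h1 h2 (p - k) (by rw [Int.gcd_sub_self_left]; exact hp)
    rwa [show (k : ℝ) * α - ((p - k : ℤ) : ℝ) = k * (α + 1) - p by push_cast; ring] at this

/-- Reduction to a primitive pair. -/
lemma prim {δ s α : ℝ} {m k : ℕ} (hs0 : 0 ≤ s) (hs : s < δ) (hk : 1 ≤ k)
    (h : Int.fract (s - k * (α + s / m)) < δ) :
    ∃ (k' : ℕ) (p : ℤ), 1 ≤ k' ∧ k' ≤ k ∧ Int.gcd p k' = 1 ∧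
      s - δ < k' * (α + s / m) - p ∧ k' * (α + s / m) - p ≤ s := by
  set x := α + s / m with hx
  set q : ℤ := -⌊s - k * x⌋ with hq
  have h0 := Int.fract_nonneg (s - k * x)
  have e : Int.fract (s - k * x) = s - (k * x - q) := by
    rw [Int.fract, hq]; push_cast; ring
  rw [e] at h h0
  have hg : 0 < Int.gcd q k := Int.gcd_pos_of_ne_zero_right _ (by exact_mod_cast (by omega : k ≠ 0))
  obtain ⟨p, k1, hco, hp, hk1⟩ := Int.exists_gcd_one hg
  set g := Int.gcd q k with hgd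
  have hk1p : 0 < k1 := by
    by_contra hc
    push Not at hc
    have : k1 * (g : ℤ) ≤ 0 := mul_nonpos_of_nonpos_of_nonneg hc (by positivity)
    omega
  obtain ⟨k', rfl⟩ := Int.eq_ofNat_of_zero_le hk1p.le
  have hkn : k = k' * g := by exact_mod_cast hk1
  have hk' : 1 ≤ k' := by exact_mod_cast hk1p
  have hgr : (1 : ℝ) ≤ g := by exact_mod_cast hg
  have hz : (k : ℝ) * x - q = (k' * x - p) * g := by
    have e1 : (k : ℝ) = k' * g := by exact_mod_cast hkn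
    have e2 : (q : ℝ) = p * g := by exact_mod_cast hp
    rw [e1, e2]; ring
  rw [hz] at h h0
  refine ⟨k', p, hk', ?_, hco, ?_, ?_⟩
  · rw [hkn]; exact Nat.le_mul_of_pos_right _ hg
  · by_contra hc
    push Not at hc
    nlinarith
  · by_contra hc
    push Not at hc
    nlinarith

lemma cmp {δ : ℝ} {m₀ m : ℕ} (hm₀ : 1 ≤ m₀) (h1 : m₀ ≤ m) (h2 : m ≤ m₀ + 4) (α : ℝ) :
    fB δ m₀ α ≤ fU δ m α := by
  refine slice_mono _ _ fun s hs h k hk1 hk2 => ?_
  by_contra hc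
  push Not at hc
  obtain ⟨k', p, a1, a2, a3, a4, a5⟩ := prim hs.1 hs.2 hk1 hc
  have hl := lam_pos m₀ k'
  have hm0 : (0 : ℝ) < m₀ := by exact_mod_cast hm₀
  have hm1 : (m₀ : ℝ) ≤ m := by exact_mod_cast h1
  have hm2 : (m : ℝ) ≤ m₀ + 4 := by exact_mod_cast h2
  have hm : (0 : ℝ) < m := by linarith
  have hk0 : (0 : ℝ) ≤ k' := by positivity
  have hkm : (k' : ℝ) ≤ m := by exact_mod_cast (by omega : k' ≤ m)
  have b1 : 1 - (k' : ℝ) / m ≤ lam m₀ k' := by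
    refine le_trans ?_ (le_max_right _ _)
    have : (k' : ℝ) / (m₀ + 4) ≤ k' / m := div_le_div_of_nonneg_left hk0 hm hm2
    linarith
  have b2 : (k' : ℝ) / m ≤ min 1 ((k' : ℝ) / m₀) :=
    le_min ((div_le_one hm).2 hkm) (div_le_div_of_nonneg_left hk0 hm0 hm1)
  have e : (k' : ℝ) * (α + s / m) - p = (k' * α - p) + s * (k' / m) := by ring
  rw [e] at a4 a5
  set t := (k' : ℝ) / m
  set y := (k' : ℝ) * α - p
  have hs0 := hs.1
  have hs1 := hs.2
  rcases h k' a1 (by omega) p a3 with h3 | h3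
  · refine absurd h3 (not_lt.2 (max_le hs0 ((min_le_right _ _).trans ?_)))
    rw [div_le_iff₀ hl]
    nlinarith
  · refine absurd h3 (not_le.2 (lt_max_of_lt_right (lt_min hs1 ?_)))
    rw [lt_div_iff₀ hl]
    have c1 : (δ - s) * (1 - t) ≤ (δ - s) * lam m₀ k' :=
      mul_le_mul_of_nonneg_left b1 (by linarith)
    have c2 : δ * t ≤ δ * min 1 ((k' : ℝ) / m₀) := mul_le_mul_of_nonneg_left b2 (by linarith)
    nlinarith

lemma aa_le_bb {δ : ℝ} (hδ : 0 ≤ δ) (m₀ k : ℕ) (y : ℝ) : aa δ m₀ k y ≤ bb δ m₀ k y := by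
  have hl := lam_pos m₀ k
  have : 0 ≤ δ * (lam m₀ k + min 1 (k / (m₀ : ℝ))) :=
    mul_nonneg hδ (add_nonneg hl.le (le_min zero_le_one (by positivity)))
  refine max_le_max le_rfl (min_le_min le_rfl ?_)
  exact div_le_div_of_nonneg_right (by linarith) hl.le

/-- The covered part of `[0, δ)`. -/
lemma cover {δ : ℝ} (hδ : 0 < δ) (hδ1 : δ ≤ 1) (m₀ : ℕ) {α : ℝ} (h0 : 0 ≤ α) (h1 : α ≤ 1) :
    δ - fB δ m₀ α ≤ ∑ k ∈ Finset.Ico 1 (m₀ + 4),
      ∑ p ∈ (Finset.Icc (-2 : ℤ) (k + 3)).filter (fun p => Int.gcd p k = 1),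
        (bb δ m₀ k (k * α - p) - aa δ m₀ k (k * α - p)) := by
  set A := {s ∈ Ico (0 : ℝ) δ | ∀ k : ℕ, 1 ≤ k → k < m₀ + 4 → ∀ p : ℤ, Int.gcd p k = 1 →
    s < aa δ m₀ k (k * α - p) ∨ bb δ m₀ k (k * α - p) ≤ s} with hA
  set B := ⋃ k ∈ Finset.Ico 1 (m₀ + 4),
    ⋃ p ∈ (Finset.Icc (-2 : ℤ) (k + 3)).filter (fun p => Int.gcd p k = 1),
      Ico (aa δ m₀ k (k * α - p)) (bb δ m₀ k (k * α - p)) with hB
  have hsub : Ico (0 : ℝ) δ ⊆ A ∪ B := by
    intro s hs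
    by_cases h : s ∈ A
    · exact Or.inl h
    · right
      have : ¬ ∀ k : ℕ, 1 ≤ k → k < m₀ + 4 → ∀ p : ℤ, Int.gcd p k = 1 →
        s < aa δ m₀ k (k * α - p) ∨ bb δ m₀ k (k * α - p) ≤ s := fun h' => h ⟨hs, h'⟩
      push Not at this
      obtain ⟨k, a1, a2, p, a3, a4, a5⟩ := this
      have hl := lam_pos m₀ k
      have hl1 := lam_le_one m₀ k
      have hk0 : (0 : ℝ) ≤ k := by positivity
      have c1 : (k : ℝ) * α - p ≤ s * lam m₀ k := by
        have := (le_max_right _ _).trans a4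
        rcases min_le_iff.1 this with h2 | h2
        · exact absurd hs.2 (not_lt.2 h2)
        · rwa [div_le_iff₀ hl] at h2
      have c2 : 0 < (k : ℝ) * α - p + δ * (lam m₀ k + min 1 (k / (m₀ : ℝ))) := by
        rcases lt_max_iff.1 a5 with h2 | h2
        · exact absurd hs.1 (not_le.2 h2)
        · have h3 := hs.1.trans_lt (lt_min_iff.1 h2).2
          rwa [lt_div_iff₀ hl, zero_mul] at h3
      have c3 : δ * (lam m₀ k + min 1 (k / (m₀ : ℝ))) ≤ 2 := by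
        have : min 1 (k / (m₀ : ℝ)) ≤ 1 := min_le_left _ _
        nlinarith
      have c4 : s * lam m₀ k ≤ 1 := by nlinarith [hs.1, hs.2]
      have c5 : 0 ≤ (k : ℝ) * α := mul_nonneg hk0 h0
      have c6 : (k : ℝ) * α ≤ k := by nlinarith
      simp only [hB, mem_iUnion, Finset.mem_Ico, Finset.mem_filter, Finset.mem_Icc]
      refine ⟨k, ⟨a1, a2⟩, p, ⟨⟨?_, ?_⟩, a3⟩, a4, a5⟩
      · have : (-2 : ℝ) ≤ p := by linarith
        exact_mod_cast this
      · have : (p : ℝ) ≤ k + 3 := by linarith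
        exact_mod_cast this
  have hBt : volume B ≠ ⊤ := by
    refine measure_ne_top_of_subset (t := B) (s := Icc 0 δ) ?_ measure_Icc_lt_top.ne
    intro s hs
    simp only [hB, mem_iUnion] at hs
    obtain ⟨k, -, p, -, a1, a2⟩ := hs
    exact ⟨(le_max_left _ _).trans a1, a2.le.trans (max_le hδ.le (min_le_left _ _))⟩
  have e1 : δ ≤ volume.real A + volume.real B := by
    have := (measureReal_mono (μ := volume) hsub
      (measure_union_ne_top (slice_ne_top _ _ _) hBt)).trans (measureReal_union_le A B)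
    rwa [Real.volume_real_Ico_of_le hδ.le, sub_zero] at this
  have e2 : volume.real B ≤ ∑ k ∈ Finset.Ico 1 (m₀ + 4),
      ∑ p ∈ (Finset.Icc (-2 : ℤ) (k + 3)).filter (fun p => Int.gcd p k = 1),
        (bb δ m₀ k (k * α - p) - aa δ m₀ k (k * α - p)) := by
    refine (measureReal_biUnion_finset_le _ _).trans (Finset.sum_le_sum fun k _ => ?_)
    refine (measureReal_biUnion_finset_le _ _).trans (Finset.sum_le_sum fun p _ => ?_)
    rw [Real.volume_real_Ico_of_le (aa_le_bb hδ.le _ _ _)]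
  have e3 : fB δ m₀ α = volume.real A := rfl
  linarith

lemma one_k (hU : Unf) (hC : Clip) {δ : ℝ} (hδ : 0 < δ) (m₀ k : ℕ) (hk : 1 ≤ k) (P : Finset ℤ) :
    ∑ p ∈ P.filter (fun p => Int.gcd p k = 1),
        ∫ α in (0 : ℝ)..1, (bb δ m₀ k (k * α - p) - aa δ m₀ k (k * α - p)) ≤
      δ ^ 2 * ((Nat.totient k : ℝ) / k * (lam m₀ k + min 1 (k / (m₀ : ℝ)))) := by
  have hl := lam_pos m₀ k
  have hσ : 0 ≤ δ * (lam m₀ k + min 1 (k / (m₀ : ℝ))) :=
    mul_nonneg hδ.le (add_nonneg hl.le (le_min zero_le_one (by positivity)))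
  obtain ⟨c1, c2⟩ := hC δ (lam m₀ k) _ hδ hl hσ
  have hkr : (0 : ℝ) < k := by exact_mod_cast hk
  have h := hU k hk P (fun y => bb δ m₀ k y - aa δ m₀ k y) (fun _ => 1)
    ((cont_bb δ m₀ k).sub (cont_aa δ m₀ k)).measurable c1
    (fun y => sub_nonneg.2 (aa_le_bb hδ.le _ _ _)) measurable_const (fun _ => zero_le_one)
    (fun _ => le_rfl) (fun _ => rfl)
  simp only [mul_one] at h
  refine h.trans (le_of_eq ?_)
  have e : ∀ p : ℕ, ∫ α : ℝ, (bb δ m₀ k (k * α - p) - aa δ m₀ k (k * α - p)) =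
      (k : ℝ)⁻¹ * (δ * (lam m₀ k + min 1 (k / (m₀ : ℝ))) * δ) := by
    intro p
    rw [Measure.integral_comp_mul_left (fun y => bb δ m₀ k (y - p) - aa δ m₀ k (y - p)) (k : ℝ),
      integral_sub_right_eq_self (fun y => bb δ m₀ k y - aa δ m₀ k y) (p : ℝ),
      abs_of_pos (inv_pos.2 hkr), smul_eq_mul]
    congr 1
  rw [Finset.sum_congr rfl fun p _ => e p, Finset.sum_const, card_cop, nsmul_eq_mul]
  field_simp

end FB1x

open FB1x

theorem FB1_pf : FB1 := fun δ m₀ hδ hm =>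
  ⟨⟨meas_fB δ m₀, ⟨δ, fun x => by
      rw [abs_of_nonneg (fB_nonneg _ _ _)]; exact fB_le hδ.le _ _⟩, per_fB δ m₀⟩,
    fun _ h1 h2 α => cmp hm h1 h2 α⟩

theorem FB2_pf (h1 : Unf) (h2 : Clip) (h3 : FB1) : FB2 := by
  intro δ m₀ hδ hδ1 hm
  obtain ⟨⟨n1, ⟨C, n2⟩, -⟩, -⟩ := h3 δ m₀ hδ hm
  have i1 : IntervalIntegrable (fB δ m₀) volume 0 1 := bdd_ii n1 C n2 0 1
  have ct : ∀ (k : ℕ) (p : ℤ), Continuous fun α : ℝ =>
      bb δ m₀ k (k * α - p) - aa δ m₀ k (k * α - p) := fun k p =>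
    ((cont_bb δ m₀ k).sub (cont_aa δ m₀ k)).comp
      (by fun_prop : Continuous fun α : ℝ => (k : ℝ) * α - p)
  have ct2 : ∀ k : ℕ, Continuous fun α : ℝ =>
      ∑ p ∈ (Finset.Icc (-2 : ℤ) (k + 3)).filter (fun p => Int.gcd p k = 1),
        (bb δ m₀ k (k * α - p) - aa δ m₀ k (k * α - p)) := fun k =>
    continuous_finsetSum _ fun p _ => ct k p
  have e1 := intervalIntegral.integral_mono_on zero_le_one
    ((intervalIntegrable_const (c := δ)).sub i1)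
    ((continuous_finsetSum _ fun k _ => ct2 k).intervalIntegrable 0 1)
    fun α hα => cover hδ hδ1 m₀ hα.1 hα.2
  rw [intervalIntegral.integral_sub intervalIntegrable_const i1,
    intervalIntegral.integral_finsetSum fun k _ => (ct2 k).intervalIntegrable 0 1] at e1
  have e2 : ∑ k ∈ Finset.Ico 1 (m₀ + 4), ∫ α in (0 : ℝ)..1,
      ∑ p ∈ (Finset.Icc (-2 : ℤ) (k + 3)).filter (fun p => Int.gcd p k = 1),
        (bb δ m₀ k (k * α - p) - aa δ m₀ k (k * α - p)) ≤ δ ^ 2 * xS m₀ := by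
    rw [xS, Finset.mul_sum]
    refine Finset.sum_le_sum fun k hk => ?_
    rw [intervalIntegral.integral_finsetSum fun p _ => (ct k p).intervalIntegrable 0 1]
    exact one_k h1 h2 hδ m₀ k (Finset.mem_Ico.1 hk).1 _
  simp only [intervalIntegral.integral_const, sub_zero, smul_eq_mul, one_mul] at e1
  linarith

end Pool.Agent.Lib.MP_a4d326_an.Q1
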