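import Pool.Agent.Lib.MP_a4d326_an.Q1.Stmt

/-! The increments of the minorant in mean square. -/

namespace Pool.Agent.Lib.MP_a4d326_an.Q1

open MeasureTheory Set

namespace FB3x

lemma vol_le {A B : Set ℝ} {δ x y : ℝ} (hxy : x ≤ y) (hB : B ⊆ Ico 0 δ) (h : A ⊆ B ∪ Ico x y) :
    volume.real A ≤ volume.real B + (y - x) := by
  have h1 : volume (B ∪ Ico x y) ≠ ⊤ :=
    measure_union_ne_top (measure_ne_top_of_subset hB measure_Ico_lt_top.ne) measure_Ico_lt_top.ne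
  calc volume.real A ≤ volume.real (B ∪ Ico x y) := measureReal_mono h h1
    _ ≤ volume.real B + volume.real (Ico x y) := measureReal_union_le _ _
    _ = _ := by rw [Real.volume_real_Ico_of_le hxy]

lemma gain {ι : Type} (S : ι → Prop) (T : Finset ι) (a b a' b' : ι → ℝ) (δ : ℝ)
    (hb : ∀ i, b i ≤ b' i) (h1 : ∀ i, 0 < a' i → δ ≤ b' i) (hT : ∀ i, S i → a i < a' i → i ∈ T)
    (hS : ∀ i ∈ T, S i) :
    ∃ x : ℝ, 0 ≤ x ∧ x ^ 2 ≤ ∑ i ∈ T, (a' i - a i) ^ 2 ∧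
      volume.real {s ∈ Ico (0 : ℝ) δ | ∀ i, S i → s < a' i ∨ b' i ≤ s} ≤
        volume.real {s ∈ Ico (0 : ℝ) δ | ∀ i, S i → s < a i ∨ b i ≤ s} + x := by
  classical
  have key : ∀ s, (∀ i, S i → s < a' i ∨ b' i ≤ s) → ¬ (∀ i, S i → s < a i ∨ b i ≤ s) →
      ∃ i ∈ T, a i ≤ s ∧ s < a' i := by
    intro s h h'
    push Not at h'
    obtain ⟨i, hi, h2, h3⟩ := h'
    have h4 : s < a' i := (h i hi).resolve_right (by linarith [hb i])
    exact ⟨i, hT i hi (by linarith), h2, h4⟩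
  by_cases hne : (T.filter fun i => ∃ s, 0 ≤ s ∧ a i ≤ s ∧ s < a' i).Nonempty
  · obtain ⟨j, hj, hmin⟩ := Finset.exists_min_image _ a hne
    obtain ⟨hj, t, ht0, ht1, ht2⟩ := Finset.mem_filter.1 hj
    refine ⟨a' j - a j, by linarith, Finset.single_le_sum (f := fun i => (a' i - a i) ^ 2)
      (fun i _ => sq_nonneg _) hj, vol_le (δ := δ) (by linarith) (sep_subset _ _) fun s hs => ?_⟩
    by_cases h : ∀ i, S i → s < a i ∨ b i ≤ s
    · exact Or.inl ⟨hs.1, h⟩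
    · obtain ⟨i, hi, h2, h3⟩ := key s hs.2 h
      refine Or.inr ⟨(hmin i (Finset.mem_filter.2 ⟨hi, s, hs.1.1, h2, h3⟩)).trans h2, ?_⟩
      exact (hs.2 j (hS j hj)).resolve_right (by linarith [h1 j (by linarith), hs.1.2])
  · refine ⟨0, le_rfl, by simpa using Finset.sum_nonneg fun i _ => sq_nonneg (a' i - a i), ?_⟩
    rw [add_zero]
    refine slice_mono _ _ fun s hs h => ?_
    by_contra h'
    obtain ⟨i, hi, h2, h3⟩ := key s h h'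
    exact hne ⟨i, Finset.mem_filter.2 ⟨hi, s, hs.1, h2, h3⟩⟩

lemma loss {ι : Type} (S : ι → Prop) (T : Finset ι) (a b a' b' : ι → ℝ) (δ : ℝ)
    (ha : ∀ i, a i ≤ a' i) (h1 : ∀ i, b i < δ → a i ≤ 0) (hT : ∀ i, S i → b i < b' i → i ∈ T)
    (hS : ∀ i ∈ T, S i) :
    ∃ x : ℝ, 0 ≤ x ∧ x ^ 2 ≤ ∑ i ∈ T, (b' i - b i) ^ 2 ∧
      volume.real {s ∈ Ico (0 : ℝ) δ | ∀ i, S i → s < a i ∨ b i ≤ s} ≤
        volume.real {s ∈ Ico (0 : ℝ) δ | ∀ i, S i → s < a' i ∨ b' i ≤ s} + x := by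
  classical
  have key : ∀ s, (∀ i, S i → s < a i ∨ b i ≤ s) → ¬ (∀ i, S i → s < a' i ∨ b' i ≤ s) →
      ∃ i ∈ T, b i ≤ s ∧ s < b' i := by
    intro s h h'
    push Not at h'
    obtain ⟨i, hi, h2, h3⟩ := h'
    have h4 : b i ≤ s := (h i hi).resolve_left (by linarith [ha i])
    exact ⟨i, hT i hi (by linarith), h4, h3⟩
  by_cases hne : (T.filter fun i => ∃ s, s < δ ∧ b i ≤ s ∧ s < b' i).Nonempty
  · obtain ⟨j, hj, hmax⟩ := Finset.exists_max_image _ b' hne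
    obtain ⟨hj, t, ht0, ht1, ht2⟩ := Finset.mem_filter.1 hj
    refine ⟨b' j - b j, by linarith, Finset.single_le_sum (f := fun i => (b' i - b i) ^ 2)
      (fun i _ => sq_nonneg _) hj, vol_le (δ := δ) (by linarith) (sep_subset _ _) fun s hs => ?_⟩
    by_cases h : ∀ i, S i → s < a' i ∨ b' i ≤ s
    · exact Or.inl ⟨hs.1, h⟩
    · obtain ⟨i, hi, h2, h3⟩ := key s hs.2 h
      refine Or.inr ⟨?_, h3.trans_le (hmax i (Finset.mem_filter.2 ⟨hi, s, hs.1.2, h2, h3⟩))⟩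
      exact (hs.2 j (hS j hj)).resolve_left (by linarith [h1 j (by linarith), hs.1.1])
  · refine ⟨0, le_rfl, by simpa using Finset.sum_nonneg fun i _ => sq_nonneg (b' i - b i), ?_⟩
    rw [add_zero]
    refine slice_mono _ _ fun s hs h => ?_
    by_contra h'
    obtain ⟨i, hi, h2, h3⟩ := key s h h'
    exact hne ⟨i, Finset.mem_filter.2 ⟨hi, s, hs.2, h2, h3⟩⟩

lemma lam_pos (m₀ k : ℕ) : 0 < lam m₀ k := lt_max_of_lt_left (by norm_num)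

lemma lam_le (m₀ k : ℕ) : lam m₀ k ≤ 1 :=
  max_le (by norm_num) (sub_le_self _ (by positivity))

lemma aa_mono (δ : ℝ) (m₀ k : ℕ) {y y' : ℝ} (h : y ≤ y') : aa δ m₀ k y ≤ aa δ m₀ k y' :=
  max_le_max le_rfl (min_le_min le_rfl (div_le_div_of_nonneg_right h (lam_pos _ _).le))

lemma aa_lip (δ : ℝ) (m₀ k : ℕ) (y : ℝ) {σ : ℝ} (h : 0 ≤ σ) :
    aa δ m₀ k (y + σ) - aa δ m₀ k y ≤ σ / lam m₀ k := by
  have h1 : 0 ≤ σ / lam m₀ k := div_nonneg h (lam_pos _ _).le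
  unfold aa
  rw [add_div]
  simp only [max_def, min_def]
  split_ifs <;> linarith

lemma aa_zero (δ : ℝ) (m₀ k : ℕ) {y : ℝ} (h : y ≤ 0) : aa δ m₀ k y = 0 :=
  max_eq_left ((min_le_right _ _).trans (div_nonpos_of_nonpos_of_nonneg h (lam_pos _ _).le))

lemma aa_top {δ : ℝ} (hδ : 0 ≤ δ) (m₀ k : ℕ) {y : ℝ} (h : δ * lam m₀ k ≤ y) : aa δ m₀ k y = δ := by
  rw [aa, min_eq_left ((le_div_iff₀ (lam_pos _ _)).2 h), max_eq_right hδ]

lemma aa_le {δ : ℝ} (hδ : 0 ≤ δ) (m₀ k : ℕ) (y : ℝ) : aa δ m₀ k y ≤ δ :=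
  max_le hδ (min_le_left _ _)

lemma aa_lt {δ : ℝ} (hδ : 0 ≤ δ) (hδ1 : δ ≤ 1) {m₀ k : ℕ} {y y' : ℝ}
    (h : aa δ m₀ k y < aa δ m₀ k y') : y < 1 ∧ 0 < y' := by
  constructor
  · by_contra hc
    rw [aa_top hδ _ _ ((mul_le_one₀ hδ1 (lam_pos _ _).le (lam_le _ _)).trans (not_lt.1 hc))] at h
    exact absurd (aa_le hδ m₀ k y') (not_le.2 h)
  · by_contra hc
    rw [aa_zero _ _ _ (not_lt.1 hc)] at h
    exact absurd (le_max_left _ _) (not_le.2 h)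

lemma bb_top {δ : ℝ} (hδ : 0 ≤ δ) (m₀ k : ℕ) {y : ℝ} (h : 0 ≤ y) : bb δ m₀ k y = δ := by
  have : 0 ≤ δ * min 1 (k / (m₀ : ℝ)) := mul_nonneg hδ (le_min zero_le_one (by positivity))
  exact aa_top hδ _ _ (by linarith [mul_add δ (lam m₀ k) (min 1 (k / (m₀ : ℝ)))])

/-- the shift between the two ends -/
noncomputable def sh (δ : ℝ) (m₀ k : ℕ) : ℝ := δ * (lam m₀ k + min 1 (k / (m₀ : ℝ)))

lemma sh_bd {δ : ℝ} (hδ : 0 ≤ δ) (hδ1 : δ ≤ 1) (m₀ k : ℕ) : 0 ≤ sh δ m₀ k ∧ sh δ m₀ k ≤ 2 := by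
  have h1 : 0 ≤ min 1 (k / (m₀ : ℝ)) := le_min zero_le_one (by positivity)
  have h2 : min 1 (k / (m₀ : ℝ)) ≤ 1 := min_le_left _ _
  have h3 := lam_pos m₀ k
  have h4 := lam_le m₀ k
  unfold sh
  constructor <;> nlinarith

noncomputable def g1 (δ : ℝ) (m₀ k : ℕ) (h y : ℝ) : ℝ := aa δ m₀ k (y + k * h) - aa δ m₀ k y

noncomputable def g2 (δ : ℝ) (m₀ k : ℕ) (h y : ℝ) : ℝ :=
  g1 δ m₀ k h y + g1 δ m₀ k h (y + sh δ m₀ k)

lemma g1_nonneg (δ : ℝ) (m₀ k : ℕ) {h : ℝ} (hh : 0 ≤ h) (y : ℝ) : 0 ≤ g1 δ m₀ k h y :=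
  sub_nonneg.2 (aa_mono _ _ _ (le_add_of_nonneg_right (by positivity)))

lemma g1_sq (δ : ℝ) (m₀ k : ℕ) {h : ℝ} (hh : 0 ≤ h) (y : ℝ) :
    g1 δ m₀ k h y ^ 2 ≤ k * h / lam m₀ k * g1 δ m₀ k h y := by
  rw [sq]
  exact mul_le_mul_of_nonneg_right (aa_lip _ _ _ _ (by positivity)) (g1_nonneg _ _ _ hh _)

lemma g1_cont (δ : ℝ) (m₀ k : ℕ) (h : ℝ) : Continuous (g1 δ m₀ k h) := by
  unfold g1 aa
  fun_prop

lemma g2_cont (δ : ℝ) (m₀ k : ℕ) (h : ℝ) : Continuous (g2 δ m₀ k h) :=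
  (g1_cont _ _ _ _).add ((g1_cont _ _ _ _).comp (continuous_add_const _))

lemma ptw {δ : ℝ} (hδ : 0 < δ) (hδ1 : δ ≤ 1) (m₀ : ℕ) {h α : ℝ} (hh : 0 < h) (hh1 : h ≤ 1)
    (hα : α ∈ Icc (0 : ℝ) 1) :
    (fB δ m₀ (α + h) - fB δ m₀ α) ^ 2 ≤ ∑ k ∈ Finset.Ico 1 (m₀ + 4), k * h / lam m₀ k *
      ∑ p ∈ (Finset.Icc (-3 : ℤ) (2 * (m₀ + 4) + 3)).filter (fun p => Int.gcd p k = 1),
        g2 δ m₀ k h (k * α - p) * 1 := by
  classical
  set S : ℕ × ℤ → Prop := fun i => 1 ≤ i.1 ∧ i.1 < m₀ + 4 ∧ Int.gcd i.2 i.1 = 1 with hSdef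
  set T : Finset (ℕ × ℤ) := (Finset.Ico 1 (m₀ + 4) ×ˢ Finset.Icc (-3 : ℤ) (2 * (m₀ + 4) + 3)).filter
    fun i => Int.gcd i.2 i.1 = 1 with hTdef
  have e : ∀ x : ℝ, fB δ m₀ x = volume.real {s ∈ Ico (0 : ℝ) δ | ∀ i : ℕ × ℤ, S i →
      s < aa δ m₀ i.1 (i.1 * x - i.2) ∨ bb δ m₀ i.1 (i.1 * x - i.2) ≤ s} := fun x => by
    unfold fB
    congr 1
    ext s
    exact and_congr_right fun _ => ⟨fun H i hi => H i.1 hi.1 hi.2.1 i.2 hi.2.2,
      fun H k h1 h2 p h3 => H (k, p) ⟨h1, h2, h3⟩⟩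
  have hy : ∀ i : ℕ × ℤ, (i.1 : ℝ) * α - i.2 ≤ i.1 * (α + h) - i.2 := fun i => by
    have : 0 ≤ (i.1 : ℝ) * h := by positivity
    linarith [mul_add (i.1 : ℝ) α h]
  have hS : ∀ i ∈ T, S i := fun i hi => by
    obtain ⟨h1, h2⟩ := Finset.mem_filter.1 hi
    obtain ⟨h3, h4⟩ := Finset.mem_Ico.1 (Finset.mem_product.1 h1).1
    exact ⟨h3, h4, h2⟩
  have hT : ∀ i : ℕ × ℤ, S i → (i.1 : ℝ) * α - i.2 < 1 → -2 < (i.1 : ℝ) * (α + h) - i.2 → i ∈ T := by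
    intro i hi h1 h2
    refine Finset.mem_filter.2 ⟨Finset.mem_product.2 ⟨Finset.mem_Ico.2 ⟨hi.1, hi.2.1⟩,
      Finset.mem_Icc.2 ⟨?_, ?_⟩⟩, hi.2.2⟩
    · have : 0 ≤ (i.1 : ℝ) * α := mul_nonneg (by positivity) hα.1
      have h3 : ((-3 : ℤ) : ℝ) ≤ i.2 := by push_cast; linarith
      exact_mod_cast h3
    · have h4 : (i.1 : ℝ) ≤ m₀ + 4 := by exact_mod_cast hi.2.1.le
      have h5 : (i.1 : ℝ) * (α + h) ≤ i.1 * 2 :=
        mul_le_mul_of_nonneg_left (by linarith [hα.2]) (by positivity)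
      have h3 : (i.2 : ℝ) ≤ ((2 * (m₀ + 4) + 3 : ℤ) : ℝ) := by push_cast; linarith
      exact_mod_cast h3
  obtain ⟨x, hx0, hx1, hx2⟩ := gain S T (fun i => aa δ m₀ i.1 (i.1 * α - i.2))
    (fun i => bb δ m₀ i.1 (i.1 * α - i.2)) (fun i => aa δ m₀ i.1 (i.1 * (α + h) - i.2))
    (fun i => bb δ m₀ i.1 (i.1 * (α + h) - i.2)) δ
    (fun i => aa_mono _ _ _ (by linarith [hy i]))
    (fun i hi => (bb_top hδ.le _ _ (by
      by_contra hc
      rw [aa_zero _ _ _ (not_le.1 hc).le] at hi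
      exact lt_irrefl _ hi)).ge)
    (fun i hi hl => hT i hi (aa_lt hδ.le hδ1 hl).1 (by linarith [(aa_lt hδ.le hδ1 hl).2])) hS
  obtain ⟨z, hz0, hz1, hz2⟩ := loss S T (fun i => aa δ m₀ i.1 (i.1 * α - i.2))
    (fun i => bb δ m₀ i.1 (i.1 * α - i.2)) (fun i => aa δ m₀ i.1 (i.1 * (α + h) - i.2))
    (fun i => bb δ m₀ i.1 (i.1 * (α + h) - i.2)) δ
    (fun i => aa_mono _ _ _ (hy i))
    (fun i hi => (aa_zero _ _ _ (by
      by_contra hc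
      rw [bb_top hδ.le _ _ (not_le.1 hc).le] at hi
      exact lt_irrefl _ hi)).le)
    (fun i hi hl => by
      have h1 := aa_lt hδ.le hδ1 hl
      have h2 := sh_bd hδ.le hδ1 m₀ i.1
      unfold sh at h2
      exact hT i hi (by linarith [h1.1, h2.1]) (by linarith [h1.2, h2.2])) hS
  rw [← e, ← e] at hx2 hz2
  have h1 : (fB δ m₀ (α + h) - fB δ m₀ α) ^ 2 ≤ x ^ 2 + z ^ 2 := by
    rcases le_total 0 (fB δ m₀ (α + h) - fB δ m₀ α) with h | h <;> nlinarith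
  refine h1.trans ((add_le_add hx1 hz1).trans ?_)
  rw [← Finset.sum_add_distrib, hTdef, Finset.sum_filter, Finset.sum_product]
  refine Finset.sum_le_sum fun k _ => ?_
  rw [← Finset.sum_filter (fun p : ℤ => Int.gcd p k = 1), Finset.mul_sum]
  refine Finset.sum_le_sum fun p _ => ?_
  have h2 := g1_sq δ m₀ k hh.le (k * α - p)
  have h3 := g1_sq δ m₀ k hh.le (k * α - p + sh δ m₀ k)
  have e1 : (k : ℝ) * (α + h) - p = k * α - p + k * h := by ring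
  have e2 : (k : ℝ) * α - p + k * h + sh δ m₀ k = k * α - p + sh δ m₀ k + k * h := by ring
  show (aa δ m₀ k (k * (α + h) - p) - aa δ m₀ k (k * α - p)) ^ 2 +
    (aa δ m₀ k (k * (α + h) - p + sh δ m₀ k) - aa δ m₀ k (k * α - p + sh δ m₀ k)) ^ 2 ≤ _
  rw [e1, e2, mul_one, g2, mul_add]
  exact add_le_add h2 h3

lemma g2_int (hC : Clip) {δ : ℝ} (hδ : 0 < δ) (m₀ k : ℕ) {h : ℝ} (hh : 0 ≤ h) :
    Integrable (g2 δ m₀ k h) ∧ ∫ y, g2 δ m₀ k h y = 2 * (k * h * δ) := by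
  obtain ⟨h1, h2⟩ := hC δ (lam m₀ k) (k * h) hδ (lam_pos _ _) (by positivity)
  have h3 : Integrable (g1 δ m₀ k h) := h1
  have h4 : ∫ y, g1 δ m₀ k h y = k * h * δ := h2
  have h5 : Integrable fun y => g1 δ m₀ k h (y + sh δ m₀ k) := h3.comp_add_right _
  refine ⟨h3.add h5, ?_⟩
  unfold g2
  rw [integral_add h3 h5, integral_add_right_eq_self (g1 δ m₀ k h), h4]
  ring

end FB3x

open FB3x in
theorem FB3_pf (hU : Unf) (hC : Clip) (h1 : FB1) : FB3 := by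
  intro δ m₀ hδ hδ1 hm h hh hh1
  obtain ⟨⟨hm1, ⟨C, hC1⟩, -⟩, -⟩ := h1 δ m₀ hδ hm
  have hc : ∀ (k : ℕ) (p : ℤ), Continuous fun α : ℝ => g2 δ m₀ k h (k * α - p) * 1 := fun k p =>
    ((g2_cont _ _ _ _).comp (by fun_prop)).mul continuous_const
  have hi : IntervalIntegrable (fun α => (fB δ m₀ (α + h) - fB δ m₀ α) ^ 2) volume 0 1 := by
    refine bdd_ii (((hm1.comp (measurable_add_const h)).sub hm1).pow_const 2) ((C + C) ^ 2)
      (fun x => ?_) 0 1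
    rw [abs_pow]
    exact pow_le_pow_left₀ (abs_nonneg _) ((abs_sub _ _).trans (add_le_add (hC1 _) (hC1 _))) 2
  refine (intervalIntegral.integral_mono_on zero_le_one hi (Continuous.intervalIntegrable
    (continuous_finsetSum _ fun k _ => continuous_const.mul
      (continuous_finsetSum _ fun p _ => hc k p)) _ _)
    fun α hα => ptw hδ hδ1 m₀ hh hh1 hα).trans ?_
  rw [intervalIntegral.integral_finsetSum fun k _ => Continuous.intervalIntegrable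
    (continuous_const.mul (continuous_finsetSum _ fun p _ => hc k p)) _ _, kS, Finset.mul_sum,
    Finset.sum_mul]
  refine Finset.sum_le_sum fun k hk => ?_
  have hk1 := (Finset.mem_Ico.1 hk).1
  have hk0 : (0 : ℝ) < k := by exact_mod_cast hk1
  obtain ⟨h2, h3⟩ := g2_int hC hδ m₀ k hh.le
  simp only [Pi.mul_apply]
  rw [intervalIntegral.integral_const_mul, intervalIntegral.integral_finsetSum
    fun p _ => (hc k p).intervalIntegrable _ _]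
  have h4 := hU k hk1 (Finset.Icc (-3 : ℤ) (2 * (m₀ + 4) + 3)) (g2 δ m₀ k h) (fun _ => 1)
    (g2_cont _ _ _ _).measurable h2
    (fun x => add_nonneg (g1_nonneg _ _ _ hh.le _) (g1_nonneg _ _ _ hh.le _)) measurable_const
    (fun _ => zero_le_one) (fun _ => le_rfl) (fun _ => rfl)
  have h5 : ∀ p : ℕ, ∫ α : ℝ, g2 δ m₀ k h (k * α - p) * 1 = 2 * (h * δ) := fun p => by
    simp only [mul_one]
    rw [Measure.integral_comp_mul_left (fun y => g2 δ m₀ k h (y - p)) k,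
      integral_sub_right_eq_self (g2 δ m₀ k h), h3, abs_of_pos (inv_pos.2 hk0), smul_eq_mul]
    field_simp
  simp only [h5, Finset.sum_const, card_cop, nsmul_eq_mul] at h4
  have h6 := lam_pos m₀ k
  refine (mul_le_mul_of_nonneg_left h4 (by positivity)).trans (le_of_eq ?_)
  ring

end Pool.Agent.Lib.MP_a4d326_an.Q1
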