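import Pool.Agent.Lib.MP_a4d326_an.Q1.Stmt

/-! The bit patterns of the inner and outer approximations. -/

namespace Pool.Agent.Lib.MP_a4d326_an.Q1

open MeasureTheory Set

namespace Innerx

lemma or_bit (f : ℕ → ℕ) (n j : ℕ) :
    (Nat.rec (nat_lit 0) (fun p acc => Nat.lor acc (f p)) n : ℕ).testBit j = true ↔
      ∃ p < n, (f p).testBit j = true := by
  induction n with
  | zero => simp
  | succ n ih =>
    show Nat.testBit (_ ||| f n) j = true ↔ _
    rw [Nat.testBit_or, Bool.or_eq_true, ih, Nat.exists_lt_succ_right]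

lemma pat_bit (R e L m j : ℕ) : (pat R e L m).testBit j = true ↔
    ∃ p ≤ m, p * R / m + e ≤ j ∧ j < p * R / m + e + L := by
  refine (or_bit (fun p => (1 <<< L - 1) <<< (p * R / m + e)) (m + 1) j).trans ?_
  simp only [Nat.lt_succ_iff, Nat.testBit_shiftLeft, Nat.one_shiftLeft,
    Nat.testBit_two_pow_sub_one, Bool.and_eq_true, decide_eq_true_eq]
  refine exists_congr fun p => and_congr_right fun _ => and_congr_right fun h => ?_
  omega

lemma fl (a b : ℕ) (hb : 0 < b) :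
    ((a / b : ℕ) : ℝ) * b ≤ a ∧ (a : ℝ) < (((a / b : ℕ) : ℝ) + 1) * b :=
  ⟨by exact_mod_cast Nat.div_mul_le_self a b, by
    have := Nat.lt_mul_div_succ a hb
    rw [mul_comm] at this
    exact_mod_cast this⟩

lemma cell (R i : ℕ) (hR : 0 < R) (α : ℝ) :
    α ∈ Ico ((i : ℝ) / R) ((i + 1) / R) ↔ i ≤ R * α ∧ R * α < i + 1 := by
  have : (0 : ℝ) < R := by exact_mod_cast hR
  rw [mem_Ico, div_le_iff₀ this, lt_div_iff₀ this, mul_comm]

lemma cell_vol (R i : ℕ) (hR : 0 < R) :
    volume.real (Ico ((i : ℝ) / R) ((i + 1) / R)) = 1 / R := by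
  have : (0 : ℝ) < R := by exact_mod_cast hR
  rw [Real.volume_real_Ico_of_le (by gcongr; linarith)]
  ring

end Innerx

open Innerx

theorem Inner_pf : Inner := by
  intro G R D w c M i hG hR h α γ h1 h2 h3 h4
  obtain ⟨n, hn, h⟩ := (or_bit (fun n => pin G R D w (n + 1) >>> (c * R / G / (n + 1))) M i).1 h
  rw [Nat.testBit_shiftRight] at h
  obtain ⟨p, -, h5, h6⟩ := (pat_bit R 1 ((D - w) * R / (G * (n + 1)) - 2) (n + 1) _).1 h
  refine ⟨n + 1, by omega, hn, ?_⟩
  have hm : 0 < n + 1 := n.succ_pos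
  generalize n + 1 = m at *
  rw [Nat.div_div_eq_div_mul] at h5 h6
  have hGm := Nat.mul_pos hG hm
  obtain ⟨a1, a2⟩ := fl (p * R) m hm
  obtain ⟨s1, s2⟩ := fl (c * R) _ hGm
  obtain ⟨l1, -⟩ := fl ((D - w) * R) _ hGm
  have hw : w ≤ D := by
    by_contra hc
    rw [show D - w = 0 by omega, zero_mul, Nat.zero_div] at h6
    omega
  have h7 : c * R / (G * m) + i + 2 ≤ p * R / m + (D - w) * R / (G * m) := by omega
  generalize p * R / m = a at *
  generalize c * R / (G * m) = s at *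
  generalize (D - w) * R / (G * m) = l at *
  have h5' : (a : ℝ) + 1 ≤ s + i := by exact_mod_cast h5
  have h7' : (s : ℝ) + i + 2 ≤ a + l := by exact_mod_cast h7
  have hG' : (0 : ℝ) < G := by exact_mod_cast hG
  have hR' : (0 : ℝ) < R := by exact_mod_cast hR
  have hm' : (0 : ℝ) < m := by exact_mod_cast hm
  push_cast [Nat.cast_sub hw] at a1 a2 s1 s2 l1
  have hp := mul_pos hG' hm'
  have e1 : (p : ℝ) ≤ m * α + γ := by
    refine le_of_mul_le_mul_left ?_ (mul_pos hG' hR')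
    nlinarith [mul_le_mul_of_nonneg_left h1 hp.le, mul_le_mul_of_nonneg_left h5' hp.le,
      mul_le_mul_of_nonneg_left a2.le hG'.le, mul_le_mul_of_nonneg_left h3 hR'.le]
  have e2 : (m * α + γ - p) * G < D := by
    refine lt_of_mul_lt_mul_left ?_ hR'.le
    nlinarith [mul_lt_mul_of_pos_left h2 hp, mul_le_mul_of_nonneg_left h7' hp.le,
      mul_le_mul_of_nonneg_left a1 hG'.le, mul_le_mul_of_nonneg_left h4 hR'.le]
  refine lt_of_le_of_lt ?_ ((lt_div_iff₀ hG').2 e2)
  have : ((p : ℤ) : ℝ) ≤ ⌊m * α + γ⌋ := by exact_mod_cast Int.le_floor.2 (by exact_mod_cast e1)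
  rw [Int.fract]
  push_cast at this
  linarith

theorem Outer_pf : Outer := by
  intro G R D w c M i m hG hR hi hm hM α γ h1 h2 g0 g1 h3 h4 h5
  refine (or_bit (fun n => pout G R D w (n + 1) >>> (c * R / G / (n + 1) + 1)) M i).2
    ⟨m - 1, by omega, ?_⟩
  rw [Nat.testBit_shiftRight, Nat.sub_add_cancel hm, Nat.div_div_eq_div_mul]
  have hG' : (0 : ℝ) < G := by exact_mod_cast hG
  have hR' : (0 : ℝ) < R := by exact_mod_cast hR
  have hm' : (0 : ℝ) < m := by exact_mod_cast hm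
  have hp := mul_pos hG' hm'
  have a0 : 0 ≤ α := le_of_mul_le_mul_left (by rw [mul_zero]; exact i.cast_nonneg.trans h1) hR'
  have hi' : (i : ℝ) + 1 ≤ R := by exact_mod_cast hi
  have a1 : α < 1 := lt_of_mul_lt_mul_left (by linarith) hR'.le
  have x0 : 0 ≤ m * α + γ := by positivity
  obtain ⟨p, hp0⟩ := Int.eq_ofNat_of_zero_le (Int.floor_nonneg.2 x0)
  have e1 : (p : ℝ) ≤ m * α + γ := by simpa [hp0] using Int.floor_le (m * α + γ)
  rw [Int.fract, hp0, Int.cast_natCast, lt_div_iff₀ hG'] at h5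
  have hpm : p < m + 1 := by
    have : (p : ℝ) < m + 1 := by nlinarith
    exact_mod_cast this
  refine (pat_bit R 0 ((D + w) * R / (G * m) + 3) m _).2 ⟨p, by omega, ?_⟩
  have hGm := Nat.mul_pos hG hm
  obtain ⟨b1, b2⟩ := fl (p * R) m hm
  obtain ⟨s1, s2⟩ := fl (c * R) _ hGm
  obtain ⟨-, l2⟩ := fl ((D + w) * R) _ hGm
  generalize p * R / m = a at *
  generalize c * R / (G * m) = s at *
  generalize (D + w) * R / (G * m) = l at *
  push_cast at b1 b2 s1 s2 l2
  have f1 : (a : ℝ) < s + i + 2 := by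
    refine lt_of_mul_lt_mul_left ?_ hp.le
    nlinarith [mul_lt_mul_of_pos_left h2 hp, mul_le_mul_of_nonneg_left b1 hG'.le,
      mul_le_mul_of_nonneg_left h4 hR'.le, mul_le_mul_of_nonneg_left e1 (mul_pos hG' hR').le]
  have f2 : (s : ℝ) + i < a + l + 2 := by
    refine lt_of_mul_lt_mul_left ?_ hp.le
    nlinarith [mul_le_mul_of_nonneg_left h1 hp.le, mul_lt_mul_of_pos_left b2 hG',
      mul_le_mul_of_nonneg_left h3 hR'.le, mul_lt_mul_of_pos_left h5 hR']
  have f3 : a < s + i + 2 := by exact_mod_cast f1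
  have f4 : s + i < a + l + 2 := by exact_mod_cast f2
  omega

theorem Bits_pf : Bits := by
  intro R t _ p hR
  have hR' : (0 : ℝ) < R := by exact_mod_cast hR
  have hf : volume {α ∈ Ico (0 : ℝ) 1 | p α} ≠ ⊤ :=
    ((measure_mono (sep_subset _ _)).trans_lt measure_Ico_lt_top).ne
  have hs : ∑ i ∈ (Finset.range R).filter t, volume.real (Ico ((i : ℝ) / R) ((i + 1) / R)) =
      ((Finset.range R).filter t).card / R := by
    rw [Finset.sum_congr rfl fun i _ => cell_vol R i hR, Finset.sum_const, nsmul_eq_mul,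
      mul_one_div]
  refine ⟨fun h => ?_, fun h => ?_⟩
  · rw [← div_le_iff₀' hR', ← hs, ← measureReal_biUnion_finset ?_ (fun _ _ => measurableSet_Ico)
      fun _ _ => measure_Ico_lt_top.ne]
    · refine measureReal_mono (iUnion₂_subset fun i hi α hα => ?_) hf
      obtain ⟨h1, h2⟩ := (cell R i hR α).1 hα
      obtain ⟨h3, h4⟩ := Finset.mem_filter.1 hi
      have h5 : (i : ℝ) + 1 ≤ R := by exact_mod_cast Finset.mem_range.1 h3
      exact ⟨⟨le_of_mul_le_mul_left (by rw [mul_zero]; exact i.cast_nonneg.trans h1) hR',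
        lt_of_mul_lt_mul_left (by linarith) hR'.le⟩, h i (Finset.mem_range.1 h3) h4 α h1 h2⟩
    · intro i _ j _ hij
      refine disjoint_left.2 fun α h1 h2 => hij ?_
      rw [cell _ _ hR] at h1 h2
      have h3 : i < j + 1 := by exact_mod_cast h1.1.trans_lt h2.2
      have h4 : j < i + 1 := by exact_mod_cast h2.1.trans_lt h1.2
      omega
  · rw [← le_div_iff₀' hR', ← hs]
    refine (measureReal_mono (fun α hα => ?_) ?_).trans (measureReal_biUnion_finset_le _ _)
    · have h0 : 0 ≤ R * α := mul_nonneg hR'.le hα.1.1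
      have h1 := Nat.floor_le h0
      have h2 := Nat.lt_floor_add_one (R * α)
      have h3 : ⌊R * α⌋₊ < R := (Nat.floor_lt h0).2 (by nlinarith [hα.1.2])
      exact mem_iUnion₂.2 ⟨⌊R * α⌋₊, Finset.mem_filter.2
        ⟨Finset.mem_range.2 h3, h _ h3 α h1 h2 hα.2⟩, (cell R _ hR α).2 ⟨h1, h2⟩⟩
    · exact (measure_biUnion_lt_top (Finset.finite_toSet _) fun _ _ => measure_Ico_lt_top).ne

end Pool.Agent.Lib.MP_a4d326_an.Q1
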