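import Pool.Agent.Lib.MP_a4d326_an.Q1.Stmt

/-! The pieces of the levels are disjoint parts of the set with a hit. -/

namespace Pool.Agent.Lib.MP_a4d326_an.Q1

open MeasureTheory Set

namespace LaneBx

/-- no earlier hit, with a unimodular neighbour -/
lemma core (n u r a n' r' : ℤ) (γ δ : ℝ) (hdet : u * r = a * n + 1) (hu0 : 0 < u) (hun : u < n)
    (h1 : 0 < n') (h2 : n' < n) (hx0 : 0 ≤ n * γ - r) (hx1 : n * γ - r < δ)
    (hy : δ ≤ u * γ - a) (hz0 : 0 ≤ n' * γ - r') (hz1 : n' * γ - r' < δ) : False := by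
  obtain ⟨J, hJ⟩ : ∃ J : ℤ, J = n' * r - n * r' := ⟨_, rfl⟩
  obtain ⟨I, hI⟩ : ∃ I : ℤ, I = u * r' - a * n' := ⟨_, rfl⟩
  have e1 : n' = I * n + J * u := by
    rw [hI, hJ]; linear_combination (-n') * hdet
  have e2 : r' = I * r + J * a := by
    rw [hI, hJ]; linear_combination (-r') * hdet
  have e3 : (n' : ℝ) * γ - r' = I * (n * γ - r) + J * (u * γ - a) := by
    have a1 : (n' : ℝ) = I * n + J * u := by exact_mod_cast e1
    have a2 : (r' : ℝ) = I * r + J * a := by exact_mod_cast e2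
    linear_combination γ * a1 - a2
  rw [e3] at hz0 hz1
  generalize (n : ℝ) * γ - r = x at *
  generalize (u : ℝ) * γ - a = y at *
  have hn : 0 < n := by omega
  rcases lt_trichotomy J 0 with hJ0 | hJ0 | hJ0
  · have hI1 : -J + 1 ≤ I := by
      by_contra hc
      have hc' : I ≤ -J := by omega
      have b1 : (I : ℝ) ≤ -J := by exact_mod_cast hc'
      have b2 : (J : ℝ) < 0 := by exact_mod_cast hJ0
      have b3 : (I : ℝ) * x ≤ -J * x := mul_le_mul_of_nonneg_right b1 hx0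
      have b4 : -(J : ℝ) * x < -J * y := mul_lt_mul_of_pos_left (by linarith) (by linarith)
      linarith
    nlinarith
  · subst hJ0
    have : I ≤ 0 := by
      by_contra hc
      have : 1 ≤ I := by omega
      nlinarith
    nlinarith
  · have hI0 : I ≤ 0 := by
      by_contra hc
      have : 1 ≤ I := by omega
      nlinarith
    have hI1 : -I + 1 ≤ J := by
      by_contra hc
      have : J ≤ -I := by omega
      nlinarith
    have b1 : -(I : ℝ) + 1 ≤ J := by exact_mod_cast hI1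
    have b2 : (I : ℝ) ≤ 0 := by exact_mod_cast hI0
    have b3 : (-(I : ℝ) + 1) * y ≤ J * y := mul_le_mul_of_nonneg_right b1 (by linarith)
    have b4 : -(I : ℝ) * x ≤ -I * y := mul_le_mul_of_nonneg_left (by linarith) (by linarith)
    linarith

/-- no earlier hit, short levels -/
lemma core0 (n r n' : ℕ) (r' : ℤ) (γ δ : ℝ) (hc : Nat.gcd r n = 1) (hδ : n * δ ≤ 1)
    (h1 : 0 < n') (h2 : n' < n) (hx0 : 0 ≤ n * γ - r) (hx1 : n * γ - r < δ)
    (hz0 : 0 ≤ n' * γ - r') (hz1 : n' * γ - r' < δ) : False := by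
  have p1 : (0 : ℝ) < n' := by exact_mod_cast h1
  have p2 : (n' : ℝ) < n := by exact_mod_cast h2
  have e : (((n' : ℤ) * r - n * r' : ℤ) : ℝ) = n * (n' * γ - r') - n' * (n * γ - r) := by
    push_cast; ring
  have q1 : (n : ℝ) * (n' * γ - r') < n * δ := mul_lt_mul_of_pos_left hz1 (by linarith)
  have q2 : (n' : ℝ) * (n * γ - r) < n' * δ := mul_lt_mul_of_pos_left hx1 p1
  have q3 : (n' : ℝ) * δ ≤ n * δ := mul_le_mul_of_nonneg_right p2.le (by linarith)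
  have q4 : 0 ≤ (n : ℝ) * (n' * γ - r') := mul_nonneg (by linarith) hz0
  have q5 : 0 ≤ (n' : ℝ) * (n * γ - r) := mul_nonneg p1.le hx0
  have a1 : (((n' : ℤ) * r - n * r' : ℤ) : ℝ) < 1 := by rw [e]; linarith
  have a2 : (-1 : ℝ) < (((n' : ℤ) * r - n * r' : ℤ) : ℝ) := by rw [e]; linarith
  have a3 : ((n' : ℤ) * r - n * r' : ℤ) < 1 := by exact_mod_cast a1
  have a4 : (-1 : ℤ) < ((n' : ℤ) * r - n * r' : ℤ) := by exact_mod_cast a2
  have a5 : (n : ℤ) ∣ ((n' * r : ℕ) : ℤ) := ⟨r', by push_cast; omega⟩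
  have a6 : n ∣ n' * r := by exact_mod_cast a5
  have a7 : n ∣ n' := Nat.Coprime.dvd_of_dvd_mul_right (Nat.Coprime.symm hc) a6
  exact absurd (Nat.le_of_dvd h1 a7) (by omega)

lemma lt_succ_div (a n : ℕ) (hn : 0 < n) : (a : ℝ) < n * ((a / n + 1 : ℕ) : ℝ) := by
  have h : a < n * (a / n + 1) := Nat.lt_mul_div_succ a hn
  exact_mod_cast h

lemma st0_le (Q D n r : ℕ) : r * Q / n + 1 ≤ stF Q D n r := by
  unfold stF
  split_ifs
  · exact le_rfl
  · unfold st1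
    rw [mx_eq]
    exact le_max_left _ _

/-- on a piece the level is a hit -/
lemma hit_of (Q D n r : ℕ) (γ : ℝ) (hQ : 0 < Q) (hn : 0 < n)
    (h1 : (stF Q D n r : ℝ) ≤ Q * γ) (h2 : Q * γ < (en0 Q D n r : ℝ)) :
    0 ≤ n * γ - r ∧ n * γ - r < (D : ℝ) / Q := by
  have hQ' : (0 : ℝ) < Q := by exact_mod_cast hQ
  have hn' : (0 : ℝ) < n := by exact_mod_cast hn
  constructor
  · have a1 := lt_succ_div (r * Q) n hn
    have a2 : ((r * Q / n + 1 : ℕ) : ℝ) ≤ stF Q D n r := by exact_mod_cast st0_le Q D n r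
    have a3 : (n : ℝ) * ((r * Q / n + 1 : ℕ) : ℝ) ≤ n * (Q * γ) :=
      mul_le_mul_of_nonneg_left (a2.trans h1) hn'.le
    rw [Nat.cast_mul] at a1
    have a4 : 0 < (Q : ℝ) * (n * γ - r) := by nlinarith
    exact ((mul_pos_iff_of_pos_left hQ').1 a4).le
  · have a1 : n * en0 Q D n r ≤ r * Q + D := Nat.mul_div_le _ _
    have a2 : (n : ℝ) * en0 Q D n r ≤ r * Q + D := by exact_mod_cast a1
    have a3 : (n : ℝ) * (Q * γ) < n * en0 Q D n r := mul_lt_mul_of_pos_left h2 hn'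
    rw [lt_div_iff₀ hQ']
    nlinarith

/-- on a piece there is no earlier hit -/
lemma first_of (Q D n r : ℕ) (γ : ℝ) (hQ : 0 < Q) (hD : D ≤ Q) (hn : 0 < n)
    (hc : Nat.gcd r n = 1)
    (h1 : (stF Q D n r : ℝ) ≤ Q * γ) (h2 : Q * γ < (en0 Q D n r : ℝ)) :
    NoHit ((D : ℝ) / Q) (n - 1) γ := by
  have hQ' : (0 : ℝ) < Q := by exact_mod_cast hQ
  obtain ⟨hx0, hx1⟩ := hit_of Q D n r γ hQ hn h1 h2
  intro n' p1 p2
  by_contra hlt
  have hz1 : (n' : ℝ) * γ - (⌊(n' : ℝ) * γ⌋ : ℤ) < (D : ℝ) / Q := not_le.1 hlt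
  have hz0 : 0 ≤ (n' : ℝ) * γ - (⌊(n' : ℝ) * γ⌋ : ℤ) := Int.fract_nonneg _
  by_cases hs : n * D ≤ Q
  · refine core0 n r n' _ γ _ hc ?_ p1 (by omega) hx0 hx1 hz0 hz1
    have : (n : ℝ) * D ≤ Q := by exact_mod_cast hs
    rw [← mul_div_assoc, div_le_one hQ']
    exact this
  · have hn2 : 2 ≤ n := by
      by_contra h
      have : n = 1 := by omega
      subst this
      omega
    obtain ⟨u, hu⟩ : ∃ u, u = r ^ (Nat.totient n - 1) % n := ⟨_, rfl⟩
    have hun : u < n := by rw [hu]; exact Nat.mod_lt _ hn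
    have hmod : u * r % n = 1 := by
      have t1 : r ^ Nat.totient n ≡ 1 [MOD n] := Nat.ModEq.pow_totient hc
      have t2 : 0 < Nat.totient n := Nat.totient_pos.2 hn
      have t3 : r ^ Nat.totient n = r ^ (Nat.totient n - 1) * r := by
        rw [← pow_succ, Nat.sub_add_cancel t2]
      rw [hu, Nat.mod_mul_mod, ← t3]
      exact Eq.trans t1 (Nat.mod_eq_of_lt (by omega))
    have hu0 : 0 < u := by
      rcases Nat.eq_zero_or_pos u with h | h
      · rw [h] at hmod; simp at hmod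
      · exact h
    have hdet : u * r = u * r / n * n + 1 := by
      have := Nat.div_add_mod' (u * r) n
      omega
    have hst : (u * r / n * Q + D) / u + 1 ≤ stF Q D n r := by
      unfold stF
      rw [if_neg hs]
      unfold st1
      rw [mx_eq, hu]
      exact le_max_right _ _
    obtain ⟨a, ha⟩ : ∃ a, a = u * r / n := ⟨_, rfl⟩
    rw [← ha] at hdet hst
    have hu' : (0 : ℝ) < u := by exact_mod_cast hu0
    have a1 := lt_succ_div (a * Q + D) u hu0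
    have a2 : (((a * Q + D) / u + 1 : ℕ) : ℝ) ≤ stF Q D n r := by exact_mod_cast hst
    have a3 : (u : ℝ) * (((a * Q + D) / u + 1 : ℕ) : ℝ) ≤ u * (Q * γ) :=
      mul_le_mul_of_nonneg_left (a2.trans h1) hu'.le
    rw [Nat.cast_add, Nat.cast_mul] at a1
    have hy : (D : ℝ) / Q ≤ u * γ - a := by
      rw [div_le_iff₀ hQ']
      nlinarith
    refine core n u r a n' ⌊(n' : ℝ) * γ⌋ γ ((D : ℝ) / Q) (by exact_mod_cast hdet)
      (by exact_mod_cast hu0)
      (by exact_mod_cast hun) (by exact_mod_cast p1) (by omega) ?_ ?_ ?_ ?_ ?_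
    · exact_mod_cast hx0
    · exact_mod_cast hx1
    · exact_mod_cast hy
    · exact_mod_cast hz0
    · exact_mod_cast hz1

/-- the part of a piece inside a lane -/
def pc (Sb Q D j : ℕ) (z : (_ : ℕ) × ℕ) : Set ℝ :=
  Ico (((max (stF Q D z.1 z.2) (j * Sb) : ℕ) : ℝ) / Q)
    (((min (en0 Q D z.1 z.2) ((j + 1) * Sb) : ℕ) : ℝ) / Q)

lemma vol_pc (Sb Q D j : ℕ) (hQ : 0 < Q) (z : (_ : ℕ) × ℕ) :
    (ovn Sb (stF Q D z.1 z.2) (en0 Q D z.1 z.2) j : ℝ) = Q * volume.real (pc Sb Q D j z) := by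
  have hQ' : (0 : ℝ) < Q := by exact_mod_cast hQ
  unfold pc ovn
  generalize max (stF Q D z.1 z.2) (j * Sb) = a
  generalize min (en0 Q D z.1 z.2) ((j + 1) * Sb) = b
  rcases le_total a b with h | h
  · have h' : (a : ℝ) ≤ b := by exact_mod_cast h
    rw [Real.volume_real_Ico_of_le (div_le_div_of_nonneg_right h' hQ'.le), Nat.cast_sub h]
    field_simp
  · have h' : (b : ℝ) ≤ a := by exact_mod_cast h
    rw [Ico_eq_empty_of_le (div_le_div_of_nonneg_right h' hQ'.le), Nat.sub_eq_zero_of_le h]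
    simp

lemma mem_pc {Sb Q D j : ℕ} (hQ : 0 < Q) {z : (_ : ℕ) × ℕ} {γ : ℝ} (h : γ ∈ pc Sb Q D j z) :
    ((stF Q D z.1 z.2 : ℝ) ≤ Q * γ ∧ Q * γ < (en0 Q D z.1 z.2 : ℝ)) ∧
      (j : ℝ) * Sb ≤ Q * γ ∧ Q * γ < (j + 1 : ℝ) * Sb := by
  have hQ' : (0 : ℝ) < Q := by exact_mod_cast hQ
  obtain ⟨h1, h2⟩ := h
  rw [div_le_iff₀ hQ'] at h1
  rw [lt_div_iff₀ hQ'] at h2
  push_cast at h1 h2
  rw [max_le_iff] at h1
  rw [lt_min_iff] at h2
  rw [mul_comm (Q : ℝ) γ]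
  exact ⟨⟨h1.1, h2.1⟩, h1.2, h2.2⟩

lemma fract_eq {n r : ℕ} {γ δ : ℝ} (hδ : δ ≤ 1) (h0 : 0 ≤ n * γ - r) (h1 : n * γ - r < δ) :
    Int.fract (n * γ) = n * γ - r := by
  rw [Int.fract_eq_iff]
  exact ⟨h0, by linarith, (r : ℤ), by push_cast; ring⟩

end LaneBx

open LaneBx in
theorem LaneB_pf : LaneB := by
  intro R Sb D N j hR hSb hD hDQ
  obtain ⟨Q, hQe⟩ : ∃ Q, Q = R * Sb := ⟨_, rfl⟩
  have hQr : (R : ℝ) * Sb = Q := by rw [hQe]; push_cast; ring
  rw [hQr, ← hQe]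
  rw [← hQe] at hDQ
  have hQ : 0 < Q := by omega
  have hQ' : (0 : ℝ) < Q := by exact_mod_cast hQ
  have hR' : (0 : ℝ) < R := by exact_mod_cast hR
  have hS' : (0 : ℝ) < Sb := by exact_mod_cast hSb
  have hδ : (D : ℝ) / Q ≤ 1 := by
    rw [div_le_one hQ']
    exact_mod_cast hDQ
  obtain ⟨s, hs⟩ : ∃ s : Finset ((_ : ℕ) × ℕ), s = (Finset.Icc 1 N).sigma fun n => cop n :=
    ⟨_, rfl⟩
  have hmem : ∀ z ∈ s, 1 ≤ z.1 ∧ z.1 ≤ N ∧ Nat.gcd z.2 z.1 = 1 := by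
    intro z hz
    rw [hs, Finset.mem_sigma, Finset.mem_Icc, cop, Finset.mem_filter] at hz
    exact ⟨hz.1.1, hz.1.2, hz.2.2⟩
  have key : ∀ z ∈ s, ∀ γ ∈ pc Sb Q D j z, Int.fract (z.1 * γ) = z.1 * γ - z.2 ∧
      Int.fract (z.1 * γ) < (D : ℝ) / Q ∧ NoHit ((D : ℝ) / Q) (z.1 - 1) γ := by
    intro z hz γ hγ
    obtain ⟨m1, _, m3⟩ := hmem z hz
    obtain ⟨⟨a1, a2⟩, _⟩ := mem_pc hQ hγ
    obtain ⟨b1, b2⟩ := hit_of Q D z.1 z.2 γ hQ m1 a1 a2
    have e := fract_eq hδ b1 b2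
    exact ⟨e, by rw [e]; exact b2, first_of Q D z.1 z.2 γ hQ hDQ m1 m3 a1 a2⟩
  have hdis : (s : Set ((_ : ℕ) × ℕ)).PairwiseDisjoint (pc Sb Q D j) := by
    intro z hz z' hz' hne
    rw [Function.onFun, Set.disjoint_left]
    intro γ g1 g2
    obtain ⟨a1, a2, a3⟩ := key z hz γ g1
    obtain ⟨b1, b2, b3⟩ := key z' hz' γ g2
    have m1 := (hmem z hz).1
    have m2 := (hmem z' hz').1
    rcases lt_trichotomy z.1 z'.1 with h | h | h
    · exact absurd (b3 z.1 m1 (by omega)) (not_le.2 a2)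
    · apply hne
      obtain ⟨n, r⟩ := z
      obtain ⟨n', r'⟩ := z'
      simp only at h a1 b1
      subst h
      have : (r : ℝ) = r' := by linarith
      have : r = r' := by exact_mod_cast this
      rw [this]
    · exact absurd (a3 z'.1 m2 (by omega)) (not_le.2 b2)
  have hsum : (bco Sb Q D N j : ℝ) = Q * ∑ z ∈ s, volume.real (pc Sb Q D j z) := by
    rw [Finset.mul_sum, hs, Finset.sum_sigma, bco]
    push_cast
    refine Finset.sum_congr rfl fun n _ => Finset.sum_congr rfl fun r _ => ?_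
    exact vol_pc Sb Q D j hQ ⟨n, r⟩
  rw [hsum, ← measureReal_biUnion_finset hdis (fun z _ => measurableSet_Ico)
    (fun z _ => measure_Ico_lt_top.ne)]
  refine mul_le_mul_of_nonneg_left ?_ hQ'.le
  refine measureReal_mono ?_ (slice_ne_top _ _ _)
  intro γ hγ
  simp only [mem_iUnion] at hγ
  obtain ⟨z, hz, hγ⟩ := hγ
  obtain ⟨_, a2, _⟩ := key z hz γ hγ
  obtain ⟨_, c1, c2⟩ := mem_pc hQ hγ
  obtain ⟨m1, m2, _⟩ := hmem z hz
  rw [← hQr] at c1 c2
  refine ⟨⟨?_, ?_⟩, fun h => absurd (h z.1 m1 m2) (not_le.2 a2)⟩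
  · rw [div_le_iff₀ hR']
    have : (j : ℝ) * Sb ≤ γ * R * Sb := by linarith
    exact le_of_mul_le_mul_right this hS'
  · rw [lt_div_iff₀ hR']
    have : γ * R * Sb < (j + 1 : ℝ) * Sb := by linarith
    exact lt_of_mul_lt_mul_right this hS'.le

end Pool.Agent.Lib.MP_a4d326_an.Q1
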