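import Pool.Agent.Lib.MP_a4d326_an.Q1.Stmt

/-! The set of the problem has measure `(2π)² H`. -/

namespace Pool.Agent.Lib.MP_a4d326_an.Q1

open MeasureTheory Set

namespace Linkx

lemma ind_eq {X : Type*} (p : X → Prop) :
    (fun x => ind (p x)) = {x | p x}.indicator (1 : X → ℝ) := by
  ext x
  by_cases h : p x
  · rw [ind_pos h, indicator_of_mem (show x ∈ {x | p x} from h)]; rfl
  · rw [ind_neg h, indicator_of_notMem (show x ∉ {x | p x} from h)]

lemma slice_eq {p : ℝ → Prop} (hm : MeasurableSet {x | p x}) {a b : ℝ} (hab : a ≤ b) :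
    volume.real {x ∈ Ico a b | p x} = ∫ x in a..b, ind (p x) := by
  rw [intervalIntegral.integral_of_le hab, ind_eq, integral_indicator_one hm,
    ← Measure.restrict_congr_set Ico_ae_eq_Ioc, measureReal_restrict_apply hm]
  congr 1
  ext x
  simp only [mem_ofPred_eq, mem_inter_iff, and_comm]

lemma integrable_ind {X : Type*} [MeasurableSpace X] (μ : Measure X) [IsFiniteMeasure μ]
    {p : X → Prop} (hm : MeasurableSet {x | p x}) : Integrable (fun x => ind (p x)) μ :=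
  Integrable.of_bound (measurable_ind hm).aestronglyMeasurable 1
    (Filter.Eventually.of_forall fun x => by
      rw [Real.norm_eq_abs, abs_of_nonneg (ind_nonneg _)]; exact ind_le_one _)

lemma area {T : ℝ} (hT : 0 ≤ T) {p : ℝ → ℝ → Prop}
    (hm : MeasurableSet {z : ℝ × ℝ | p z.1 z.2}) :
    volume.real {z ∈ Ico (0 : ℝ) T ×ˢ Ico (0 : ℝ) T | p z.1 z.2} =
      ∫ a in (0 : ℝ)..T, ∫ b in (0 : ℝ)..T, ind (p a b) := by
  have h1 : volume.real {z ∈ Ico (0 : ℝ) T ×ˢ Ico (0 : ℝ) T | p z.1 z.2} =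
      ∫ z, ind (p z.1 z.2) ∂((volume.restrict (Ico (0 : ℝ) T)).prod
        (volume.restrict (Ico (0 : ℝ) T))) := by
    rw [Measure.prod_restrict, ind_eq (fun z : ℝ × ℝ => p z.1 z.2), integral_indicator_one hm,
      measureReal_restrict_apply hm]
    congr 1
    ext x
    simp only [mem_ofPred_eq, mem_inter_iff, and_comm]
  rw [h1, integral_prod _ (integrable_ind _ hm)]
  simp only [intervalIntegral.integral_of_le hT, Measure.restrict_congr_set Ico_ae_eq_Ioc]

lemma swap {p : ℝ → ℝ → Prop} (hm : MeasurableSet {z : ℝ × ℝ | p z.1 z.2}) :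
    ∫ a in (0 : ℝ)..1, ∫ b in (0 : ℝ)..1, ind (p a b) =
      ∫ b in (0 : ℝ)..1, ∫ a in (0 : ℝ)..1, ind (p a b) := by
  simp only [intervalIntegral.integral_of_le (zero_le_one (α := ℝ))]
  exact integral_integral_swap (f := fun a b => ind (p a b)) (integrable_ind _ hm)

lemma ev_add_one (δ α γ : ℝ) : Ev δ δ α (γ + 1) ↔ Ev δ δ α γ := by
  have h := noHit_add_int δ
  refine exists_congr fun m => and_congr_right fun _ => and_congr ?_ ?_
  · rw [← add_assoc, Int.fract_add_one]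
  · simpa using h (m + 1) γ 1

lemma cond_iff {T : ℝ} (hT : 0 < T) (ε a b : ℝ) :
    (∃ n : ℕ, 1 ≤ n ∧ toIcoMod hT 0 (n * a - b) < ε ∧
      ∀ k : ℕ, 1 ≤ k → k ≤ n → ε ≤ toIcoMod hT 0 (k * a - k * b)) ↔
    Ev (ε / T) (ε / T) (a / T) (a / T - b / T) := by
  have e1 : ∀ m : ℕ, toIcoMod hT 0 (((m + 1 : ℕ) : ℝ) * a - b) < ε ↔
      Int.fract (m * (a / T) + (a / T - b / T)) < ε / T := by
    intro m
    rw [toIcoMod_eq_fract_mul, lt_div_iff₀ hT]
    have : (((m + 1 : ℕ) : ℝ) * a - b) / T = m * (a / T) + (a / T - b / T) := by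
      push_cast; ring
    rw [this]
  have e2 : ∀ k : ℕ, ε ≤ toIcoMod hT 0 (k * a - k * b) ↔
      ε / T ≤ Int.fract (k * (a / T - b / T)) := by
    intro k
    rw [toIcoMod_eq_fract_mul, div_le_iff₀ hT]
    have : ((k : ℝ) * a - k * b) / T = k * (a / T - b / T) := by ring
    rw [this]
  constructor
  · rintro ⟨n, hn, h1, h2⟩
    obtain ⟨m, rfl⟩ : ∃ m, n = m + 1 := ⟨n - 1, by omega⟩
    have h3 : NoHit (ε / T) (m + 1) (a / T - b / T) := fun k hk hk' => (e2 k).1 (h2 k hk hk')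
    refine ⟨m, ?_, (e1 m).1 h1, h3⟩
    rcases Nat.eq_zero_or_pos m with rfl | hm
    · have h4 := (e1 0).1 h1
      have h5 := h3 1 le_rfl le_rfl
      simp only [Nat.cast_zero, zero_mul, zero_add, Nat.cast_one, one_mul] at h4 h5
      exact absurd h4 (not_lt.2 h5)
    · exact hm
  · rintro ⟨m, _, h1, h2⟩
    exact ⟨m + 1, by omega, (e1 m).2 h1, fun k hk hk' => (e2 k).2 (h2 k hk hk')⟩

lemma inner {T : ℝ} (hT : 0 < T) (δ α : ℝ) :
    ∫ b in (0 : ℝ)..T, ind (Ev δ δ α (α - b / T)) = T * ∫ γ in (0 : ℝ)..1, ind (Ev δ δ α γ) := by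
  have hper : Function.Periodic (fun γ => ind (Ev δ δ α γ)) 1 := fun γ => by
    simp only [ev_add_one]
  have h := hper.intervalIntegral_add_eq (α - 1) 0
  rw [intervalIntegral.integral_comp_sub_div (fun γ => ind (Ev δ δ α γ)) hT.ne' α,
    div_self hT.ne', zero_div, sub_zero, smul_eq_mul]
  rw [sub_add_cancel, zero_add] at h
  rw [h]

lemma main {T : ℝ} (hT : 0 < T) (δ : ℝ) :
    volume.real {z ∈ Ico (0 : ℝ) T ×ˢ Ico (0 : ℝ) T | Ev δ δ (z.1 / T) (z.1 / T - z.2 / T)} =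
      T ^ 2 * H δ δ := by
  rw [area hT.le (p := fun a b => Ev δ δ (a / T) (a / T - b / T))
    (measurableSet_ev _ _ (by fun_prop) (by fun_prop))]
  simp only [inner hT]
  rw [intervalIntegral.integral_comp_div
      (fun α => T * ∫ γ in (0 : ℝ)..1, ind (Ev δ δ α γ)) hT.ne', zero_div, div_self hT.ne',
    intervalIntegral.integral_const_mul, smul_eq_mul,
    swap (p := fun α γ => Ev δ δ α γ) (measurableSet_ev _ _ measurable_fst measurable_snd)]
  have : H δ δ = ∫ γ in (0 : ℝ)..1, ∫ α in (0 : ℝ)..1, ind (Ev δ δ α γ) := by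
    unfold H
    congr 1
    ext γ
    exact slice_eq (measurableSet_ev _ _ measurable_id measurable_const) zero_le_one
  rw [this]
  ring

end Linkx

theorem Link_pf : Link := by
  intro ε _ _ S hS
  have h : S = {z ∈ Ico (0 : ℝ) (2 * Real.pi) ×ˢ Ico (0 : ℝ) (2 * Real.pi) |
      Ev (ε / (2 * Real.pi)) (ε / (2 * Real.pi)) (z.1 / (2 * Real.pi))
        (z.1 / (2 * Real.pi) - z.2 / (2 * Real.pi))} := by
    rw [hS]
    ext z
    simp only [mem_ofPred_eq, Linkx.cond_iff Real.two_pi_pos]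
  rw [h]
  refine ⟨(measurableSet_Ico.prod measurableSet_Ico).inter
    (measurableSet_ev _ _ (by fun_prop) (by fun_prop)), Linkx.main Real.two_pi_pos _⟩

end Pool.Agent.Lib.MP_a4d326_an.Q1
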