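import Pool.Agent.Lib.MP_a4d326_an.Q1.Stmt

/-! Upper bounds for the measure of the set of `γ` with a hit. -/

namespace Pool.Agent.Lib.MP_a4d326_an.Q1

open MeasureTheory Set

namespace MTx

/-- First hit at level `n` with integer part `r`. -/
def A (δ : ℝ) (n r : ℕ) : Set ℝ :=
  {γ | 0 ≤ n * γ - r ∧ n * γ - r < δ ∧ NoHit δ (n - 1) γ}

lemma fract_eq {x : ℝ} (r : ℕ) (h0 : 0 ≤ x - r) (h1 : x - r < 1) : Int.fract x = x - r := by
  rw [Int.fract_eq_iff]
  exact ⟨h0, h1, r, by push_cast; ring⟩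

lemma cover {δ : ℝ} (h1 : δ ≤ 1) (N : ℕ) :
    {γ ∈ Ico (0 : ℝ) 1 | ¬ NoHit δ N γ} ⊆ ⋃ n ∈ Finset.Icc 1 N, ⋃ r ∈ cop n, A δ n r := by
  classical
  rintro γ ⟨⟨g0, g1⟩, hγ⟩
  have hex : ∃ n : ℕ, 1 ≤ n ∧ n ≤ N ∧ Int.fract (n * γ) < δ := by
    by_contra hc
    exact hγ fun n a b => not_lt.1 fun h => hc ⟨n, a, b, h⟩
  obtain ⟨n1, nN, hn⟩ := Nat.find_spec hex
  have hmin := fun m => Nat.find_min hex (m := m)
  set n := Nat.find hex with hnd
  have hno : NoHit δ (n - 1) γ := fun k a b =>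
    not_lt.1 fun h => hmin k (by omega) ⟨a, by omega, h⟩
  have np : (0 : ℝ) < n := by exact_mod_cast n1
  have hx0 : 0 ≤ (n : ℝ) * γ := by positivity
  set r := ⌊(n : ℝ) * γ⌋₊ with hr
  have r0 : 0 ≤ (n : ℝ) * γ - r := sub_nonneg.2 (Nat.floor_le hx0)
  have r1 : (n : ℝ) * γ - r < 1 := by have := Nat.lt_floor_add_one ((n : ℝ) * γ); linarith
  rw [fract_eq r r0 r1] at hn
  have rn : r < n := by
    have : (r : ℝ) < n := by nlinarith
    exact_mod_cast this
  have hg : Nat.gcd r n = 1 := by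
    by_contra hc
    have gp : 0 < Nat.gcd r n := Nat.gcd_pos_of_pos_right r n1
    obtain ⟨r', hr'⟩ := Nat.gcd_dvd_left r n
    obtain ⟨n', hn'⟩ := Nat.gcd_dvd_right r n
    set g := Nat.gcd r n
    have g2 : 2 ≤ g := by omega
    have n'1 : 1 ≤ n' := by
      rcases Nat.eq_zero_or_pos n' with h | h
      · rw [h] at hn'; omega
      · exact h
    have n'n : n' < n := by nlinarith
    have gR : (1 : ℝ) ≤ g := by exact_mod_cast gp
    have e : (n : ℝ) * γ - r = g * (n' * γ - r') := by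
      rw [hn', hr']; push_cast; ring
    have y0 : 0 ≤ (n' : ℝ) * γ - r' := by
      rw [e] at r0
      exact nonneg_of_mul_nonneg_right r0 (by linarith) |> fun h => h
    have y1 : (n' : ℝ) * γ - r' < δ := by nlinarith
    have := hno n' n'1 (by omega)
    rw [fract_eq r' y0 (by linarith)] at this
    linarith
  simp only [mem_iUnion]
  exact ⟨n, Finset.mem_Icc.2 ⟨n1, nN⟩, r,
    Finset.mem_filter.2 ⟨Finset.mem_range.2 rn, hg⟩, r0, hn, hno⟩

lemma A_sub (δ : ℝ) {n : ℕ} (hn : 1 ≤ n) (r : ℕ) : A δ n r ⊆ Ico ((r : ℝ) / n) ((r + δ) / n) := by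
  rintro γ ⟨a, b, -⟩
  have np : (0 : ℝ) < n := by exact_mod_cast hn
  exact ⟨by rw [div_le_iff₀ np]; linarith, by rw [lt_div_iff₀ np]; linarith⟩

lemma A_le {δ : ℝ} (h0 : 0 ≤ δ) {n : ℕ} (hn : 1 ≤ n) (r : ℕ) : volume.real (A δ n r) ≤ δ / n := by
  have np : (0 : ℝ) < n := by exact_mod_cast hn
  have := measureReal_mono (μ := volume) (A_sub δ hn r) measure_Ico_lt_top.ne
  rw [Real.volume_real_Ico_of_le (by gcongr; linarith)] at this
  refine this.trans_eq ?_
  ring

lemma union {δ : ℝ} (h1 : δ ≤ 1) (N : ℕ) :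
    mU δ N ≤ ∑ n ∈ Finset.Icc 1 N, ∑ r ∈ cop n, volume.real (A δ n r) := by
  have hfin : volume (⋃ n ∈ Finset.Icc 1 N, ⋃ r ∈ cop n, A δ n r) ≠ ⊤ := by
    refine ((measure_biUnion_finset_le _ _).trans_lt ?_).ne
    refine ENNReal.sum_lt_top.2 fun n hn => (measure_biUnion_finset_le _ _).trans_lt ?_
    refine ENNReal.sum_lt_top.2 fun r _ => ?_
    exact (measure_mono (A_sub δ (Finset.mem_Icc.1 hn).1 r)).trans_lt measure_Ico_lt_top
  refine (measureReal_mono (cover h1 N) hfin).trans ?_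
  refine (measureReal_biUnion_finset_le _ _).trans ?_
  exact Finset.sum_le_sum fun n _ => measureReal_biUnion_finset_le _ _

lemma one {δ : ℝ} (h0 : 0 ≤ δ) (h1 : δ ≤ 1) (N : ℕ) : mU δ N ≤ δ * Phi N := by
  refine (union h1 N).trans ?_
  rw [Phi, Finset.mul_sum]
  refine Finset.sum_le_sum fun n hn => ?_
  refine (Finset.sum_le_sum fun r _ => A_le h0 (Finset.mem_Icc.1 hn).1 r).trans_eq ?_
  rw [Finset.sum_const, card_cop, nsmul_eq_mul]
  ring

lemma div_le (a b : ℕ) : ((a / b : ℕ) : ℝ) ≤ (a : ℝ) / b := Nat.cast_div_le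

lemma lt_div (a : ℕ) {b : ℕ} (hb : 1 ≤ b) : (a : ℝ) / b < ((a / b : ℕ) : ℝ) + 1 := by
  have bp : (0 : ℝ) < b := by exact_mod_cast hb
  rw [div_lt_iff₀ bp]
  have h1 := Nat.div_add_mod a b
  have h2 := Nat.mod_lt a hb
  have h3 : a < (a / b + 1) * b := by nlinarith
  exact_mod_cast h3

lemma big {Q D n r : ℕ} (hD : 0 < D) (hQ : D ≤ Q) (hn : Q < n * D) (hr : r ∈ cop n) :
    (Q : ℝ) * volume.real (A (D / Q) n r) ≤
      ((en0 Q D n r - st1 Q D (Nat.totient n - 1) n r + 2 : ℕ) : ℝ) := by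
  obtain ⟨rn, hg⟩ := Finset.mem_filter.1 hr
  have n2 : 2 ≤ n := by
    by_contra hc
    have : n * D ≤ 1 * D := Nat.mul_le_mul_right _ (by omega)
    omega
  have Qp : (0 : ℝ) < Q := by exact_mod_cast (by omega : 0 < Q)
  have np : (0 : ℝ) < n := by exact_mod_cast (by omega : 0 < n)
  have d1 : (D : ℝ) / Q ≤ 1 := by rw [div_le_one Qp]; exact_mod_cast hQ
  set u := r ^ (Nat.totient n - 1) % n with hu
  have un : u < n := Nat.mod_lt _ (by omega)
  have tp : 0 < Nat.totient n := Nat.totient_pos.2 (by omega)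
  have hm : u * r % n = 1 := by
    have h1 : r ^ Nat.totient n ≡ 1 [MOD n] := Nat.ModEq.pow_totient hg
    have h2 : u * r ≡ r ^ (Nat.totient n - 1) * r [MOD n] := (Nat.mod_modEq _ _).mul_right r
    rw [← pow_succ, Nat.sub_add_cancel tp] at h2
    have h3 := h2.trans h1
    rw [Nat.ModEq, Nat.mod_eq_of_lt (by omega : 1 < n)] at h3
    exact h3
  have u1 : 1 ≤ u := by
    rcases Nat.eq_zero_or_pos u with h | h
    · rw [h] at hm; simp at hm
    · exact h
  set a := u * r / n with ha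
  have hur : (u : ℝ) * r = n * a + 1 := by
    have := Nat.div_add_mod (u * r) n
    rw [hm] at this
    exact_mod_cast this.symm
  have up : (0 : ℝ) < u := by exact_mod_cast u1
  have un' : (u : ℝ) + 1 ≤ n := by exact_mod_cast un
  have e1 : st1 Q D (Nat.totient n - 1) n r = max (r * Q / n + 1) ((a * Q + D) / u + 1) :=
    mx_eq _ _
  have e2 : en0 Q D n r = (r * Q + D) / n := rfl
  set s := st1 Q D (Nat.totient n - 1) n r
  set e := en0 Q D n r
  have hsub : A (D / Q) n r ⊆ Ico (((s : ℝ) - 1) / Q) ((e + 1) / Q) := by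
    rintro γ ⟨x0, x1, hno⟩
    have k : (n : ℝ) * (u * γ - a) = u * (n * γ - r) + 1 := by linear_combination hur
    have y0 : 0 ≤ (u : ℝ) * γ - a := by
      have : 0 ≤ (n : ℝ) * (u * γ - a) := by rw [k]; positivity
      exact nonneg_of_mul_nonneg_right this np |> fun h => h
    have y1 : (u : ℝ) * γ - a < 1 := by
      have : (n : ℝ) * (u * γ - a) < n * 1 := by rw [k]; nlinarith
      exact lt_of_mul_lt_mul_left this np.le
    have y2 := hno u u1 (by omega)
    rw [fract_eq a y0 y1, div_le_iff₀ Qp] at y2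
    rw [lt_div_iff₀ Qp] at x1
    constructor
    · rw [div_le_iff₀ Qp, e1]
      have b1 : ((r * Q / n : ℕ) : ℝ) ≤ γ * Q := by
        refine (div_le _ _).trans ?_
        rw [div_le_iff₀ np]; push_cast; nlinarith
      have b2 : (((a * Q + D) / u : ℕ) : ℝ) ≤ γ * Q := by
        refine (div_le _ _).trans ?_
        rw [div_le_iff₀ up]; push_cast; nlinarith
      rw [Nat.cast_max, Nat.cast_add, Nat.cast_add, Nat.cast_one, sub_le_iff_le_add]
      exact max_le (by linarith) (by linarith)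
    · rw [lt_div_iff₀ Qp, e2]
      refine lt_trans ?_ (lt_div _ (by omega))
      rw [lt_div_iff₀ np]; push_cast; nlinarith
  have := measureReal_mono (μ := volume) hsub measure_Ico_lt_top.ne
  rw [Real.volume_real_Ico] at this
  have t : (e : ℝ) - s ≤ ((e - s : ℕ) : ℝ) := by
    rcases le_total s e with h | h
    · rw [Nat.cast_sub h]
    · have : (e : ℝ) ≤ s := by exact_mod_cast h
      have := Nat.cast_nonneg (α := ℝ) (e - s)
      linarith
  have t2 : max (((e : ℝ) + 1) / Q - (s - 1) / Q) 0 ≤ ((e - s + 2 : ℕ) : ℝ) / Q := by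
    refine max_le ?_ (by positivity)
    rw [← sub_div]
    gcongr
    push_cast [Nat.cast_add]
    linarith
  have t3 := this.trans t2
  rw [le_div_iff₀ Qp] at t3
  linarith

lemma ulev_eq (Q D : ℕ) {n : ℕ} (hn : 1 ≤ n) : ulev Q D n =
    if n * D ≤ Q then Nat.totient n * (D / n + 1) else
      ∑ r ∈ cop n, (en0 Q D n r - st1 Q D (Nat.totient n - 1) n r + 2) := by
  have e : ulev Q D n = cnd (Nat.ble (n * D) Q) (phi n * (D / n + 1))
      (smc (fun r => en0 Q D n r - st1 Q D (phi n - 1) n r + 2) n 0 n) := rfl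
  rw [e, cnd_eq, smc_eq, phi_eq hn, zero_add, cop, Finset.range_eq_Ico]
  simp only [Nat.ble_eq]

lemma lvl {Q D n : ℕ} (hD : 0 < D) (hQ : D ≤ Q) (hn : 1 ≤ n) :
    (Q : ℝ) * ∑ r ∈ cop n, volume.real (A (D / Q) n r) ≤ ulev Q D n := by
  have Qp : (0 : ℝ) < Q := by exact_mod_cast (by omega : 0 < Q)
  rw [ulev_eq Q D hn, Finset.mul_sum]
  split_ifs with h
  · have : ∀ r ∈ cop n, (Q : ℝ) * volume.real (A (D / Q) n r) ≤ ((D / n : ℕ) : ℝ) + 1 := by
      intro r _
      have a := A_le (δ := D / Q) (by positivity) hn r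
      have b := lt_div D hn
      have c : (Q : ℝ) * (D / Q / n) = D / n := by field_simp
      have d := mul_le_mul_of_nonneg_left a Qp.le
      linarith
    refine (Finset.sum_le_sum this).trans_eq ?_
    rw [Finset.sum_const, card_cop, nsmul_eq_mul, Nat.cast_mul, Nat.cast_add, Nat.cast_one]
  · rw [Nat.cast_sum]
    exact Finset.sum_le_sum fun r hr => big hD hQ (by omega) hr

lemma two {Q D : ℕ} (hD : 0 < D) (hQ : D ≤ Q) (N : ℕ) :
    (Q : ℝ) * mU (D / Q) N ≤ pre (ulev Q D) N := by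
  have Qp : (0 : ℝ) < Q := by exact_mod_cast (by omega : 0 < Q)
  have d1 : (D : ℝ) / Q ≤ 1 := by rw [div_le_one Qp]; exact_mod_cast hQ
  refine (mul_le_mul_of_nonneg_left (union d1 N) Qp.le).trans ?_
  rw [pre_eq, Nat.cast_sum, Finset.mul_sum]
  exact Finset.sum_le_sum fun n hn => lvl hD hQ (Finset.mem_Icc.1 hn).1

lemma three (Q m : ℕ) :
    (Q : ℝ) * Phi m ≤ pre (fun k => Nat.succ (Nat.div (Nat.mul (phi k) Q) k)) m := by
  rw [pre_eq, Nat.cast_sum, Phi, Finset.mul_sum]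
  refine Finset.sum_le_sum fun k hk => ?_
  have k1 := (Finset.mem_Icc.1 hk).1
  have e : Nat.succ (Nat.div (Nat.mul (phi k) Q) k) = Nat.totient k * Q / k + 1 := by
    rw [phi_eq k1]; rfl
  rw [e, Nat.cast_add, Nat.cast_one]
  refine le_trans (le_of_eq ?_) (lt_div _ k1).le
  push_cast
  ring

lemma shift (f : ℕ → ℝ) (M : ℕ) :
    ∑ m ∈ Finset.Icc 1 M, f (m - 1) = ∑ i ∈ Finset.range M, f i := by
  induction M with
  | zero => simp
  | succ M ih => rw [Finset.sum_Icc_succ_top (by omega), Finset.sum_range_succ, ih]; rfl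

end MTx

theorem MT_pf : MT := by
  refine ⟨fun δ h0 h1 N => MTx.one h0 h1 N, fun Q D M hD hQ => ?_, fun Q M => ?_⟩
  · rw [su, pre_eq, Nat.cast_sum, Finset.mul_sum]
    exact Finset.sum_le_sum fun m _ => MTx.two hD hQ (m + 1)
  · rw [sp, sm_eq, Nat.cast_sum, MTx.shift, Finset.mul_sum, Finset.range_eq_Ico]
    simp only [Nat.zero_add]
    exact Finset.sum_le_sum fun m _ => MTx.three Q m

end Pool.Agent.Lib.MP_a4d326_an.Q1
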