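import Pool.Agent.Lib.MP_a4d326_an.Q1.Stmt

/-! Numerical facts on the weights. -/

namespace Pool.Agent.Lib.MP_a4d326_an.Q1

namespace N1x

lemma expand {R : Type*} [CommRing R] (F : ℕ → R) : ∑ i, (ev i : R) * F (cv i) =
    F 1 - F 2 - F 3 - F 5 + F 6 - F 7 + F 10 - F 11 + F 15 - F 20 + F 22 - 2 * F 30 + F 33 - F 44 +
      F 60 - F 66 + F 84 - F 105 - F 165 + F 210 + F 220 - F 231 - F 308 + F 330 - 2 * F 420 +
      F 462 - F 1540 - F 2310 - F 4620 := by
  simp [Fin.sum_univ_succ, cv, ev]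
  ring

lemma cv_pos : ∀ i, 0 < cv i := by decide

lemma cv_dvd : ∀ i, cv i * (4620 / cv i) = 4620 := by decide

lemma div_per (r k : ℕ) (i : Fin 29) : (r + 4620 * k) / cv i = r / cv i + k * (4620 / cv i) := by
  have h : 4620 * k = cv i * (k * (4620 / cv i)) := by
    rw [mul_left_comm, cv_dvd, mul_comm]
  rw [h, Nat.add_mul_div_left _ _ (cv_pos i)]

def gP (L : ℕ) : ℕ := L / 1 + L / 6 + L / 10 + L / 15 + L / 22 + L / 33 + L / 60 + L / 84 +
  L / 210 + L / 220 + L / 330 + L / 462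

def gN (L : ℕ) : ℕ := L / 2 + L / 3 + L / 5 + L / 7 + L / 11 + L / 20 + 2 * (L / 30) + L / 44 +
  L / 66 + L / 105 + L / 165 + L / 231 + L / 308 + 2 * (L / 420) + L / 1540 + L / 2310 + L / 4620

def hP (L : ℕ) : ℕ := 4620 * (L / 1) + 770 * (L / 6) + 462 * (L / 10) + 308 * (L / 15) +
  210 * (L / 22) + 140 * (L / 33) + 77 * (L / 60) + 55 * (L / 84) + 22 * (L / 210) +
  21 * (L / 220) + 14 * (L / 330) + 10 * (L / 462)

def hN (L : ℕ) : ℕ := 2310 * (L / 2) + 1540 * (L / 3) + 924 * (L / 5) + 660 * (L / 7) +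
  420 * (L / 11) + 231 * (L / 20) + 308 * (L / 30) + 105 * (L / 44) + 70 * (L / 66) +
  44 * (L / 105) + 28 * (L / 165) + 20 * (L / 231) + 15 * (L / 308) + 22 * (L / 420) +
  3 * (L / 1540) + 2 * (L / 2310) + L / 4620

lemma Gf_eq (L : ℕ) : Gf L = (gP L : ℤ) - gN L := by
  have := expand (R := ℤ) fun c => ((L / c : ℕ) : ℤ)
  simp only [Int.cast_id] at this
  rw [Gf, this]
  simp only [gP, gN, Nat.cast_add, Nat.cast_mul, Nat.cast_ofNat]
  ring

lemma PhiP_eq (L : ℕ) : 4620 * PhiP L = (hP L : ℝ) - hN L := by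
  have := expand (R := ℝ) fun c => ((L / c : ℕ) : ℝ) / c
  simp only [← mul_div_assoc] at this
  rw [PhiP, this]
  simp only [hP, hN, Nat.cast_add, Nat.cast_mul, Nat.cast_ofNat, Nat.cast_one]
  ring

lemma chk1 : ∀ a < 70, ∀ b < 66, gN (66 * a + b + 1) + 1 ≤ gP (66 * a + b + 1) := by
  decide +kernel

lemma chk2 : ∀ a < 70, ∀ b < 66, 100000 * hP (66 * a + b) ≤
    100000 * hN (66 * a + b) + 4620 * (61027 * (66 * a + b) + 65100) := by
  decide +kernel

lemma Gf_per (r k : ℕ) : Gf (r + 4620 * k) = Gf r + k * Gf 4620 := by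
  simp only [Gf, div_per, Finset.mul_sum, ← Finset.sum_add_distrib]
  refine Finset.sum_congr rfl fun i _ => ?_
  simp only [Nat.cast_add, Nat.cast_mul]
  ring

lemma PhiP_per (r k : ℕ) : PhiP (r + 4620 * k) = PhiP r + k * PhiP 4620 := by
  simp only [PhiP, div_per, Finset.mul_sum, ← Finset.sum_add_distrib]
  refine Finset.sum_congr rfl fun i _ => ?_
  simp only [Nat.cast_add, Nat.cast_mul]
  ring

lemma n2a (N : ℕ) : PhiP N ≤ 0.61027 * N + 0.651 := by
  obtain ⟨r, k, hr, rfl⟩ : ∃ r k, r < 4620 ∧ N = r + 4620 * k :=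
    ⟨N % 4620, N / 4620, Nat.mod_lt _ (by norm_num), (Nat.mod_add_div _ _).symm⟩
  have h1 := chk2 (r / 66) (by omega) (r % 66) (by omega)
  rw [Nat.div_add_mod] at h1
  have h2 : (100000 : ℝ) * hP r ≤ 100000 * hN r + 4620 * (61027 * r + 65100) := by
    exact_mod_cast h1
  have h3 := PhiP_eq r
  have h4 := PhiP_eq 4620
  have h5 : hP 4620 = hN 4620 + 13025688 := by decide +kernel
  rw [h5] at h4
  push_cast at h4
  have h6 : PhiP 4620 ≤ 0.61027 * 4620 := by linarith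
  have h7 : (k : ℝ) * PhiP 4620 ≤ k * (0.61027 * 4620) :=
    mul_le_mul_of_nonneg_left h6 (Nat.cast_nonneg k)
  rw [PhiP_per]
  push_cast
  linarith

lemma H2_nonneg (n : ℕ) : 0 ≤ H2 n := Finset.sum_nonneg fun _ _ => by positivity

lemma H2_le (n : ℕ) : H2 n ≤ 1.645 := by
  have h1 : H2 n ≤ Real.pi ^ 2 / 6 :=
    sum_le_hasSum _ (fun _ _ => by positivity) hasSum_zeta_two
  have h2 := Real.pi_lt_d6
  have h3 := Real.pi_pos
  nlinarith

lemma H2_ge {n : ℕ} (hn : 10 ≤ n) : 1.64 - 1 / ((n : ℝ) + 1) ≤ H2 n := by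
  induction n, hn using Nat.le_induction with
  | base => norm_num [H2, Finset.sum_Icc_succ_top]
  | succ n hn ih =>
    rw [H2, Finset.sum_Icc_succ_top (by omega), ← H2]
    have h0 : (0 : ℝ) < n + 1 := by positivity
    have : 1 / ((n : ℝ) + 1) - 1 / ((n : ℝ) + 1 + 1) ≤ 1 / ((n : ℝ) + 1) ^ 2 := by
      rw [div_sub_div _ _ h0.ne' (by positivity), div_le_div_iff₀ (by positivity) (by positivity)]
      nlinarith
    push_cast
    linarith

lemma H2_ge' {n k : ℕ} (hk : 10 ≤ k) (hn : k ≤ n) : 1.64 - 1 / ((k : ℝ) + 1) ≤ H2 n := by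
  have h1 : (k : ℝ) ≤ n := by exact_mod_cast hn
  have h2 : 1 / ((n : ℝ) + 1) ≤ 1 / ((k : ℝ) + 1) :=
    one_div_le_one_div_of_le (by positivity) (by linarith)
  linarith [H2_ge (hk.trans hn)]

lemma n2b (N : ℕ) (hN : 159 ≤ N) : ZP N ≤ 1.375 := by
  have e := expand (R := ℝ) fun c => H2 (N / c) / (c : ℝ) ^ 3
  have e' : ZP N = ∑ i, (ev i : ℝ) * (H2 (N / cv i) / (cv i : ℝ) ^ 3) :=
    Finset.sum_congr rfl fun i _ => by ring
  rw [e', e]
  have a2 := H2_ge' (n := N / 2) (k := 79) (by norm_num) (by omega)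
  have a3 := H2_ge' (n := N / 3) (k := 53) (by norm_num) (by omega)
  have a5 := H2_ge' (n := N / 5) (k := 31) (by norm_num) (by omega)
  have a7 := H2_ge' (n := N / 7) (k := 22) (by norm_num) (by omega)
  have a11 := H2_ge' (n := N / 11) (k := 14) (by norm_num) (by omega)
  push_cast at a2 a3 a5 a7 a11 ⊢
  linarith [H2_le (N / 1), H2_le (N / 6), H2_le (N / 10), H2_le (N / 15), H2_le (N / 22),
    H2_le (N / 33), H2_le (N / 60), H2_le (N / 84), H2_le (N / 210), H2_le (N / 220),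
    H2_le (N / 330), H2_le (N / 462), H2_nonneg (N / 20), H2_nonneg (N / 30), H2_nonneg (N / 44),
    H2_nonneg (N / 66), H2_nonneg (N / 105), H2_nonneg (N / 165), H2_nonneg (N / 231),
    H2_nonneg (N / 308), H2_nonneg (N / 420), H2_nonneg (N / 1540), H2_nonneg (N / 2310),
    H2_nonneg (N / 4620)]

lemma n2c (N : ℕ) (hN : 30 ≤ N) :
    1.348 ≤ ∑ f ∈ Finset.Icc 1 N, (Nat.totient f : ℝ) / (f : ℝ) ^ 3 := by
  have h1 : (1348 / 1000 : ℚ) ≤ ∑ f ∈ Finset.Icc 1 30, (Nat.totient f : ℚ) / (f : ℚ) ^ 3 := by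
    decide +kernel
  have h2 : ((1348 / 1000 : ℚ) : ℝ) ≤
      ((∑ f ∈ Finset.Icc 1 30, (Nat.totient f : ℚ) / (f : ℚ) ^ 3 : ℚ) : ℝ) := Rat.cast_le.2 h1
  rw [Rat.cast_sum] at h2
  simp only [Rat.cast_div, Rat.cast_pow, Rat.cast_natCast, Rat.cast_ofNat] at h2
  refine le_trans (by norm_num) (h2.trans ?_)
  exact Finset.sum_le_sum_of_subset_of_nonneg (Finset.Icc_subset_Icc_right hN)
    fun _ _ _ => by positivity

/-- Harmonic numbers. -/
noncomputable def Hm (n : ℕ) : ℝ := ∑ t ∈ Finset.Icc 1 n, 1 / (t : ℝ)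

lemma Hm_step {c : ℕ} (hc : 0 < c) (L : ℕ) :
    Hm ((L + 1) / c) / c = Hm (L / c) / c + (if c ∣ L + 1 then 1 else 0) / ((L : ℝ) + 1) := by
  rw [Nat.succ_div]
  split_ifs with h
  · have h1 : c * (L / c + 1) = L + 1 := by
      have := Nat.mul_div_cancel' h
      rwa [Nat.succ_div, if_pos h] at this
    have h2 : (c : ℝ) * ((L / c : ℕ) + 1) = L + 1 := by exact_mod_cast h1
    have h3 : (c : ℝ) ≠ 0 := by exact_mod_cast hc.ne'
    rw [Hm, Finset.sum_Icc_succ_top (Nat.le_add_left _ _), ← Hm, ← h2, Nat.cast_add, Nat.cast_one]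
    have h4 : (((L / c : ℕ) : ℝ) + 1) ≠ 0 := by positivity
    field_simp
  · simp

lemma tot_sum (N M : ℕ) (hM : M ≤ N) :
    ∑ f ∈ Finset.Icc 1 N, (Nat.totient f : ℝ) * (Hm (M / f) / f) = M := by
  induction M with
  | zero => simp [Hm]
  | succ M ih =>
    have h1 : (Finset.Icc 1 N).filter (fun f => f ∣ M + 1) = (M + 1).divisors := by
      ext f
      simp only [Finset.mem_filter, Finset.mem_Icc, Nat.mem_divisors]
      constructor
      · exact fun h => ⟨h.2, by omega⟩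
      · exact fun h => ⟨⟨Nat.pos_of_dvd_of_pos h.1 (by omega),
          (Nat.le_of_dvd (by omega) h.1).trans hM⟩, h.1⟩
    have h2 : ∑ f ∈ Finset.Icc 1 N, (Nat.totient f : ℝ) * (if f ∣ M + 1 then 1 else 0) =
        (M : ℝ) + 1 := by
      simp only [mul_ite, mul_one, mul_zero]
      rw [← Finset.sum_filter, h1]
      exact_mod_cast Nat.sum_totient (M + 1)
    rw [Finset.sum_congr rfl fun f hf => by
      rw [Hm_step (Finset.mem_Icc.1 hf).1 M, mul_add, ← mul_div_assoc _ _ ((M : ℝ) + 1)],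
      Finset.sum_add_distrib, ih (by omega), ← Finset.sum_div, h2]
    have : (M : ℝ) + 1 ≠ 0 := by positivity
    rw [div_self this, Nat.cast_add, Nat.cast_one]

noncomputable def T (L : ℕ) : ℝ := ∑ i, (ev i : ℝ) * (Hm (L / cv i) / cv i)

lemma T_step (L : ℕ) : T (L + 1) = T L + ((Gf (L + 1) : ℝ) - Gf L) / ((L : ℝ) + 1) := by
  simp only [T, Gf, Int.cast_sum, ← Finset.sum_sub_distrib, Finset.sum_div,
    ← Finset.sum_add_distrib]
  refine Finset.sum_congr rfl fun i _ => ?_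
  rw [Hm_step (cv_pos i), Nat.succ_div]
  simp only [Int.cast_mul, Int.cast_natCast]
  simp only [Nat.cast_add, Nat.cast_ite, Nat.cast_one, Nat.cast_zero]
  ring

lemma T_ge (h1 : N1) (L : ℕ) : 1 - 1 / ((L : ℝ) + 1) ≤ T L - Gf L / ((L : ℝ) + 1) := by
  induction L with
  | zero => simp [T, Gf, Hm]
  | succ L ih =>
    have hG : (1 : ℝ) ≤ Gf (L + 1) := by exact_mod_cast h1 (L + 1) (by omega)
    have h0 : (0 : ℝ) < L + 1 := by positivity
    have h2 : 1 / ((L : ℝ) + 1 + 1) ≤ 1 / ((L : ℝ) + 1) :=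
      one_div_le_one_div_of_le h0 (by linarith)
    have h3 := mul_nonneg (sub_nonneg.2 hG) (sub_nonneg.2 h2)
    rw [T_step]
    push_cast
    simp only [div_eq_mul_inv, one_mul] at ih h3 ⊢
    nlinarith

lemma one_le_T (h1 : N1) {L : ℕ} (hL : 1 ≤ L) : 1 ≤ T L := by
  have hG : (1 : ℝ) ≤ Gf L := by exact_mod_cast h1 L hL
  have h2 : 1 / ((L : ℝ) + 1) ≤ Gf L / ((L : ℝ) + 1) :=
    div_le_div_of_nonneg_right hG (by positivity)
  linarith [T_ge h1 L]

end N1x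

open N1x

theorem N1_pf : N1 := by
  intro L hL
  obtain ⟨r, k, hr, rfl⟩ : ∃ r k, r < 4620 ∧ L = r + 1 + 4620 * k :=
    ⟨(L - 1) % 4620, (L - 1) / 4620, Nat.mod_lt _ (by norm_num), by omega⟩
  have h1 := chk1 (r / 66) (by omega) (r % 66) (by omega)
  rw [Nat.div_add_mod] at h1
  have h5 : gP 4620 = gN 4620 + 6 := by decide +kernel
  rw [Gf_per, Gf_eq, Gf_eq, h5]
  omega

theorem N2_pf : N2 := ⟨n2a, n2b, n2c⟩

theorem N3_pf (h1 : N1) : N3 := by
  intro N
  have e : PhiP N = ∑ f ∈ Finset.Icc 1 N, (Nat.totient f : ℝ) / f * T (N / f) := by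
    simp only [T, Finset.mul_sum]
    rw [Finset.sum_comm]
    refine Finset.sum_congr rfl fun i _ => ?_
    rw [← tot_sum N (N / cv i) (Nat.div_le_self _ _), Finset.mul_sum, Finset.sum_div]
    refine Finset.sum_congr rfl fun f _ => ?_
    rw [Nat.div_div_eq_div_mul, Nat.div_div_eq_div_mul, mul_comm (cv i) f]
    ring
  rw [e]
  refine Finset.sum_le_sum fun f hf => ?_
  have hf' := Finset.mem_Icc.1 hf
  exact le_mul_of_one_le_right (by positivity)
    (one_le_T h1 ((Nat.one_le_div_iff hf'.1).2 hf'.2))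

end Pool.Agent.Lib.MP_a4d326_an.Q1
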