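import Pool.Agent.Lib.MP_a4d326_an.Q1.Stmt

/-! Bounds for `beta`. -/

namespace Pool.Agent.Lib.MP_a4d326_an.Q1

namespace N4x

def L : List (ℕ × ℤ) := [(1, 1), (2, -1), (3, -1), (5, -1), (6, 1), (7, -1), (10, 1), (11, -1),
  (15, 1), (20, -1), (22, 1), (30, -2), (33, 1), (44, -1), (60, 1), (66, -1), (84, 1), (105, -1),
  (165, -1), (210, 1), (220, 1), (231, -1), (308, -1), (330, 1), (420, -2), (462, 1), (1540, -1),
  (2310, -1), (4620, -1)]

def T : List (ℕ × ℤ) := [(1, 10000), (2, 7500), (3, 5278), (4, 4653), (5, 3609), (7, 2384),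
  (11, 1785), (20, 1441), (25, 1377), (28, 1245), (30, 1007), (35, 931), (40, 817), (44, 667),
  (55, 607), (63, 569), (88, 517), (90, 470), (105, 376), (126, 348), (132, 314), (150, 273),
  (165, 256), (2000, 60)]

def bl (l : ℕ) : ℤ := (L.map fun p : ℕ × ℤ => if l % p.1 = 0 then p.2 * (p.1 : ℤ) else 0).sum

def chk (E : ℕ) (lo hi : ℤ) : Bool :=
  T.all fun p => decide (E < p.1) ||
    (decide (-(p.2 * 100000000) ≤ lo) && decide (hi ≤ p.2 * 100000000))

def run : ℕ → ℕ → ℤ → ℤ → Bool
  | 0, _, _, _ => true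
  | f + 1, n, lo, hi =>
    chk (n + 1) (lo + 1000000000000 * bl (n + 1) / ((n + 1 : ℕ) : ℤ) ^ 2)
        (hi - -(1000000000000 * bl (n + 1)) / ((n + 1 : ℕ) : ℤ) ^ 2) &&
      run f (n + 1) (lo + 1000000000000 * bl (n + 1) / ((n + 1 : ℕ) : ℤ) ^ 2)
        (hi - -(1000000000000 * bl (n + 1)) / ((n + 1 : ℕ) : ℤ) ^ 2)

theorem run_ok : run 2000 0 0 0 = true := by decide +kernel

theorem sum_L {M : Type} [AddCommMonoid M] (f : ℕ → ℤ → M) :
    ∑ i, f (cv i) (ev i) = (L.map fun p => f p.1 p.2).sum := by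
  rw [Fin.sum_univ_def]
  rfl

theorem cv_pos (i : Fin 29) : 0 < cv i := by revert i; decide

theorem H2_succ (n : ℕ) : H2 (n + 1) = H2 n + 1 / ((n + 1 : ℕ) : ℝ) ^ 2 := by
  unfold H2
  rw [Finset.sum_Icc_succ_top (by omega)]

theorem beta_succ (n : ℕ) : beta (n + 1) = beta n + (bl (n + 1) : ℝ) / ((n + 1 : ℕ) : ℝ) ^ 2 := by
  have e : bl (n + 1) = ∑ i, if (n + 1) % cv i = 0 then ev i * cv i else 0 :=
    (sum_L fun c e => if (n + 1) % c = 0 then e * c else 0).symm
  rw [e]
  unfold beta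
  push_cast
  rw [Finset.sum_div, ← Finset.sum_add_distrib]
  refine Finset.sum_congr rfl fun i _ => ?_
  have hc := cv_pos i
  have hc' : (cv i : ℝ) ≠ 0 := by exact_mod_cast hc.ne'
  rw [Nat.succ_div]
  by_cases h : cv i ∣ n + 1
  · rw [if_pos h, if_pos (Nat.mod_eq_zero_of_dvd h), H2_succ]
    have h1 : n + 1 = cv i * (n / cv i + 1) := by
      have := Nat.mul_div_cancel' h
      rw [Nat.succ_div, if_pos h] at this
      exact this.symm
    have h2 : (n : ℝ) + 1 = cv i * ((n / cv i + 1 : ℕ) : ℝ) := by exact_mod_cast h1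
    have h3 : ((n / cv i + 1 : ℕ) : ℝ) ≠ 0 := Nat.cast_ne_zero.2 (Nat.succ_ne_zero _)
    rw [h2]
    field_simp
  · rw [if_neg h, if_neg fun h' => h (Nat.dvd_of_mod_eq_zero h')]
    simp

theorem fl (a : ℤ) (n : ℕ) :
    ((a / ((n + 1 : ℕ) : ℤ) ^ 2 : ℤ) : ℝ) ≤ (a : ℝ) / ((n + 1 : ℕ) : ℝ) ^ 2 := by
  rw [le_div_iff₀ (by positivity)]
  have := Int.ediv_mul_le a (show ((n + 1 : ℕ) : ℤ) ^ 2 ≠ 0 by positivity)
  exact_mod_cast this

theorem run_sound (f : ℕ) : ∀ (n : ℕ) (lo hi : ℤ), run f n lo hi = true →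
    (lo : ℝ) ≤ 1000000000000 * beta n → 1000000000000 * beta n ≤ hi →
    ∀ E, n < E → E ≤ n + f → ∀ p ∈ T, p.1 ≤ E → |beta E| ≤ (p.2 : ℝ) / 10000 := by
  induction f with
  | zero => intro n _ _ _ _ _ E h1 h2; omega
  | succ f ih =>
    intro n lo hi h hlo hhi E h1 h2 p hp hE
    rw [run, Bool.and_eq_true] at h
    have a1 := fl (1000000000000 * bl (n + 1)) n
    have a2 := fl (-(1000000000000 * bl (n + 1))) n
    have b1 : ((lo + 1000000000000 * bl (n + 1) / ((n + 1 : ℕ) : ℤ) ^ 2 : ℤ) : ℝ) ≤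
        1000000000000 * beta (n + 1) := by
      rw [beta_succ, Int.cast_add]
      rw [Int.cast_mul, mul_div_assoc] at a1
      have e : ((1000000000000 : ℤ) : ℝ) = 1000000000000 := by norm_num
      rw [e] at a1
      linarith
    have b2 : 1000000000000 * beta (n + 1) ≤
        ((hi - -(1000000000000 * bl (n + 1)) / ((n + 1 : ℕ) : ℤ) ^ 2 : ℤ) : ℝ) := by
      rw [beta_succ, Int.cast_sub]
      rw [Int.cast_neg, Int.cast_mul, neg_div, mul_div_assoc] at a2
      have e : ((1000000000000 : ℤ) : ℝ) = 1000000000000 := by norm_num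
      rw [e] at a2
      linarith
    rcases Nat.lt_or_ge (n + 1) E with h3 | h3
    · exact ih _ _ _ h.2 b1 b2 E h3 (by omega) p hp hE
    · have e : E = n + 1 := by omega
      subst e
      have h4 := List.all_eq_true.1 h.1 p hp
      simp only [Bool.or_eq_true, Bool.and_eq_true, decide_eq_true_eq] at h4
      rcases h4 with h4 | h4
      · omega
      · have c1 := (Int.cast_le (R := ℝ)).2 h4.1
        have c2 := (Int.cast_le (R := ℝ)).2 h4.2
        rw [Int.cast_neg, Int.cast_mul] at c1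
        rw [Int.cast_mul] at c2
        have e : ((100000000 : ℤ) : ℝ) = 100000000 := by norm_num
        rw [e] at c1 c2
        rw [abs_le]
        constructor <;> linarith

theorem small (E : ℕ) (h1 : 1 ≤ E) (h2 : E ≤ 2000) :
    ∀ p ∈ T, p.1 ≤ E → |beta E| ≤ (p.2 : ℝ) / 10000 := by
  have z : beta 0 = 0 := by simp [beta, H2]
  exact run_sound 2000 0 0 0 run_ok (by simp [z]) (by simp [z]) E h1 (by omega)

theorem H2_diff (b d : ℕ) : 0 ≤ H2 (b + d) - H2 b ∧
    H2 (b + d) - H2 b ≤ 1 / ((b : ℝ) + 1 / 2) - 1 / (((b + d : ℕ) : ℝ) + 1 / 2) := by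
  induction d with
  | zero => simp
  | succ d ih =>
    rw [← add_assoc, H2_succ]
    have h1 : (0 : ℝ) ≤ 1 / ((b + d + 1 : ℕ) : ℝ) ^ 2 := by positivity
    have h2 : 1 / ((b + d + 1 : ℕ) : ℝ) ^ 2 ≤
        1 / (((b + d : ℕ) : ℝ) + 1 / 2) - 1 / (((b + d + 1 : ℕ) : ℝ) + 1 / 2) := by
      rw [Nat.cast_succ (b + d)]
      have x0 : (0 : ℝ) ≤ ((b + d : ℕ) : ℝ) := by positivity
      generalize ((b + d : ℕ) : ℝ) = x at x0
      rw [div_sub_div _ _ (by positivity) (by positivity),
        div_le_div_iff₀ (by positivity) (by positivity)]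
      nlinarith
    constructor <;> linarith [ih.1, ih.2]

theorem tail (E : ℕ) (h : 2000 ≤ E) : |beta E| ≤ 0.0256 := by
  have h0 := small 2000 (by norm_num) le_rfl (2000, 60) (by decide) le_rfl
  have h1 : |beta E - beta 2000| ≤
      ∑ i, |(ev i : ℝ)| / cv i * (1 / (((2000 / cv i : ℕ) : ℝ) + 1 / 2)) := by
    unfold beta
    rw [← Finset.sum_sub_distrib]
    refine (Finset.abs_sum_le_sum_abs _ _).trans (Finset.sum_le_sum fun i _ => ?_)
    obtain ⟨d, hd⟩ := Nat.exists_eq_add_of_le (Nat.div_le_div_right (c := cv i) h)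
    have h2 := H2_diff (2000 / cv i) d
    rw [← mul_sub, abs_mul, abs_div, Nat.abs_cast, hd, abs_of_nonneg h2.1]
    refine mul_le_mul_of_nonneg_left (h2.2.trans ?_) (by positivity)
    have : (0 : ℝ) ≤ 1 / (((2000 / cv i + d : ℕ) : ℝ) + 1 / 2) := by positivity
    linarith
  have h2 : ∑ i, |(ev i : ℝ)| / cv i * (1 / (((2000 / cv i : ℕ) : ℝ) + 1 / 2)) ≤ 0.0196 := by
    rw [sum_L fun c e => |(e : ℝ)| / c * (1 / (((2000 / c : ℕ) : ℝ) + 1 / 2))]
    simp only [L, List.map_cons, List.map_nil, List.sum_cons, List.sum_nil, Nat.reduceDiv]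
    norm_num
  have h3 := abs_add_le (beta E - beta 2000) (beta 2000)
  rw [sub_add_cancel] at h3
  have h4 := h1.trans h2
  norm_num at h0 h4 ⊢
  linarith

theorem all (E : ℕ) (k : ℕ) (t : ℤ) (hp : (k, t) ∈ T) (h1 : 1 ≤ k) (h2 : 256 ≤ t) (hE : k ≤ E) :
    |beta E| ≤ (t : ℝ) / 10000 := by
  rcases le_total E 2000 with h | h
  · exact small E (by omega) h (k, t) hp hE
  · have := tail E h
    have h3 : (256 : ℝ) ≤ t := by exact_mod_cast h2
    norm_num at this
    linarith

end N4x

theorem N4_pf : N4 := by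
  intro E
  have h := N4x.all E
  refine ⟨fun e => ?_, fun e => ?_, fun e => ?_, fun e => ?_, fun e => ?_, fun e => ?_,
    fun e => ?_, fun e => ?_, fun e => ?_, fun e => ?_, fun e => ?_, fun e => ?_, fun e => ?_,
    fun e => ?_, fun e => ?_, fun e => ?_, fun e => ?_, fun e => ?_, fun e => ?_, fun e => ?_,
    fun e => ?_, fun e => ?_, fun e => ?_⟩
  · exact (h 1 10000 (by decide) (by decide) (by decide) e).trans (by norm_num)
  · exact (h 2 7500 (by decide) (by decide) (by decide) e).trans (by norm_num)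
  · exact (h 3 5278 (by decide) (by decide) (by decide) e).trans (by norm_num)
  · exact (h 4 4653 (by decide) (by decide) (by decide) e).trans (by norm_num)
  · exact (h 5 3609 (by decide) (by decide) (by decide) e).trans (by norm_num)
  · exact (h 7 2384 (by decide) (by decide) (by decide) e).trans (by norm_num)
  · exact (h 11 1785 (by decide) (by decide) (by decide) e).trans (by norm_num)
  · exact (h 20 1441 (by decide) (by decide) (by decide) e).trans (by norm_num)
  · exact (h 25 1377 (by decide) (by decide) (by decide) e).trans (by norm_num)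
  · exact (h 28 1245 (by decide) (by decide) (by decide) e).trans (by norm_num)
  · exact (h 30 1007 (by decide) (by decide) (by decide) e).trans (by norm_num)
  · exact (h 35 931 (by decide) (by decide) (by decide) e).trans (by norm_num)
  · exact (h 40 817 (by decide) (by decide) (by decide) e).trans (by norm_num)
  · exact (h 44 667 (by decide) (by decide) (by decide) e).trans (by norm_num)
  · exact (h 55 607 (by decide) (by decide) (by decide) e).trans (by norm_num)
  · exact (h 63 569 (by decide) (by decide) (by decide) e).trans (by norm_num)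
  · exact (h 88 517 (by decide) (by decide) (by decide) e).trans (by norm_num)
  · exact (h 90 470 (by decide) (by decide) (by decide) e).trans (by norm_num)
  · exact (h 105 376 (by decide) (by decide) (by decide) e).trans (by norm_num)
  · exact (h 126 348 (by decide) (by decide) (by decide) e).trans (by norm_num)
  · exact (h 132 314 (by decide) (by decide) (by decide) e).trans (by norm_num)
  · exact (h 150 273 (by decide) (by decide) (by decide) e).trans (by norm_num)
  · exact (h 165 256 (by decide) (by decide) (by decide) e).trans (by norm_num)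

end Pool.Agent.Lib.MP_a4d326_an.Q1
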