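import Pool.Agent.Lib.MP_a4d326_an.Q1.Stmt

/-! The error term and the range of small `δ`. -/

namespace Pool.Agent.Lib.MP_a4d326_an.Q1

open MeasureTheory Set

namespace NEx

lemma core {δ t v z ψ : ℝ} (h0 : 0 < δ) (h1 : δ ≤ 1 / 512) (t0 : 0.3 ≤ t) (hv : v * t = 1)
    (z0 : 0 ≤ z) (z1 : z * t ≤ 0.61027 * t + 3.70235 * δ)
    (hψ : ψ ≤ (3.61 * (δ * v) + 0.00108) / 12 + δ / 3 * (z * t * 1.375) - δ / 6 * 1.348) :
    ∃ B, 0 ≤ B ∧ 10 * t * ψ + 175 * z ^ 2 * (δ ^ 2 * v) ≤ B ∧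
      0.08 * (0.91152 + 14.57 * (δ * v)) * B ≤ (0.02475 - 0.01097 * t + 0.0112 * t ^ 2) ^ 2 := by
  have tp : 0 < t := by linarith
  have v0 : 0 < v := (pos_iff_pos_of_mul_pos (hv ▸ one_pos : 0 < v * t)).2 tp
  have v1 : v ≤ 10 / 3 := by
    refine le_of_mul_le_mul_right ?_ tp
    rw [hv]; linarith
  have v2 : v ≤ 10 / 3 * (t ^ 2 - 2.3 * t + 1.6) := by
    refine le_of_mul_le_mul_right ?_ tp
    rw [hv]
    nlinarith [mul_nonneg (sq_nonneg (t - 1)) (sub_nonneg.2 t0)]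
  have z2 : z ≤ 0.63438 := by
    refine le_of_mul_le_mul_right ?_ tp
    linarith
  have q0 : 0 ≤ 3.00834 - 2.21352 * t + 2.79708 * t ^ 2 := by nlinarith [sq_nonneg (t - 0.4)]
  refine ⟨1 / 512 * (3.00834 - 2.21352 * t + 2.79708 * t ^ 2) + 0.0009 * t +
    70.43 * ((1 / 512) ^ 2 * v), by positivity, ?_, ?_⟩
  · have a1 : 175 * z ^ 2 * (δ ^ 2 * v) ≤ 70.43 * ((1 / 512) ^ 2 * v) := by
      have : 175 * z ^ 2 ≤ 70.43 := by nlinarith
      gcongr
    have a2 : 10 * t * ψ ≤ δ * (3.00834 - 2.21352 * t + 2.79708 * t ^ 2) + 0.0009 * t := by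
      have b1 := mul_le_mul_of_nonneg_left hψ (by positivity : 0 ≤ 10 * t)
      have b2 : z * t ≤ 0.61027 * t + 0.0072312 := by linarith
      have b3 := mul_le_mul_of_nonneg_left b2 (by positivity : 0 ≤ δ * t)
      have b4 : t * (δ * v) = δ := by rw [mul_left_comm, mul_comm t, hv, mul_one]
      have b5 : 0 ≤ δ * t := by positivity
      have b6 : 0 ≤ δ * t * t := by positivity
      nlinarith
    have a3 := mul_le_mul_of_nonneg_right h1 q0
    linarith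
  · have a1 : δ * v ≤ 1 / 512 * v := by gcongr
    have a2 : v * v ≤ 10 / 3 * v := by gcongr
    have a3 : v * t ^ 2 = t := by rw [sq, ← mul_assoc, hv, one_mul]
    refine le_trans (b := 0.08 * (0.91152 + 14.57 * (1 / 512 * v)) *
      (1 / 512 * (3.00834 - 2.21352 * t + 2.79708 * t ^ 2) + 0.0009 * t +
        70.43 * ((1 / 512) ^ 2 * v))) (by gcongr) ?_
    refine le_trans (b := 0.046 * (0.02475 - 0.01097 * t + 0.0112 * t ^ 2 - 0.0115)) ?_
      (by nlinarith [sq_nonneg (0.02475 - 0.01097 * t + 0.0112 * t ^ 2 - 0.023)])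
    nlinarith [sq_nonneg t]

/-- A primitive of the bound for the blocks. -/
noncomputable def Pr (t : ℝ) : ℝ := 0.9604 * t - 0.6046 * t ^ 2 + 0.3665 / 3 * t ^ 3

lemma Pr_step {t h : ℝ} (h0 : 0 ≤ h) (h1 : t + h ≤ 1.35) :
    Pr (t + h) - Pr t ≤ h * (0.9604 - 1.2092 * t + 0.3665 * t ^ 2) := by
  have : 0 ≤ h ^ 2 * (0.6046 - 0.3665 * t - 0.3665 / 3 * h) :=
    mul_nonneg (sq_nonneg _) (by linarith)
  unfold Pr
  nlinarith

lemma fin {δ s e : ℝ} (h0 : 0 < δ) (h1 : δ ≤ 1 / 512) (s0 : 0.3 ≤ s) (s1 : s ≤ 0.3 + δ)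
    (e0 : 1.34 - 5 * δ ≤ e) (e1 : e ≤ 1.34) :
    1 / 2 < (s - δ) * (1 - 0.61027 * s - 1.302 * δ) + (Pr e - Pr s) := by
  have a1 : 0.49525 ≤ Pr e := by
    obtain ⟨x, rfl⟩ : ∃ x, e = 1.33 + x := ⟨e - 1.33, by ring⟩
    have x0 : 0 ≤ x := by linarith
    have x1 : x ≤ 0.01 := by linarith
    have x2 : x ^ 2 ≤ 0.0001 := by nlinarith
    have x3 : 0 ≤ x ^ 3 := by positivity
    unfold Pr
    nlinarith
  have a2 : (s - 1 / 512) * (1 - 0.61027 * s - 1.302 / 512) ≤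
      (s - δ) * (1 - 0.61027 * s - 1.302 * δ) :=
    mul_le_mul (by linarith) (by linarith) (by linarith) (by linarith)
  have a3 : 0.005 ≤ (s - 1 / 512) * (1 - 0.61027 * s - 1.302 / 512) - Pr s := by
    obtain ⟨x, rfl⟩ : ∃ x, s = 0.3 + x := ⟨s - 0.3, by ring⟩
    have x0 : 0 ≤ x := by linarith
    have x1 : x ≤ 0.002 := by linarith
    have x2 : x ^ 2 ≤ 0.000004 := by nlinarith
    have x3 : x ^ 3 ≤ 0.00000001 := by nlinarith
    unfold Pr
    nlinarith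
  linarith

lemma Pm_nonneg (δ₁ δ₂ : ℝ) (N m : ℕ) : 0 ≤ Pm δ₁ δ₂ N m :=
  Finset.sum_nonneg fun _ _ => Finset.sum_nonneg fun _ _ => mul_nonneg (by positivity)
    (integral_nonneg fun _ => mul_nonneg (le_max_left _ _) (sub_nonneg.2 (nh_le_one _ _ _)))

end NEx

theorem NE_pf : NE := by
  intro δ m K y ψ h0 h1 t0 _ K0 hK y0 hy hψ
  have mp : 0 < m := (pos_iff_pos_of_mul_pos (by linarith : 0 < m * δ)).2 h0
  obtain ⟨B, B0, b1, b2⟩ := NEx.core (t := m * δ) (v := 1 / (m * δ)) (z := y / (m * δ))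
    (ψ := ψ / δ ^ 2) h0 h1 t0 (by field_simp) (by positivity)
    (by rw [div_mul_cancel₀ _ (by positivity)]; linarith)
    (by
      rw [div_le_iff₀ (by positivity), div_mul_cancel₀ _ (by positivity)]
      refine hψ.trans (le_of_eq ?_)
      field_simp)
  have r0 : 0 ≤ 0.02475 - 0.01097 * (m * δ) + 0.0112 * (m * δ) ^ 2 := by
    nlinarith [sq_nonneg (m * δ - 0.5)]
  refine Real.sqrt_le_iff.2 ⟨by positivity, ?_⟩
  have e : 10 * ψ / m ^ 2 + 175 * y ^ 2 / m ^ 6 = δ / m ^ 3 *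
      (10 * (m * δ) * (ψ / δ ^ 2) + 175 * (y / (m * δ)) ^ 2 * (δ ^ 2 * (1 / (m * δ)))) := by
    field_simp
  rw [e]
  calc _ ≤ K * (δ / m ^ 3 * B) := by gcongr
    _ ≤ 2 * δ * (0.91152 * m ^ 3 + 14.57 * m ^ 2) * (δ / m ^ 3 * B) := by gcongr
    _ = (5 * δ) ^ 2 * (0.08 * (0.91152 + 14.57 * (δ * (1 / (m * δ)))) * B) := by
      field_simp
      ring
    _ ≤ _ := (mul_le_mul_of_nonneg_left b2 (sq_nonneg _)).trans (mul_pow ..).ge

theorem AF_pf (hFH : FH) (hB1 : B1) (hMT : MT) (hN2 : N2) (hN3 : N3) (hBL : BL) : AF := by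
  intro δ h0 h1
  have d1 : δ ≤ 1 := by linarith
  have one : ∀ m : ℕ, δ - δ ^ 2 * (0.61027 * (2 * (m + 1)) + 1.302) ≤ Im δ δ (m + 1) := by
    intro m
    have a1 := hB1 δ δ h0 d1 (m + 1) (by omega)
    have a2 := hMT.1 δ h0.le d1 (m + 1 + 1)
    have a3 := (hN3 (m + 1 + 1)).trans (hN2.1 _)
    have a4 := (hN3 m).trans (hN2.1 _)
    have a5 := NEx.Pm_nonneg δ δ (m + 1 + 1) (m + 1)
    rw [Nat.add_sub_cancel] at a1
    push_cast at a3
    have a6 := mul_le_mul_of_nonneg_left a2 h0.le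
    have a7 := mul_le_mul_of_nonneg_left a3 (sq_nonneg δ)
    have a8 := mul_le_mul_of_nonneg_left a4 (sq_nonneg δ)
    nlinarith
  have low : ∀ a : ℕ, a * δ * (1 - 0.61027 * ((a + 1) * δ) - 1.302 * δ) ≤
      ∑ m ∈ Finset.Icc 1 a, Im δ δ m := by
    intro a
    induction a with
    | zero => simp
    | succ a ih =>
      rw [Finset.sum_Icc_succ_top (by omega)]
      have := one a
      push_cast
      nlinarith
  obtain ⟨a, ha⟩ : ∃ a : ℕ, ⌈0.3 / δ⌉₊ = a + 1 :=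
    Nat.exists_eq_succ_of_ne_zero (Nat.ceil_pos.2 (by positivity)).ne'
  have s0 : 0.3 ≤ (a + 1) * δ := by
    have := Nat.le_ceil (0.3 / δ)
    rw [ha, div_le_iff₀ h0] at this
    exact_mod_cast this
  have s1 : (a + 1) * δ ≤ 0.3 + δ := by
    have := (Nat.ceil_lt_add_one (by positivity : 0 ≤ 0.3 / δ)).le
    rw [ha, div_add_one h0.ne', le_div_iff₀ h0] at this
    exact_mod_cast this
  have blk : ∀ n : ℕ, (a + 1) * δ + n * (5 * δ) ≤ 1.34 →
      ∑ m ∈ Finset.Icc 1 a, Im δ δ m + (NEx.Pr ((a + 1) * δ + n * (5 * δ)) - NEx.Pr ((a + 1) * δ)) ≤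
        ∑ m ∈ Finset.Icc 1 (a + 5 * n), Im δ δ m := by
    intro n
    induction n with
    | zero => simp
    | succ n ih =>
      intro hn
      have n0 : (0 : ℝ) ≤ n * (5 * δ) := by positivity
      have e1 : ((a + 1 + 5 * n : ℕ) : ℝ) * δ = (a + 1) * δ + n * (5 * δ) := by push_cast; ring
      have e2 : (a + 1) * δ + ((n + 1 : ℕ) : ℝ) * (5 * δ) = (a + 1) * δ + n * (5 * δ) + 5 * δ := by
        push_cast; ring
      rw [e2] at hn ⊢
      have b1 := hBL δ (a + 1 + 5 * n) h0 h1 (by rw [e1]; linarith) (by rw [e1]; linarith)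
      have b2 := NEx.Pr_step (t := (a + 1) * δ + n * (5 * δ)) (h := 5 * δ) (by positivity)
        (by linarith)
      have b3 := ih (by linarith)
      have e3 : Finset.Icc 1 (a + 5 * (n + 1)) =
          Finset.Icc 1 (a + 5 * n) ∪ Finset.Icc (a + 1 + 5 * n) (a + 1 + 5 * n + 4) := by
        ext x
        simp only [Finset.mem_union, Finset.mem_Icc]
        omega
      rw [e1] at b1
      rw [e3, Finset.sum_union (Finset.disjoint_left.2 fun x hx hx' => by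
        simp only [Finset.mem_Icc] at hx hx'
        omega)]
      linarith
  have p5 : 0 < 5 * δ := by positivity
  have f1 := Nat.floor_le (a := (1.34 - (a + 1) * δ) / (5 * δ)) (div_nonneg (by linarith) p5.le)
  have f2 := (Nat.lt_floor_add_one ((1.34 - (a + 1) * δ) / (5 * δ))).le
  rw [le_div_iff₀ p5] at f1
  rw [div_le_iff₀ p5] at f2
  generalize ⌊(1.34 - (a + 1) * δ) / (5 * δ)⌋₊ = n at f1 f2
  have c1 := blk n (by linarith)
  have c2 := hFH δ δ h0 d1 (a + 5 * n)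
  have c3 := NEx.fin (e := (a + 1) * δ + n * (5 * δ)) h0 h1 s0 s1 (by linarith) (by linarith)
  have c4 := low a
  rw [show (a + 1) * δ - δ = a * δ by ring] at c3
  linarith

end Pool.Agent.Lib.MP_a4d326_an.Q1
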