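import Pool.Agent.Lib.MP_a4d326_an.Q1.Stmt

/-! Two bounds for double sums over the terms of the majorant. -/

namespace Pool.Agent.Lib.MP_a4d326_an.Q1

open Finset

namespace PQx

def ta : ArithmeticFunction ℕ := ⟨fun n => n * Nat.totient n, by simp⟩

def tb : ArithmeticFunction ℕ := ⟨fun n => Nat.totient n, by simp⟩

def J (f : ℕ) : ℕ := (ta * tb) f

lemma sum_J (g : ℕ) : ∑ f ∈ g.divisors, J f = g ^ 2 := by
  have h1 : tb * ArithmeticFunction.zeta = ArithmeticFunction.id := by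
    ext n
    rw [ArithmeticFunction.mul_zeta_apply]
    exact Nat.sum_totient n
  unfold J
  rw [← ArithmeticFunction.mul_zeta_apply, mul_assoc, h1, ArithmeticFunction.mul_apply,
    Nat.sum_divisorsAntidiagonal fun a b => ta a * ArithmeticFunction.id b]
  have h2 : ∀ a ∈ g.divisors, ta a * ArithmeticFunction.id (g / a) = g * Nat.totient a := by
    intro a ha
    show a * Nat.totient a * (g / a) = _
    rw [mul_right_comm, Nat.mul_div_cancel' (Nat.dvd_of_mem_divisors ha)]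
  rw [sum_congr rfl h2, ← mul_sum, sq]
  congr 1
  exact Nat.sum_totient g

lemma J_le {f : ℕ} (hf : 1 ≤ f) : J f ≤ f ^ 2 := by
  rw [← sum_J]
  exact single_le_sum (f := J) (fun _ _ => Nat.zero_le _) (Nat.mem_divisors_self f (by omega))

lemma cv_pos : ∀ i, 1 ≤ cv i := by decide

noncomputable def lin (N : ℕ) (u : ℕ → ℕ → ℝ) : ℝ :=
  ∑ i, (ev i : ℝ) * ∑ n ∈ Icc 1 (N / cv i), u (cv i) n

lemma pairs_prod (N : ℕ) (u v : ℕ → ℕ → ℝ) :
    pairs N (fun c n c' n' => u c n * v c' n') = lin N u * lin N v := by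
  unfold pairs lin
  rw [sum_mul_sum]
  refine sum_congr rfl fun i _ => sum_congr rfl fun i' _ => ?_
  rw [mul_mul_mul_comm, sum_mul_sum, mul_sum]
  exact sum_congr rfl fun n _ => by rw [mul_sum]

lemma pairs_congr {N : ℕ} {F G : ℕ → ℕ → ℕ → ℕ → ℝ} (h : ∀ c n c' n', 1 ≤ c → 1 ≤ c' → 1 ≤ n →
    n ≤ N → 1 ≤ n' → F c n c' n' = G c n c' n') : pairs N F = pairs N G := by
  refine sum_congr rfl fun i _ => sum_congr rfl fun i' _ => sum_congr rfl fun n hn =>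
    sum_congr rfl fun n' hn' => ?_
  rw [h _ _ _ _ (cv_pos i) (cv_pos i') (mem_Icc.1 hn).1
    ((mem_Icc.1 hn).2.trans (Nat.div_le_self _ _)) (mem_Icc.1 hn').1]

lemma pairs_add (N : ℕ) (F G : ℕ → ℕ → ℕ → ℕ → ℝ) :
    pairs N (fun c n c' n' => F c n c' n' + G c n c' n') = pairs N F + pairs N G := by
  simp only [pairs, mul_add, sum_add_distrib]

lemma pairs_mul (N : ℕ) (a : ℝ) (F : ℕ → ℕ → ℕ → ℕ → ℝ) :
    pairs N (fun c n c' n' => a * F c n c' n') = a * pairs N F := by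
  simp only [pairs, mul_sum, mul_left_comm _ a]

lemma pairs_sum (N : ℕ) (s : Finset ℕ) (F : ℕ → ℕ → ℕ → ℕ → ℕ → ℝ) :
    pairs N (fun c n c' n' => ∑ f ∈ s, F f c n c' n') = ∑ f ∈ s, pairs N (F f) := by
  induction s using Finset.induction_on with
  | empty => simp [pairs]
  | insert a s ha ih =>
    simp only [sum_insert ha]
    rw [pairs_add N (F a), ih]

lemma mult {f : ℕ} (hf : 1 ≤ f) (M : ℕ) :
    ∑ n ∈ Icc 1 M, (if f ∣ n then 1 / (n : ℝ) ^ 2 else 0) = H2 (M / f) / (f : ℝ) ^ 2 := by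
  rw [← sum_filter, H2, sum_div]
  symm
  refine sum_bij (fun t _ => f * t) (fun t ht => ?_) (fun t _ t' _ h => ?_) (fun n hn => ?_)
    (fun t ht => ?_)
  · obtain ⟨h1, h2⟩ := mem_Icc.1 ht
    refine mem_filter.2 ⟨mem_Icc.2 ⟨Nat.mul_pos hf h1, ?_⟩, dvd_mul_right _ _⟩
    rw [mul_comm]
    exact (Nat.le_div_iff_mul_le hf).1 h2
  · exact Nat.eq_of_mul_eq_mul_left hf h
  · obtain ⟨h1, t, rfl⟩ := mem_filter.1 hn
    obtain ⟨h1, h2⟩ := mem_Icc.1 h1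
    refine ⟨t, mem_Icc.2 ⟨Nat.pos_of_mul_pos_left h1, (Nat.le_div_iff_mul_le hf).2 ?_⟩, rfl⟩
    rwa [mul_comm]
  · push_cast
    rw [mul_pow, div_div, mul_comm]

lemma pterm_eq {δ : ℝ} (hδ : 0 < δ) {c n c' n' : ℕ} (hc : 1 ≤ c) (hc' : 1 ≤ c') (hn : 1 ≤ n)
    (hn' : 1 ≤ n') : pterm δ c n c' n' =
    δ ^ 2 / 12 * ((Nat.gcd n n' : ℝ) ^ 2 / ((n : ℝ) ^ 2 * (n' : ℝ) ^ 2 * c * c')) +
    (-(δ ^ 3 / 12) * ((Nat.gcd n n' : ℝ) * ((1 / (c * n : ℝ)) ^ 3 + (1 / (c' * n' : ℝ)) ^ 3 -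
      |1 / (c * n : ℝ) - 1 / (c' * n' : ℝ)| ^ 3)) +
    (δ ^ 4 / 6 * (1 / (c : ℝ) ^ 3 * (1 / (n : ℝ) ^ 2) * (1 / (c' : ℝ))) +
    (-(δ ^ 4 / 4) * (1 / ((c : ℝ) ^ 2 * n) * (1 / ((c' : ℝ) ^ 2 * n'))) +
    δ ^ 4 / 6 * (1 / (c : ℝ) * (1 / (c' : ℝ) ^ 3 * (1 / (n' : ℝ) ^ 2)))))) := by
  have h1 : (0 : ℝ) < c := by exact_mod_cast hc
  have h2 : (0 : ℝ) < c' := by exact_mod_cast hc'
  have h3 : (0 : ℝ) < n := by exact_mod_cast hn
  have h4 : (0 : ℝ) < n' := by exact_mod_cast hn'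
  have h5 : (0 : ℝ) < Nat.gcd n n' := by exact_mod_cast Nat.gcd_pos_of_pos_left n' hn
  unfold pterm P4
  generalize (Nat.gcd n n' : ℝ) = g at h5 ⊢
  have e : |n' * δ / (c * g) - n * δ / (c' * g)| =
      n * n' * δ / g * |1 / (c * n : ℝ) - 1 / (c' * n' : ℝ)| := by
    rw [← abs_of_pos (show 0 < n * n' * δ / g by positivity), ← abs_mul]
    congr 1
    field_simp
  rw [e, abs_of_pos (show 0 < n' * δ / (c * g) by positivity),
    abs_of_pos (show 0 < n * δ / (c' * g) by positivity)]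
  generalize |1 / (c * n : ℝ) - 1 / (c' * n' : ℝ)| = a
  field_simp
  ring

end PQx

open PQx

theorem PQ_pf : PQ := by
  intro N
  rw [pairs_congr (G := fun c n c' n' => ∑ f ∈ Icc 1 N, (J f : ℝ) *
    ((if f ∣ n then 1 / (n : ℝ) ^ 2 else 0) / c * ((if f ∣ n' then 1 / (n' : ℝ) ^ 2 else 0) / c')))
    ?_, pairs_sum]
  · refine sum_le_sum fun f hf => ?_
    have hf1 := (mem_Icc.1 hf).1
    have h0 : (0 : ℝ) < f := by exact_mod_cast hf1
    have h1 : lin N (fun c n => (if f ∣ n then 1 / (n : ℝ) ^ 2 else 0) / c) =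
        beta (N / f) / (f : ℝ) ^ 2 := by
      rw [lin, beta, sum_div]
      refine sum_congr rfl fun i _ => ?_
      rw [← sum_div, mult hf1, Nat.div_div_eq_div_mul, Nat.div_div_eq_div_mul, mul_comm f]
      ring
    have h2 : (J f : ℝ) ≤ (f : ℝ) ^ 2 := by exact_mod_cast J_le hf1
    rw [pairs_mul, pairs_prod N (fun c n => (if f ∣ n then 1 / (n : ℝ) ^ 2 else 0) / c)
      (fun c n => (if f ∣ n then 1 / (n : ℝ) ^ 2 else 0) / c), h1]
    refine (mul_le_mul_of_nonneg_right h2 (mul_self_nonneg _)).trans (le_of_eq ?_)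
    field_simp
  · intro c n c' n' hc hc' hn hN hn'
    have h1 : (Nat.gcd n n').divisors = (Icc 1 N).filter fun f => f ∣ n ∧ f ∣ n' := by
      ext f
      rw [Nat.mem_divisors, mem_filter, mem_Icc, Nat.dvd_gcd_iff]
      exact ⟨fun h => ⟨⟨Nat.pos_of_dvd_of_pos h.1.1 hn, (Nat.le_of_dvd hn h.1.1).trans hN⟩, h.1⟩,
        fun h => ⟨h.2, (Nat.gcd_pos_of_pos_left n' hn).ne'⟩⟩
    have h2 : (Nat.gcd n n' : ℝ) ^ 2 = ∑ f ∈ (Nat.gcd n n').divisors, (J f : ℝ) := by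
      exact_mod_cast (sum_J _).symm
    rw [h2, h1, sum_filter, sum_div]
    refine sum_congr rfl fun f _ => ?_
    by_cases h3 : f ∣ n <;> by_cases h4 : f ∣ n' <;> simp only [h3, h4, and_self, and_false,
      false_and, if_true, if_false, zero_div, mul_zero, zero_mul]
    ring

theorem PT_pf (hQ : PQ) (hC : PC) : PT := by
  intro δ N hδ
  have e1 : lin N (fun c _ => 1 / (c : ℝ)) = PhiP N := by
    refine sum_congr rfl fun i _ => ?_
    rw [sum_const, Nat.card_Icc, nsmul_eq_mul, Nat.add_sub_cancel]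
    ring
  have e2 : lin N (fun c n => 1 / (c : ℝ) ^ 3 * (1 / (n : ℝ) ^ 2)) = ZP N := by
    refine sum_congr rfl fun i _ => ?_
    rw [← mul_sum, H2]
    ring
  rw [pairs_congr fun c n c' n' hc hc' hn _ hn' => pterm_eq hδ hc hc' hn hn', pairs_add, pairs_add,
    pairs_add, pairs_add, pairs_mul, pairs_mul, pairs_mul, pairs_mul, pairs_mul,
    pairs_prod N (fun c n => 1 / (c : ℝ) ^ 3 * (1 / (n : ℝ) ^ 2)) (fun c _ => 1 / (c : ℝ)),
    pairs_prod N (fun c _ => 1 / (c : ℝ)) (fun c n => 1 / (c : ℝ) ^ 3 * (1 / (n : ℝ) ^ 2)),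
    pairs_prod N (fun c n => 1 / ((c : ℝ) ^ 2 * n)) (fun c n => 1 / ((c : ℝ) ^ 2 * n)), e1, e2]
  have h1 := mul_le_mul_of_nonneg_left (hQ N) (show 0 ≤ δ ^ 2 / 12 by positivity)
  have h2 := mul_le_mul_of_nonneg_left (hC N) (show 0 ≤ δ ^ 3 / 12 by positivity)
  have h3 := mul_nonneg (show 0 ≤ δ ^ 4 / 4 by positivity)
    (mul_self_nonneg (lin N fun c n => 1 / ((c : ℝ) ^ 2 * n)))
  linarith

end Pool.Agent.Lib.MP_a4d326_an.Q1
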