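import Pool.Agent.Lib.MP_a4d326_an.Q1.Stmt

/-! The negative Sobolev norm of the majorant. -/

namespace Pool.Agent.Lib.MP_a4d326_an.Q1

open MeasureTheory Set Real

namespace PSx

noncomputable def u (θ x : ℝ) : ℝ := ind (Int.fract x < θ)

lemma u_nice (θ : ℝ) : Nice (u θ) :=
  ⟨measurable_ind (measurableSet_lt measurable_fract measurable_const),
    ⟨1, fun x => by rw [u, abs_of_nonneg (ind_nonneg _)]; exact ind_le_one _⟩,
    fun x => by simp only [u, Int.fract_add_one]⟩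

lemma ii {f : ℝ → ℝ} (hf : Measurable f) {C : ℝ} (hC : ∀ x, |f x| ≤ C) (l : ℤ) (a b : ℝ) :
    IntervalIntegrable
      (fun x : ℝ => Complex.exp (-(2 * Real.pi * Complex.I * l * x)) * (f x : ℂ)) volume a b := by
  have h := bdd_ii hf C hC a b
  have h2 : IntervalIntegrable (fun x => (f x : ℂ)) volume a b := ⟨h.1.ofReal, h.2.ofReal⟩
  exact h2.continuousOn_mul (by fun_prop)

lemma fc_u {θ : ℝ} (h0 : 0 ≤ θ) (h1 : θ ≤ 1) {l : ℤ} (hl : l ≠ 0) :
    fc (u θ) l = ((sin (2 * π * l * θ) / (2 * π * l) : ℝ) : ℂ) -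
      ((1 - cos (2 * π * l * θ)) / (2 * π * l) : ℝ) * Complex.I := by
  obtain ⟨hm, ⟨C, hC⟩, -⟩ := u_nice θ
  have hc : (-(2 * Real.pi * Complex.I * l) : ℂ) ≠ 0 := by
    simp [Real.pi_ne_zero, hl]
  have a : ∫ x in (0 : ℝ)..θ, Complex.exp (-(2 * Real.pi * Complex.I * l * x)) * (u θ x : ℂ) =
      ∫ x in (0 : ℝ)..θ, Complex.exp (-(2 * Real.pi * Complex.I * l) * x) := by
    rw [intervalIntegral.integral_of_le h0, intervalIntegral.integral_of_le h0,
      integral_Ioc_eq_integral_Ioo, integral_Ioc_eq_integral_Ioo]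
    refine setIntegral_congr_fun measurableSet_Ioo fun x hx => ?_
    have : Int.fract x < θ := by
      rw [Int.fract_eq_self.2 ⟨hx.1.le, hx.2.trans_le h1⟩]; exact hx.2
    simp only [u, ind_pos this, Complex.ofReal_one, mul_one, neg_mul]
  have b : ∫ x in θ..1, Complex.exp (-(2 * Real.pi * Complex.I * l * x)) * (u θ x : ℂ) = 0 := by
    rw [intervalIntegral.integral_of_le h1, integral_Ioc_eq_integral_Ioo]
    refine setIntegral_eq_zero_of_forall_eq_zero fun x hx => ?_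
    have : ¬ Int.fract x < θ := by
      rw [Int.fract_eq_self.2 ⟨h0.trans hx.1.le, hx.2⟩]; exact not_lt.2 hx.1.le
    simp only [u, ind_neg this, Complex.ofReal_zero, mul_zero]
  rw [fc, ← intervalIntegral.integral_add_adjacent_intervals (ii hm hC l 0 θ) (ii hm hC l θ 1), a, b,
    add_zero, integral_exp_mul_complex hc, div_eq_iff hc]
  have e : -(2 * Real.pi * Complex.I * l) * (θ : ℂ) = (-(2 * π * l * θ : ℝ) : ℂ) * Complex.I := by
    push_cast; ring
  rw [e, Complex.exp_mul_I, Complex.cos_neg, Complex.sin_neg, ← Complex.ofReal_cos,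
    ← Complex.ofReal_sin]
  have p : (π : ℂ) ≠ 0 := by exact_mod_cast Real.pi_ne_zero
  have q : (l : ℂ) ≠ 0 := by exact_mod_cast hl
  generalize sin (2 * π * l * θ) = s
  generalize cos (2 * π * l * θ) = c
  push_cast
  simp only [mul_zero, Complex.exp_zero]
  field_simp
  linear_combination (c - 1 : ℂ) * Complex.I_mul_I

noncomputable def S (θ : ℝ) (n : ℕ) (j : ℤ) : ℝ :=
  if (n : ℤ) ∣ j then sin (2 * π * (j / n : ℤ) * θ) / (2 * π * (j / n : ℤ)) else 0

noncomputable def C (θ : ℝ) (n : ℕ) (j : ℤ) : ℝ :=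
  if (n : ℤ) ∣ j then (1 - cos (2 * π * (j / n : ℤ) * θ)) / (2 * π * (j / n : ℤ)) else 0

lemma fc_un (hDL : DL) {θ : ℝ} (h0 : 0 ≤ θ) (h1 : θ ≤ 1) {n : ℕ} (hn : 1 ≤ n) {j : ℤ} (hj : j ≠ 0) :
    fc (fun x => u θ (n * x)) j = (S θ n j : ℂ) - (C θ n j : ℝ) * Complex.I := by
  have := hDL (u θ) (u_nice θ) n j (by omega)
  rw [Int.cast_natCast] at this
  rw [this, S, C]
  split_ifs with h
  · refine fc_u h0 h1 fun e => hj ?_
    rw [← Int.ediv_mul_cancel h, e, zero_mul]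
  · simp

lemma cv_pos : ∀ i, 1 ≤ cv i := by decide

lemma cv_ev : ∀ i, 2 ≤ cv i ∨ ev i = 1 := by decide

lemma fc_Ys (hDL : DL) {δ : ℝ} (h0 : 0 < δ) (h1 : δ ≤ 1) (N : ℕ) {j : ℤ} (hj : j ≠ 0) :
    fc (Ys δ N) j =
      ((∑ i, (ev i : ℝ) * ∑ n ∈ Finset.Icc 1 (N / cv i), S (δ / cv i) n j : ℝ) : ℂ) -
      (∑ i, (ev i : ℝ) * ∑ n ∈ Finset.Icc 1 (N / cv i), C (δ / cv i) n j : ℝ) * Complex.I := by
  have I : ∀ (θ : ℝ) (n : ℕ), IntervalIntegrable (fun x : ℝ =>
      Complex.exp (-(2 * Real.pi * Complex.I * j * x)) * (u θ (n * x) : ℂ)) volume 0 1 := by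
    intro θ n
    obtain ⟨hm, ⟨C, hC⟩, -⟩ := u_nice θ
    exact ii (f := fun x => u θ (n * x)) (hm.comp (measurable_const_mul _)) (fun x => hC _) j 0 1
  have e : fc (Ys δ N) j = ∑ i, (ev i : ℂ) * ∑ n ∈ Finset.Icc 1 (N / cv i),
      fc (fun x => u (δ / cv i) (n * x)) j := by
    have : ∀ x : ℝ, Complex.exp (-(2 * Real.pi * Complex.I * j * x)) * (Ys δ N x : ℂ) =
        ∑ i, (ev i : ℂ) * ∑ n ∈ Finset.Icc 1 (N / cv i),
          Complex.exp (-(2 * Real.pi * Complex.I * j * x)) * (u (δ / cv i) (n * x) : ℂ) := by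
      intro x
      simp only [Ys, u, Complex.ofReal_sum, Complex.ofReal_mul, Complex.ofReal_intCast,
        Finset.mul_sum]
      exact Finset.sum_congr rfl fun i _ => Finset.sum_congr rfl fun n _ => by ring
    simp only [fc, this]
    rw [intervalIntegral.integral_finsetSum fun i _ =>
      (IntervalIntegrable.sum (Finset.Icc 1 (N / cv i)) (fun n _ => I (δ / cv i) n) |>.congr
        fun x _ => by simp only [Finset.sum_apply]).const_mul _]
    refine Finset.sum_congr rfl fun i _ => ?_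
    rw [intervalIntegral.integral_const_mul, intervalIntegral.integral_finsetSum fun n _ => I _ n]
  rw [e]
  push_cast
  rw [Finset.sum_mul, ← Finset.sum_sub_distrib]
  refine Finset.sum_congr rfl fun i _ => ?_
  have c1 : (1 : ℝ) ≤ cv i := by exact_mod_cast cv_pos i
  rw [mul_assoc, ← mul_sub, Finset.sum_mul, ← Finset.sum_sub_distrib]
  congr 1
  exact Finset.sum_congr rfl fun n hn => fc_un hDL (by positivity)
    ((div_le_one (by linarith)).2 (by linarith)) (Finset.mem_Icc.1 hn).1 hj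

lemma hs {ι : Type} {f g : ι → ℝ} {a b : ℝ} (h : HasSum f a) (e : ∀ t, g t = f t) (e' : b = a) :
    HasSum g b := by
  rw [e', funext e]
  exact h

lemma b4 (y : ℝ) : (Polynomial.map (algebraMap ℚ ℝ) (Polynomial.bernoulli (2 * 2))).eval y =
    y ^ 4 - 2 * y ^ 3 + y ^ 2 - 1 / 30 := by
  simp [Polynomial.bernoulli, Finset.sum_range_succ, bernoulli_eq_bernoulli'_of_ne_one,
    bernoulli'_four, bernoulli'_three, Nat.choose]
  ring

lemma sum01 {y : ℝ} (h0 : 0 ≤ y) (h1 : y ≤ 1) :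
    HasSum (fun t : ℤ => (1 - cos (2 * π * t * y)) / ((2 * π) ^ 4 * (t : ℝ) ^ 4))
      ((y ^ 4 - 2 * y ^ 3 + y ^ 2) / 24) := by
  have a := hasSum_one_div_nat_pow_mul_cos (k := 2) two_ne_zero (x := y) ⟨h0, h1⟩
  have b := hasSum_one_div_nat_pow_mul_cos (k := 2) two_ne_zero (x := 0) ⟨le_rfl, zero_le_one⟩
  rw [b4] at a b
  have p := Real.pi_ne_zero
  have c : HasSum (fun t : ℕ => (1 - cos (2 * π * t * y)) / ((2 * π) ^ 4 * (t : ℝ) ^ 4))
      ((y ^ 4 - 2 * y ^ 3 + y ^ 2) / 48) := by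
    refine hs ((b.sub a).div_const ((2 * π) ^ 4)) (fun t => ?_) ?_
    · simp only [mul_zero, cos_zero]
      ring
    · simp only [Nat.factorial]
      field_simp
      ring
  have d := HasSum.of_nat_of_neg
    (f := fun t : ℤ => (1 - cos (2 * π * t * y)) / ((2 * π) ^ 4 * (t : ℝ) ^ 4))
    (by simpa only [Int.cast_natCast] using c)
    (hs c (fun t => by
      simp only [Int.cast_neg, Int.cast_natCast, mul_neg, neg_mul, cos_neg]
      ring) rfl)
  refine hs d (fun _ => rfl) ?_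
  simp only [Int.cast_zero, mul_zero, zero_mul, cos_zero, sub_self, zero_div]
  ring

noncomputable def Pt (y : ℝ) : ℝ := P4 y - 4 * max (|y| - 1) 0 ^ 3

lemma sumPt {y : ℝ} (h : |y| ≤ 2) :
    HasSum (fun t : ℤ => (1 - cos (2 * π * t * y)) / ((2 * π) ^ 4 * (t : ℝ) ^ 4)) (Pt y / 24) := by
  have e : ∀ t : ℤ, cos (2 * π * t * y) = cos (2 * π * t * |y|) := fun t => by
    rcases abs_choice y with h | h <;> rw [h]
    rw [mul_neg, cos_neg]
  have e4 : y ^ 4 = |y| ^ 4 := by rw [← abs_pow, abs_of_nonneg (by positivity)]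
  have e2 : y ^ 2 = |y| ^ 2 := (sq_abs y).symm
  simp only [e, Pt, P4, e4, e2]
  have h0 := abs_nonneg y
  generalize |y| = z at h h0 ⊢
  rcases le_total z 1 with h1 | h1
  · refine hs (sum01 h0 h1) (fun _ => rfl) ?_
    rw [max_eq_right (by linarith)]
    ring
  · have e' : ∀ t : ℤ, cos (2 * π * t * z) = cos (2 * π * t * (z - 1)) := fun t => by
      rw [← cos_sub_int_mul_two_pi _ t]
      congr 1
      ring
    simp only [e']
    refine hs (sum01 (y := z - 1) (by linarith) (by linarith)) (fun _ => rfl) ?_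
    rw [max_eq_left (by linarith)]
    ring

lemma sumPair {θ θ' : ℝ} {g a a' : ℕ} (hg : 0 < g) (ha : 0 < a) (ha' : 0 < a')
    (hc : Nat.Coprime a a') (h0 : 0 ≤ a' * θ) (h1 : a' * θ ≤ 2) (h0' : 0 ≤ a * θ')
    (h1' : a * θ' ≤ 2) :
    HasSum (fun j : ℤ => (S θ (g * a) j * S θ' (g * a') j + C θ (g * a) j * C θ' (g * a') j) /
        (2 * π * j) ^ 2)
      ((g : ℝ) ^ 4 / (24 * ((g * a : ℕ) : ℝ) ^ 3 * ((g * a' : ℕ) : ℝ) ^ 3) *
        (Pt (a' * θ) + Pt (a * θ') - Pt (a' * θ - a * θ'))) := by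
  have g0 : (g : ℤ) ≠ 0 := by omega
  have a0 : (a : ℤ) ≠ 0 := by omega
  have a0' : (a' : ℤ) ≠ 0 := by omega
  have inj : Function.Injective fun t : ℤ => (g * a * a' : ℤ) * t :=
    mul_right_injective₀ (by positivity)
  refine (inj.hasSum_iff fun j hj => ?_).1 ?_
  · by_cases h : ((g * a : ℕ) : ℤ) ∣ j
    · by_cases h' : ((g * a' : ℕ) : ℤ) ∣ j
      · exfalso
        obtain ⟨k, rfl⟩ := h
        push_cast at h' hj
        rw [mul_assoc, mul_dvd_mul_iff_left g0] at h'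
        obtain ⟨t, rfl⟩ := (Nat.isCoprime_iff_coprime.2 hc.symm).dvd_of_dvd_mul_left h'
        exact hj ⟨t, by ring⟩
      · simp only [S, C, if_neg h', mul_zero, add_zero, zero_div]
    · simp only [S, C, if_neg h, zero_mul, add_zero, zero_div]
  · have s := (((sumPt (y := a' * θ) (by rwa [abs_of_nonneg h0])).add
      (sumPt (y := a * θ') (by rwa [abs_of_nonneg h0']))).sub
      (sumPt (y := a' * θ - a * θ') (abs_le.2 ⟨by linarith, by linarith⟩))).mul_left
      ((g : ℝ) ^ 4 / (((g * a : ℕ) : ℝ) ^ 3 * ((g * a' : ℕ) : ℝ) ^ 3))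
    refine hs s (fun t => ?_) ?_
    · have d1 : ((g * a : ℕ) : ℤ) ∣ (g * a * a' : ℤ) * t := ⟨a' * t, by push_cast; ring⟩
      have d2 : ((g * a' : ℕ) : ℤ) ∣ (g * a * a' : ℤ) * t := ⟨a * t, by push_cast; ring⟩
      have e1 : (g * a * a' : ℤ) * t / ((g * a : ℕ) : ℤ) = a' * t :=
        Int.ediv_eq_of_eq_mul_right (by push_cast; positivity) (by push_cast; ring)
      have e2 : (g * a * a' : ℤ) * t / ((g * a' : ℕ) : ℤ) = a * t :=
        Int.ediv_eq_of_eq_mul_right (by push_cast; positivity) (by push_cast; ring)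
      simp only [Function.comp, S, C, if_pos d1, if_pos d2, e1, e2]
      push_cast
      rw [show 2 * π * t * (a' * θ - a * θ') = 2 * π * (a' * t) * θ - 2 * π * (a * t) * θ' by ring,
        cos_sub, show 2 * π * t * (a' * θ) = 2 * π * (a' * t) * θ by ring,
        show 2 * π * t * (a * θ') = 2 * π * (a * t) * θ' by ring]
      rcases eq_or_ne t 0 with rfl | ht
      · simp
      · have p := Real.pi_ne_zero
        have t0 : (t : ℝ) ≠ 0 := by exact_mod_cast ht
        have g1 : (g : ℝ) ≠ 0 := by positivity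
        have a1 : (a : ℝ) ≠ 0 := by positivity
        have a2 : (a' : ℝ) ≠ 0 := by positivity
        field_simp
        ring
    · ring

lemma Pt_le {x x' : ℝ} (h : 0 ≤ x) (h' : 0 ≤ x') :
    Pt x + Pt x' - Pt (x - x') ≤ P4 x + P4 x' - P4 (x - x') := by
  simp only [Pt, abs_of_nonneg h, abs_of_nonneg h']
  have a : 0 ≤ max (x - 1) 0 ^ 3 := pow_nonneg (le_max_right _ _) 3
  have b : 0 ≤ max (x' - 1) 0 ^ 3 := pow_nonneg (le_max_right _ _) 3
  rcases le_total x x' with e | e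
  · have : max (|x - x'| - 1) 0 ^ 3 ≤ max (x' - 1) 0 ^ 3 :=
      pow_le_pow_left₀ (le_max_right _ _) (max_le_max_right _ (by
        rw [abs_of_nonpos (by linarith)]; linarith)) 3
    linarith
  · have : max (|x - x'| - 1) 0 ^ 3 ≤ max (x - 1) 0 ^ 3 :=
      pow_le_pow_left₀ (le_max_right _ _) (max_le_max_right _ (by
        rw [abs_of_nonneg (by linarith)]; linarith)) 3
    linarith

lemma Pt_eq {x : ℝ} (h : |x| ≤ 1) : Pt x = P4 x := by
  rw [Pt, max_eq_right (by linarith)]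
  ring

lemma xle {δ : ℝ} {N c c' g a : ℕ} (h0 : 0 < δ) (hN : N * δ ≤ 2) (hc : 1 ≤ c) (hg : 0 < g)
    (ha : g * a ≤ N / c') : a * (δ / c) * (c * c') ≤ 2 := by
  have h1 : a * c' ≤ N := (Nat.mul_le_mul_right _ ((Nat.le_mul_of_pos_left a hg).trans ha)).trans
    (Nat.div_mul_le_self N c')
  have h2 : (a : ℝ) * c' ≤ N := by exact_mod_cast h1
  have h3 : (c : ℝ) ≠ 0 := by positivity
  have : a * (δ / c) * (c * c') = a * c' * δ := by field_simp
  rw [this]
  nlinarith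

lemma pair {δ : ℝ} {N : ℕ} (h0 : 0 < δ) (hN : N * δ ≤ 2) (i i' : Fin 29) {n n' : ℕ}
    (hn : n ∈ Finset.Icc 1 (N / cv i)) (hn' : n' ∈ Finset.Icc 1 (N / cv i')) :
    ∃ T : ℝ, T ≤ (ev i : ℝ) * (ev i' : ℝ) * pterm δ (cv i) n (cv i') n' ∧
      HasSum (fun j : ℤ => (ev i : ℝ) * (ev i' : ℝ) * ((S (δ / cv i) n j * S (δ / cv i') n' j +
        C (δ / cv i) n j * C (δ / cv i') n' j) / (2 * π * j) ^ 2)) T := by
  rw [Finset.mem_Icc] at hn hn'
  have hg : 0 < Nat.gcd n n' := Nat.gcd_pos_of_pos_left _ hn.1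
  obtain ⟨a, a', hc, e, e'⟩ := Nat.exists_coprime n n'
  rw [pterm]
  generalize Nat.gcd n n' = g at hg e e' ⊢
  rw [mul_comm] at e e'
  subst e e'
  have ha : 0 < a := Nat.pos_of_mul_pos_left hn.1
  have ha' : 0 < a' := Nat.pos_of_mul_pos_left hn'.1
  have c1 : (1 : ℝ) ≤ cv i := by exact_mod_cast cv_pos i
  have c2 : (1 : ℝ) ≤ cv i' := by exact_mod_cast cv_pos i'
  have x1 := xle h0 hN (cv_pos i) hg hn'.2
  have x2 := xle h0 hN (cv_pos i') hg hn.2
  have p1 : 0 ≤ a' * (δ / cv i) := by positivity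
  have p2 : 0 ≤ a * (δ / cv i') := by positivity
  have cc : (1 : ℝ) ≤ cv i * cv i' := one_le_mul_of_one_le_of_one_le c1 c2
  have g1 : (g : ℝ) ≠ 0 := by positivity
  have e1 : ((g * a' : ℕ) : ℝ) * δ / (cv i * g) = a' * (δ / cv i) := by push_cast; field_simp
  have e2 : ((g * a : ℕ) : ℝ) * δ / (cv i' * g) = a * (δ / cv i') := by push_cast; field_simp
  refine ⟨_, ?_, (sumPair hg ha ha' hc p1 (by nlinarith) p2 (by nlinarith)).mul_left _⟩
  rw [e1, e2]
  by_cases h : (2 : ℝ) ≤ cv i * cv i'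
  · have y1 : a' * (δ / cv i) ≤ 1 := by nlinarith
    have y2 : a * (δ / cv i') ≤ 1 := by nlinarith
    rw [Pt_eq (by rwa [abs_of_nonneg p1]), Pt_eq (by rwa [abs_of_nonneg p2]),
      Pt_eq (abs_le.2 ⟨by linarith, by linarith⟩)]
  · have v1 : ev i = 1 := (cv_ev i).resolve_left fun k => h (by
      have : (2 : ℝ) ≤ cv i := by exact_mod_cast k
      nlinarith)
    have v2 : ev i' = 1 := (cv_ev i').resolve_left fun k => h (by
      have : (2 : ℝ) ≤ cv i' := by exact_mod_cast k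
      nlinarith)
    rw [v1, v2]
    exact mul_le_mul_of_nonneg_left (mul_le_mul_of_nonneg_left (Pt_le p1 p2) (by positivity))
      (by norm_num)

lemma sq_sum (N : ℕ) (F : Fin 29 → ℕ → ℝ) :
    (∑ i, (ev i : ℝ) * ∑ n ∈ Finset.Icc 1 (N / cv i), F i n) ^ 2 =
      ∑ i, ∑ i', ∑ n ∈ Finset.Icc 1 (N / cv i), ∑ n' ∈ Finset.Icc 1 (N / cv i'),
        (ev i : ℝ) * (ev i' : ℝ) * (F i n * F i' n') := by
  rw [sq, Finset.sum_mul_sum]
  refine Finset.sum_congr rfl fun i _ => Finset.sum_congr rfl fun i' _ => ?_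
  rw [mul_mul_mul_comm, Finset.sum_mul_sum, Finset.mul_sum]
  exact Finset.sum_congr rfl fun n _ => Finset.mul_sum _ _ _

end PSx

open PSx in
theorem PS_pf (hDL : DL) : PS := by
  intro δ N h0 h1 hN s _
  choose! T hT hS using fun (i i' : Fin 29) (n n' : ℕ) (hn : n ∈ Finset.Icc 1 (N / cv i))
    (hn' : n' ∈ Finset.Icc 1 (N / cv i')) => pair h0 hN i i' hn hn'
  have a := hasSum_sum (s := Finset.univ) fun i _ => hasSum_sum (s := Finset.univ) fun i' _ =>
    hasSum_sum fun n hn => hasSum_sum fun n' hn' => hS i i' n n' hn hn'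
  have b := hs (g := fun l : ℤ => ‖fc (Ys δ N) l‖ ^ 2 / (2 * π * l) ^ 2) a (fun l => by
    rcases eq_or_ne l 0 with rfl | hl
    · simp
    · have nq : ∀ x y : ℝ, ‖(x : ℂ) - y * Complex.I‖ ^ 2 = x ^ 2 + y ^ 2 := fun x y => by
        rw [Complex.sq_norm, Complex.normSq_apply]
        simp [sq]
      rw [fc_Ys hDL h0 h1 N hl, nq]
      rw [sq_sum N fun i n => S (δ / cv i) n l, sq_sum N fun i n => C (δ / cv i) n l]
      simp only [← Finset.sum_add_distrib, Finset.sum_div]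
      refine Finset.sum_congr rfl fun i _ => Finset.sum_congr rfl fun i' _ =>
        Finset.sum_congr rfl fun n _ => Finset.sum_congr rfl fun n' _ => by ring) rfl
  refine (sum_le_hasSum s (fun l _ => by positivity) b).trans ?_
  exact Finset.sum_le_sum fun i _ => Finset.sum_le_sum fun i' _ =>
    Finset.sum_le_sum fun n hn => Finset.sum_le_sum fun n' hn' => hT i i' n n' hn hn'

end Pool.Agent.Lib.MP_a4d326_an.Q1
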