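import Pool.Agent.Lib.MP_a4d326_an.Q1.Stmt

/-! Counting bits. -/

namespace Pool.Agent.Lib.MP_a4d326_an.Q1

namespace Popx

/-- the mask -/
def mk (k : ℕ) : ℕ → ℕ
  | 0 => 0
  | n + 1 => 2 ^ k - 1 + 2 ^ (2 * k) * mk k n

/-- the sum of the digits -/
def ds (k : ℕ) : ℕ → ℕ → ℕ
  | 0, _ => 0
  | n + 1, x => x % 2 ^ k + ds k n (x / 2 ^ k)

/-- one folding step -/
def fo (k n x : ℕ) : ℕ := (x &&& mk k n) + (x / 2 ^ k &&& mk k n)

lemma mk_mul (k n : ℕ) : (2 ^ k + 1) * mk k n + 1 = 2 ^ (2 * k * n) := by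
  induction n with
  | zero => simp [mk]
  | succ n ih =>
    obtain ⟨a, ha⟩ : ∃ a, 2 ^ k = a + 1 := ⟨2 ^ k - 1, by have := Nat.two_pow_pos k; omega⟩
    rw [Nat.mul_succ, pow_add, ← ih, mk, two_mul k, pow_add, ha, Nat.add_sub_cancel]
    ring

lemma fold_eq {R k n : ℕ} (h : R = 2 * k * n) (x : ℕ) : fold R k x = fo k n x := by
  have e : msk R k = mk k n := by
    show (1 <<< R - 1) / (1 <<< k + 1) = _
    rw [Nat.one_shiftLeft, Nat.one_shiftLeft, h, ← mk_mul, Nat.add_sub_cancel,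
      Nat.mul_div_cancel_left _ (Nat.succ_pos _)]
  show (x &&& msk R k) + (x >>> k &&& msk R k) = _
  rw [e, Nat.shiftRight_eq_div_pow, fo]

lemma land_succ (k n y : ℕ) :
    y &&& mk k (n + 1) = y % 2 ^ k + 2 ^ (2 * k) * (y / 2 ^ (2 * k) &&& mk k n) := by
  have h1 : 2 ^ k - 1 < 2 ^ (2 * k) :=
    lt_of_lt_of_le (Nat.sub_lt (Nat.two_pow_pos k) one_pos) (Nat.pow_le_pow_right two_pos (by omega))
  rw [← Nat.mod_add_div (y &&& mk k (n + 1)) (2 ^ (2 * k)), Nat.and_mod_two_pow,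
    Nat.and_div_two_pow, mk, Nat.add_mul_mod_self_left, Nat.mod_eq_of_lt h1,
    Nat.add_mul_div_left _ _ (Nat.two_pow_pos _), Nat.div_eq_of_lt h1, zero_add,
    Nat.and_two_pow_sub_one_eq_mod, Nat.mod_mod_of_dvd _ (pow_dvd_pow 2 (by omega))]

lemma fo_succ (k n x : ℕ) : fo k (n + 1) x =
    x % 2 ^ k + x / 2 ^ k % 2 ^ k + 2 ^ (2 * k) * fo k n (x / 2 ^ (2 * k)) := by
  rw [fo, fo, land_succ, land_succ, Nat.div_div_eq_div_mul, Nat.div_div_eq_div_mul,
    mul_comm (2 ^ k) (2 ^ (2 * k))]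
  ring

lemma low_lt {k : ℕ} (hk : 1 ≤ k) (x y : ℕ) : x % 2 ^ k + y % 2 ^ k < 2 ^ (2 * k) := by
  have h1 := Nat.mod_lt x (Nat.two_pow_pos k)
  have h2 := Nat.mod_lt y (Nat.two_pow_pos k)
  have h3 : 2 ^ (k + 1) ≤ 2 ^ (2 * k) := Nat.pow_le_pow_right two_pos (by omega)
  rw [pow_succ] at h3
  omega

lemma ds_fo {k : ℕ} (hk : 1 ≤ k) (n x : ℕ) : ds (2 * k) n (fo k n x) = ds k (2 * n) x := by
  induction n generalizing x with
  | zero => rfl
  | succ n ih =>
    have h := low_lt hk x (x / 2 ^ k)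
    rw [fo_succ, ds, Nat.add_mul_mod_self_left, Nat.mod_eq_of_lt h,
      Nat.add_mul_div_left _ _ (Nat.two_pow_pos _), Nat.div_eq_of_lt h, zero_add, ih,
      show 2 * (n + 1) = 2 * n + 1 + 1 from rfl, ds, ds, Nat.div_div_eq_div_mul, ← pow_add,
      ← two_mul, add_assoc]

lemma fo_lt {k : ℕ} (hk : 1 ≤ k) (n x : ℕ) : fo k n x < 2 ^ (2 * k * n) := by
  induction n generalizing x with
  | zero => simp [fo, mk]
  | succ n ih =>
    have h := low_lt hk x (x / 2 ^ k)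
    have h' := Nat.mul_le_mul_left (2 ^ (2 * k)) (Nat.succ_le_of_lt (ih (x / 2 ^ (2 * k))))
    rw [fo_succ, Nat.mul_succ, pow_add, mul_comm (2 ^ (2 * k * n))]
    rw [Nat.mul_succ] at h'
    omega

lemma ds_mod (k n y : ℕ) (h : y < 2 ^ (k * n)) : y ≡ ds k n y [MOD 2 ^ k - 1] := by
  induction n generalizing y with
  | zero =>
    obtain rfl : y = 0 := by simpa using h
    rfl
  | succ n ih =>
    have h1 := ih (y / 2 ^ k) (Nat.div_lt_of_lt_mul (by rwa [← pow_add, add_comm, ← Nat.mul_succ]))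
    have h2 : 2 ^ k ≡ 1 [MOD 2 ^ k - 1] :=
      ((Nat.modEq_iff_dvd' (Nat.two_pow_pos k)).2 dvd_rfl).symm
    have h3 := (h2.mul h1).add_left (y % 2 ^ k)
    rwa [Nat.mod_add_div, one_mul] at h3

lemma ds_one (n x : ℕ) :
    ds 1 n x = ((Finset.range n).filter fun i => x.testBit i = true).card := by
  rw [Finset.card_filter]
  induction n generalizing x with
  | zero => rfl
  | succ n ih =>
    rw [Finset.sum_range_succ', ds, ih, pow_one, add_comm]
    simp only [Nat.testBit_succ, Nat.testBit_zero, decide_eq_true_eq]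
    congr 1
    split_ifs <;> omega

end Popx

open Popx in
theorem Pop_pf : Pop := by
  rintro R x ⟨n, hn⟩ hR
  have hR' : R < 2 ^ 32 - 1 := hR
  have e : pop R x = fold R 16 (fold R 8 (fold R 4 (fold R 2 (fold R 1 (x &&& (1 <<< R - 1)))))) %
    (2 ^ 32 - 1) := rfl
  rw [e, fold_eq (n := n) (k := 16) (by omega), fold_eq (n := 2 * n) (k := 8) (by omega),
    fold_eq (n := 2 * (2 * n)) (k := 4) (by omega),
    fold_eq (n := 2 * (2 * (2 * n))) (k := 2) (by omega),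
    fold_eq (n := 2 * (2 * (2 * (2 * n)))) (k := 1) (by omega),
    ds_mod 32 n _ (fo_lt (k := 16) (by omega) n _), ds_fo (k := 16) (by omega),
    ds_fo (k := 8) (by omega), ds_fo (k := 4) (by omega), ds_fo (k := 2) (by omega),
    ds_fo (k := 1) (by omega), show 2 * (2 * (2 * (2 * (2 * n)))) = R by omega, ds_one,
    Nat.mod_eq_of_lt (((Finset.card_filter_le _ _).trans (Finset.card_range R).le).trans_lt hR')]
  refine congrArg Finset.card (Finset.filter_congr fun i hi => ?_)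
  rw [Nat.one_shiftLeft, Nat.and_two_pow_sub_one_eq_mod, Nat.testBit_mod_two_pow,
    decide_eq_true (Finset.mem_range.1 hi), Bool.true_and]

end Pool.Agent.Lib.MP_a4d326_an.Q1
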