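import Pool.Agent.Lib.MP_a4d326_an.Q1.Stmt

/-! The negative Sobolev norm of a sum of five dilates. -/

namespace Pool.Agent.Lib.MP_a4d326_an.Q1

open MeasureTheory Set

namespace QQx

/-- The indicator of divisibility. -/
noncomputable def dv (m : ℕ) (l : ℤ) : ℝ := if (m : ℤ) ∣ l then 1 else 0

lemma five (e0 e1 e2 e3 e4 x0 x1 x2 x3 x4 y : ℝ) (h0 : x0 ^ 2 ≤ y ^ 2) (h1 : x1 ^ 2 ≤ y ^ 2)
    (h2 : x2 ^ 2 ≤ y ^ 2) (h3 : x3 ^ 2 ≤ y ^ 2) (h4 : x4 ^ 2 ≤ y ^ 2)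
    (z0 : e0 = 0 ∧ x0 = 0 ∨ e0 = 1) (z1 : e1 = 0 ∧ x1 = 0 ∨ e1 = 1)
    (z2 : e2 = 0 ∧ x2 = 0 ∨ e2 = 1) (z3 : e3 = 0 ∧ x3 = 0 ∨ e3 = 1)
    (z4 : e4 = 0 ∧ x4 = 0 ∨ e4 = 1) :
    (x0 + x1 + x2 + x3 + x4) ^ 2 ≤ 2 * (x0 ^ 2 + x1 ^ 2 + x2 ^ 2 + x3 ^ 2 + x4 ^ 2) +
      3 * y ^ 2 * (e0 * e1 * e2 + e0 * e1 * e3 + e0 * e1 * e4 + e0 * e2 * e3 + e0 * e2 * e4 +
        e0 * e3 * e4 + e1 * e2 * e3 + e1 * e2 * e4 + e1 * e3 * e4 + e2 * e3 * e4) := by
  have s01 := sq_nonneg (x0 - x1)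
  have s02 := sq_nonneg (x0 - x2)
  have s03 := sq_nonneg (x0 - x3)
  have s04 := sq_nonneg (x0 - x4)
  have s12 := sq_nonneg (x1 - x2)
  have s13 := sq_nonneg (x1 - x3)
  have s14 := sq_nonneg (x1 - x4)
  have s23 := sq_nonneg (x2 - x3)
  have s24 := sq_nonneg (x2 - x4)
  have s34 := sq_nonneg (x3 - x4)
  have sy := sq_nonneg y
  rcases z0 with ⟨rfl, rfl⟩ | rfl <;> rcases z1 with ⟨rfl, rfl⟩ | rfl <;>
    rcases z2 with ⟨rfl, rfl⟩ | rfl <;> rcases z3 with ⟨rfl, rfl⟩ | rfl <;>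
    rcases z4 with ⟨rfl, rfl⟩ | rfl <;> linarith

lemma reidx (φ : ℤ → ℝ) (Q : ℝ)
    (h : ∀ s : Finset ℤ, 0 ∉ s → ∑ t ∈ s, φ t / (2 * Real.pi * t) ^ 2 ≤ Q) (M : ℤ) (hM : M ≠ 0)
    (s : Finset ℤ) (hs : 0 ∉ s) :
    ∑ l ∈ s, (if M ∣ l then φ (l / M) else 0) / (2 * Real.pi * l) ^ 2 ≤ Q / (M : ℝ) ^ 2 := by
  have hM' : (M : ℝ) ≠ 0 := by exact_mod_cast hM
  have e1 : ∑ l ∈ s, (if M ∣ l then φ (l / M) else 0) / (2 * Real.pi * l) ^ 2 =
      ∑ l ∈ s.filter (fun l => M ∣ l),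
        φ (l / M) / (2 * Real.pi * (l / M : ℤ)) ^ 2 / (M : ℝ) ^ 2 := by
    rw [Finset.sum_filter]
    refine Finset.sum_congr rfl fun l _ => ?_
    split_ifs with hd
    · obtain ⟨t, rfl⟩ := hd
      rw [Int.mul_ediv_cancel_left _ hM, div_div]
      congr 1
      push_cast
      ring
    · simp
  have inj : Set.InjOn (fun l => l / M) (s.filter (fun l => M ∣ l) : Finset ℤ) := by
    intro a ha b hb hab
    obtain ⟨u, rfl⟩ := (Finset.mem_filter.1 (Finset.mem_coe.1 ha)).2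
    obtain ⟨v, rfl⟩ := (Finset.mem_filter.1 (Finset.mem_coe.1 hb)).2
    simp only [Int.mul_ediv_cancel_left _ hM] at hab
    rw [hab]
  have e2 := Finset.sum_image (f := fun t : ℤ => φ t / (2 * Real.pi * t) ^ 2) inj
  rw [e1, ← Finset.sum_div, ← e2]
  refine div_le_div_of_nonneg_right (h _ fun h0 => ?_) (by positivity)
  obtain ⟨a, ha, hb⟩ := Finset.mem_image.1 h0
  obtain ⟨ha1, u, rfl⟩ := Finset.mem_filter.1 ha
  rw [Int.mul_ediv_cancel_left _ hM] at hb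
  subst hb
  exact hs (by simpa using ha1)

lemma zeta (s : Finset ℤ) (_ : 0 ∉ s) :
    ∑ t ∈ s, (fun _ : ℤ => (1 : ℝ)) t / (2 * Real.pi * t) ^ 2 ≤ 1 / 12 := by
  have h : HasSum (fun t : ℤ => (1 : ℝ) / (t : ℝ) ^ 2)
      (Real.pi ^ 2 / 6 + Real.pi ^ 2 / 6 - (1 : ℝ) / ((0 : ℤ) : ℝ) ^ 2) := by
    refine HasSum.of_nat_of_neg (f := fun t : ℤ => (1 : ℝ) / (t : ℝ) ^ 2) ?_ ?_
    · simpa using hasSum_zeta_two
    · simpa using hasSum_zeta_two
  have h2 := sum_le_hasSum s (fun i _ => by positivity) h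
  have hp := Real.pi_pos
  have e : ∑ t ∈ s, (fun _ : ℤ => (1 : ℝ)) t / (2 * Real.pi * t) ^ 2 =
      (∑ t ∈ s, (1 : ℝ) / (t : ℝ) ^ 2) / (4 * Real.pi ^ 2) := by
    rw [Finset.sum_div]
    refine Finset.sum_congr rfl fun t _ => ?_
    rw [div_div]
    congr 1
    ring
  rw [e, div_le_iff₀ (by positivity)]
  simp only [Int.cast_zero, ne_eq, OfNat.ofNat_ne_zero, not_false_eq_true, zero_pow, div_zero,
    sub_zero] at h2
  linarith

lemma lcm3 (a b c : ℕ) (hab : a < b) (hbc : b < c) :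
    a * b * c ≤ Nat.lcm a (Nat.lcm b c) * ((b - a) * (c - b) * (c - a)) := by
  have g : ∀ u v : ℕ, u < v → Nat.gcd u v ≤ v - u := fun u v h =>
    Nat.le_of_dvd (by omega) (Nat.dvd_sub (Nat.gcd_dvd_right u v) (Nat.gcd_dvd_left u v))
  have g1 := g a b hab
  have g2 := g b c hbc
  have g3 := g a c (hab.trans hbc)
  have p1 : 0 < Nat.gcd a b := Nat.gcd_pos_of_pos_right _ (by omega)
  have p2 : 0 < Nat.gcd a c := Nat.gcd_pos_of_pos_right _ (by omega)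
  have g4 : Nat.gcd a (Nat.lcm b c) ≤ (b - a) * (c - a) :=
    (Nat.le_of_dvd (Nat.mul_pos p1 p2)
      ((Nat.gcd_dvd_gcd_of_dvd_right a (Nat.lcm_dvd_mul b c)).trans
        (Nat.gcd_mul_right_dvd_mul_gcd a b c))).trans (Nat.mul_le_mul g1 g3)
  calc a * b * c = a * (Nat.gcd b c * Nat.lcm b c) := by rw [Nat.gcd_mul_lcm, mul_assoc]
    _ = Nat.gcd b c * (Nat.gcd a (Nat.lcm b c) * Nat.lcm a (Nat.lcm b c)) := by
      rw [Nat.gcd_mul_lcm a]; ring
    _ ≤ (c - b) * (((b - a) * (c - a)) * Nat.lcm a (Nat.lcm b c)) :=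
      Nat.mul_le_mul g2 (Nat.mul_le_mul_right _ g4)
    _ = _ := by ring

lemma trip (m i j k : ℕ) (hm : 1 ≤ m) (hij : i < j) (hjk : j < k) (V : ℝ)
    (hV : (((j - i) * (k - j) * (k - i) : ℕ) : ℝ) = V) (s : Finset ℤ) (hs : 0 ∉ s) :
    ∑ l ∈ s, dv (m + i) l * dv (m + j) l * dv (m + k) l / (2 * Real.pi * l) ^ 2 ≤
      V ^ 2 / 12 / (m : ℝ) ^ 6 := by
  have h := lcm3 (m + i) (m + j) (m + k) (by omega) (by omega)
  rw [Nat.add_sub_add_left, Nat.add_sub_add_left, Nat.add_sub_add_left] at h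
  have hL : 0 < Nat.lcm (m + i) (Nat.lcm (m + j) (m + k)) :=
    Nat.lcm_pos (by omega) (Nat.lcm_pos (by omega) (by omega))
  have hd : ∀ l : ℤ, dv (m + i) l * dv (m + j) l * dv (m + k) l ≤
      if ((Nat.lcm (m + i) (Nat.lcm (m + j) (m + k)) : ℕ) : ℤ) ∣ l then 1 else 0 := by
    intro l
    simp only [dv, Int.natCast_dvd, Nat.lcm_dvd_iff]
    by_cases a1 : m + i ∣ l.natAbs <;> by_cases a2 : m + j ∣ l.natAbs <;>
      by_cases a3 : m + k ∣ l.natAbs <;> simp [a1, a2, a3]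
  generalize Nat.lcm (m + i) (Nat.lcm (m + j) (m + k)) = L at h hL hd
  have h3 : m * m * m ≤ L * ((j - i) * (k - j) * (k - i)) :=
    (Nat.mul_le_mul (Nat.mul_le_mul (by omega) (by omega)) (by omega)).trans h
  have h4 : (m : ℝ) * m * m ≤ L * V := by rw [← hV]; exact_mod_cast h3
  have hm' : (0 : ℝ) < m := by exact_mod_cast hm
  have hL' : (0 : ℝ) < L := by exact_mod_cast hL
  have h5 := reidx (fun _ => 1) (1 / 12) zeta L (by exact_mod_cast hL.ne') s hs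
  refine le_trans (Finset.sum_le_sum fun l _ =>
    div_le_div_of_nonneg_right (hd l) (by positivity)) (h5.trans ?_)
  rw [Int.cast_natCast, div_le_div_iff₀ (by positivity) (by positivity)]
  have h6 : ((m : ℝ) * m * m) ^ 2 ≤ (L * V) ^ 2 := pow_le_pow_left₀ (by positivity) h4 2
  linarith

lemma fc_le {F : ℝ → ℝ} {y : ℝ} (h0 : ∀ x, 0 ≤ F x) (hy : ∫ x in (0 : ℝ)..1, F x ≤ y) (t : ℤ) :
    ‖fc F t‖ ≤ y := by
  refine (intervalIntegral.norm_integral_le_integral_norm zero_le_one).trans (le_of_eq_of_le ?_ hy)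
  refine intervalIntegral.integral_congr fun x _ => ?_
  simp [Complex.norm_exp, abs_of_nonneg (h0 x)]

lemma fc_sum {F : ℝ → ℝ} (hF : Nice F) (B : Finset ℕ) (l : ℤ) :
    fc (fun α => ∑ m ∈ B, F (-(m * α))) l = ∑ m ∈ B, fc (fun α => F ((-(m : ℤ) : ℤ) * α)) l := by
  obtain ⟨hm, ⟨C, hC⟩, -⟩ := hF
  unfold fc
  rw [← intervalIntegral.integral_finsetSum]
  · refine intervalIntegral.integral_congr fun x _ => ?_
    simp [Finset.mul_sum]
  · intro m _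
    have h := bdd_ii (f := fun α => F ((-(m : ℤ) : ℤ) * α)) (hm.comp (by fun_prop)) C
      (fun x => hC _) 0 1
    have h' : IntervalIntegrable (fun α => (F ((-(m : ℤ) : ℤ) * α) : ℂ)) volume 0 1 :=
      ⟨h.1.ofReal, h.2.ofReal⟩
    exact h'.continuousOn_mul (by fun_prop)

end QQx

open QQx in
theorem QQ_pf (h1 : DL) : QQ := by
  intro F y ψ m hm hF h0 hy hψ s hs
  have hm' : (0 : ℝ) < m := by exact_mod_cast hm
  have hψ0 : 0 ≤ ψ := by simpa using hψ ∅ (by simp)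
  set x : ℕ → ℤ → ℝ := fun i l => ‖fc (fun α => F ((-((m + i : ℕ) : ℤ) : ℤ) * α)) l‖ with hx
  have hne : ∀ i : ℕ, (-((m + i : ℕ) : ℤ)) ≠ 0 := fun i => by omega
  have xe : ∀ i l, x i l ^ 2 = if (-((m + i : ℕ) : ℤ)) ∣ l then
      ‖fc F (l / (-((m + i : ℕ) : ℤ)))‖ ^ 2 else 0 := by
    intro i l
    simp only [hx]
    rw [h1 F hF _ l (hne i)]
    split_ifs <;> simp
  have xy : ∀ i l, x i l ^ 2 ≤ y ^ 2 := by
    intro i l
    rw [xe]
    split_ifs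
    · exact pow_le_pow_left₀ (norm_nonneg _) (fc_le h0 hy _) 2
    · positivity
  have xz : ∀ i l, dv (m + i) l = 0 ∧ x i l = 0 ∨ dv (m + i) l = 1 := by
    intro i l
    by_cases hd : ((m + i : ℕ) : ℤ) ∣ l
    · exact Or.inr (if_pos hd)
    · refine Or.inl ⟨if_neg hd, ?_⟩
      have := xe i l
      rw [if_neg (fun h => hd (Int.neg_dvd.1 h))] at this
      exact pow_eq_zero_iff (two_ne_zero) |>.1 this
  have xs : ∀ i, ∑ l ∈ s, x i l ^ 2 / (2 * Real.pi * l) ^ 2 ≤ ψ / (m : ℝ) ^ 2 := by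
    intro i
    simp only [xe]
    refine (reidx (fun t => ‖fc F t‖ ^ 2) ψ hψ _ (hne i) s hs).trans
      (div_le_div_of_nonneg_left hψ0 (by positivity) ?_)
    push_cast
    have : (0 : ℝ) ≤ i := by positivity
    nlinarith
  have pt : ∀ l, ‖fc (fun α => ∑ m ∈ Finset.Icc m (m + 4), F (-(m * α))) l‖ ≤
      x 0 l + x 1 l + x 2 l + x 3 l + x 4 l := by
    intro l
    rw [fc_sum hF]
    refine (norm_sum_le _ _).trans (le_of_eq ?_)
    rw [Finset.sum_Icc_succ_top (by omega), Finset.sum_Icc_succ_top (by omega),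
      Finset.sum_Icc_succ_top (by omega), Finset.sum_Icc_succ_top (by omega), Finset.Icc_self,
      Finset.sum_singleton]
    rfl
  have t012 := trip m 0 1 2 hm (by omega) (by omega) 2 (by norm_num) s hs
  have t013 := trip m 0 1 3 hm (by omega) (by omega) 6 (by norm_num) s hs
  have t014 := trip m 0 1 4 hm (by omega) (by omega) 12 (by norm_num) s hs
  have t023 := trip m 0 2 3 hm (by omega) (by omega) 6 (by norm_num) s hs
  have t024 := trip m 0 2 4 hm (by omega) (by omega) 16 (by norm_num) s hs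
  have t034 := trip m 0 3 4 hm (by omega) (by omega) 12 (by norm_num) s hs
  have t123 := trip m 1 2 3 hm (by omega) (by omega) 2 (by norm_num) s hs
  have t124 := trip m 1 2 4 hm (by omega) (by omega) 6 (by norm_num) s hs
  have t134 := trip m 1 3 4 hm (by omega) (by omega) 6 (by norm_num) s hs
  have t234 := trip m 2 3 4 hm (by omega) (by omega) 2 (by norm_num) s hs
  have main := Finset.sum_le_sum (s := s) fun (l : ℤ) _ => div_le_div_of_nonneg_right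
    ((pow_le_pow_left₀ (norm_nonneg _) (pt l) 2).trans
      (five _ _ _ _ _ _ _ _ _ _ y (xy 0 l) (xy 1 l) (xy 2 l) (xy 3 l) (xy 4 l)
        (xz 0 l) (xz 1 l) (xz 2 l) (xz 3 l) (xz 4 l))) (sq_nonneg (2 * Real.pi * (l : ℝ)))
  refine main.trans ?_
  simp only [add_div, mul_div_assoc (2 : ℝ), mul_div_assoc (3 * y ^ 2), Finset.sum_add_distrib,
    ← Finset.mul_sum]
  have hT := add_le_add (add_le_add (add_le_add (add_le_add (add_le_add (add_le_add (add_le_add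
    (add_le_add (add_le_add t012 t013) t014) t023) t024) t034) t123) t124) t134) t234
  have hT' := mul_le_mul_of_nonneg_left hT (show 0 ≤ 3 * y ^ 2 by positivity)
  have hX := add_le_add (add_le_add (add_le_add (add_le_add (xs 0) (xs 1)) (xs 2)) (xs 3)) (xs 4)
  refine (add_le_add (mul_le_mul_of_nonneg_left hX zero_le_two) hT').trans (le_of_eq ?_)
  ring

end Pool.Agent.Lib.MP_a4d326_an.Q1
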