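import Pool.Agent.Lib.MP_a4d326_an.Q1.Stmt

/-! Folding the residues. -/

namespace Pool.Agent.Lib.MP_a4d326_an.Q1

open Finset

namespace RIx

/-- Averages along a surjective homomorphism of finite groups. -/
theorem avg {G K : Type} [Group G] [Group K] [Fintype G] [Fintype K] (π : G →* K)
    (hπ : Function.Surjective π) (a : K) (f : K → ℝ) :
    Fintype.card K * ∑ u, f (a * π u) = Fintype.card G * ∑ v, f v := by
  have e : ∀ h : K, ∑ u, f (a * π u) = ∑ u, f (h * π u) := fun h => by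
    obtain ⟨g, hg⟩ := hπ (a⁻¹ * h)
    rw [← Equiv.sum_comp (Equiv.mulLeft g)]
    refine sum_congr rfl fun u _ => ?_
    rw [Equiv.coe_mulLeft, map_mul, hg, ← mul_assoc, mul_inv_cancel_left]
  calc _ = ∑ h : K, ∑ u, f (h * π u) := by
        rw [← sum_congr rfl fun h _ => e h, sum_const, card_univ, nsmul_eq_mul]
    _ = ∑ _u : G, ∑ v, f v := by
        rw [sum_comm]
        exact sum_congr rfl fun u _ => Equiv.sum_comp (Equiv.mulRight (π u)) f
    _ = _ := by rw [sum_const, card_univ, nsmul_eq_mul]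

theorem units (n : ℕ) [NeZero n] (f : ℕ → ℝ) :
    ∑ u : (ZMod n)ˣ, f (u : ZMod n).val = ∑ p ∈ cop n, f p := by
  refine sum_bij (fun u _ => (u : ZMod n).val) (fun u _ => ?_) (fun u _ v _ h => ?_)
    (fun p hp => ?_) fun _ _ => rfl
  · exact mem_filter.2 ⟨mem_range.2 (ZMod.val_lt _), ZMod.val_coe_unit_coprime u⟩
  · exact Units.ext (ZMod.val_injective n h)
  · obtain ⟨a, b⟩ := mem_filter.1 hp
    exact ⟨ZMod.unitOfCoprime p b, mem_univ _, by
      rw [ZMod.coe_unitOfCoprime, ZMod.val_cast_of_lt (mem_range.1 a)]⟩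

theorem fold {q g m : ℕ} (hq : 1 ≤ q) (hg : 1 ≤ g) (hm : Nat.gcd m q = 1) (f : ℕ → ℝ)
    (hf : ∀ a, f (a % q) = f a) :
    Nat.totient q * ∑ p ∈ cop (g * q), f (m * p) = Nat.totient (g * q) * ∑ r ∈ cop q, f r := by
  have : NeZero q := ⟨by omega⟩
  have : NeZero (g * q) := ⟨by positivity⟩
  have h := avg (ZMod.unitsMap (dvd_mul_left q g)) (ZMod.unitsMap_surjective _)
    (ZMod.unitOfCoprime m hm) fun v => f (v : ZMod q).val
  rw [ZMod.card_units_eq_totient, ZMod.card_units_eq_totient, units] at h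
  rw [← h, ← units (g * q) fun p => f (m * p)]
  refine congrArg _ (sum_congr rfl fun u _ => ?_)
  rw [Units.val_mul, ZMod.coe_unitOfCoprime, ZMod.unitsMap_val, ← ZMod.natCast_val,
    ← Nat.cast_mul, ZMod.val_natCast, hf]

end RIx

theorem RI_pf : RI := by
  classical
  intro F h0 hp m₀ m₁
  let T : (Σ _ : ℕ, ℕ) → ℝ := fun y =>
    ∑ p ∈ cop y.2, 1 / (y.1 : ℝ) * F ((y.1 - y.2) / y.2) (y.1 * p / y.2)
  let e : (Σ _ : ℕ, Σ _ : ℕ, ℕ) → (Σ _ : ℕ, ℕ) := fun x => ⟨x.2.1 * x.2.2, x.2.1 * x.1⟩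
  have k : ∀ q ∈ Ico 1 m₁, ∀ g ∈ Icc 1 m₁, ∀ m ∈ blk m₀ m₁ q g,
      (Nat.totient (g * q) : ℝ) / (Nat.totient q * g * m) *
        ∑ r ∈ cop q, F ((m - q) / q) (r / q) = T (e ⟨q, g, m⟩) := fun q hq g hg m hm => by
    have q1 := (mem_Ico.1 hq).1
    have g1 := (mem_Icc.1 hg).1
    have q0 : (q : ℝ) ≠ 0 := by positivity
    have g0 : (g : ℝ) ≠ 0 := by positivity
    have t0 : (Nat.totient q : ℝ) ≠ 0 := by exact_mod_cast (Nat.totient_pos.2 q1).ne'
    have f := RIx.fold q1 g1 (mem_filter.1 hm).2.1 (fun r => F ((m - q) / q) (r / q)) fun a => by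
      rw [← hp _ _ (a / q : ℕ)]
      congr 1
      have : (a : ℝ) = (a % q : ℕ) + q * (a / q : ℕ) := by exact_mod_cast (Nat.mod_add_div a q).symm
      rw [this, Int.cast_natCast, add_div, mul_div_cancel_left₀ _ q0]
    have a : ((g * m : ℕ) - (g * q : ℕ) : ℝ) / (g * q : ℕ) = (m - q) / q := by
      push_cast
      rw [← mul_sub, mul_div_mul_left _ _ g0]
    have b : ∀ p : ℕ, ((g * m : ℕ) * p : ℝ) / (g * q : ℕ) = (m * p : ℕ) / q := fun p => by
      push_cast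
      rw [mul_assoc, mul_div_mul_left _ _ g0]
    simp only [T, e, a, b]
    rw [← mul_sum, div_mul_eq_mul_div, ← f, mul_assoc, mul_div_mul_left _ _ t0]
    push_cast
    ring
  rw [sum_congr rfl fun q hq => sum_congr rfl fun g hg => sum_congr rfl (k q hq g hg)]
  show _ ≤ ∑ m ∈ Icc m₀ m₁, ∑ k ∈ Ico 1 m, T ⟨m, k⟩
  simp only [sum_sigma']
  rw [← sum_image (g := e) (f := T)]
  · refine sum_le_sum_of_subset_of_nonneg (f := T) (fun y hy => ?_) fun y _ _ =>
      sum_nonneg fun p _ => mul_nonneg (by positivity) (h0 _ _)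
    obtain ⟨⟨q, g, m⟩, hx, rfl⟩ := mem_image.1 hy
    simp only [mem_sigma, blk, mem_filter, mem_Icc, mem_Ico, e] at hx ⊢
    obtain ⟨a, b, c, -, d⟩ := hx
    exact ⟨d, Nat.mul_pos b.1 a.1, Nat.mul_lt_mul_of_pos_left c.1 b.1⟩
  · rintro ⟨q, g, m⟩ hx ⟨q', g', m'⟩ hx' h
    simp only [coe_sigma, Set.mem_sigma_iff, mem_coe, blk, mem_filter, mem_Icc, mem_Ico] at hx hx'
    simp only [e, Sigma.mk.injEq, heq_eq_eq] at h
    have a := Nat.gcd_mul_left g m q
    rw [h.1, h.2, Nat.gcd_mul_left, hx.2.2.2.1, hx'.2.2.2.1, mul_one, mul_one] at a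
    subst a
    obtain rfl := Nat.eq_of_mul_eq_mul_left hx.2.1.1 h.1
    obtain rfl := Nat.eq_of_mul_eq_mul_left hx.2.1.1 h.2
    rfl

end Pool.Agent.Lib.MP_a4d326_an.Q1
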