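import Pool.Agent.Lib.MP_a4d326_an.Q1.Stmt

/-! The bound for the sum of squares. -/

namespace Pool.Agent.Lib.MP_a4d326_an.Q1

open Finset

namespace SNx

lemma tail (q n : ℕ) (h : q ≤ n) :
    ∑ f ∈ Ioc q n, 1 / (f : ℝ) ^ 2 ≤ 1 / (q + 1 / 2 : ℝ) - 1 / (n + 1 / 2 : ℝ) := by
  induction n, h using Nat.le_induction with
  | base => simp
  | succ n hn ih =>
    rw [sum_Ioc_succ_top hn]
    have n0 : (0 : ℝ) ≤ n := Nat.cast_nonneg n
    have : 1 / ((n + 1 : ℕ) : ℝ) ^ 2 ≤ 1 / (n + 1 / 2 : ℝ) - 1 / ((n + 1 : ℕ) + 1 / 2 : ℝ) := by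
      push_cast
      rw [div_sub_div _ _ (by positivity) (by positivity), div_le_div_iff₀ (by positivity)
        (by positivity)]
      nlinarith
    linarith

lemma h2 {N : ℕ} (hN : 159 ≤ N) : ∑ f ∈ Icc 1 N, 1 / (f : ℝ) ^ 2 ≤ 1.647 := by
  have e : Icc 1 N = Ioc 0 N := by ext x; simp [Nat.one_le_iff_ne_zero, Nat.pos_iff_ne_zero]
  rw [e, ← sum_Ioc_consecutive _ (Nat.zero_le 3) (show 3 ≤ N by omega)]
  have a := tail 3 N (by omega)
  have b : (0 : ℝ) ≤ 1 / (N + 1 / 2 : ℝ) := by positivity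
  have c : ∑ f ∈ Ioc 0 3, 1 / ((f : ℕ) : ℝ) ^ 2 = 49 / 36 := by
    rw [sum_Ioc_succ_top (by norm_num), sum_Ioc_succ_top (by norm_num),
      sum_Ioc_succ_top (by norm_num)]
    norm_num
  rw [c]
  have d : 1 / (((3 : ℕ) : ℝ) + 1 / 2) = 2 / 7 := by norm_num
  linarith

lemma tl {N E : ℕ} (hN : 159 ≤ N) (h1 : 2 ≤ E) (h3 : E ≤ 165) :
    N * ∑ f ∈ Icc 1 N, (if N / f < E then (1 : ℝ) else 0) / (f : ℝ) ^ 2 ≤
      E * 159 / (160 - E / 2) - 318 / 319 := by
  have e : ∑ f ∈ Icc 1 N, (if N / f < E then (1 : ℝ) else 0) / (f : ℝ) ^ 2 =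
      ∑ f ∈ Ioc (N / E) N, 1 / (f : ℝ) ^ 2 := by
    simp only [ite_div, zero_div]
    rw [← sum_filter]
    refine sum_congr ?_ fun _ _ => rfl
    ext f
    rw [mem_filter, mem_Icc, mem_Ioc, Nat.div_lt_iff_lt_mul (show 0 < E by omega)]
    constructor
    · rintro ⟨⟨a, b⟩, c⟩
      rw [Nat.div_lt_iff_lt_mul (show 0 < f by omega), mul_comm] at c
      exact ⟨c, b⟩
    · rintro ⟨a, b⟩
      have f0 : 0 < f := Nat.pos_of_ne_zero fun k => by rw [k] at a; omega
      exact ⟨⟨f0, b⟩, by rwa [Nat.div_lt_iff_lt_mul f0, mul_comm]⟩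
  have n0 : (159 : ℝ) ≤ N := by exact_mod_cast hN
  have e2 : (2 : ℝ) ≤ E := by exact_mod_cast h1
  have e3 : (E : ℝ) ≤ 165 := by exact_mod_cast h3
  have q1 : (N : ℝ) + 1 ≤ E * ((N / E : ℕ) + 1) := by
    have := Nat.lt_mul_div_succ N (show 0 < E by omega)
    exact_mod_cast this
  have q0 : (0 : ℝ) ≤ (N / E : ℕ) := Nat.cast_nonneg _
  rw [e]
  refine (mul_le_mul_of_nonneg_left (tail _ _ (Nat.div_le_self N E)) (by linarith)).trans ?_
  generalize ((N / E : ℕ) : ℝ) = q at *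
  rw [mul_sub, mul_one_div, mul_one_div]
  refine sub_le_sub ?_ ?_
  · rw [div_le_div_iff₀ (by linarith) (by linarith)]
    nlinarith
  · rw [div_le_div_iff₀ (by norm_num) (by linarith)]
    linarith

/-- The step function. -/
noncomputable def F (I : ℕ → ℝ) : ℝ → List (ℕ × ℝ) → ℝ
  | b, [] => b ^ 2
  | b, p :: l => (b ^ 2 - p.2 ^ 2) * I p.1 + F I p.2 l

lemma full {I : ℕ → ℝ} : ∀ (l : List (ℕ × ℝ)) (b : ℝ), (∀ p ∈ l, I p.1 = 1) → F I b l = b ^ 2
  | [], _, _ => rfl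
  | p :: l, b, h => by
    rw [F, h p List.mem_cons_self, full l p.2 fun q hq => h q (List.mem_cons_of_mem _ hq)]
    ring

lemma pt {x : ℝ} {E : ℕ} : ∀ (l : List (ℕ × ℝ)) (b : ℝ), (l.map Prod.fst).Pairwise (· ≤ ·) →
    |x| ≤ b → (∀ p ∈ l, p.1 ≤ E → |x| ≤ p.2) →
      x ^ 2 ≤ F (fun e => if E < e then 1 else 0) b l
  | [], b, _, h, _ => by
    rw [F, ← sq_abs]
    exact pow_le_pow_left₀ (abs_nonneg _) h 2
  | p :: l, b, hs, h, hl => by
    rw [List.map_cons, List.pairwise_cons] at hs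
    by_cases k : E < p.1
    · have a : ∀ q ∈ p :: l, E < q.1 := fun q hq => (List.mem_cons.1 hq).elim
        (fun e => e ▸ k) fun hq => k.trans_le (hs.1 _ (List.mem_map_of_mem hq))
      rw [full _ _ fun q hq => if_pos (a q hq), ← sq_abs]
      exact pow_le_pow_left₀ (abs_nonneg _) h 2
    · rw [F, if_neg k, mul_zero, zero_add]
      exact pt l p.2 hs.2 (hl p List.mem_cons_self (not_lt.1 k))
        fun q hq => hl q (List.mem_cons_of_mem _ hq)

/-- The thresholds. -/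
noncomputable def L : List (ℕ × ℝ) :=
  [(2, 0.75), (3, 0.5278), (4, 0.4653), (5, 0.3609), (7, 0.2384), (11, 0.1785), (20, 0.1441),
    (25, 0.1377), (28, 0.1245), (30, 0.1007), (35, 0.0931), (40, 0.0817), (44, 0.0667), (55,
    0.0607), (63, 0.0569), (88, 0.0517), (90, 0.047), (105, 0.0376), (126, 0.0348), (132,
    0.0314), (150, 0.0273), (165, 0.0256)]

lemma pw (h : N4) {E : ℕ} (hE : 1 ≤ E) :
    beta E ^ 2 ≤ F (fun e => if E < e then 1 else 0) 1 L := by
  obtain ⟨h1, h2⟩ := h E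
  refine pt L 1 (by simp [L]) (h1 hE) ?_
  simp only [L, List.forall_mem_cons, List.not_mem_nil, false_imp_iff, implies_true, and_true]
  exact h2

end SNx

open SNx in
theorem SN_pf (h : N4) : SN := by
  intro N hN
  have n0 : (0 : ℝ) ≤ N := Nat.cast_nonneg N
  have s : Sq N ≤ ∑ f ∈ Icc 1 N, F (fun e => if N / f < e then 1 else 0) 1 L / (f : ℝ) ^ 2 :=
    sum_le_sum fun f hf => div_le_div_of_nonneg_right
      (pw h ((Nat.le_div_iff_mul_le (mem_Icc.1 hf).1).2 (by simpa using (mem_Icc.1 hf).2)))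
      (by positivity)
  refine (mul_le_mul_of_nonneg_left s n0).trans ?_
  have t0 := mul_le_mul_of_nonneg_left (h2 hN) n0
  have e : ∀ f : ℕ, (0.0256 : ℝ) ^ 2 / (f : ℝ) ^ 2 = 0.0256 ^ 2 * (1 / (f : ℝ) ^ 2) := fun f => by
    ring
  have t2 := tl hN (E := 2) (by norm_num) (by norm_num)
  have t3 := tl hN (E := 3) (by norm_num) (by norm_num)
  have t4 := tl hN (E := 4) (by norm_num) (by norm_num)
  have t5 := tl hN (E := 5) (by norm_num) (by norm_num)
  have t7 := tl hN (E := 7) (by norm_num) (by norm_num)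
  have t11 := tl hN (E := 11) (by norm_num) (by norm_num)
  have t20 := tl hN (E := 20) (by norm_num) (by norm_num)
  have t25 := tl hN (E := 25) (by norm_num) (by norm_num)
  have t28 := tl hN (E := 28) (by norm_num) (by norm_num)
  have t30 := tl hN (E := 30) (by norm_num) (by norm_num)
  have t35 := tl hN (E := 35) (by norm_num) (by norm_num)
  have t40 := tl hN (E := 40) (by norm_num) (by norm_num)
  have t44 := tl hN (E := 44) (by norm_num) (by norm_num)
  have t55 := tl hN (E := 55) (by norm_num) (by norm_num)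
  have t63 := tl hN (E := 63) (by norm_num) (by norm_num)
  have t88 := tl hN (E := 88) (by norm_num) (by norm_num)
  have t90 := tl hN (E := 90) (by norm_num) (by norm_num)
  have t105 := tl hN (E := 105) (by norm_num) (by norm_num)
  have t126 := tl hN (E := 126) (by norm_num) (by norm_num)
  have t132 := tl hN (E := 132) (by norm_num) (by norm_num)
  have t150 := tl hN (E := 150) (by norm_num) (by norm_num)
  have t165 := tl hN (E := 165) (by norm_num) (by norm_num)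
  simp only [L, F, add_div, mul_div_assoc, e, sum_add_distrib, ← mul_sum]
  simp only [Nat.cast_ofNat] at *
  linarith

end Pool.Agent.Lib.MP_a4d326_an.Q1
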