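import Pool.Agent.Lib.MP_a4d326_an.Q1.Stmt

/-! The tail of the gain sum. -/

namespace Pool.Agent.Lib.MP_a4d326_an.Q1

open MeasureTheory Set

namespace TLx

/-- The part of the arc condition in one window of length `1 / q`. -/
noncomputable def W (a b γ : ℝ) (q i : ℕ) : ℝ :=
  volume.real {x ∈ Ico (((i : ℝ) - 1) / q) ((i : ℝ) / q) |
    a ≤ Int.fract (x + γ) ∧ Int.fract (x + γ) < b}

lemma W_nonneg (a b γ : ℝ) (q i : ℕ) : 0 ≤ W a b γ q i := measureReal_nonneg

lemma meas_p (a b γ : ℝ) :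
    MeasurableSet {x : ℝ | a ≤ Int.fract (x + γ) ∧ Int.fract (x + γ) < b} := by
  have h : Measurable fun x : ℝ => Int.fract (x + γ) :=
    measurable_fract.comp (measurable_id.add_const γ)
  exact (measurableSet_le measurable_const h).inter (measurableSet_lt h measurable_const)

lemma W_mod (a b γ : ℝ) {q : ℕ} (hq : 1 ≤ q) (i : ℕ) : W a b γ q i = W a b γ q (i % q) := by
  have hq0 : (0 : ℝ) < q := by exact_mod_cast hq
  have hi : (i : ℝ) = (i % q : ℕ) + q * (i / q : ℕ) := by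
    exact_mod_cast (Nat.mod_add_div i q).symm
  have hs : {x ∈ Ico ((((i % q : ℕ) : ℝ) - 1) / q) (((i % q : ℕ) : ℝ) / q) |
      a ≤ Int.fract (x + γ) ∧ Int.fract (x + γ) < b} =
      (fun x : ℝ => x + ((i / q : ℕ) : ℝ)) ⁻¹' {x ∈ Ico (((i : ℝ) - 1) / q) ((i : ℝ) / q) |
        a ≤ Int.fract (x + γ) ∧ Int.fract (x + γ) < b} := by
    ext x
    have e1 : Int.fract (x + ((i / q : ℕ) : ℝ) + γ) = Int.fract (x + γ) := by
      rw [add_right_comm, Int.fract_add_natCast]
    have e2 : ((i : ℝ) - 1) / q = (((i % q : ℕ) : ℝ) - 1) / q + ((i / q : ℕ) : ℝ) := by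
      rw [hi]; field_simp; ring
    have e3 : (i : ℝ) / q = ((i % q : ℕ) : ℝ) / q + ((i / q : ℕ) : ℝ) := by
      rw [hi]; field_simp
    simp only [mem_preimage, mem_ofPred_eq, mem_Ico, e1]
    rw [e2, e3, add_le_add_iff_right, add_lt_add_iff_right]
  unfold W
  rw [hs, Measure.real, Measure.real, measure_preimage_add_right]

lemma W_sum (h2 : GM1) {a b : ℝ} (hab : a ≤ b) (γ : ℝ) {q : ℕ} (hq : 1 ≤ q) :
    ∑ i ∈ Finset.range q, W a b γ q i ≤ b - a := by
  have hq0 : (0 : ℝ) < q := by exact_mod_cast hq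
  have hg := h2 a b γ 1 le_rfl hab
  simp only [Nat.cast_one, one_mul] at hg
  have hsh := vol_shift (p := fun x => a ≤ Int.fract (x + γ) ∧ Int.fract (x + γ) < b)
    (meas_p a b γ) (fun x => by rw [add_right_comm, Int.fract_add_one]) (-1 / q)
  rw [hsh] at hg
  refine le_trans ?_ hg
  unfold W
  rw [← measureReal_biUnion_finset (h := fun i _ => slice_ne_top _ _ _)]
  · refine measureReal_mono ?_ (slice_ne_top _ _ _)
    intro x hx
    simp only [mem_iUnion, Finset.mem_range] at hx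
    obtain ⟨i, hi, hx1, hx2⟩ := hx
    refine ⟨⟨le_trans ?_ hx1.1, lt_of_lt_of_le hx1.2 ?_⟩, hx2⟩
    · have : (0 : ℝ) ≤ i := Nat.cast_nonneg i
      exact div_le_div_of_nonneg_right (by linarith) hq0.le
    · have : (i : ℝ) + 1 ≤ q := by exact_mod_cast hi
      rw [div_add_one hq0.ne']
      exact div_le_div_of_nonneg_right (by linarith) hq0.le
  · intro i _ j _ hij
    have key : ∀ i j : ℕ, i < j → ∀ x : ℝ, x < (i : ℝ) / q → ((j : ℝ) - 1) / q ≤ x → False := by
      intro i j h x h1 h2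
      have : (i : ℝ) + 1 ≤ j := by exact_mod_cast h
      have : (i : ℝ) / q ≤ ((j : ℝ) - 1) / q := div_le_div_of_nonneg_right (by linarith) hq0.le
      linarith
    refine Set.disjoint_left.2 fun x hx hy => ?_
    rcases lt_or_gt_of_ne hij with h | h
    · exact key i j h x hx.1.2 hy.1.1
    · exact key j i h x hy.1.2 hx.1.1
  · intro i _
    exact measurableSet_Ico.inter (meas_p a b γ)

/-- For a fixed fraction the windows of the different `m` do not overlap. -/
lemma W_inj (h2 : GM1) {a b : ℝ} (hab : a ≤ b) (γ : ℝ) {q p : ℕ} (hq : 1 ≤ q)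
    (hp : q.Coprime p) (n₀ M : ℕ) :
    ∑ m ∈ (Finset.Icc n₀ M).filter (fun m => M - m < q), W a b γ q (m * p) ≤ b - a := by
  refine le_trans ?_ (W_sum h2 hab γ hq)
  have hinj : Set.InjOn (fun m => m * p % q)
      ((Finset.Icc n₀ M).filter (fun m => M - m < q) : Finset ℕ) := by
    intro m hm m' hm' h
    simp only [Finset.coe_filter, Finset.mem_Icc, mem_ofPred_eq] at hm hm'
    have h1 : m ≡ m' [MOD q] := Nat.ModEq.cancel_right_of_coprime hp h
    refine h1.eq_of_abs_lt ?_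
    rw [abs_lt]
    omega
  rw [Finset.sum_congr rfl fun m _ => W_mod a b γ hq (m * p),
    ← Finset.sum_image (f := fun i => W a b γ q i) hinj]
  refine Finset.sum_le_sum_of_subset_of_nonneg ?_ fun i _ _ => W_nonneg _ _ _ _ _
  intro i hi
  obtain ⟨m, _, rfl⟩ := Finset.mem_image.1 hi
  exact Finset.mem_range.2 (Nat.mod_lt _ hq)

lemma scale (a b γ : ℝ) (q i : ℕ) {m : ℕ} (hm : 1 ≤ m) :
    volume.real ((fun α : ℝ => (m : ℝ) * α) ⁻¹' {x ∈ Ico (((i : ℝ) - 1) / q) ((i : ℝ) / q) |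
      a ≤ Int.fract (x + γ) ∧ Int.fract (x + γ) < b}) = W a b γ q i / m := by
  have hm0 : (0 : ℝ) < m := by exact_mod_cast hm
  unfold W
  rw [Measure.real, Real.volume_preimage_mul_left hm0.ne', ENNReal.toReal_mul,
    ENNReal.toReal_ofReal (abs_nonneg _), abs_of_pos (inv_pos.2 hm0), Measure.real,
    inv_mul_eq_div]

/-- A point of the set lies just left of a fraction with small denominator. -/
lemma near (h1 : DI) {δ₀ α : ℝ} {K m Dd : ℕ} (hK : 1 ≤ K) (hm : K < m)
    (hδ : 1 / (K + 1 : ℝ) ≤ δ₀) (h0 : 0 ≤ α) (h0' : α < 1)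
    (hA : ∀ j : ℕ, 1 ≤ j → j < m → δ₀ < Int.fract (j * α))
    (hB : ∀ j : ℕ, 1 ≤ j → j ≤ Dd → Int.fract (j * α) < 1 - δ₀) :
    ∃ q p : ℕ, 1 ≤ q ∧ q ≤ K ∧ Dd < q ∧ 1 ≤ p ∧ p < 1 + q ∧ q.Coprime p ∧
      (((m * p : ℕ) : ℝ) - 1) / q ≤ m * α ∧ m * α < ((m * p : ℕ) : ℝ) / q := by
  have hK0 : (1 : ℝ) ≤ K := by exact_mod_cast hK
  rcases h1.1 α K hK with ⟨q, hq1, hqK, hf⟩ | ⟨q, p, hq1, hqK, hg, hη0, hη1⟩
  · exact absurd (hA q hq1 (by omega)) (not_lt.2 (hf.trans hδ))
  have hq0 : (0 : ℝ) < q := by exact_mod_cast hq1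
  have hqK' : (q : ℝ) ≤ K := by exact_mod_cast hqK
  have hη2 : (p : ℝ) - q * α < 1 := by
    refine hη1.trans_lt ?_
    rw [div_lt_one (by linarith)]
    linarith
  have hfr : Int.fract (q * α) = 1 - (p - q * α) := by
    rw [Int.fract_eq_iff]
    refine ⟨by linarith, by linarith, p - 1, ?_⟩
    push_cast
    ring
  have hD : Dd < q := by
    by_contra hc
    have := hB q hq1 (by omega)
    linarith
  have hqη : (q : ℝ) * (p - q * α) ≤ 1 := by
    have : (q : ℝ) * (p - q * α) ≤ K * (1 / (K + 1)) :=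
      mul_le_mul hqK' hη1 hη0.le (by linarith)
    refine this.trans ?_
    rw [mul_one_div, div_le_one (by linarith)]
    linarith
  obtain ⟨j, hj1, hj2, hj3⟩ := h1.2 α q p hq1 hg hη0 hqη
  have hmj : m ≤ j := by
    by_contra hc
    have := hA j hj1 (by omega)
    linarith
  have hmη : (m : ℝ) * (p - q * α) ≤ 1 := by
    have : (m : ℝ) ≤ j := by exact_mod_cast hmj
    exact (mul_le_mul_of_nonneg_right this hη0.le).trans hj2
  have hp0 : 0 < p := by
    have : (0 : ℝ) < p := by nlinarith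
    exact_mod_cast this
  have hp1 : p < 1 + q := by
    have : (p : ℝ) < 1 + q := by nlinarith
    exact_mod_cast this
  lift p to ℕ using hp0.le
  have hm0 : (0 : ℝ) < m := by
    have : 0 < m := by omega
    exact_mod_cast this
  push_cast at hη0 hmη
  refine ⟨q, p, hq1, hqK, hD, by exact_mod_cast hp0, by exact_mod_cast hp1, ?_, ?_, ?_⟩
  · rw [Int.gcd_natCast_natCast] at hg
    exact Nat.Coprime.symm hg
  · rw [div_le_iff₀ hq0]
    push_cast
    nlinarith
  · rw [lt_div_iff₀ hq0]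
    push_cast
    nlinarith [mul_pos hm0 hη0]

lemma cover (h1 : DI) {δ₀ : ℝ} (a b γ : ℝ) {K m : ℕ} (Dd : ℕ) (hK : 1 ≤ K) (hm : K < m)
    (hδ : 1 / (K + 1 : ℝ) ≤ δ₀) :
    gm δ₀ a b m Dd γ ≤ ∑ q ∈ (Finset.Icc 1 K).filter (fun q => Dd < q),
      ∑ p ∈ (Finset.Ico 1 (1 + q)).filter (fun p => q.Coprime p), W a b γ q (m * p) / m := by
  have hm1 : 1 ≤ m := by omega
  have hm0 : (0 : ℝ) < m := by exact_mod_cast hm1
  set T : ℕ → ℕ → Set ℝ := fun q p => (fun α : ℝ => (m : ℝ) * α) ⁻¹'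
    {x ∈ Ico ((((m * p : ℕ) : ℝ) - 1) / q) (((m * p : ℕ) : ℝ) / q) |
      a ≤ Int.fract (x + γ) ∧ Int.fract (x + γ) < b} with hT
  have hfin : ∀ q p, volume (T q p) ≠ ⊤ := by
    intro q p
    rw [hT]
    simp only
    rw [Real.volume_preimage_mul_left hm0.ne']
    exact ENNReal.mul_ne_top ENNReal.ofReal_ne_top (slice_ne_top _ _ _)
  calc gm δ₀ a b m Dd γ ≤ volume.real (⋃ q ∈ (Finset.Icc 1 K).filter (fun q => Dd < q),
        ⋃ p ∈ (Finset.Ico 1 (1 + q)).filter (fun p => q.Coprime p), T q p) := by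
        refine measureReal_mono ?_ ?_
        · rintro α ⟨⟨h0, h0'⟩, ha, hb, hA, hB⟩
          obtain ⟨q, p, c1, c2, c3, c4, c5, c6, c7, c8⟩ := near h1 hK hm hδ h0 h0' hA hB
          simp only [mem_iUnion, Finset.mem_filter, Finset.mem_Icc, Finset.mem_Ico]
          exact ⟨q, ⟨⟨c1, c2⟩, c3⟩, p, ⟨⟨c4, c5⟩, c6⟩, ⟨c7, c8⟩, ha, hb⟩
        · exact measure_biUnion_ne_top (Finset.finite_toSet _) fun q _ =>
            measure_biUnion_ne_top (Finset.finite_toSet _) fun p _ => hfin q p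
    _ ≤ ∑ q ∈ (Finset.Icc 1 K).filter (fun q => Dd < q),
        volume.real (⋃ p ∈ (Finset.Ico 1 (1 + q)).filter (fun p => q.Coprime p), T q p) :=
        measureReal_biUnion_finset_le _ _
    _ ≤ _ := by
        refine Finset.sum_le_sum fun q _ => (measureReal_biUnion_finset_le _ _).trans ?_
        exact Finset.sum_le_sum fun p _ => (scale a b γ q (m * p) hm1).le

end TLx

open TLx in
theorem TL_pf (h1 : DI) (h2 : GM1) : TL := by
  intro δ₀ a b γ K n₀ N hK hn hδ hab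
  have hn0 : (0 : ℝ) < n₀ := by
    have : 0 < n₀ := by omega
    exact_mod_cast this
  calc ∑ m ∈ Finset.Icc n₀ (N - 2), gm δ₀ a b m (N - 2 - m) γ
      ≤ ∑ m ∈ Finset.Icc n₀ (N - 2), ∑ q ∈ Finset.Icc 1 K,
          ∑ p ∈ (Finset.Ico 1 (1 + q)).filter (fun p => q.Coprime p),
            if N - 2 - m < q then W a b γ q (m * p) / n₀ else 0 := by
        refine Finset.sum_le_sum fun m hm => ?_
        have hm' := (Finset.mem_Icc.1 hm).1
        refine (cover h1 a b γ (N - 2 - m) hK (by omega) hδ).trans ?_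
        rw [Finset.sum_filter]
        refine Finset.sum_le_sum fun q _ => ?_
        split_ifs with h
        · refine Finset.sum_le_sum fun p _ => ?_
          exact div_le_div_of_nonneg_left (W_nonneg _ _ _ _ _) hn0 (by exact_mod_cast hm')
        · simp
    _ = ∑ q ∈ Finset.Icc 1 K, ∑ p ∈ (Finset.Ico 1 (1 + q)).filter (fun p => q.Coprime p),
          (∑ m ∈ (Finset.Icc n₀ (N - 2)).filter (fun m => N - 2 - m < q),
            W a b γ q (m * p)) / n₀ := by
        rw [Finset.sum_comm]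
        refine Finset.sum_congr rfl fun q _ => ?_
        rw [Finset.sum_comm]
        refine Finset.sum_congr rfl fun p _ => ?_
        rw [Finset.sum_div, Finset.sum_filter]
    _ ≤ ∑ q ∈ Finset.Icc 1 K, ∑ p ∈ (Finset.Ico 1 (1 + q)).filter (fun p => q.Coprime p),
          (b - a) / n₀ := by
        refine Finset.sum_le_sum fun q hq => Finset.sum_le_sum fun p hp => ?_
        exact div_le_div_of_nonneg_right
          (W_inj h2 hab γ (Finset.mem_Icc.1 hq).1 (Finset.mem_filter.1 hp).2 n₀ (N - 2)) hn0.le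
    _ = (b - a) * (∑ k ∈ Finset.Icc 1 K, (Nat.totient k : ℝ)) / n₀ := by
        rw [Finset.mul_sum, Finset.sum_div]
        refine Finset.sum_congr rfl fun q _ => ?_
        rw [Finset.sum_const, Nat.filter_coprime_Ico_eq_totient, nsmul_eq_mul]
        ring

end Pool.Agent.Lib.MP_a4d326_an.Q1
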