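import Pool.Agent.Lib.MP_a4d326_an.Q1.Stmt

/-! Unfolding, and the integral of an increment of a clipped linear function. -/

namespace Pool.Agent.Lib.MP_a4d326_an.Q1

open MeasureTheory Set

theorem Unf_pf : Unf := by
  classical
  intro k hk P g ψ _ gi g0 ψm ψ0 ψ1 per
  have k0 : (0 : ℤ) < k := by exact_mod_cast hk
  have kr : (k : ℝ) ≠ 0 := by positivity
  have hr : ∀ p : ℤ, (((p % k).toNat : ℕ) : ℤ) = p % k := fun p =>
    Int.toNat_of_nonneg (Int.emod_nonneg _ k0.ne')
  have maps : ∀ p ∈ P.filter (fun p => Int.gcd p k = 1), (p % k).toNat ∈ cop k := fun p hp => by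
    have h := (Finset.mem_filter.1 hp).2
    refine Finset.mem_filter.2 ⟨Finset.mem_range.2 ?_, ?_⟩
    · have := Int.emod_lt_of_pos p k0
      have := hr p
      omega
    · rw [← Int.gcd_natCast_natCast, hr, Int.gcd_emod, h]
  rw [← Finset.sum_fiberwise_of_maps_to maps]
  refine Finset.sum_le_sum fun r _ => ?_
  have Fi : Integrable fun α : ℝ => g (k * α - r) * ψ α :=
    Integrable.mul_bdd (c := 1) ((gi.comp_sub_right (r : ℝ)).comp_mul_left' kr)
      ψm.aestronglyMeasurable (.of_forall fun x => by
        rw [Real.norm_of_nonneg (ψ0 x)]; exact ψ1 x)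
  have dec : ∀ p ∈ (P.filter fun p => Int.gcd p k = 1).filter fun p : ℤ => (p % k).toNat = r,
      p = r + k * (p / k) := fun p hp => by
    rw [← (Finset.mem_filter.1 hp).2, hr, Int.emod_add_mul_ediv]
  have e : ∀ p ∈ (P.filter fun p => Int.gcd p k = 1).filter fun p : ℤ => (p % k).toNat = r,
      ∫ α in (0 : ℝ)..1, g (k * α - p) * ψ α =
        ∫ α in Ioc (0 - ((p / k : ℤ) : ℝ)) (1 - ((p / k : ℤ) : ℝ)), g (k * α - r) * ψ α :=
    fun p hp => by
      rw [← intervalIntegral.integral_of_le (by linarith),
        ← intervalIntegral.integral_comp_sub_right (fun α => g (k * α - r) * ψ α)]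
      refine intervalIntegral.integral_congr fun α _ => ?_
      have a : (p : ℝ) = r + k * ((p / k : ℤ) : ℝ) := by exact_mod_cast dec p hp
      have b := per.sub_int_mul_eq (x := α) (p / k)
      rw [mul_one] at b
      simp only [b]
      congr 2
      rw [mul_sub]
      linarith
  rw [Finset.sum_congr rfl e, ← integral_biUnion_finset _ (fun _ _ => measurableSet_Ioc) ?_
    fun _ _ => Fi.integrableOn]
  · exact setIntegral_le_integral Fi (.of_forall fun α => mul_nonneg (g0 _) (ψ0 _))
  · intro p hp p' hp' hne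
    refine Set.disjoint_left.2 fun x hx hx' => hne ?_
    have a1 : ((p / k : ℤ) : ℝ) < ((p' / k + 1 : ℤ) : ℝ) := by
      rw [Int.cast_add, Int.cast_one]; linarith [hx.2, hx'.1]
    have a2 : ((p' / k : ℤ) : ℝ) < ((p / k + 1 : ℤ) : ℝ) := by
      rw [Int.cast_add, Int.cast_one]; linarith [hx.1, hx'.2]
    have a3 : p / k = p' / k := by
      have := Int.cast_lt.1 a1
      have := Int.cast_lt.1 a2
      omega
    rw [dec p hp, dec p' hp', a3]

theorem Clip_pf : Clip := by
  intro δ l σ δ0 l0 σ0
  obtain ⟨u, hu⟩ : ∃ u : ℝ → ℝ, u = fun y => max 0 (min δ (y / l)) := ⟨_, rfl⟩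
  have uc : Continuous u := by rw [hu]; fun_prop
  have u0 : ∀ y ≤ 0, u y = 0 := fun y hy => by
    rw [hu]
    exact max_eq_left ((min_le_right _ _).trans (div_nonpos_of_nonpos_of_nonneg hy l0.le))
  have u1 : ∀ y, l * δ ≤ y → u y = δ := fun y hy => by
    rw [hu]
    simp only
    rw [min_eq_left ((le_div_iff₀' l0).2 hy), max_eq_right δ0.le]
  have T0 : 0 < l * δ := by positivity
  have e : (fun y : ℝ => max 0 (min δ ((y + σ) / l)) - max 0 (min δ (y / l))) =
      fun y => u (y + σ) - u y := by rw [hu]
  have sp : Function.support (fun y => u (y + σ) - u y) ⊆ Ioc (-σ) (l * δ) := fun y hy => by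
    by_contra h
    rcases not_and_or.1 h with h | h
    · exact hy (by simp only; rw [u0 _ (by linarith), u0 _ (by linarith), sub_self])
    · exact hy (by simp only; rw [u1 _ (by linarith), u1 _ (by linarith), sub_self])
  have wc : Continuous fun y => u (y + σ) := by fun_prop
  rw [e]
  refine ⟨(integrableOn_iff_integrable_of_support_subset sp).1
    ((wc.sub uc).intervalIntegrable _ _).1, ?_⟩
  rw [← intervalIntegral.integral_eq_integral_of_support_subset sp,
    intervalIntegral.integral_sub (wc.intervalIntegrable _ _) (uc.intervalIntegrable _ _),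
    intervalIntegral.integral_comp_add_right u, neg_add_cancel,
    intervalIntegral.integral_interval_sub_interval_comm' (uc.intervalIntegrable _ _)
      (uc.intervalIntegrable _ _) (uc.intervalIntegrable _ _),
    intervalIntegral.integral_congr (f := u) (g := fun _ => δ) (a := l * δ) fun y hy =>
      u1 y (by rw [uIcc_of_le (by linarith)] at hy; exact hy.1),
    intervalIntegral.integral_congr (f := u) (g := fun _ => 0) (a := -σ) fun y hy =>
      u0 y (by rw [uIcc_of_le (by linarith)] at hy; exact hy.2)]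
  simp

end Pool.Agent.Lib.MP_a4d326_an.Q1
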