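import Pool.Agent.Lib.MP_a4d326_an.Q1.Stmt

/-! The gain on a window of values of `δ`. -/

namespace Pool.Agent.Lib.MP_a4d326_an.Q1

open MeasureTheory Set

namespace WGx

lemma gm_nonneg (δ₀ a b : ℝ) (m Dd : ℕ) (γ : ℝ) : 0 ≤ gm δ₀ a b m Dd γ := measureReal_nonneg

lemma gm_anti (δ₀ a b : ℝ) (m : ℕ) {D D' : ℕ} (h : D ≤ D') (γ : ℝ) :
    gm δ₀ a b m D' γ ≤ gm δ₀ a b m D γ :=
  slice_mono _ _ fun _ _ hy => ⟨hy.1, hy.2.1, hy.2.2.1, fun j h1 h2 => hy.2.2.2 j h1 (h2.trans h)⟩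

lemma gm_le (h4 : GM1) (δ₀ : ℝ) {a b : ℝ} (hab : a ≤ b) {m : ℕ} (hm : 1 ≤ m) (Dd : ℕ) (γ : ℝ) :
    gm δ₀ a b m Dd γ ≤ b - a :=
  (slice_mono _ _ fun _ _ hy => ⟨hy.1, hy.2.1⟩).trans (h4 a b γ m hm hab)

lemma sum_cut (f : ℕ → ℝ) (hf : ∀ m, 0 ≤ f m) (n M : ℕ) :
    ∑ m ∈ Finset.Icc 1 M, f m ≤
      ∑ m ∈ Finset.Icc 1 (n + 1 - 2), f m + ∑ m ∈ Finset.Icc n M, f m := by
  refine le_trans ?_ (Finset.sum_union_inter (s₁ := Finset.Icc 1 (n + 1 - 2))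
    (s₂ := Finset.Icc n M) (f := f)).le
  refine le_trans ?_ (le_add_of_nonneg_right (Finset.sum_nonneg fun m _ => hf m))
  refine Finset.sum_le_sum_of_subset_of_nonneg (fun m hm => ?_) fun _ _ _ => hf _
  simp only [Finset.mem_union, Finset.mem_Icc] at hm ⊢
  omega

lemma vg2_eq (G D0 D1 W c l nl nh : ℕ) : vg2 G D0 D1 W c l nl nh =
    ∑ m ∈ Finset.Icc 1 (nh - 2),
      (cnt G D0 (D1 - D0 + l) (D0 + G - (c + l)) (nl - 2 - m) m * W / m + 1) := by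
  rw [vg2, lit_eq, lit_eq, rate, pre_eq]
  exact Finset.sum_congr rfl fun m _ => lit_eq _ _

lemma head (h7 : CN) {G D₀ D₁ c l nl N : ℕ} (W nh : ℕ) {a b γ : ℝ} (hG : 0 < G) (h01 : D₀ ≤ D₁)
    (h1 : D₁ ≤ G) (hc : c + l ≤ G) (ha : D₀ / G ≤ a) (hab : a ≤ b) (hb : b ≤ D₁ / G)
    (g1 : c ≤ G * γ) (g2 : G * γ < c + l) (hN : nl ≤ N) :
    W * ∑ m ∈ Finset.Icc 1 (nh - 2), gm (D₀ / G) a b m (N - 2 - m) γ ≤
      (b - a) * vg2 G D₀ D₁ W c l nl nh := by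
  rw [vg2_eq, Nat.cast_sum, Finset.mul_sum, Finset.mul_sum]
  refine Finset.sum_le_sum fun m hm => ?_
  have hm1 : 1 ≤ m := (Finset.mem_Icc.1 hm).1
  have e1 := (gm_anti (D₀ / G) a b m (show nl - 2 - m ≤ N - 2 - m by omega) γ).trans
    (h7 G D₀ D₁ c l m (nl - 2 - m) a b γ hG h01 h1 hc hm1 ha hab hb g1 g2)
  generalize cnt G D₀ (D₁ - D₀ + l) (D₀ + G - (c + l)) (nl - 2 - m) m = t at e1 ⊢
  have e2 : ((t * W : ℕ) : ℝ) ≤ ((m * (t * W / m + 1) : ℕ) : ℝ) :=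
    Nat.cast_le.2 (Nat.lt_mul_div_succ _ hm1).le
  have hm0 : (0 : ℝ) < m := Nat.cast_pos.2 hm1
  rw [Nat.cast_mul, Nat.cast_mul, ← div_le_iff₀' hm0] at e2
  calc _ ≤ W * (t * (b - a) / m) := mul_le_mul_of_nonneg_left e1 (Nat.cast_nonneg _)
    _ = (b - a) * (t * W / m) := by ring
    _ ≤ _ := mul_le_mul_of_nonneg_left e2 (sub_nonneg.2 hab)

end WGx

open WGx in
theorem WG_pf (h1 : Cells) (h2 : Scan) (h3 : Nf) (h4 : GM1) (h5 : GS) (h6 : TL) (h7 : CN) :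
    WG := by
  intro G D₀ D₁ W n₀ tl top w thr sg fu k K a b hG h01 h1G hk hK hKn hD htl htop ha hab hb
  rcases hab.eq_or_lt with rfl | hlt
  · simp
  have hG' : (0 : ℝ) < G := Nat.cast_pos.2 hG
  have hba : 0 < b - a := sub_pos.2 hlt
  have hW : (0 : ℝ) ≤ W := Nat.cast_nonneg _
  have hδ : 1 / (K + 1 : ℝ) < D₀ / G := by
    rw [div_lt_div_iff₀ (by positivity) hG', one_mul]
    exact_mod_cast hD
  have hint : IntervalIntegrable (fun γ => W / (b - a) * (sl b b γ - sl a b γ)) volume 0 1 :=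
    ((ii_sl b b 0 1).sub (ii_sl a b 0 1)).const_mul _
  have key := (h1 G (greedy G D₀ D₁ n₀ w) (vg G D₀ D₁ W n₀ tl top thr) sg fu k _ hG hk hint).2 top ?_
  · rw [intervalIntegral.integral_const_mul,
      intervalIntegral.integral_sub (ii_sl b b 0 1) (ii_sl a b 0 1)] at key
    have := mul_le_mul_of_nonneg_left key hba.le
    refine le_trans (le_of_eq ?_) this
    unfold H
    field_simp
  filter_upwards [(h3 b K hK (hδ.trans_le (ha.trans hab))).2] with γ hγ g0 g1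
  classical
  have hex := hγ g0 g1
  obtain ⟨N, ⟨hN1, hN2⟩, hN3⟩ : ∃ N : ℕ, (1 ≤ N ∧ Int.fract (N * γ) < b) ∧
      ∀ n : ℕ, 1 ≤ n → Int.fract (n * γ) < b → N ≤ n :=
    ⟨Nat.find hex, Nat.find_spec hex, fun n e1 e2 => Nat.find_min' hex ⟨e1, e2⟩⟩
  have hno : NoHit b (N - 1) γ := fun n e1 e2 => by
    by_contra e3
    have := hN3 n e1 (not_le.1 e3)
    omega
  have hS := h5 (D₀ / G) a b γ N (by positivity) ha hab hN1 hN2 hno
  have hcut := sum_cut (fun m => gm (D₀ / G) a b m (N - 2 - m) γ) (fun m => gm_nonneg _ _ _ _ _ _)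
    n₀ (N - 2)
  have hn0 : (0 : ℝ) < n₀ := Nat.cast_pos.2 (by omega)
  have htail : W * ∑ m ∈ Finset.Icc n₀ (N - 2), gm (D₀ / G) a b m (N - 2 - m) γ ≤
      (b - a) * tl := by
    have e1 := h6 (D₀ / G) a b γ K n₀ N hK hKn hδ.le hab
    have e2 : (∑ i ∈ Finset.Icc 1 K, (Nat.totient i : ℝ)) * W / n₀ ≤ tl := by
      rw [div_le_iff₀ hn0]
      exact_mod_cast htl
    calc _ ≤ W * ((b - a) * (∑ k ∈ Finset.Icc 1 K, (Nat.totient k : ℝ)) / n₀) :=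
          mul_le_mul_of_nonneg_left e1 hW
      _ = (b - a) * ((∑ i ∈ Finset.Icc 1 K, (Nat.totient i : ℝ)) * W / n₀) := by ring
      _ ≤ _ := mul_le_mul_of_nonneg_left e2 hba.le
  have red : ∀ v : ℝ, W * ∑ m ∈ Finset.Icc 1 (N - 2), gm (D₀ / G) a b m (N - 2 - m) γ ≤
      (b - a) * v → W / (b - a) * (sl b b γ - sl a b γ) ≤ v := fun v hv => by
    rw [div_mul_eq_mul_div, div_le_iff₀' hba]
    exact (mul_le_mul_of_nonneg_left hS hW).trans hv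
  have hT : W / (b - a) * (sl b b γ - sl a b γ) ≤ top := by
    refine red _ ?_
    have e1 : ∑ m ∈ Finset.Icc 1 (n₀ + 1 - 2), gm (D₀ / G) a b m (N - 2 - m) γ ≤
        n₀ * (b - a) := by
      refine (Finset.sum_le_card_nsmul _ _ (b - a) fun m hm =>
        gm_le h4 _ hab (Finset.mem_Icc.1 hm).1 _ _).trans ?_
      rw [nsmul_eq_mul, Nat.card_Icc]
      exact mul_le_mul_of_nonneg_right (Nat.cast_le.2 (by omega)) hba.le
    have e2 : (n₀ * W + tl : ℝ) ≤ top := by exact_mod_cast htop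
    have e3 := mul_le_mul_of_nonneg_left hcut hW
    have e4 := mul_le_mul_of_nonneg_left e1 hW
    have e5 := mul_le_mul_of_nonneg_left e2 hba.le
    nlinarith
  refine ⟨hT, fun c l x _ hc g2 g3 => ?_⟩
  rw [vg, cnd_eq, cnd_eq, cnd_eq, cnd_eq]
  split_ifs with c1 c2 c3 c4
  · exact hT
  all_goals try exact hT
  all_goals
    have hlo : lo x ≤ N := by
      by_contra e
      have := h2.1 G D₁ c l _ hG c2 γ g2 g3 N hN1 (show N ≤ lo x - 1 by omega)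
      linarith
  · obtain ⟨e1, e2⟩ := h2.2.1 G D₀ c l _ hG c4 γ g2 g3
    have e3 := hN3 _ e1 (e2.trans_le (ha.trans hab))
    refine red _ (le_trans (mul_le_mul_of_nonneg_left ?_ hW)
      (head h7 W (hi x) hG h01 h1G hc ha hab hb g2 g3 hlo))
    exact Finset.sum_le_sum_of_subset_of_nonneg (Finset.Icc_subset_Icc_right (by omega))
      fun _ _ _ => gm_nonneg _ _ _ _ _ _
  · refine red _ ?_
    have e1 := head h7 W (n₀ + 1) hG h01 h1G hc ha hab hb g2 g3 hlo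
    have e3 := mul_le_mul_of_nonneg_left hcut hW
    rw [Nat.add_eq, Nat.cast_add, Nat.succ_eq_add_one]
    nlinarith

end Pool.Agent.Lib.MP_a4d326_an.Q1
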