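import Pool.Agent.Lib.MP_a4d326_an.Q1.Stmt

/-! The loss rate on the window. -/

namespace Pool.Agent.Lib.MP_a4d326_an.Q1

open MeasureTheory Set

namespace WLx

lemma sum_le_of_unique {ι : Type*} (s : Finset ι) (t : ι → ℝ) (B : ℝ) (hB : 0 ≤ B)
    (h1 : ∀ x ∈ s, t x ≤ B) (h2 : ∀ x ∈ s, ∀ y ∈ s, t x ≠ 0 → t y ≠ 0 → x = y) :
    ∑ x ∈ s, t x ≤ B := by
  by_cases h : ∃ x ∈ s, t x ≠ 0
  · obtain ⟨x, hx, hx0⟩ := h
    rw [Finset.sum_eq_single x (fun y hy hne => by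
      by_contra h0
      exact hne (h2 y hy x hx h0 hx0)) (fun h' => absurd hx h')]
    exact h1 x hx
  · push Not at h
    rw [Finset.sum_eq_zero h]
    exact hB

lemma diff_le (a b γ : ℝ) (hab : a ≤ b) :
    volume.real {α ∈ Ico (0 : ℝ) 1 | Ev a a α γ ∧ ¬ Ev a b α γ} ≤ sl a a γ - sl a b γ := by
  have hm : MeasurableSet {α : ℝ | Ev a b α γ} :=
    measurableSet_ev (X := ℝ) a b (f := fun x => x) (g := fun _ => γ) measurable_id
      measurable_const
  have h := measureReal_inter_add_sdiff (μ := volume)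
    (s := {α ∈ Ico (0 : ℝ) 1 | Ev a a α γ}) hm (slice_ne_top _ _ _)
  have e1 : {α ∈ Ico (0 : ℝ) 1 | Ev a a α γ} ∩ {α : ℝ | Ev a b α γ} =
      {α ∈ Ico (0 : ℝ) 1 | Ev a b α γ} := by
    ext α
    constructor
    · rintro ⟨⟨h1, _⟩, h3⟩
      exact ⟨h1, h3⟩
    · rintro ⟨h1, h3⟩
      exact ⟨⟨h1, h3.mono le_rfl hab⟩, h3⟩
  have e2 : {α ∈ Ico (0 : ℝ) 1 | Ev a a α γ} \ {α : ℝ | Ev a b α γ} =
      {α ∈ Ico (0 : ℝ) 1 | Ev a a α γ ∧ ¬ Ev a b α γ} := by
    ext α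
    constructor
    · rintro ⟨⟨h1, h2⟩, h3⟩
      exact ⟨h1, h2, h3⟩
    · rintro ⟨h1, h2, h3⟩
      exact ⟨⟨h1, h2⟩, h3⟩
  rw [e1, e2] at h
  unfold sl
  linarith

lemma int_ind {u v : ℝ} (h0 : 0 ≤ u) (huv : u ≤ v) (h1 : v ≤ 1) :
    ∫ γ in (0 : ℝ)..1, ind (γ ∈ Ico u v) = v - u := by
  have : (fun x => ind (x ∈ Ico u v)) = (Ico u v).indicator 1 := by
    ext x
    by_cases h : x ∈ Ico u v
    · rw [ind_pos h, indicator_of_mem h]; rfl
    · rw [ind_neg h, indicator_of_notMem h]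
  rw [intervalIntegral.integral_of_le zero_le_one, this, integral_indicator_one measurableSet_Ico,
    ← Measure.restrict_congr_set Ico_ae_eq_Ioc, measureReal_restrict_apply measurableSet_Ico,
    inter_eq_left.2 (Ico_subset_Ico h0 h1), Real.volume_real_Ico_of_le huv]

lemma ii_ind (u v : ℝ) : IntervalIntegrable (fun γ => ind (γ ∈ Ico u v)) volume 0 1 :=
  bdd_ii (measurable_ind (p := fun γ => γ ∈ Ico u v) measurableSet_Ico) 1
    (fun x => by rw [abs_of_nonneg (ind_nonneg _)]; exact ind_le_one _) 0 1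

/-- The geometry of one cell. -/
lemma cell {G D₀ D₁ n r : ℕ} {a b γ : ℝ} (hG : 0 < G) (h01 : D₀ ≤ D₁) (h1G : D₁ ≤ G)
    (ha : D₀ / G ≤ a) (hb : b ≤ D₁ / G) (hn : 1 ≤ n) (hr : r < n)
    (hγ : γ ∈ Ico ((r + a) / n) ((r + b) / n)) :
    0 ≤ γ ∧ γ < 1 ∧ Int.fract (n * γ) = n * γ - r ∧ a ≤ n * γ - r ∧ n * γ - r < b ∧
      (((r * G + D₀) / n : ℕ) : ℝ) ≤ G * γ ∧
      G * γ < (((r * G + D₀) / n : ℕ) : ℝ) + (((D₁ - D₀) / n + 2 : ℕ) : ℝ) := by
  have hG' : (0 : ℝ) < G := by exact_mod_cast hG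
  have hn' : (0 : ℝ) < n := by exact_mod_cast hn
  have hr' : (r : ℝ) + 1 ≤ n := by exact_mod_cast hr
  have ha0 : 0 ≤ a := le_trans (by positivity) ha
  have hb1 : b ≤ 1 := hb.trans (by rw [div_le_one hG']; exact_mod_cast h1G)
  obtain ⟨h1, h2⟩ := hγ
  rw [div_le_iff₀ hn'] at h1
  rw [lt_div_iff₀ hn'] at h2
  rw [div_le_iff₀ hG'] at ha
  rw [le_div_iff₀ hG'] at hb
  have hr0 : (0 : ℝ) ≤ r := Nat.cast_nonneg r
  refine ⟨?_, ?_, ?_, by linarith, by linarith, ?_, ?_⟩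
  · by_contra h
    push Not at h
    nlinarith
  · by_contra h
    push Not at h
    nlinarith
  · rw [Int.fract_eq_iff]
    exact ⟨by linarith, by linarith, r, by push_cast; ring⟩
  · refine Nat.cast_div_le.trans ?_
    rw [div_le_iff₀ hn']
    push_cast
    nlinarith
  · have e1 : r * G + D₀ < ((r * G + D₀) / n + 1) * n := by
      have := Nat.lt_div_mul_add (a := r * G + D₀) hn
      linarith
    have e2 : D₁ - D₀ < ((D₁ - D₀) / n + 1) * n := by
      have := Nat.lt_div_mul_add (a := D₁ - D₀) hn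
      linarith
    have e3 : r * G + D₁ < ((r * G + D₀) / n + ((D₁ - D₀) / n + 2)) * n := by
      have : ((r * G + D₀) / n + ((D₁ - D₀) / n + 2)) * n =
          ((r * G + D₀) / n + 1) * n + ((D₁ - D₀) / n + 1) * n := by ring
      omega
    have e4 : (r : ℝ) * G + D₁ <
        ((((r * G + D₀) / n : ℕ) : ℝ) + (((D₁ - D₀) / n + 2 : ℕ) : ℝ)) * n := by
      exact_mod_cast e3
    refine lt_of_mul_lt_mul_right ?_ hn'.le
    nlinarith

lemma ls2_eq (G R D₀ D₁ n₀ n w c : ℕ) : ls2 G R D₀ D₁ n₀ n w c =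
    if allMiss G D₁ c w (n - 1) = true then
      pop R (uin G R D₀ w c (run G D₁ c w (n₀ + 1) (n₀ - n) - 2) ^^^
        (uin G R D₀ w c (run G D₁ c w (n₀ + 1) (n₀ - n) - 2) &&&
          uout G R D₁ w (c + w) (n - 2))) else 0 := by
  rw [ls2, cnd_eq]
  rfl

/-- The bound on one cell. -/
lemma cell_bound (hP : Pop) (hI : Inner) (hO : Outer) (hB : Bits) (hS : Scan)
    {G R D₀ D₁ n₀ n w c : ℕ} {a b γ : ℝ} (hG : 0 < G) (hR : 0 < R) (h32 : 32 ∣ R)
    (hR' : R < 4294967295) (hn : 1 ≤ n) (hn₀ : n ≤ n₀) (ha : D₀ / G ≤ a) (hab : a ≤ b)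
    (hb : b ≤ D₁ / G) (h0 : 0 ≤ γ) (h1 : γ < 1) (hfa : a ≤ Int.fract (n * γ))
    (hfb : Int.fract (n * γ) < b) (hc : (c : ℝ) ≤ G * γ) (hw : G * γ < c + w) :
    (ls2 G R D₀ D₁ n₀ n w c : ℝ) ≤ R * (sl a a γ - sl a b γ) := by
  have hf : 0 ≤ sl a a γ - sl a b γ := sub_nonneg.2 (sl_mono le_rfl hab γ)
  rw [ls2_eq]
  split_ifs with hm
  · have hno := hS.1 G D₁ c w (n - 1) hG hm γ hc hw
    rw [hP R _ h32 hR']
    refine le_trans ((hB R _ (fun α => Ev a a α γ ∧ ¬ Ev a b α γ) hR).1 ?_)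
      (mul_le_mul_of_nonneg_left (diff_le a b γ hab) (Nat.cast_nonneg R))
    intro i hi ht α hα1 hα2
    rw [Nat.testBit_xor, Nat.testBit_and] at ht
    have hI1 : (uin G R D₀ w c (run G D₁ c w (n₀ + 1) (n₀ - n) - 2)).testBit i = true := by
      revert ht
      cases (uin G R D₀ w c (run G D₁ c w (n₀ + 1) (n₀ - n) - 2)).testBit i <;> simp
    have hO1 : (uout G R D₁ w (c + w) (n - 2)).testBit i ≠ true := by
      intro h
      rw [hI1, h] at ht
      simp at ht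
    constructor
    · obtain ⟨m, hm1, hm2, hm3⟩ := hI G R D₀ w c _ i hG hR hI1 α γ hα1 hα2 hc hw.le
      refine ⟨m, hm1, hm3.trans_le ha, fun k hk1 hk2 => ?_⟩
      rcases lt_trichotomy k n with h | h | h
      · exact (hab.trans hb).trans (hno k hk1 (by omega))
      · rw [h]; exact hfa
      · exact (hab.trans hb).trans
          (hS.2.2 G D₁ c w (n₀ + 1) (n₀ - n) hG (by omega) γ hc hw k hk1 (by omega) (by omega))
    · rintro ⟨m, hm1, hm2, hm3⟩
      have hmn : m ≤ n - 2 := by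
        by_contra h
        exact absurd (hm3 n hn (by omega)) (not_le.2 hfb)
      exact hO1 (hO G R D₁ w (c + w) (n - 2) i m hG hR hi hm1 hmn α γ hα1 hα2 h0 h1
        (by push_cast; linarith) (by push_cast; linarith) (hm2.trans_le (hab.trans hb)))
  · rw [Nat.cast_zero]
    positivity

lemma ls1_eq (G R D₀ D₁ W n₀ n : ℕ) : ls1 G R D₀ D₁ W n₀ n =
    W * (∑ r ∈ Finset.range n, ls2 G R D₀ D₁ n₀ n ((D₁ - D₀) / n + 2) ((r * G + D₀) / n)) /
      (n * R) := by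
  rw [ls1, lit_eq, sm_eq, Finset.range_eq_Ico, Nat.zero_add]
  rfl

end WLx

open WLx in
theorem WL_pf (hP : Pop) (hI : Inner) (hO : Outer) (hB : Bits) (hS : Scan) : WL := by
  intro G R D₀ D₁ W n₀ n₁ a b hG hR h32 hR' h01 h1G hn ha hab hb
  have hG' : (0 : ℝ) < G := by exact_mod_cast hG
  have hR0 : (0 : ℝ) < R := by exact_mod_cast hR
  have ha0 : 0 ≤ a := le_trans (by positivity) ha
  have hb1 : b ≤ 1 := hb.trans (by rw [div_le_one hG']; exact_mod_cast h1G)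
  set L : ℕ → ℕ → ℕ := fun n r =>
    ls2 G R D₀ D₁ n₀ n ((D₁ - D₀) / n + 2) ((r * G + D₀) / n) with hL
  set s : Finset (Σ _ : ℕ, ℕ) := (Finset.Icc 1 n₁).sigma fun n => Finset.range n with hs
  have hmem : ∀ x ∈ s, 1 ≤ x.1 ∧ x.1 ≤ n₁ ∧ x.2 < x.1 := by
    intro x hx
    rw [hs, Finset.mem_sigma, Finset.mem_Icc, Finset.mem_range] at hx
    exact ⟨hx.1.1, hx.1.2, hx.2⟩
  have hpt : ∀ γ : ℝ, ∑ x ∈ s, (L x.1 x.2 : ℝ) *
      ind (γ ∈ Ico ((x.2 + a) / x.1) ((x.2 + b) / x.1)) ≤ R * (sl a a γ - sl a b γ) := by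
    intro γ
    have hf : 0 ≤ sl a a γ - sl a b γ := sub_nonneg.2 (sl_mono le_rfl hab γ)
    refine sum_le_of_unique _ _ _ (by positivity) ?_ ?_
    · intro x hx
      obtain ⟨x1, x2, x3⟩ := hmem x hx
      by_cases h : γ ∈ Ico ((x.2 + a) / x.1) ((x.2 + b) / x.1)
      · obtain ⟨c1, c2, c3, c4, c5, c6, c7⟩ := cell hG h01 h1G ha hb x1 x3 h
        rw [ind_pos h, mul_one]
        exact cell_bound hP hI hO hB hS hG hR h32 hR' x1 (x2.trans hn) ha hab hb c1 c2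
          (by rw [c3]; exact c4) (by rw [c3]; exact c5) c6 c7
      · rw [ind_neg h, mul_zero]
        positivity
    · have key : ∀ x ∈ s, (L x.1 x.2 : ℝ) *
          ind (γ ∈ Ico ((x.2 + a) / x.1) ((x.2 + b) / x.1)) ≠ 0 →
          NoHit b (x.1 - 1) γ ∧ Int.fract (x.1 * γ) < b ∧ Int.fract (x.1 * γ) = x.1 * γ - x.2 := by
        intro x hx h0
        obtain ⟨x1, x2, x3⟩ := hmem x hx
        have h : γ ∈ Ico ((x.2 + a) / x.1) ((x.2 + b) / x.1) := by
          by_contra h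
          exact h0 (by rw [ind_neg h, mul_zero])
        obtain ⟨c1, c2, c3, c4, c5, c6, c7⟩ := cell hG h01 h1G ha hb x1 x3 h
        refine ⟨?_, by rw [c3]; exact c5, c3⟩
        by_cases hm : allMiss G D₁ ((x.2 * G + D₀) / x.1) ((D₁ - D₀) / x.1 + 2) (x.1 - 1) = true
        · exact (hS.1 G D₁ _ _ _ hG hm γ c6 c7).mono hb le_rfl
        · refine absurd ?_ h0
          simp only [hL]
          rw [ls2_eq, if_neg hm, Nat.cast_zero, zero_mul]
      intro x hx y hy h1 h2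
      obtain ⟨a1, a2, a3⟩ := key x hx h1
      obtain ⟨b1, b2, b3⟩ := key y hy h2
      obtain ⟨x1, -, -⟩ := hmem x hx
      obtain ⟨y1, -, -⟩ := hmem y hy
      have e : x.1 = y.1 := by
        rcases lt_trichotomy x.1 y.1 with h | h | h
        · exact absurd (b1 x.1 x1 (by omega)) (not_le.2 a2)
        · exact h
        · exact absurd (a1 y.1 y1 (by omega)) (not_le.2 b2)
      obtain ⟨n, r⟩ := x
      obtain ⟨n', r'⟩ := y
      simp only at e a3 b3
      subst e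
      have : (r : ℝ) = r' := by linarith
      rw [Nat.cast_inj.1 this]
  have hint : ∑ x ∈ s, (L x.1 x.2 : ℝ) * ((b - a) / x.1) ≤ R * (H a a - H a b) := by
    have h1 := intervalIntegral.integral_mono (μ := volume) zero_le_one
      (IntervalIntegrable.sum s (f := fun x γ => (L x.1 x.2 : ℝ) *
        ind (γ ∈ Ico ((x.2 + a) / x.1) ((x.2 + b) / x.1)))
        fun x _ => (ii_ind _ _).const_mul _)
      (((ii_sl a a 0 1).sub (ii_sl a b 0 1)).const_mul (R : ℝ))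
      (fun γ => by rw [Finset.sum_apply]; exact hpt γ)
    rw [intervalIntegral.integral_const_mul,
      intervalIntegral.integral_sub (ii_sl a a 0 1) (ii_sl a b 0 1)] at h1
    refine le_trans (le_of_eq ?_) h1
    simp only [Finset.sum_apply]
    rw [intervalIntegral.integral_finsetSum fun x _ => (ii_ind _ _).const_mul _]
    refine Finset.sum_congr rfl fun x hx => ?_
    obtain ⟨x1, -, x3⟩ := hmem x hx
    have hn' : (0 : ℝ) < x.1 := by exact_mod_cast x1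
    have hr' : (x.2 : ℝ) + 1 ≤ x.1 := by exact_mod_cast x3
    rw [intervalIntegral.integral_const_mul, int_ind (by positivity)
      (div_le_div_of_nonneg_right (by linarith) hn'.le)
      (by rw [div_le_one hn']; linarith)]
    congr 1
    ring
  rw [hs, Finset.sum_sigma] at hint
  have hW : (0 : ℝ) ≤ W := Nat.cast_nonneg W
  refine le_of_mul_le_mul_left ?_ hR0
  refine le_trans ?_ (le_trans (mul_le_mul_of_nonneg_left hint hW) (le_of_eq (by ring)))
  rw [loss, pre_eq, Nat.cast_sum, Finset.mul_sum, Finset.mul_sum, Finset.mul_sum]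
  refine Finset.sum_le_sum fun n hn1 => ?_
  have hn' : (0 : ℝ) < n := by exact_mod_cast (Finset.mem_Icc.1 hn1).1
  dsimp only
  rw [ls1_eq, ← Finset.sum_mul]
  have h2 := Nat.cast_div_le (α := ℝ) (m := W * ∑ r ∈ Finset.range n, L n r) (n := n * R)
  have h3 : (0 : ℝ) ≤ R * (b - a) := mul_nonneg hR0.le (sub_nonneg.2 hab)
  have h4 := mul_le_mul_of_nonneg_left h2 h3
  refine le_trans (le_of_eq (by ring)) (h4.trans (le_of_eq ?_))
  push_cast
  field_simp

end Pool.Agent.Lib.MP_a4d326_an.Q1
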