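import Pool.Agent.Lib.MP_a4d326_an.Q1.Stmt

/-! The majorant `Ys`: pointwise bound, regularity and mean value. -/

namespace Pool.Agent.Lib.MP_a4d326_an.Q1

open MeasureTheory Set

namespace Y1x

lemma cv_pos (i : Fin 29) : 1 ≤ cv i := by
  revert i
  decide

lemma int_ind {p : ℝ → Prop} (hm : MeasurableSet {x | p x}) :
    ∫ x in (0 : ℝ)..1, ind (p x) = volume.real {x ∈ Ico (0 : ℝ) 1 | p x} := by
  have : (fun x => ind (p x)) = {x | p x}.indicator 1 := by
    ext x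
    by_cases h : p x
    · rw [ind_pos h, indicator_of_mem (show x ∈ {x | p x} from h)]; rfl
    · rw [ind_neg h, indicator_of_notMem (show x ∉ {x | p x} from h)]
  rw [intervalIntegral.integral_of_le zero_le_one, this, integral_indicator_one hm,
    ← Measure.restrict_congr_set Ico_ae_eq_Ioc, measureReal_restrict_apply hm]
  congr 1
  ext x
  simp only [mem_ofPred_eq, mem_inter_iff, and_comm]

lemma ms_lt (n : ℕ) (t : ℝ) : MeasurableSet {x : ℝ | Int.fract (n * x) < t} :=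
  measurableSet_lt (measurable_fract.comp (measurable_id.const_mul _)) measurable_const

lemma ii_ind {p : ℝ → Prop} (hm : MeasurableSet {x | p x}) :
    IntervalIntegrable (fun x => ind (p x)) volume 0 1 :=
  bdd_ii (measurable_ind hm) 1
    (fun x => by rw [abs_of_nonneg (ind_nonneg _)]; exact ind_le_one _) 0 1

lemma int_lt (hG : GM1) {n : ℕ} (hn : 1 ≤ n) {t : ℝ} (h0 : 0 ≤ t) (h1 : t ≤ 1) :
    ∫ x in (0 : ℝ)..1, ind (Int.fract (n * x) < t) = t := by
  have hm2 : MeasurableSet {x : ℝ | ¬ Int.fract (n * x) < t} := (ms_lt n t).compl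
  have a1 : ∫ x in (0 : ℝ)..1, ind (Int.fract (n * x) < t) ≤ t := by
    rw [int_ind (ms_lt n t)]
    have := hG 0 t 0 n hn h0
    refine le_trans (slice_mono _ _ fun y _ hy => ?_) (this.trans (by linarith))
    rw [add_zero]
    exact ⟨Int.fract_nonneg _, hy⟩
  have a2 : ∫ x in (0 : ℝ)..1, ind (¬ Int.fract (n * x) < t) ≤ 1 - t := by
    rw [int_ind hm2]
    refine le_trans (slice_mono _ _ fun y _ hy => ?_) (hG t 1 0 n hn h1)
    rw [add_zero]
    exact ⟨not_lt.1 hy, Int.fract_lt_one _⟩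
  have a3 : (∫ x in (0 : ℝ)..1, ind (Int.fract (n * x) < t)) +
      ∫ x in (0 : ℝ)..1, ind (¬ Int.fract (n * x) < t) = 1 := by
    rw [← intervalIntegral.integral_add (ii_ind (ms_lt n t)) (ii_ind hm2)]
    have : (fun x : ℝ => ind (Int.fract (n * x) < t) + ind (¬ Int.fract (n * x) < t)) =
        fun _ => (1 : ℝ) := by
      ext x
      by_cases h : Int.fract (n * x) < t
      · rw [ind_pos h, ind_neg (not_not.2 h), add_zero]
      · rw [ind_neg h, ind_pos h, zero_add]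
    rw [this]
    simp
  linarith

/-- The common factor of `n` and the integer part of `n γ`. -/
noncomputable def gg (γ : ℝ) (n : ℕ) : ℕ := Int.gcd n ⌊n * γ⌋

lemma gg_pos (γ : ℝ) {n : ℕ} (hn : 1 ≤ n) : 0 < gg γ n :=
  Int.gcd_pos_of_ne_zero_left _ (by exact_mod_cast (by omega : n ≠ 0))

lemma gg_dvd (γ : ℝ) (n : ℕ) : gg γ n ∣ n := by
  have := Int.gcd_dvd_left (n : ℤ) ⌊n * γ⌋
  exact_mod_cast this

lemma floor_mul (γ : ℝ) (t m : ℕ) (h : t * Int.fract (m * γ) < 1) :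
    ⌊((t * m : ℕ) : ℝ) * γ⌋ = t * ⌊(m : ℝ) * γ⌋ ∧
      Int.fract (((t * m : ℕ) : ℝ) * γ) = t * Int.fract (m * γ) := by
  have e : ((t * m : ℕ) : ℝ) * γ = ((t * ⌊(m : ℝ) * γ⌋ : ℤ) : ℝ) + t * Int.fract (m * γ) := by
    push_cast
    rw [← mul_add, Int.floor_add_fract]
    ring
  have h0 : 0 ≤ (t : ℝ) * Int.fract (m * γ) := mul_nonneg (Nat.cast_nonneg _) (Int.fract_nonneg _)
  constructor
  · rw [e, Int.floor_intCast_add, Int.floor_eq_zero_iff.2 ⟨h0, h⟩, add_zero]
  · rw [e, Int.fract_intCast_add, Int.fract_eq_self.2 ⟨h0, h⟩]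

lemma red (γ : ℝ) {n : ℕ} (hn : 1 ≤ n) :
    gg γ (n / gg γ n) = 1 ∧
      Int.fract (n * γ) = gg γ n * Int.fract (((n / gg γ n : ℕ) : ℝ) * γ) := by
  have hg := gg_pos γ hn
  obtain ⟨m, hm⟩ := gg_dvd γ n
  obtain ⟨r, hr⟩ : ((gg γ n : ℕ) : ℤ) ∣ ⌊n * γ⌋ := Int.gcd_dvd_right (n : ℤ) ⌊n * γ⌋
  have hq : n / gg γ n = m := Nat.div_eq_of_eq_mul_right hg hm
  have hg1 : (1 : ℝ) ≤ gg γ n := by exact_mod_cast hg
  have hnr : (n : ℝ) = gg γ n * m := by exact_mod_cast hm
  have hrr : ((⌊n * γ⌋ : ℤ) : ℝ) = gg γ n * r := by exact_mod_cast hr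
  have e : Int.fract (n * γ) = gg γ n * (m * γ - r) := by
    rw [Int.fract, hrr, mul_sub, ← mul_assoc, ← hnr]
  have f0 := Int.fract_nonneg (n * γ)
  have f1 := Int.fract_lt_one (n * γ)
  have b0 : 0 ≤ m * γ - r := by
    by_contra hc
    push Not at hc
    nlinarith
  have b1 : m * γ - r < 1 := by nlinarith
  have fl : ⌊(m : ℝ) * γ⌋ = r := Int.floor_eq_iff.2 ⟨by linarith, by linarith⟩
  rw [hq]
  refine ⟨?_, by rw [e, Int.fract, fl]⟩
  have h2 : gg γ n = gg γ n * gg γ m := by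
    have : Int.gcd (n : ℤ) ⌊n * γ⌋ = Int.gcd ((gg γ n : ℕ) * (m : ℤ)) ((gg γ n : ℕ) * r) := by
      rw [← hr]
      congr 1
      exact_mod_cast hm
    rw [Int.gcd_mul_left, Int.natAbs_natCast, ← fl] at this
    exact this
  exact (Nat.eq_of_mul_eq_mul_left hg (by rw [mul_one]; exact h2)).symm

lemma exL {δ : ℝ} (hδ : 0 < δ) (N : ℕ) (γ : ℝ) (m : ℕ) :
    ∃ L : ℕ, 1 ≤ m → ∀ l : ℕ, l ≤ L ↔ l * m ≤ N ∧ l * Int.fract (m * γ) < δ := by
  classical
  refine ⟨Nat.findGreatest (fun l => l * m ≤ N ∧ l * Int.fract (m * γ) < δ) N, fun hm l => ?_⟩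
  constructor
  · intro h
    have hs := Nat.findGreatest_spec (P := fun l => l * m ≤ N ∧ l * Int.fract (m * γ) < δ)
      (Nat.zero_le N) (by simpa using hδ)
    refine ⟨(Nat.mul_le_mul_right m h).trans hs.1, lt_of_le_of_lt ?_ hs.2⟩
    exact mul_le_mul_of_nonneg_right (by exact_mod_cast h) (Int.fract_nonneg _)
  · intro h
    exact Nat.le_findGreatest (P := fun l => l * m ≤ N ∧ l * Int.fract (m * γ) < δ)
      (le_trans (Nat.le_mul_of_pos_right l hm) h.1) h

lemma count {δ : ℝ} (h1 : δ ≤ 1) (N : ℕ) (γ : ℝ) (L : ℕ → ℕ)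
    (hL : ∀ m, 1 ≤ m → ∀ l : ℕ, l ≤ L m ↔ l * m ≤ N ∧ l * Int.fract (m * γ) < δ)
    {c : ℕ} (hc : 1 ≤ c) :
    ∑ n ∈ Finset.Icc 1 (N / c), ind (Int.fract (n * γ) < δ / c) =
      ∑ m ∈ (Finset.Icc 1 N).filter (fun m => gg γ m = 1), ((L m / c : ℕ) : ℝ) := by
  classical
  have hcr : (0 : ℝ) < c := by exact_mod_cast hc
  have hc1 : (1 : ℝ) ≤ c := by exact_mod_cast hc
  have e1 : ∑ n ∈ Finset.Icc 1 (N / c), ind (Int.fract (n * γ) < δ / c) =
      (((Finset.Icc 1 (N / c)).filter fun n : ℕ => Int.fract (n * γ) < δ / c).card : ℝ) := by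
    rw [Finset.card_filter]
    push_cast
    refine Finset.sum_congr rfl fun n _ => ?_
    unfold ind
    congr
  rw [e1, Finset.card_eq_sum_card_fiberwise (f := fun n => n / gg γ n)
    (t := (Finset.Icc 1 N).filter (fun m => gg γ m = 1))]
  · rw [Nat.cast_sum]
    refine Finset.sum_congr rfl fun m hm => ?_
    rw [Finset.mem_filter, Finset.mem_Icc] at hm
    congr 1
    rw [← show (Finset.Icc 1 (L m / c)).card = L m / c by simp]
    symm
    refine Finset.card_bij (fun t _ => t * m) ?_ ?_ ?_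
    · intro t ht
      rw [Finset.mem_Icc, Nat.le_div_iff_mul_le hc, hL m hm.1.1] at ht
      obtain ⟨t1, t2, t3⟩ := ht
      push_cast at t3
      have f0 := Int.fract_nonneg (m * γ)
      have t4 : (t : ℝ) * Int.fract (m * γ) < δ / c := by
        rw [lt_div_iff₀ hcr]
        linarith
      have t5 : (t : ℝ) * Int.fract (m * γ) < 1 := by
        have : 0 ≤ (t : ℝ) * Int.fract (m * γ) := mul_nonneg (Nat.cast_nonneg _) f0
        nlinarith
      obtain ⟨u1, u2⟩ := floor_mul γ t m t5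
      have u3 : gg γ (t * m) = t := by
        have h := hm.2
        unfold gg at h ⊢
        rw [u1, Nat.cast_mul, Int.gcd_mul_left, h, Int.natAbs_natCast, mul_one]
      simp only [Finset.mem_filter, Finset.mem_Icc]
      refine ⟨⟨⟨Nat.mul_pos t1 hm.1.1, ?_⟩, by rw [u2]; exact t4⟩, ?_⟩
      · rw [Nat.le_div_iff_mul_le hc]
        calc t * m * c = t * c * m := by ring
          _ ≤ N := t2
      · rw [u3, Nat.mul_div_cancel_left m t1]
    · intro t _ t' _ h
      exact Nat.eq_of_mul_eq_mul_right hm.1.1 h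
    · intro n hn
      simp only [Finset.mem_filter, Finset.mem_Icc] at hn
      obtain ⟨⟨⟨n1, n2⟩, n3⟩, n4⟩ := hn
      have e : gg γ n * m = n := by rw [← n4]; exact Nat.mul_div_cancel' (gg_dvd γ n)
      refine ⟨gg γ n, ?_, e⟩
      rw [Finset.mem_Icc, Nat.le_div_iff_mul_le hc, hL m hm.1.1]
      refine ⟨gg_pos γ n1, ?_, ?_⟩
      · rw [Nat.le_div_iff_mul_le hc] at n2
        calc gg γ n * c * m = gg γ n * m * c := by ring
          _ ≤ N := by rw [e]; exact n2
      · rw [(red γ n1).2, n4, lt_div_iff₀ hcr] at n3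
        push_cast
        linarith
  · intro n hn
    simp only [Finset.coe_filter, Finset.mem_Icc, mem_ofPred_eq] at hn ⊢
    obtain ⟨⟨n1, n2⟩, _⟩ := hn
    refine ⟨⟨Nat.div_pos (Nat.le_of_dvd n1 (gg_dvd γ n)) (gg_pos γ n1), ?_⟩, (red γ n1).1⟩
    exact (Nat.div_le_self _ _).trans (n2.trans (Nat.div_le_self _ _))

lemma ys_eq {δ : ℝ} (h1 : δ ≤ 1) (N : ℕ) (γ : ℝ) (L : ℕ → ℕ)
    (hL : ∀ m, 1 ≤ m → ∀ l : ℕ, l ≤ L m ↔ l * m ≤ N ∧ l * Int.fract (m * γ) < δ) :
    Ys δ N γ = ∑ m ∈ (Finset.Icc 1 N).filter (fun m => gg γ m = 1), (Gf (L m) : ℝ) := by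
  unfold Ys Gf
  simp only [count h1 N γ L hL (cv_pos _), Finset.mul_sum]
  rw [Finset.sum_comm]
  refine Finset.sum_congr rfl fun m _ => ?_
  rw [Int.cast_sum]
  refine Finset.sum_congr rfl fun i _ => ?_
  rw [Int.cast_mul, Int.cast_natCast]

lemma gf_nonneg (hN : N1) (L : ℕ) : (0 : ℝ) ≤ Gf L := by
  rcases Nat.eq_zero_or_pos L with h | h
  · simp [h, Gf]
  · have := hN L h
    exact_mod_cast (by omega : 0 ≤ Gf L)

end Y1x

open Y1x in
theorem Y1_pf (hN : N1) (hG : GM1) : Y1 := by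
  intro δ N h0 h1
  refine ⟨fun γ => ?_, ⟨?_, ?_, ?_⟩, ?_⟩
  · choose L hL using exL h0 N γ
    have e := ys_eq h1 N γ L hL
    have p0 : 0 ≤ Ys δ N γ := by
      rw [e]
      exact Finset.sum_nonneg fun m _ => gf_nonneg hN _
    refine ⟨?_, p0⟩
    by_cases h : NoHit δ N γ
    · rw [nh, ind_pos h]
      linarith
    · rw [nh, ind_neg h]
      unfold NoHit at h
      push Not at h
      obtain ⟨n, n1, n2, n3⟩ := h
      have m1 : 1 ≤ n / gg γ n := Nat.div_pos (Nat.le_of_dvd n1 (gg_dvd γ n)) (gg_pos γ n1)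
      have m2 : n / gg γ n ≤ N := (Nat.div_le_self _ _).trans n2
      have hg : (1 : ℝ) ≤ gg γ n := by exact_mod_cast gg_pos γ n1
      have l1 : 1 ≤ L (n / gg γ n) := by
        rw [hL _ m1]
        refine ⟨by omega, ?_⟩
        rw [(red γ n1).2] at n3
        have := Int.fract_nonneg (((n / gg γ n : ℕ) : ℝ) * γ)
        rw [Nat.cast_one]
        nlinarith
      have s := Finset.single_le_sum (f := fun m => (Gf (L m) : ℝ))
        (s := (Finset.Icc 1 N).filter (fun m => gg γ m = 1)) (fun m _ => gf_nonneg hN _)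
        (a := n / gg γ n)
        (Finset.mem_filter.2 ⟨Finset.mem_Icc.2 ⟨m1, m2⟩, (red γ n1).1⟩)
      have g1 : (1 : ℝ) ≤ Gf (L (n / gg γ n)) := by exact_mod_cast hN _ l1
      rw [e]
      linarith
  · unfold Ys
    refine Finset.measurable_sum _ fun i _ => Measurable.const_mul ?_ _
    exact Finset.measurable_sum _ fun n _ => measurable_ind (ms_lt n _)
  · refine ⟨∑ i, |(ev i : ℝ)| * ∑ _n ∈ Finset.Icc 1 (N / cv i), (1 : ℝ), fun x => ?_⟩
    unfold Ys
    refine (Finset.abs_sum_le_sum_abs _ _).trans (Finset.sum_le_sum fun i _ => ?_)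
    rw [abs_mul, abs_of_nonneg (Finset.sum_nonneg fun n _ => ind_nonneg _)]
    exact mul_le_mul_of_nonneg_left (Finset.sum_le_sum fun n _ => ind_le_one _) (abs_nonneg _)
  · intro x
    unfold Ys
    simp only [mul_add, mul_one, Int.fract_add_natCast]
  · unfold Ys PhiP
    have ii : ∀ i : Fin 29, IntervalIntegrable (fun γ : ℝ =>
        ∑ n ∈ Finset.Icc 1 (N / cv i), ind (Int.fract (n * γ) < δ / cv i)) volume 0 1 := by
      intro i
      have := IntervalIntegrable.sum (μ := volume) (a := 0) (b := 1) (Finset.Icc 1 (N / cv i))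
        (f := fun (n : ℕ) (γ : ℝ) => ind (Int.fract (n * γ) < δ / cv i))
        fun n _ => ii_ind (ms_lt n _)
      rwa [Finset.sum_fn] at this
    rw [intervalIntegral.integral_finsetSum fun i _ => (ii i).const_mul _, Finset.mul_sum]
    refine Finset.sum_congr rfl fun i _ => ?_
    have c1 : (1 : ℝ) ≤ cv i := by exact_mod_cast cv_pos i
    rw [intervalIntegral.integral_const_mul,
      intervalIntegral.integral_finsetSum fun n _ => ii_ind (ms_lt n _),
      Finset.sum_congr rfl fun n hn => int_lt hG (Finset.mem_Icc.1 hn).1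
        (div_nonneg h0.le (by linarith)) ((div_le_one (by linarith)).2 (h1.trans c1))]
    rw [Finset.sum_const, Nat.card_Icc, Nat.add_sub_cancel, nsmul_eq_mul]
    ring

end Pool.Agent.Lib.MP_a4d326_an.Q1
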