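import Pool.Agent.Lib.MP_a4d326_an.Q1.FH
import Pool.Agent.Lib.MP_a4d326_an.Q1.Link
import Pool.Agent.Lib.MP_a4d326_an.Q1.Unf
import Pool.Agent.Lib.MP_a4d326_an.Q1.B1
import Pool.Agent.Lib.MP_a4d326_an.Q1.LaneB
import Pool.Agent.Lib.MP_a4d326_an.Q1.MT
import Pool.Agent.Lib.MP_a4d326_an.Q1.Bld
import Pool.Agent.Lib.MP_a4d326_an.Q1.EB2
import Pool.Agent.Lib.MP_a4d326_an.Q1.EB4
import Pool.Agent.Lib.MP_a4d326_an.Q1.SB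
import Pool.Agent.Lib.MP_a4d326_an.Q1.RI
import Pool.Agent.Lib.MP_a4d326_an.Q1.BF
import Pool.Agent.Lib.MP_a4d326_an.Q1.Pop
import Pool.Agent.Lib.MP_a4d326_an.Q1.Inner
import Pool.Agent.Lib.MP_a4d326_an.Q1.Cells
import Pool.Agent.Lib.MP_a4d326_an.Q1.CL
import Pool.Agent.Lib.MP_a4d326_an.Q1.DI
import Pool.Agent.Lib.MP_a4d326_an.Q1.CT
import Pool.Agent.Lib.MP_a4d326_an.Q1.TL
import Pool.Agent.Lib.MP_a4d326_an.Q1.CN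
import Pool.Agent.Lib.MP_a4d326_an.Q1.WG
import Pool.Agent.Lib.MP_a4d326_an.Q1.WL
import Pool.Agent.Lib.MP_a4d326_an.Q1.N1
import Pool.Agent.Lib.MP_a4d326_an.Q1.N4
import Pool.Agent.Lib.MP_a4d326_an.Q1.SN
import Pool.Agent.Lib.MP_a4d326_an.Q1.Y1
import Pool.Agent.Lib.MP_a4d326_an.Q1.DU
import Pool.Agent.Lib.MP_a4d326_an.Q1.QQ
import Pool.Agent.Lib.MP_a4d326_an.Q1.PS
import Pool.Agent.Lib.MP_a4d326_an.Q1.PQ
import Pool.Agent.Lib.MP_a4d326_an.Q1.PC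
import Pool.Agent.Lib.MP_a4d326_an.Q1.FB1
import Pool.Agent.Lib.MP_a4d326_an.Q1.FB3
import Pool.Agent.Lib.MP_a4d326_an.Q1.AB
import Pool.Agent.Lib.MP_a4d326_an.Q1.NE
import Pool.Agent.Lib.MP_a4d326_an.Q1.BL

/-! The steps put together. -/

namespace Pool.Agent.Lib.MP_a4d326_an.Q1

theorem nf : Nf := Nf_pf DI_pf

theorem b1 : B1 := B1_pf Unf_pf

theorem n3 : N3 := N3_pf N1_pf

theorem bf : BF := BF_pf FH_pf b1 MT_pf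
  (EB4_pf (EB1_pf Bld_pf) (EB2_pf Bld_pf) EB3_pf Dgt_pf) (SB_pf LaneB_pf) RI_pf

theorem cl : CL := CL_pf Pop_pf Inner_pf Outer_pf Bits_pf Scan_pf Cells_pf

theorem cu : CU := CU_pf Pop_pf Inner_pf Outer_pf Bits_pf Scan_pf Cells_pf

theorem ct : CT := CT_pf nf GM1_pf

theorem wg : WG := WG_pf Cells_pf Scan_pf nf GM1_pf GS_pf (TL_pf DI_pf GM1_pf) CN_pf

theorem wl : WL := WL_pf Pop_pf Inner_pf Outer_pf Bits_pf Scan_pf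

theorem bl : BL := BL_pf FB1_pf (FB2_pf Unf_pf Clip_pf FB1_pf) (FB3_pf Unf_pf Clip_pf FB1_pf)
  (KX_pf AB_pf N2_pf n3) NE_pf DU_pf DL_pf (QQ_pf DL_pf) (PS_pf DL_pf)
  (PT_pf PQ_pf (PC_pf N1_pf)) (SN_pf N4_pf) N2_pf n3 (Y1_pf N1_pf GM1_pf)

theorem af : AF := AF_pf FH_pf b1 MT_pf N2_pf n3 bl

end Pool.Agent.Lib.MP_a4d326_an.Q1
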