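import Pool.Agent.Lib.MP_a4d326_an.Q1.Stmt

/-! The counting bound `CN`. -/

namespace Pool.Agent.Lib.MP_a4d326_an.Q1

open MeasureTheory Set

namespace CNx

lemma dead_eq (M u e off lim rest : ℕ) : ∀ k : ℕ,
    (∀ i < k, lim ≤ (i * u + off) % M + i * e) → dead M u e off lim k rest = rest := by
  intro k
  induction k with
  | zero => intro _; rfl
  | succ k ih =>
    intro h
    show @Bool.rec (fun _ => ℕ) 0 (dead M u e off lim k rest)
      (Nat.ble lim ((k * u + off) % M + k * e)) = rest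
    rw [Nat.ble_eq_true_of_le (h k (Nat.lt_succ_self k))]
    exact ih fun i hi => h i (Nat.lt_succ_of_lt hi)

lemma cnt2_eq (G M E e l1 l2 mi k2 off u0 m : ℕ) :
    cnt2 G M E e l1 l2 mi k2 off u0 m = ∑ p ∈ Finset.range m,
      dead M (p * G + u0) e (E + (p * G + u0)) l1 mi
        (dead M (p * G + u0) e (off + (mi + 1) * (p * G + u0)) l2 k2 1) := by
  induction m with
  | zero => rfl
  | succ m ih =>
    rw [Finset.sum_range_succ, ← ih]
    rfl

/-- The real form of a residue test. -/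
lemma loc {M : ℕ} (_hM : 0 < M) (u e j off : ℕ) (α : ℝ) (h1 : (u : ℝ) ≤ M * α)
    (h2 : (M : ℝ) * α ≤ u + e) :
    ∃ x : ℝ, Int.fract (j * α) = Int.fract x ∧
      (((j * u + off) % M : ℕ) : ℝ) - off ≤ M * x ∧
      M * x ≤ (((j * u + off) % M : ℕ) : ℝ) - off + j * e := by
  refine ⟨j * α - (((j * u + off) / M : ℕ) : ℝ), (Int.fract_sub_natCast _ _).symm, ?_, ?_⟩
  all_goals
    have h := Nat.div_add_mod (j * u + off) M
    have h' : (M : ℝ) * (((j * u + off) / M : ℕ) : ℝ) + (((j * u + off) % M : ℕ) : ℝ)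
        = j * u + off := by exact_mod_cast h
    have hj : (0 : ℝ) ≤ j := Nat.cast_nonneg j
    have h3 := mul_le_mul_of_nonneg_left h1 hj
    have h4 := mul_le_mul_of_nonneg_left h2 hj
    nlinarith

lemma pos_case {x d : ℝ} (h0 : 0 ≤ x) (h1 : x ≤ d) : Int.fract x ≤ d := by
  have : (0 : ℝ) ≤ (⌊x⌋ : ℝ) := by exact_mod_cast Int.floor_nonneg.2 h0
  rw [Int.fract]; linarith

lemma neg_case {x d : ℝ} (h0 : x < 0) (h1 : -d ≤ x) : 1 - d ≤ Int.fract x := by
  have : ⌊x⌋ ≤ -1 := by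
    have : ⌊x⌋ < 0 := Int.floor_lt.2 (by simpa using h0)
    omega
  have : (⌊x⌋ : ℝ) ≤ -1 := by exact_mod_cast this
  rw [Int.fract]; linarith

section
variable {M E u e m Dd : ℕ} {α d : ℝ}

lemma first (hM : 0 < M) (hE : (E : ℝ) = M * d) (h1 : (u : ℝ) ≤ M * α) (h2 : (M : ℝ) * α ≤ u + e)
    (i : ℕ) (ha : d < Int.fract (((i + 1 : ℕ) : ℝ) * α))
    (hb : Int.fract (((i + 1 : ℕ) : ℝ) * α) < 1 - d) :
    E + E + 1 - e ≤ (i * u + (E + u)) % M + i * e := by
  by_contra hc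
  obtain ⟨x, hx, h3, h4⟩ := loc hM u e (i + 1) E α h1 h2
  rw [show i * u + (E + u) = (i + 1) * u + E by ring] at hc
  have h5 : ((i + 1) * u + E) % M + (i + 1) * e ≤ E + E := by
    rw [add_mul i 1 e]; omega
  have h6 : ((((i + 1) * u + E) % M : ℕ) : ℝ) + ((i + 1 : ℕ) : ℝ) * e ≤ E + E := by
    exact_mod_cast h5
  have h7 : (0 : ℝ) ≤ (((i + 1) * u + E) % M : ℕ) := Nat.cast_nonneg _
  have hM' : (0 : ℝ) < M := by exact_mod_cast hM
  rw [hx] at ha hb
  rcases le_or_gt 0 x with h | h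
  · have : x ≤ d := le_of_mul_le_mul_left (by linarith) hM'
    exact absurd (pos_case h this) (not_le.2 ha)
  · have : -d ≤ x := le_of_mul_le_mul_left (by linarith) hM'
    exact absurd (neg_case h this) (not_le.2 hb)

lemma second (hM : 0 < M) (hE : (E : ℝ) = M * d) (h1 : (u : ℝ) ≤ M * α)
    (h2 : (M : ℝ) * α ≤ u + e) (i k : ℕ) (ha : d < Int.fract (((i + k : ℕ) : ℝ) * α)) :
    E + 1 - k * e ≤ (i * u + (0 + k * u)) % M + i * e := by
  by_contra hc
  obtain ⟨x, hx, h3, h4⟩ := loc hM u e (i + k) 0 α h1 h2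
  rw [show i * u + (0 + k * u) = (i + k) * u + 0 by ring] at hc
  have h5 : ((i + k) * u + 0) % M + (i + k) * e ≤ E := by
    rw [add_mul i k e]; omega
  have h6 : ((((i + k) * u + 0) % M : ℕ) : ℝ) + ((i + k : ℕ) : ℝ) * e ≤ E := by
    exact_mod_cast h5
  have h7 : (0 : ℝ) ≤ (((i + k) * u + 0) % M : ℕ) := Nat.cast_nonneg _
  have hM' : (0 : ℝ) < M := by exact_mod_cast hM
  rw [hx] at ha
  rw [Nat.cast_zero, sub_zero] at h3 h4
  have h : 0 ≤ x := le_of_mul_le_mul_left (by linarith) hM'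
  have : x ≤ d := le_of_mul_le_mul_left (by linarith) hM'
  exact absurd (pos_case h this) (not_le.2 ha)

lemma third (hM : 0 < M) (hE : (E : ℝ) = M * d) (h1 : (u : ℝ) ≤ M * α)
    (h2 : (M : ℝ) * α ≤ u + e) (i k : ℕ) (hb : Int.fract (((i + k : ℕ) : ℝ) * α) < 1 - d) :
    E - k * e ≤ (i * u + (E + k * u)) % M + i * e := by
  by_contra hc
  obtain ⟨x, hx, h3, h4⟩ := loc hM u e (i + k) E α h1 h2
  rw [show i * u + (E + k * u) = (i + k) * u + E by ring] at hc
  have h5 : ((i + k) * u + E) % M + (i + k) * e < E := by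
    rw [add_mul i k e]; omega
  have h6 : ((((i + k) * u + E) % M : ℕ) : ℝ) + ((i + k : ℕ) : ℝ) * e < E := by
    exact_mod_cast h5
  have h7 : (0 : ℝ) ≤ (((i + k) * u + E) % M : ℕ) := Nat.cast_nonneg _
  have hM' : (0 : ℝ) < M := by exact_mod_cast hM
  rw [hx] at hb
  have h : x < 0 := lt_of_mul_lt_mul_left (a := (M : ℝ)) (by linarith) hM'.le
  have : -d ≤ x := le_of_mul_le_mul_left (by linarith) hM'
  exact absurd (neg_case h this) (not_le.2 hb)

end

/-- `cnt` is a sum of terms that equal one on every residue carrying a point of the set. -/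
lemma cnt_sum (G D₀ e u0 Dd m : ℕ) (hG : 0 < G) (hm : 1 ≤ m) :
    ∃ v : ℕ → ℕ, cnt G D₀ e u0 Dd m = ∑ p ∈ Finset.range m, v p ∧
      ∀ (p : ℕ) (α : ℝ), ((p * G + u0 : ℕ) : ℝ) ≤ (m * G : ℕ) * α →
        ((m * G : ℕ) : ℝ) * α ≤ (p * G + u0 : ℕ) + e →
        (∀ j : ℕ, 1 ≤ j → j < m → (D₀ : ℝ) / G < Int.fract (j * α)) →
        (∀ j : ℕ, 1 ≤ j → j ≤ Dd → Int.fract (j * α) < 1 - (D₀ : ℝ) / G) → v p = 1 := by
  have hM : 0 < m * G := Nat.mul_pos hm hG
  have hE : ((m * D₀ : ℕ) : ℝ) = (m * G : ℕ) * ((D₀ : ℝ) / G) := by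
    have : (G : ℝ) ≠ 0 := by exact_mod_cast hG.ne'
    push_cast; field_simp
  have h0 : cnt G D₀ e u0 Dd m = cnd (Nat.ble Dd (m - 1))
      (cnt2 G (m * G) (m * D₀) e (m * D₀ + m * D₀ + 1 - e) (m * D₀ + 1 - (Dd + 1) * e) Dd
        (m - 1 - Dd) 0 u0 m)
      (cnt2 G (m * G) (m * D₀) e (m * D₀ + m * D₀ + 1 - e) (m * D₀ - m * e) (m - 1)
        (Dd - (m - 1)) (m * D₀) u0 m) := rfl
  rw [h0, cnd_eq]
  by_cases h : Dd ≤ m - 1
  · rw [if_pos (Nat.ble_eq_true_of_le h), cnt2_eq]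
    refine ⟨_, rfl, fun p α h1 h2 ha hb => ?_⟩
    rw [dead_eq _ _ _ _ _ _ _ fun i hi =>
      first hM hE h1 h2 i (ha _ (by omega) (by omega)) (hb _ (by omega) (by omega))]
    exact dead_eq _ _ _ _ _ _ _ fun i hi =>
      second hM hE h1 h2 i (Dd + 1) (ha _ (by omega) (by omega))
  · rw [if_neg (fun h' => h (Nat.le_of_ble_eq_true h')), cnt2_eq]
    refine ⟨_, rfl, fun p α h1 h2 ha hb => ?_⟩
    rw [dead_eq _ _ _ _ _ _ _ fun i hi =>
      first hM hE h1 h2 i (ha _ (by omega) (by omega)) (hb _ (by omega) (by omega))]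
    rw [show m - 1 + 1 = m by omega]
    exact dead_eq _ _ _ _ _ _ _ fun i hi =>
      third hM hE h1 h2 i m (hb _ (by omega) (by omega))

end CNx

theorem CN_pf : CN := by
  intro G D₀ D₁ c l m Dd a b γ hG h01 h1G hcl hm ha hab hb hc1 hc2
  obtain ⟨v, hv, hv1⟩ := CNx.cnt_sum G D₀ (D₁ - D₀ + l) (D₀ + G - (c + l)) Dd m hG hm
  have hG' : (0 : ℝ) < G := by exact_mod_cast hG
  have hm' : (0 : ℝ) < m := by exact_mod_cast hm
  have ha0 : 0 ≤ a := le_trans (by positivity) ha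
  set P : ℝ → Prop := fun α => a ≤ Int.fract (m * α + γ) ∧ Int.fract (m * α + γ) < b ∧
    (∀ j : ℕ, 1 ≤ j → j < m → (D₀ : ℝ) / G < Int.fract (j * α)) ∧
    (∀ j : ℕ, 1 ≤ j → j ≤ Dd → Int.fract (j * α) < 1 - (D₀ : ℝ) / G) with hP
  have hmeas : MeasurableSet {x | P x} := by
    simp only [hP, ofPred_and, ofPred_forall]
    refine (measurableSet_le measurable_const (measurable_fract.comp (by fun_prop))).inter
      ((measurableSet_lt (measurable_fract.comp (by fun_prop)) measurable_const).inter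
      (MeasurableSet.inter ?_ ?_))
    · exact MeasurableSet.iInter fun j => MeasurableSet.iInter fun _ => MeasurableSet.iInter fun _ =>
        measurableSet_lt measurable_const (measurable_fract.comp (by fun_prop))
    · exact MeasurableSet.iInter fun j => MeasurableSet.iInter fun _ => MeasurableSet.iInter fun _ =>
        measurableSet_lt (measurable_fract.comp (by fun_prop)) measurable_const
  have hper : ∀ x, P (x + 1) ↔ P x := by
    intro x
    have e1 : ∀ j : ℕ, Int.fract (j * (x + 1)) = Int.fract (j * x) := fun j => by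
      rw [mul_add, mul_one, Int.fract_add_natCast]
    have e2 : Int.fract (m * (x + 1) + γ) = Int.fract (m * x + γ) := by
      rw [show (m : ℝ) * (x + 1) + γ = m * x + γ + m by ring, Int.fract_add_natCast]
    simp only [hP, e1, e2]
  have h0 : gm (D₀ / G) a b m Dd γ = volume.real {x ∈ Ico (0 : ℝ) 1 | P x} := rfl
  rw [h0, vol_shift hmeas hper ((1 + a - γ) / m), hv]
  classical
  set T := (Finset.range m).filter fun p => v p = 1 with hT
  have hsub : {x ∈ Ico ((1 + a - γ) / m) ((1 + a - γ) / m + 1) | P x} ⊆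
      ⋃ p ∈ T, Ico ((p + 1 + a - γ) / m) ((p + 1 + b - γ) / m) := by
    rintro x ⟨⟨hx1, hx2⟩, hx3, hx4, hx5, hx6⟩
    rw [div_le_iff₀ hm'] at hx1
    have hx2' : x * m < 1 + a - γ + m := by
      have := mul_lt_mul_of_pos_right hx2 hm'
      rwa [add_mul, div_mul_cancel₀ _ hm'.ne', one_mul] at this
    have hf := Int.floor_add_fract (m * x + γ)
    have hl : 1 ≤ ⌊m * x + γ⌋ := Int.le_floor.2 (by push_cast; linarith)
    have hu : ⌊m * x + γ⌋ < (m : ℤ) + 1 := by
      have : ((⌊m * x + γ⌋ : ℤ) : ℝ) < m + 1 := by linarith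
      exact_mod_cast this
    obtain ⟨p, hp⟩ : ∃ p : ℕ, ⌊m * x + γ⌋ = p + 1 := ⟨(⌊m * x + γ⌋ - 1).toNat, by omega⟩
    have hpm : p < m := by omega
    rw [hp] at hf
    push_cast at hf
    have hD0 : (D₀ : ℝ) ≤ G * Int.fract (m * x + γ) := by
      have := ha.trans hx3
      rwa [div_le_iff₀ hG', mul_comm] at this
    have hD1 : G * Int.fract (m * x + γ) ≤ (D₁ : ℝ) := by
      have := hx4.le.trans hb
      rwa [le_div_iff₀ hG', mul_comm] at this
    have hu0 : ((D₀ + G - (c + l) : ℕ) : ℝ) = D₀ + G - (c + l) := by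
      rw [Nat.cast_sub (by omega)]; push_cast; ring
    have he : ((D₁ - D₀ + l : ℕ) : ℝ) = D₁ - D₀ + l := by
      rw [Nat.cast_add, Nat.cast_sub h01]
    have hx : (G : ℝ) * (m * x) = G * (p + 1 + Int.fract (m * x + γ) - γ) := by
      congr 1; linarith
    have hvp : v p = 1 := by
      refine hv1 p x ?_ ?_ hx5 hx6
      · rw [Nat.cast_add, hu0]; push_cast; nlinarith
      · rw [Nat.cast_add (p * G), hu0, he]; push_cast; nlinarith
    simp only [mem_iUnion]
    refine ⟨p, Finset.mem_filter.2 ⟨Finset.mem_range.2 hpm, hvp⟩, ?_, ?_⟩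
    · rw [div_le_iff₀ hm']; linarith
    · rw [lt_div_iff₀ hm']; linarith
  refine (measureReal_mono hsub ?_).trans ((measureReal_biUnion_finset_le _ _).trans ?_)
  · exact ((measure_biUnion_finset_le _ _).trans_lt
      (ENNReal.sum_lt_top.2 fun _ _ => measure_Ico_lt_top)).ne
  · have e1 : ∀ p ∈ T, volume.real (Ico ((p + 1 + a - γ) / m) ((p + 1 + b - γ) / m) : Set ℝ)
        = (b - a) / m := fun p _ => by
      rw [Real.volume_real_Ico_of_le (by gcongr)]; ring
    rw [Finset.sum_congr rfl e1, Finset.sum_const, nsmul_eq_mul, mul_div_assoc]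
    refine mul_le_mul_of_nonneg_right ?_ (div_nonneg (by linarith) hm'.le)
    have : T.card ≤ ∑ p ∈ Finset.range m, v p := by
      rw [hT, Finset.card_filter]
      exact Finset.sum_le_sum fun p _ => by split_ifs with h <;> omega
    exact_mod_cast this

end Pool.Agent.Lib.MP_a4d326_an.Q1
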