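import Pool.Agent.Lib.MP_a4d326_an.Q1.Eng

/-! The same programs, cut into pieces that fit in memory. -/

namespace Pool.Agent.Lib.MP_a4d326_an.Q1

noncomputable def sml (f : Nat → Nat) (lo n : Nat) : Nat :=
  Nat.rec (nat_lit 0) (fun i acc => Nat.add acc (lit (Nat.add lo i) f)) n

noncomputable def dg (b Y R S dc cap A B : Nat) : Nat :=
  Nat.mod
    (Nat.shiftRight (Nat.mul A (ext3 (Nat.mul b R) B))
      (Nat.mul b (Nat.sub (Nat.add (Nat.add (Nat.add R R) (Nat.div cap S)) dc) (nat_lit 1))))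
    (Nat.succ Y)

noncomputable def tile (b Y R S RS dc Dn cap Z H m0 nb : Nat) (Bf : Nat → Nat) (q0 q1 : Nat) : Nat :=
  Nat.rec (nat_lit 0)
    (fun i acc => lit (Nat.add m0 (Nat.mul i H)) fun m =>
      lit (Nat.sub (Nat.add m H) (nat_lit 1)) fun m1 =>
        Nat.add acc (dg b Y R S dc cap
          (sml (aq b Y R S RS dc Dn cap Z m m1) q0 (Nat.sub (mn q1 m1) q0)) (Bf i))) nb

noncomputable def chkB (b Y R Sb Q D H m0 nb : Nat) (Bf : Nat → Nat) : Bool :=
  Nat.rec true (fun i ih => @Bool.rec (fun _ => Bool) false ih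
    (Nat.beq (pre (lev b Y R Sb Q D) (Nat.succ (Nat.add m0 (Nat.mul i H)))) (Bf i))) nb

noncomputable def nth (l : List Nat) : Nat → Nat :=
  @List.rec Nat (fun _ => Nat → Nat) (fun _ => nat_lit 0)
    (fun a _ ih n => Nat.rec a (fun k _ => ih k) n) l

noncomputable def smk (w b t j : Nat) : Nat :=
  Nat.mul (Nat.sub (Nat.shiftLeft (nat_lit 1) (Nat.shiftLeft w j)) (nat_lit 1))
    (Nat.div (Nat.sub (Nat.shiftLeft (nat_lit 1) (Nat.shiftLeft b t)) (nat_lit 1))
      (Nat.sub (Nat.shiftLeft (nat_lit 1) (Nat.shiftLeft b (Nat.succ j))) (nat_lit 1)))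

noncomputable def sp1 (s x y : Nat) : Nat := Nat.add y (Nat.shiftLeft (Nat.sub x y) s)

noncomputable def sp2 (w b t j x : Nat) : Nat :=
  sp1 (Nat.shiftLeft (Nat.sub b w) j) x (Nat.land x (smk w b t j))

noncomputable def spr (w b t : Nat) : Nat → Nat :=
  Nat.rec (fun x => x) (fun j ih x => ih (sp2 w b t j x)) t

noncomputable def cat (s : Nat) (l : List Nat) : Nat :=
  @List.rec Nat (fun _ => Nat) (nat_lit 0) (fun a _ ih => Nat.add a (Nat.shiftLeft ih s)) l

end Pool.Agent.Lib.MP_a4d326_an.Q1
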