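import Pool.Agent.Lib.MP_a4d326_an.Q1.All
import Pool.Agent.Lib.MP_a4d326_an.Q1.Eng2

/-! From the output of the programs to inequalities for `H`. -/

namespace Pool.Agent.Lib.MP_a4d326_an.Q1

open Set

def Up (p q r s : ℕ) : Prop := ∀ δ : ℝ, (p : ℝ) / q ≤ δ → δ ≤ (r : ℝ) / s → 1 / 2 < H δ δ

def Dw (p q r s : ℕ) : Prop := ∀ δ : ℝ, (p : ℝ) / q ≤ δ → δ ≤ (r : ℝ) / s → H δ δ < 1 / 2

def Dec (G p r : ℕ) : Prop := StrictAntiOn (fun δ => H δ δ) (Icc ((p : ℝ) / G) ((r : ℝ) / G))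

lemma frac_le {p q r s : ℕ} (h : 0 < q ∧ 0 < s ∧ p * s ≤ r * q) : (p : ℝ) / q ≤ (r : ℝ) / s := by
  obtain ⟨h1, h2, h3⟩ := h
  rw [div_le_div_iff₀ (by exact_mod_cast h1) (by exact_mod_cast h2)]
  exact_mod_cast h3

lemma Up.trans {p q r s p' q' r' s' : ℕ} (h1 : Up p q r s) (h2 : Up p' q' r' s')
    (h : 0 < q' ∧ 0 < s ∧ p' * s ≤ r * q') : Up p q r' s' := by
  intro δ a b
  rcases le_total δ ((r : ℝ) / s) with c | c
  · exact h1 δ a c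
  · exact h2 δ ((frac_le h).trans c) b

lemma Dw.trans {p q r s p' q' r' s' : ℕ} (h1 : Dw p q r s) (h2 : Dw p' q' r' s')
    (h : 0 < q' ∧ 0 < s ∧ p' * s ≤ r * q') : Dw p q r' s' := by
  intro δ a b
  rcases le_total δ ((r : ℝ) / s) with c | c
  · exact h1 δ a c
  · exact h2 δ ((frac_le h).trans c) b

lemma Dec.trans {G p r s : ℕ} (h1 : Dec G p r) (h2 : Dec G r s) : Dec G p s := by
  intro a ha b hb hab
  rcases le_total b ((r : ℝ) / G) with c | c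
  · exact h1 ⟨ha.1, hab.le.trans c⟩ ⟨hb.1, c⟩ hab
  rcases le_total ((r : ℝ) / G) a with d | d
  · exact h2 ⟨d, ha.2⟩ ⟨c, hb.2⟩ hab
  rcases d.eq_or_lt with e | e
  · exact h2 ⟨e.ge, ha.2⟩ ⟨c, hb.2⟩ hab
  have k1 := h1 ⟨ha.1, d⟩ ⟨ha.1.trans d, le_rfl⟩ e
  rcases c.eq_or_lt with f | f
  · rw [← f]; exact k1
  · exact (h2 ⟨le_rfl, c.trans hb.2⟩ ⟨c, hb.2⟩ f).trans k1

theorem Bcert (b Y R S RS Sb Q dc Dn D cap Z Hh m₀ nb M x y z : ℕ)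
    (hc : Y = 2 ^ b - 1 ∧ RS = R * S ∧ Q = R * Sb ∧ Dn = S * (dc + 1) + 1 ∧ 1 ≤ b ∧ 0 < R ∧
      2 ≤ S ∧ 0 < Sb ∧ 1 ≤ dc ∧ 0 < D ∧ D ≤ Q ∧ 1 ≤ cap ∧ 0 < Z ∧ 1 ≤ Hh ∧ 1 ≤ m₀ ∧
      m₀ + nb * Hh ≤ M + 1 ∧ M < 16384 ∧ Dn ≤ RS ∧
      RS ^ 2 * Q * Z * S + 2 * Dn * (x * RS * Z * S + Dn * y * Z * S +
        nb * (3 * S * Z * Sb * R * (M + 1) ^ 5 / Y + 1) * RS) <
        2 * Dn * (M * Q * RS * Z * S + z * RS))
    (hx : Nat.ble (su Q D M) x = true) (hy : Nat.ble (sp Q M) y = true)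
    (hz : z ≤ chunk b Y R S RS Sb Q dc Dn D cap Z Hh m₀ nb) : Up Dn RS D Q := by
  obtain ⟨e1, e2, e3, e4, h1, h2, h3, h4, h5, h6, h7, h8, h9, h10, h11, h12, h13, h14, h15⟩ := hc
  have key := bf b R S Sb dc D cap Z Hh m₀ nb M x y z h1 h2 h3 h4 h5 h6 (e3 ▸ h7) h8 h9 h10 h11
    h12 h13 (by rw [← e4, ← e2]; exact h14) (e3 ▸ Nat.le_of_ble_eq_true hx)
    (e3 ▸ Nat.le_of_ble_eq_true hy) (by rw [← e1, ← e2, ← e3, ← e4]; exact hz)
  have c2 : (R : ℝ) * S = RS := by rw [e2]; push_cast; ring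
  have c3 : (R : ℝ) * Sb = Q := by rw [e3]; push_cast; ring
  have hb2 : 2 ≤ 2 ^ b := by
    calc 2 = 2 ^ 1 := rfl
      _ ≤ 2 ^ b := Nat.pow_le_pow_right (by norm_num) h1
  have c1 : (2 : ℝ) ^ b - 1 = Y := by
    rw [e1, Nat.cast_sub (by omega)]; push_cast; ring
  rw [← e4, c1, c2, c3] at key
  intro δ ha hb
  refine lt_of_lt_of_le ?_ (key.trans (H_mono ha hb))
  have hY : 0 < Y := by omega
  have pY : (0 : ℝ) < Y := by exact_mod_cast hY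
  have pRS : (0 : ℝ) < RS := by rw [← c2]; have : 0 < S := by omega
                                positivity
  have pQ : (0 : ℝ) < Q := by rw [← c3]; positivity
  have pS : (0 : ℝ) < S := by have : 0 < S := by omega
                              positivity
  have pZ : (0 : ℝ) < Z := by positivity
  have pD : (0 : ℝ) < Dn := by rw [e4]; positivity
  set c : ℕ := 3 * S * Z * Sb * R * (M + 1) ^ 5 / Y + 1 with hcdef
  have hcc : 3 * (S : ℝ) * Z * Sb * R * (M + 1) ^ 5 / Y ≤ c := by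
    rw [div_le_iff₀ pY]
    have := Nat.lt_div_mul_add (a := 3 * S * Z * Sb * R * (M + 1) ^ 5) hY
    have h' : 3 * S * Z * Sb * R * (M + 1) ^ 5 ≤ c * Y := by rw [hcdef, add_mul, one_mul]; omega
    exact_mod_cast h'
  have h16 : (RS : ℝ) ^ 2 * Q * Z * S + 2 * Dn * (x * RS * Z * S + Dn * y * Z * S + nb * c * RS) <
      2 * Dn * (M * Q * RS * Z * S + z * RS) := by exact_mod_cast h15
  have step : (1 : ℝ) / 2 < Dn / RS * (M - x / Q - Dn / RS * y / Q + (z - nb * c) / (Z * S * Q)) := by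
    have : (Dn : ℝ) / RS * (M - x / Q - Dn / RS * y / Q + (z - nb * c) / (Z * S * Q)) =
        (2 * Dn * (M * Q * RS * Z * S + z * RS) -
          2 * Dn * (x * RS * Z * S + Dn * y * Z * S + nb * c * RS)) / (2 * (RS ^ 2 * Q * Z * S)) := by
      field_simp
      ring
    rw [this, lt_div_iff₀ (by positivity)]
    linarith
  refine step.trans_le (mul_le_mul_of_nonneg_left ?_ (by positivity))
  have : ((z : ℝ) - nb * c) / (Z * S * Q) ≤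
      (z - nb * (3 * (S : ℝ) * Z * Sb * R * (M + 1) ^ 5 / Y)) / (Z * S * Q) := by
    refine div_le_div_of_nonneg_right ?_ (by positivity)
    have := mul_le_mul_of_nonneg_left hcc (Nat.cast_nonneg (α := ℝ) nb)
    linarith
  linarith

lemma chunk_eq (b Y R S RS Sb Q dc Dn D cap Z Hh m₀ nb : ℕ) :
    chunk b Y R S RS Sb Q dc Dn D cap Z Hh m₀ nb = ∑ i ∈ Finset.range nb,
      dig b Y R S RS Sb Q dc Dn D cap Z (m₀ + i * Hh) (m₀ + i * Hh + Hh - 1) := by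
  induction nb with
  | zero => rfl
  | succ n ih => rw [Finset.sum_range_succ, ← ih]; rfl

lemma chunk_join {b Y R S RS Sb Q dc Dn D cap Z Hh m₀ m₁ n₁ n₂ z₁ z₂ : ℕ} (nb z : ℕ)
    (h1 : z₁ ≤ chunk b Y R S RS Sb Q dc Dn D cap Z Hh m₀ n₁)
    (h2 : z₂ ≤ chunk b Y R S RS Sb Q dc Dn D cap Z Hh m₁ n₂)
    (e : m₁ = m₀ + n₁ * Hh ∧ nb = n₁ + n₂ ∧ z = z₁ + z₂) :
    z ≤ chunk b Y R S RS Sb Q dc Dn D cap Z Hh m₀ nb := by
  obtain ⟨rfl, rfl, rfl⟩ := e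
  rw [chunk_eq] at *
  rw [Finset.sum_range_add]
  refine add_le_add h1 (h2.trans_eq (Finset.sum_congr rfl fun i _ => ?_))
  rw [add_mul, add_assoc m₀]

lemma sml_eq (f : ℕ → ℕ) (lo n : ℕ) : sml f lo n = ∑ i ∈ Finset.Ico lo (lo + n), f i := by
  induction n with
  | zero => simp [sml]
  | succ n ih =>
    rw [← add_assoc, Finset.sum_Ico_succ_top (by omega), ← ih]
    rfl

lemma tile_eq (b Y R S RS dc Dn cap Z Hh m₀ nb : ℕ) (Bf : ℕ → ℕ) (q₀ q₁ : ℕ) :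
    tile b Y R S RS dc Dn cap Z Hh m₀ nb Bf q₀ q₁ = ∑ i ∈ Finset.range nb, dg b Y R S dc cap
      (∑ q ∈ Finset.Ico q₀ (min q₁ (m₀ + i * Hh + Hh - 1)),
        aq b Y R S RS dc Dn cap Z (m₀ + i * Hh) (m₀ + i * Hh + Hh - 1) q) (Bf i) := by
  induction nb with
  | zero => rfl
  | succ n ih =>
    rw [Finset.sum_range_succ, ← ih]
    have : ∀ f : ℕ → ℕ, ∀ u : ℕ, ∑ q ∈ Finset.Ico q₀ u, f q = sml f q₀ (u - q₀) := by
      intro f u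
      rw [sml_eq]
      rcases le_total q₀ u with h | h
      · rw [Nat.add_sub_cancel' h]
      · rw [Nat.sub_eq_zero_of_le h, Finset.Ico_eq_empty_of_le h, add_zero, Finset.Ico_self]
    rw [this, ← mn_eq]
    rfl

lemma digit_add (u v T X : ℕ) (hT : 0 < T) (h : u / T % X + v / T % X + 1 < X) :
    u / T % X + v / T % X ≤ (u + v) / T % X ∧ (u + v) / T % X ≤ u / T % X + v / T % X + 1 := by
  rw [Nat.add_div hT]
  split_ifs
  · rw [Nat.add_mod, Nat.add_mod (u / T), Nat.mod_eq_of_lt (show u / T % X + v / T % X < X by omega),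
      Nat.mod_eq_of_lt (show 1 < X by omega), Nat.mod_eq_of_lt h]
    omega
  · rw [add_zero, Nat.add_mod, Nat.mod_eq_of_lt (show u / T % X + v / T % X < X by omega)]
    omega

lemma dg_add (b Y R S dc cap A A' B : ℕ)
    (h : dg b Y R S dc cap A B + dg b Y R S dc cap A' B + 1 ≤ Y) :
    dg b Y R S dc cap A B + dg b Y R S dc cap A' B ≤ dg b Y R S dc cap (A + A') B ∧
      dg b Y R S dc cap (A + A') B ≤ dg b Y R S dc cap A B + dg b Y R S dc cap A' B + 1 := by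
  have e : ∀ A : ℕ, dg b Y R S dc cap A B =
      A * ext3 (b * R) B / 2 ^ (b * (R + R + cap / S + dc - 1)) % (Y + 1) := fun A => by
    rw [← Nat.shiftRight_eq_div_pow]; rfl
  simp only [e] at h ⊢
  rw [add_mul]
  exact digit_add _ _ _ _ (by positivity) (by omega)

def TB (t l u : ℕ) : Prop := l ≤ t ∧ t ≤ u

lemma TB.of_beq {t z : ℕ} (h : Nat.beq t z = true) : TB t z z :=
  ⟨(Nat.eq_of_beq_eq_true h).ge, (Nat.eq_of_beq_eq_true h).le⟩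

lemma tile_join {b Y R S RS dc Dn cap Z Hh m₀ nb : ℕ} {Bf : ℕ → ℕ} {q₀ q₁ q₂ l₁ u₁ l₂ u₂ : ℕ}
    (l u : ℕ) (h1 : TB (tile b Y R S RS dc Dn cap Z Hh m₀ nb Bf q₀ q₁) l₁ u₁)
    (h2 : TB (tile b Y R S RS dc Dn cap Z Hh m₀ nb Bf q₁ q₂) l₂ u₂)
    (e : q₀ ≤ q₁ ∧ q₁ ≤ q₂ ∧ l = l₁ + l₂ ∧ u = u₁ + u₂ + nb ∧ u₁ + u₂ + 1 ≤ Y) :
    TB (tile b Y R S RS dc Dn cap Z Hh m₀ nb Bf q₀ q₂) l u := by
  obtain ⟨a1, a2, rfl, rfl, a3⟩ := e
  obtain ⟨b1, b2⟩ := h1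
  obtain ⟨c1, c2⟩ := h2
  rw [TB, tile_eq] at *
  have split : ∀ (f : ℕ → ℕ) (m : ℕ), ∑ q ∈ Finset.Ico q₀ (min q₂ m), f q =
      ∑ q ∈ Finset.Ico q₀ (min q₁ m), f q + ∑ q ∈ Finset.Ico q₁ (min q₂ m), f q := by
    intro f m
    rcases le_total q₁ m with h | h
    · rw [min_eq_left h, Finset.sum_Ico_consecutive _ a1 (le_min a2 h)]
    · rw [min_eq_right h, min_eq_right (h.trans a2), Finset.Ico_eq_empty_of_le h,
        Finset.sum_empty, add_zero]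
  simp only [split]
  have key := fun i (hi : i ∈ Finset.range nb) => dg_add b Y R S dc cap _ _ (Bf i)
    ((Nat.add_le_add_right (add_le_add
      ((Finset.single_le_sum (fun _ _ => Nat.zero_le _) hi).trans b2)
      ((Finset.single_le_sum (fun _ _ => Nat.zero_le _) hi).trans c2)) 1).trans a3)
  constructor
  · refine (add_le_add b1 c1).trans ?_
    rw [← Finset.sum_add_distrib]
    exact Finset.sum_le_sum fun i hi => (key i hi).1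
  · refine (Finset.sum_le_sum fun i hi => (key i hi).2).trans ?_
    rw [Finset.sum_add_distrib, Finset.sum_add_distrib]
    simp only [Finset.sum_const, Finset.card_range, smul_eq_mul, mul_one]
    omega

lemma chkB_spec {b Y R Sb Q D Hh m₀ nb : ℕ} {Bf : ℕ → ℕ}
    (h : chkB b Y R Sb Q D Hh m₀ nb Bf = true) :
    ∀ i < nb, pre (lev b Y R Sb Q D) (m₀ + i * Hh + 1) = Bf i := by
  induction nb with
  | zero => intro i hi; omega
  | succ n ih =>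
    have e : chkB b Y R Sb Q D Hh m₀ (n + 1) Bf = @Bool.rec (fun _ => Bool) false
      (chkB b Y R Sb Q D Hh m₀ n Bf)
      (Nat.beq (pre (lev b Y R Sb Q D) (m₀ + n * Hh + 1)) (Bf n)) := rfl
    rw [e] at h
    cases hb : Nat.beq (pre (lev b Y R Sb Q D) (m₀ + n * Hh + 1)) (Bf n) with
    | false => rw [hb] at h; exact absurd h (by simp)
    | true =>
      rw [hb] at h
      intro i hi
      rcases Nat.lt_succ_iff_lt_or_eq.1 hi with h' | rfl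
      · exact ih h i h'
      · exact Nat.eq_of_beq_eq_true hb

lemma chunk_of_tile {b Y R S RS Sb Q dc Dn D cap Z Hh m₀ nb : ℕ} {Bf : ℕ → ℕ} {q₀ q₁ l u : ℕ}
    (h1 : chkB b Y R Sb Q D Hh m₀ nb Bf = true)
    (h2 : TB (tile b Y R S RS dc Dn cap Z Hh m₀ nb Bf q₀ q₁) l u)
    (e : q₀ = 1 ∧ m₀ + nb * Hh ≤ q₁ ∧ 1 ≤ m₀) :
    l ≤ chunk b Y R S RS Sb Q dc Dn D cap Z Hh m₀ nb := by
  obtain ⟨rfl, e2, e3⟩ := e
  refine h2.1.trans_eq ?_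
  rw [tile_eq, chunk_eq]
  refine Finset.sum_congr rfl fun i hi => ?_
  have hi' := Finset.mem_range.1 hi
  have : (i + 1) * Hh ≤ nb * Hh := Nat.mul_le_mul_right _ hi'
  rw [add_mul, one_mul] at this
  rw [← chkB_spec h1 i hi', min_eq_right (by omega)]
  have e4 : ∀ (f : ℕ → ℕ) (m : ℕ), ∑ q ∈ Finset.Ico 1 m, f q = pre f (m - 1) := by
    intro f m
    rw [pre_eq]
    refine Finset.sum_congr ?_ fun _ _ => rfl
    ext q
    simp only [Finset.mem_Ico, Finset.mem_Icc]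
    omega
  rw [e4]
  rfl

lemma segs_add (G : ℕ) (g : ℕ → ℕ) (val : ℕ → ℕ → ℕ → ℕ) (top sg fu i k₁ k₂ : ℕ) :
    segs G g val top sg fu i (k₁ + k₂) =
      segs G g val top sg fu i k₁ + segs G g val top sg fu (i + k₁) k₂ := by
  simp only [segs, sm_eq]
  rw [← add_assoc, Finset.sum_Ico_consecutive _ (by omega) (by omega)]

lemma clo_join {G R D₁ D₂ w thr n₀ sg fu i j k₁ k₂ z₁ z₂ : ℕ} (k z : ℕ)
    (h1 : z₁ ≤ clo G R D₁ D₂ w thr n₀ sg fu i k₁) (h2 : z₂ ≤ clo G R D₁ D₂ w thr n₀ sg fu j k₂)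
    (e : j = i + k₁ ∧ k = k₁ + k₂ ∧ z = z₁ + z₂) : z ≤ clo G R D₁ D₂ w thr n₀ sg fu i k := by
  obtain ⟨rfl, rfl, rfl⟩ := e
  rw [clo, segs_add]
  exact add_le_add h1 h2

lemma chi_join {G R D₁ D₂ w thr n₀ sg fu i j k₁ k₂ z₁ z₂ : ℕ} (k z : ℕ)
    (h1 : chi G R D₁ D₂ w thr n₀ sg fu i k₁ ≤ z₁) (h2 : chi G R D₁ D₂ w thr n₀ sg fu j k₂ ≤ z₂)
    (e : j = i + k₁ ∧ k = k₁ + k₂ ∧ z = z₁ + z₂) : chi G R D₁ D₂ w thr n₀ sg fu i k ≤ z := by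
  obtain ⟨rfl, rfl, rfl⟩ := e
  rw [chi, segs_add]
  exact add_le_add h1 h2

lemma gain_join {G D₀ D₁ W n₀ tl top w thr sg fu i j k₁ k₂ z₁ z₂ : ℕ} (k z : ℕ)
    (h1 : gain G D₀ D₁ W n₀ tl top w thr sg fu i k₁ ≤ z₁)
    (h2 : gain G D₀ D₁ W n₀ tl top w thr sg fu j k₂ ≤ z₂)
    (e : j = i + k₁ ∧ k = k₁ + k₂ ∧ z = z₁ + z₂) :
    gain G D₀ D₁ W n₀ tl top w thr sg fu i k ≤ z := by
  obtain ⟨rfl, rfl, rfl⟩ := e
  rw [gain, segs_add]
  exact add_le_add h1 h2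

theorem Lcert {G R D₁ D₂ w thr n₀ sg fu i k z : ℕ} (h : z ≤ clo G R D₁ D₂ w thr n₀ sg fu i k)
    (e : i = 0 ∧ 0 < G ∧ 0 < R ∧ 32 ∣ R ∧ R < 4294967295 ∧ k * sg = G ∧ G * R < 2 * z) :
    Up D₁ G D₂ G := by
  obtain ⟨rfl, e1, e2, e3, e4, e5, e6⟩ := e
  intro δ ha hb
  have k1 := cl G R D₁ D₂ w thr n₀ sg fu k e1 e2 e3 e4 e5
  have k2 : (z : ℝ) ≤ clo G R D₁ D₂ w thr n₀ sg fu 0 k := by exact_mod_cast h
  have k3 : (G : ℝ) * R < 2 * z := by exact_mod_cast e6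
  have k4 : (0 : ℝ) < G * R := by positivity
  refine lt_of_lt_of_le ?_ (H_mono ha hb)
  by_contra hc
  have := mul_le_mul_of_nonneg_left (not_lt.1 hc) k4.le
  linarith

theorem Ucert {G R D₁ D₂ w thr n₀ sg fu i k z : ℕ} (h : chi G R D₁ D₂ w thr n₀ sg fu i k ≤ z)
    (e : i = 0 ∧ 0 < G ∧ 0 < R ∧ 32 ∣ R ∧ R < 4294967295 ∧ k * sg = G ∧ 2 * z < G * R) :
    Dw D₂ G D₁ G := by
  obtain ⟨rfl, e1, e2, e3, e4, e5, e6⟩ := e
  intro δ ha hb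
  have k1 := cu G R D₁ D₂ w thr n₀ sg fu k e1 e2 e3 e4 e5
  have k2 : (chi G R D₁ D₂ w thr n₀ sg fu 0 k : ℝ) ≤ z := by exact_mod_cast h
  have k3 : 2 * (z : ℝ) < G * R := by exact_mod_cast e6
  have k4 : (0 : ℝ) < G * R := by positivity
  refine lt_of_le_of_lt (H_mono hb ha) ?_
  by_contra hc
  have := mul_le_mul_of_nonneg_left (not_lt.1 hc) k4.le
  linarith

theorem Wcert {G R D₀ D₁ W n₀ tl top w thr sg fu i k n₂ n₁ z y : ℕ} (K : ℕ)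
    (h1 : gain G D₀ D₁ W n₀ tl top w thr sg fu i k ≤ z) (h2 : y ≤ loss G R D₀ D₁ W n₂ n₁)
    (e : i = 0 ∧ 0 < G ∧ 0 < R ∧ 32 ∣ R ∧ R < 4294967295 ∧ D₀ ≤ D₁ ∧ D₁ ≤ G ∧ k * sg = G ∧
      1 ≤ K ∧ K < n₀ ∧ G < D₀ * (K + 1) ∧ pre phi K * W ≤ tl * n₀ ∧ n₀ * W + tl ≤ top ∧
      n₁ ≤ n₂ ∧ 0 < W ∧ z < G * y) : Dec G D₀ D₁ := by
  obtain ⟨rfl, e1, e2, e3, e4, e5, e6, e7, e8, e9, e10, e11, e12, e13, e14, e15⟩ := e
  have e16 : pre phi K = ∑ i ∈ Finset.Icc 1 K, Nat.totient i := by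
    rw [pre_eq]
    exact Finset.sum_congr rfl fun i hi => phi_eq (Finset.mem_Icc.1 hi).1
  rw [e16] at e11
  intro a ha b hb hab
  have k1 := wg G D₀ D₁ W n₀ tl top w thr sg fu k K a b e1 e5 e6 e7 e8 e9 e10 e11 e12 ha.1 hab.le hb.2
  have k2 := wl G R D₀ D₁ W n₂ n₁ a b e1 e2 e3 e4 e5 e6 e13 ha.1 hab.le hb.2
  have k3 : (gain G D₀ D₁ W n₀ tl top w thr sg fu 0 k : ℝ) < G * loss G R D₀ D₁ W n₂ n₁ := by
    have := h1.trans_lt (e15.trans_le (Nat.mul_le_mul_left G h2))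
    exact_mod_cast this
  have pG : (0 : ℝ) < G := by positivity
  have pW : (0 : ℝ) < W := by positivity
  have k4 := mul_lt_mul_of_pos_left k3 (sub_pos.2 hab)
  have k5 := mul_le_mul_of_nonneg_left k2 pG.le
  have k6 : (G : ℝ) * W * (H b b - H a b) < G * W * (H a a - H a b) := by nlinarith
  have := lt_of_mul_lt_mul_left k6 (by positivity)
  show H b b < H a a
  linarith

end Pool.Agent.Lib.MP_a4d326_an.Q1
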