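import Pool.Agent.Lib.MP_a4d326_an.Q1.Eng2

/-! Outputs of the programs, checked by the kernel. -/

set_option linter.defProp false

namespace Pool.Agent.Lib.MP_a4d326_an.Q1

def b32x : Nat.ble (su (nat_lit 35815424) (nat_lit 1155992) (nat_lit 45)) (nat_lit 740676826) = true := by
  decide +kernel

def b32y : Nat.ble (sp (nat_lit 35815424) (nat_lit 45)) (nat_lit 22037910408) = true := by
  decide +kernel

def b32c0 : Nat.ble (nat_lit 416520687356244134) (chunk (nat_lit 67) (nat_lit 147573952589676412927) (nat_lit 1093) (nat_lit 8) (nat_lit 8744) (nat_lit 32768) (nat_lit 35815424) (nat_lit 32) (nat_lit 265) (nat_lit 1155992) (nat_lit 8744) (nat_lit 134217728) (nat_lit 1) (nat_lit 2) (nat_lit 44)) = true := by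
  decide +kernel

def l00p0 : Nat.ble (nat_lit 10694679569606) (clo (nat_lit 1073741824) (nat_lit 19904) (nat_lit 50734301) (nat_lit 54793041) (nat_lit 862483) (nat_lit 64) (nat_lit 71) (nat_lit 16777216) (nat_lit 2000) (nat_lit 0) (nat_lit 64)) = true := by
  decide +kernel

def l06p0 : Nat.ble (nat_lit 11239665284523) (clo (nat_lit 1073741824) (nat_lit 20928) (nat_lit 70853684) (nat_lit 73333556) (nat_lit 819068) (nat_lit 64) (nat_lit 53) (nat_lit 16777216) (nat_lit 2000) (nat_lit 0) (nat_lit 64)) = true := by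
  decide +kernel

def l08p0 : Nat.ble (nat_lit 17214991973094) (clo (nat_lit 1073741824) (nat_lit 32064) (nat_lit 75313560) (nat_lit 77234054) (nat_lit 870624) (nat_lit 64) (nat_lit 50) (nat_lit 16777216) (nat_lit 2000) (nat_lit 0) (nat_lit 64)) = true := by
  decide +kernel

def l16p0 : Nat.ble (nat_lit 20618379136004) (clo (nat_lit 1073741824) (nat_lit 38400) (nat_lit 86324828) (nat_lit 87088156) (nat_lit 461435) (nat_lit 64) (nat_lit 70) (nat_lit 16777216) (nat_lit 2000) (nat_lit 0) (nat_lit 64)) = true := by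
  decide +kernel

def u05p0 : Nat.ble (chi (nat_lit 1073741824) (nat_lit 15424) (nat_lit 110547823) (nat_lit 107119991) (nat_lit 1110620) (nat_lit 64) (nat_lit 58) (nat_lit 16777216) (nat_lit 2000) (nat_lit 0) (nat_lit 64)) (nat_lit 8279885995510) = true := by
  decide +kernel

def u08p0 : Nat.ble (chi (nat_lit 1073741824) (nat_lit 9472) (nat_lit 131606297) (nat_lit 121408025) (nat_lit 1812612) (nat_lit 64) (nat_lit 34) (nat_lit 16777216) (nat_lit 2000) (nat_lit 0) (nat_lit 64)) (nat_lit 5083795475043) = true := by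
  decide +kernel

def w01p0 : Nat.ble (gain (nat_lit 1073741824) (nat_lit 89059478) (nat_lit 91659945) (nat_lit 1048576) (nat_lit 30) (nat_lit 1607817) (nat_lit 33065097) (nat_lit 2147483) (nat_lit 64) (nat_lit 16777216) (nat_lit 2000) (nat_lit 0) (nat_lit 36)) (nat_lit 1801237557402067) = true := by
  decide +kernel

def w01p1 : Nat.ble (gain (nat_lit 1073741824) (nat_lit 89059478) (nat_lit 91659945) (nat_lit 1048576) (nat_lit 30) (nat_lit 1607817) (nat_lit 33065097) (nat_lit 2147483) (nat_lit 64) (nat_lit 16777216) (nat_lit 2000) (nat_lit 36) (nat_lit 28)) (nat_lit 1933792281039324) = true := by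
  decide +kernel

def w01l : Nat.ble (nat_lit 3478540) (loss (nat_lit 1073741824) (nat_lit 60032) (nat_lit 89059478) (nat_lit 91659945) (nat_lit 1048576) (nat_lit 90) (nat_lit 60)) = true := by
  decide +kernel

end Pool.Agent.Lib.MP_a4d326_an.Q1
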