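import Pool.Agent.Lib.MP_a4d326_an.Q1.Eng2

/-! Outputs of the programs, checked by the kernel. -/

set_option linter.defProp false

namespace Pool.Agent.Lib.MP_a4d326_an.Q1

def b10x : Nat.ble (su (nat_lit 113016832) (nat_lit 613759) (nat_lit 247)) (nat_lit 11325435484) = true := by
  decide +kernel

def b10y : Nat.ble (sp (nat_lit 113016832) (nat_lit 247)) (nat_lit 2095809769400) = true := by
  decide +kernel

def b10c0 : Nat.ble (nat_lit 5583164303040076785) (chunk (nat_lit 67) (nat_lit 147573952589676412927) (nat_lit 3449) (nat_lit 8) (nat_lit 27592) (nat_lit 32768) (nat_lit 113016832) (nat_lit 16) (nat_lit 137) (nat_lit 613759) (nat_lit 8192) (nat_lit 134217728) (nat_lit 8) (nat_lit 16) (nat_lit 29)) = true := by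
  decide +kernel

def b19x : Nat.ble (su (nat_lit 63733760) (nat_lit 754523) (nat_lit 118)) (nat_lit 3203079099) = true := by
  decide +kernel

def b19y : Nat.ble (sp (nat_lit 63733760) (nat_lit 118)) (nat_lit 269754277563) = true := by
  decide +kernel

def b19c0 : Nat.ble (nat_lit 1661724156870490253) (chunk (nat_lit 67) (nat_lit 147573952589676412927) (nat_lit 1945) (nat_lit 8) (nat_lit 15560) (nat_lit 32768) (nat_lit 63733760) (nat_lit 20) (nat_lit 169) (nat_lit 754523) (nat_lit 10240) (nat_lit 134217728) (nat_lit 4) (nat_lit 7) (nat_lit 28)) = true := by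
  decide +kernel

def b34x : Nat.ble (su (nat_lit 47218688) (nat_lit 1708323) (nat_lit 40)) (nat_lit 873029242) = true := by
  decide +kernel

def b34y : Nat.ble (sp (nat_lit 47218688) (nat_lit 40)) (nat_lit 22954635590) = true := by
  decide +kernel

def b34c0 : Nat.ble (nat_lit 493245984196901055) (chunk (nat_lit 67) (nat_lit 147573952589676412927) (nat_lit 1441) (nat_lit 8) (nat_lit 11528) (nat_lit 32768) (nat_lit 47218688) (nat_lit 48) (nat_lit 393) (nat_lit 1708323) (nat_lit 11528) (nat_lit 134217728) (nat_lit 1) (nat_lit 2) (nat_lit 39)) = true := by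
  decide +kernel

def b39x : Nat.ble (su (nat_lit 49184768) (nat_lit 2208706) (nat_lit 34)) (nat_lit 814663279) = true := by
  decide +kernel

def b39y : Nat.ble (sp (nat_lit 49184768) (nat_lit 34)) (nat_lit 17281428482) = true := by
  decide +kernel

def b39c0 : Nat.ble (nat_lit 492945705957110434) (chunk (nat_lit 67) (nat_lit 147573952589676412927) (nat_lit 1501) (nat_lit 8) (nat_lit 12008) (nat_lit 32768) (nat_lit 49184768) (nat_lit 64) (nat_lit 521) (nat_lit 2208706) (nat_lit 12008) (nat_lit 134217728) (nat_lit 1) (nat_lit 1) (nat_lit 34)) = true := by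
  decide +kernel

def l13p0 : Nat.ble (nat_lit 14053742499084) (clo (nat_lit 1073741824) (nat_lit 26176) (nat_lit 83434682) (nat_lit 84477613) (nat_lit 655863) (nat_lit 64) (nat_lit 72) (nat_lit 16777216) (nat_lit 2000) (nat_lit 0) (nat_lit 64)) = true := by
  decide +kernel

def u00p0 : Nat.ble (chi (nat_lit 1073741824) (nat_lit 34560) (nat_lit 100461641) (nat_lit 99417755) (nat_lit 497088) (nat_lit 64) (nat_lit 94) (nat_lit 16777216) (nat_lit 2000) (nat_lit 0) (nat_lit 64)) (nat_lit 18551801218505) = true := by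
  decide +kernel

def w04p0 : Nat.ble (gain (nat_lit 1073741824) (nat_lit 96776993) (nat_lit 99419403) (nat_lit 1048576) (nat_lit 30) (nat_lit 1468007) (nat_lit 32925287) (nat_lit 2147483) (nat_lit 64) (nat_lit 16777216) (nat_lit 2000) (nat_lit 0) (nat_lit 37)) (nat_lit 1687850589670634) = true := by
  decide +kernel

def w04p1 : Nat.ble (gain (nat_lit 1073741824) (nat_lit 96776993) (nat_lit 99419403) (nat_lit 1048576) (nat_lit 30) (nat_lit 1468007) (nat_lit 32925287) (nat_lit 2147483) (nat_lit 64) (nat_lit 16777216) (nat_lit 2000) (nat_lit 37) (nat_lit 27)) (nat_lit 1636631959596211) = true := by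
  decide +kernel

def w04l : Nat.ble (nat_lit 3104492) (loss (nat_lit 1073741824) (nat_lit 60032) (nat_lit 96776993) (nat_lit 99419403) (nat_lit 1048576) (nat_lit 90) (nat_lit 60)) = true := by
  decide +kernel

end Pool.Agent.Lib.MP_a4d326_an.Q1
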