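import Pool.Agent.Lib.MP_a4d326_an.Q1.Cert
import Pool.Agent.Lib.MP_a4d326_an.Q1.K01
import Pool.Agent.Lib.MP_a4d326_an.Q1.K02
import Pool.Agent.Lib.MP_a4d326_an.Q1.K03
import Pool.Agent.Lib.MP_a4d326_an.Q1.K04
import Pool.Agent.Lib.MP_a4d326_an.Q1.K05
import Pool.Agent.Lib.MP_a4d326_an.Q1.K06
import Pool.Agent.Lib.MP_a4d326_an.Q1.K07
import Pool.Agent.Lib.MP_a4d326_an.Q1.K08
import Pool.Agent.Lib.MP_a4d326_an.Q1.K09
import Pool.Agent.Lib.MP_a4d326_an.Q1.K10
import Pool.Agent.Lib.MP_a4d326_an.Q1.K11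
import Pool.Agent.Lib.MP_a4d326_an.Q1.K12

/-! The checked outputs, turned into inequalities for `H` and chained. -/

namespace Pool.Agent.Lib.MP_a4d326_an.Q1

theorem b00 : Up (nat_lit 137) (nat_lit 70144) (nat_lit 617267) (nat_lit 287309824) :=
  Bcert _ _ _ _ _ _ _ _ _ _ _ _ _ _ _ _ _ _ _ (by decide +kernel) b00x b00y
    (chunk_of_tile b00k (tile_join (nat_lit 34445755344492225080) (nat_lit 34445755344492225196) (tile_join (nat_lit 32147815845087234601) (nat_lit 32147815845087234688) (tile_join (nat_lit 23330489864670952854) (nat_lit 23330489864670952912) (tile_join (nat_lit 12768198335730442388) (nat_lit 12768198335730442417) (TB.of_beq b00t0) (TB.of_beq b00t1) (by decide +kernel)) (TB.of_beq b00t2) (by decide +kernel)) (TB.of_beq b00t3) (by decide +kernel)) (TB.of_beq b00t4) (by decide +kernel)) (by decide +kernel))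

theorem b01 : Up (nat_lit 137) (nat_lit 63768) (nat_lit 617267) (nat_lit 261193728) :=
  Bcert _ _ _ _ _ _ _ _ _ _ _ _ _ _ _ _ _ _ _ (by decide +kernel) b01x b01y
    (chunk_of_tile b01k (tile_join (nat_lit 29203032324705675772) (nat_lit 29203032324705675856) (tile_join (nat_lit 24947466527360338236) (nat_lit 24947466527360338292) (tile_join (nat_lit 14814985195324485292) (nat_lit 14814985195324485320) (TB.of_beq b01t0) (TB.of_beq b01t1) (by decide +kernel)) (TB.of_beq b01t2) (by decide +kernel)) (TB.of_beq b01t3) (by decide +kernel)) (by decide +kernel))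

theorem b02 : Up (nat_lit 137) (nat_lit 57976) (nat_lit 615162) (nat_lit 237469696) :=
  Bcert _ _ _ _ _ _ _ _ _ _ _ _ _ _ _ _ _ _ _ (by decide +kernel) b02x b02y
    (chunk_of_tile b02k (tile_join (nat_lit 23016259867956471611) (nat_lit 23016259867956471667) (tile_join (nat_lit 15831173051647508197) (nat_lit 15831173051647508225) (TB.of_beq b02t0) (TB.of_beq b02t1) (by decide +kernel)) (TB.of_beq b02t2) (by decide +kernel)) (by decide +kernel))

theorem b03 : Up (nat_lit 137) (nat_lit 52888) (nat_lit 615162) (nat_lit 216629248) :=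
  Bcert _ _ _ _ _ _ _ _ _ _ _ _ _ _ _ _ _ _ _ (by decide +kernel) b03x b03y
    (chunk_of_tile b03k (tile_join (nat_lit 19252229213844911150) (nat_lit 19252229213844911208) (tile_join (nat_lit 16025814084883648512) (nat_lit 16025814084883648541) (TB.of_beq b03t0) (TB.of_beq b03t1) (by decide +kernel)) (TB.of_beq b03t2) (by decide +kernel)) (by decide +kernel))

theorem b04 : Up (nat_lit 137) (nat_lit 48248) (nat_lit 617267) (nat_lit 197623808) :=
  Bcert _ _ _ _ _ _ _ _ _ _ _ _ _ _ _ _ _ _ _ (by decide +kernel) b04x b04y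
    (chunk_of_tile b04k (tile_join (nat_lit 17134132641835267754) (nat_lit 17134132641835267812) (tile_join (nat_lit 16419883925080261424) (nat_lit 16419883925080261453) (TB.of_beq b04t0) (TB.of_beq b04t1) (by decide +kernel)) (TB.of_beq b04t2) (by decide +kernel)) (by decide +kernel))

theorem b05 : Up (nat_lit 137) (nat_lit 43864) (nat_lit 617968) (nat_lit 179666944) :=
  Bcert _ _ _ _ _ _ _ _ _ _ _ _ _ _ _ _ _ _ _ (by decide +kernel) b05x b05y
    (chunk_of_tile b05k (tile_join (nat_lit 14921312579225718978) (nat_lit 14921312579225719007) (TB.of_beq b05t0) (TB.of_beq b05t1) (by decide +kernel)) (by decide +kernel))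

theorem b06 : Up (nat_lit 137) (nat_lit 39832) (nat_lit 615162) (nat_lit 163151872) :=
  Bcert _ _ _ _ _ _ _ _ _ _ _ _ _ _ _ _ _ _ _ (by decide +kernel) b06x b06y
    (chunk_of_tile b06k (tile_join (nat_lit 11694886886673861511) (nat_lit 11694886886673861539) (TB.of_beq b06t0) (TB.of_beq b06t1) (by decide +kernel)) (by decide +kernel))

theorem b07 : Up (nat_lit 137) (nat_lit 36336) (nat_lit 615864) (nat_lit 148832256) :=
  Bcert _ _ _ _ _ _ _ _ _ _ _ _ _ _ _ _ _ _ _ (by decide +kernel) b07x b07y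
    (chunk_of_tile b07k (tile_join (nat_lit 9877606782561881490) (nat_lit 9877606782561881518) (TB.of_beq b07t0) (TB.of_beq b07t1) (by decide +kernel)) (by decide +kernel))

theorem b08 : Up (nat_lit 137) (nat_lit 33112) (nat_lit 613759) (nat_lit 135626752) :=
  Bcert _ _ _ _ _ _ _ _ _ _ _ _ _ _ _ _ _ _ _ (by decide +kernel) b08x b08y
    (chunk_join (nat_lit 28) (nat_lit 8116317162306697448) (Nat.le_of_ble_eq_true b08c0) (chunk_of_tile b08k (TB.of_beq b08t0) (by decide +kernel)) (by decide +kernel))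

theorem b09 : Up (nat_lit 137) (nat_lit 30280) (nat_lit 615864) (nat_lit 124026880) :=
  Bcert _ _ _ _ _ _ _ _ _ _ _ _ _ _ _ _ _ _ _ (by decide +kernel) b09x b09y
    (chunk_of_tile b09k (TB.of_beq b09t0) (by decide +kernel))

theorem b10 : Up (nat_lit 137) (nat_lit 27592) (nat_lit 613759) (nat_lit 113016832) :=
  Bcert _ _ _ _ _ _ _ _ _ _ _ _ _ _ _ _ _ _ _ (by decide +kernel) b10x b10y
    (Nat.le_of_ble_eq_true b10c0)

theorem b11 : Up (nat_lit 137) (nat_lit 25232) (nat_lit 614461) (nat_lit 103350272) :=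
  Bcert _ _ _ _ _ _ _ _ _ _ _ _ _ _ _ _ _ _ _ (by decide +kernel) b11x b11y
    (Nat.le_of_ble_eq_true b11c0)

theorem b12 : Up (nat_lit 137) (nat_lit 23048) (nat_lit 611655) (nat_lit 94404608) :=
  Bcert _ _ _ _ _ _ _ _ _ _ _ _ _ _ _ _ _ _ _ (by decide +kernel) b12x b12y
    (Nat.le_of_ble_eq_true b12c0)

theorem b13 : Up (nat_lit 137) (nat_lit 21152) (nat_lit 613058) (nat_lit 86638592) :=
  Bcert _ _ _ _ _ _ _ _ _ _ _ _ _ _ _ _ _ _ _ (by decide +kernel) b13x b13y
    (Nat.le_of_ble_eq_true b13c0)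

theorem b14 : Up (nat_lit 137) (nat_lit 19368) (nat_lit 613058) (nat_lit 79331328) :=
  Bcert _ _ _ _ _ _ _ _ _ _ _ _ _ _ _ _ _ _ _ (by decide +kernel) b14x b14y
    (Nat.le_of_ble_eq_true b14c0)

theorem b15 : Up (nat_lit 137) (nat_lit 17736) (nat_lit 608849) (nat_lit 72646656) :=
  Bcert _ _ _ _ _ _ _ _ _ _ _ _ _ _ _ _ _ _ _ (by decide +kernel) b15x b15y
    (Nat.le_of_ble_eq_true b15c0)

theorem b16 : Up (nat_lit 137) (nat_lit 16352) (nat_lit 610953) (nat_lit 66977792) :=
  Bcert _ _ _ _ _ _ _ _ _ _ _ _ _ _ _ _ _ _ _ (by decide +kernel) b16x b16y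
    (Nat.le_of_ble_eq_true b16c0)

theorem b17 : Up (nat_lit 137) (nat_lit 15024) (nat_lit 613759) (nat_lit 61538304) :=
  Bcert _ _ _ _ _ _ _ _ _ _ _ _ _ _ _ _ _ _ _ (by decide +kernel) b17x b17y
    (Nat.le_of_ble_eq_true b17c0)

theorem b18 : Up (nat_lit 137) (nat_lit 13744) (nat_lit 611655) (nat_lit 56295424) :=
  Bcert _ _ _ _ _ _ _ _ _ _ _ _ _ _ _ _ _ _ _ (by decide +kernel) b18x b18y
    (Nat.le_of_ble_eq_true b18c0)

theorem b19 : Up (nat_lit 169) (nat_lit 15560) (nat_lit 754523) (nat_lit 63733760) :=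
  Bcert _ _ _ _ _ _ _ _ _ _ _ _ _ _ _ _ _ _ _ (by decide +kernel) b19x b19y
    (Nat.le_of_ble_eq_true b19c0)

theorem b20 : Up (nat_lit 169) (nat_lit 14280) (nat_lit 759715) (nat_lit 58490880) :=
  Bcert _ _ _ _ _ _ _ _ _ _ _ _ _ _ _ _ _ _ _ (by decide +kernel) b20x b20y
    (Nat.le_of_ble_eq_true b20c0)

theorem b21 : Up (nat_lit 169) (nat_lit 13016) (nat_lit 752792) (nat_lit 53313536) :=
  Bcert _ _ _ _ _ _ _ _ _ _ _ _ _ _ _ _ _ _ _ (by decide +kernel) b21x b21y
    (Nat.le_of_ble_eq_true b21c0)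

theorem b22 : Up (nat_lit 169) (nat_lit 11976) (nat_lit 750196) (nat_lit 49053696) :=
  Bcert _ _ _ _ _ _ _ _ _ _ _ _ _ _ _ _ _ _ _ (by decide +kernel) b22x b22y
    (Nat.le_of_ble_eq_true b22c0)

theorem b23 : Up (nat_lit 169) (nat_lit 11056) (nat_lit 747601) (nat_lit 45285376) :=
  Bcert _ _ _ _ _ _ _ _ _ _ _ _ _ _ _ _ _ _ _ (by decide +kernel) b23x b23y
    (Nat.le_of_ble_eq_true b23c0)

theorem b24 : Up (nat_lit 169) (nat_lit 10240) (nat_lit 757984) (nat_lit 41943040) :=
  Bcert _ _ _ _ _ _ _ _ _ _ _ _ _ _ _ _ _ _ _ (by decide +kernel) b24x b24y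
    (Nat.le_of_ble_eq_true b24c0)

theorem b25 : Up (nat_lit 169) (nat_lit 9352) (nat_lit 747601) (nat_lit 38305792) :=
  Bcert _ _ _ _ _ _ _ _ _ _ _ _ _ _ _ _ _ _ _ (by decide +kernel) b25x b25y
    (Nat.le_of_ble_eq_true b25c0)

theorem b26 : Up (nat_lit 201) (nat_lit 10304) (nat_lit 898421) (nat_lit 42205184) :=
  Bcert _ _ _ _ _ _ _ _ _ _ _ _ _ _ _ _ _ _ _ (by decide +kernel) b26x b26y
    (Nat.le_of_ble_eq_true b26c0)

theorem b27 : Up (nat_lit 201) (nat_lit 9448) (nat_lit 885042) (nat_lit 38699008) :=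
  Bcert _ _ _ _ _ _ _ _ _ _ _ _ _ _ _ _ _ _ _ (by decide +kernel) b27x b27y
    (Nat.le_of_ble_eq_true b27c0)

theorem b28 : Up (nat_lit 265) (nat_lit 11592) (nat_lit 1169560) (nat_lit 47480832) :=
  Bcert _ _ _ _ _ _ _ _ _ _ _ _ _ _ _ _ _ _ _ (by decide +kernel) b28x b28y
    (Nat.le_of_ble_eq_true b28c0)

theorem b29 : Up (nat_lit 201) (nat_lit 8168) (nat_lit 887100) (nat_lit 33456128) :=
  Bcert _ _ _ _ _ _ _ _ _ _ _ _ _ _ _ _ _ _ _ (by decide +kernel) b29x b29y
    (Nat.le_of_ble_eq_true b29c0)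

theorem b30 : Up (nat_lit 265) (nat_lit 10000) (nat_lit 1172274) (nat_lit 40960000) :=
  Bcert _ _ _ _ _ _ _ _ _ _ _ _ _ _ _ _ _ _ _ (by decide +kernel) b30x b30y
    (Nat.le_of_ble_eq_true b30c0)

theorem b31 : Up (nat_lit 265) (nat_lit 9264) (nat_lit 1150565) (nat_lit 37945344) :=
  Bcert _ _ _ _ _ _ _ _ _ _ _ _ _ _ _ _ _ _ _ (by decide +kernel) b31x b31y
    (Nat.le_of_ble_eq_true b31c0)

theorem b32 : Up (nat_lit 265) (nat_lit 8744) (nat_lit 1155992) (nat_lit 35815424) :=
  Bcert _ _ _ _ _ _ _ _ _ _ _ _ _ _ _ _ _ _ _ (by decide +kernel) b32x b32y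
    (Nat.le_of_ble_eq_true b32c0)

theorem b33 : Up (nat_lit 265) (nat_lit 8216) (nat_lit 1147851) (nat_lit 33652736) :=
  Bcert _ _ _ _ _ _ _ _ _ _ _ _ _ _ _ _ _ _ _ (by decide +kernel) b33x b33y
    (Nat.le_of_ble_eq_true b33c0)

theorem b34 : Up (nat_lit 393) (nat_lit 11528) (nat_lit 1708323) (nat_lit 47218688) :=
  Bcert _ _ _ _ _ _ _ _ _ _ _ _ _ _ _ _ _ _ _ (by decide +kernel) b34x b34y
    (Nat.le_of_ble_eq_true b34c0)

theorem b35 : Up (nat_lit 393) (nat_lit 10864) (nat_lit 1702286) (nat_lit 44498944) :=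
  Bcert _ _ _ _ _ _ _ _ _ _ _ _ _ _ _ _ _ _ _ (by decide +kernel) b35x b35y
    (Nat.le_of_ble_eq_true b35c0)

theorem b36 : Up (nat_lit 393) (nat_lit 10280) (nat_lit 1688200) (nat_lit 42106880) :=
  Bcert _ _ _ _ _ _ _ _ _ _ _ _ _ _ _ _ _ _ _ (by decide +kernel) b36x b36y
    (Nat.le_of_ble_eq_true b36c0)

theorem b37 : Up (nat_lit 393) (nat_lit 9808) (nat_lit 1676128) (nat_lit 40173568) :=
  Bcert _ _ _ _ _ _ _ _ _ _ _ _ _ _ _ _ _ _ _ (by decide +kernel) b37x b37y
    (Nat.le_of_ble_eq_true b37c0)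

theorem b38 : Up (nat_lit 521) (nat_lit 12488) (nat_lit 2219376) (nat_lit 51150848) :=
  Bcert _ _ _ _ _ _ _ _ _ _ _ _ _ _ _ _ _ _ _ (by decide +kernel) b38x b38y
    (Nat.le_of_ble_eq_true b38c0)

theorem b39 : Up (nat_lit 521) (nat_lit 12008) (nat_lit 2208706) (nat_lit 49184768) :=
  Bcert _ _ _ _ _ _ _ _ _ _ _ _ _ _ _ _ _ _ _ (by decide +kernel) b39x b39y
    (Nat.le_of_ble_eq_true b39c0)

theorem b40 : Up (nat_lit 521) (nat_lit 11608) (nat_lit 2195368) (nat_lit 47546368) :=
  Bcert _ _ _ _ _ _ _ _ _ _ _ _ _ _ _ _ _ _ _ (by decide +kernel) b40x b40y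
    (Nat.le_of_ble_eq_true b40c0)

theorem b41 : Up (nat_lit 521) (nat_lit 11288) (nat_lit 2184698) (nat_lit 46235648) :=
  Bcert _ _ _ _ _ _ _ _ _ _ _ _ _ _ _ _ _ _ _ (by decide +kernel) b41x b41y
    (Nat.le_of_ble_eq_true b41c0)

theorem l00 : Up (nat_lit 50734301) (nat_lit 1073741824) (nat_lit 54793041) (nat_lit 1073741824) :=
  Lcert (Nat.le_of_ble_eq_true l00p0) (by decide +kernel)

theorem l01 : Up (nat_lit 54793041) (nat_lit 1073741824) (nat_lit 58518965) (nat_lit 1073741824) :=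
  Lcert (Nat.le_of_ble_eq_true l01p0) (by decide +kernel)

theorem l02 : Up (nat_lit 58518965) (nat_lit 1073741824) (nat_lit 61913052) (nat_lit 1073741824) :=
  Lcert (Nat.le_of_ble_eq_true l02p0) (by decide +kernel)

theorem l03 : Up (nat_lit 61913052) (nat_lit 1073741824) (nat_lit 65008702) (nat_lit 1073741824) :=
  Lcert (Nat.le_of_ble_eq_true l03p0) (by decide +kernel)

theorem l04 : Up (nat_lit 65008702) (nat_lit 1073741824) (nat_lit 68194118) (nat_lit 1073741824) :=
  Lcert (Nat.le_of_ble_eq_true l04p0) (by decide +kernel)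

theorem l05 : Up (nat_lit 68194118) (nat_lit 1073741824) (nat_lit 70853684) (nat_lit 1073741824) :=
  Lcert (Nat.le_of_ble_eq_true l05p0) (by decide +kernel)

theorem l06 : Up (nat_lit 70853684) (nat_lit 1073741824) (nat_lit 73333556) (nat_lit 1073741824) :=
  Lcert (Nat.le_of_ble_eq_true l06p0) (by decide +kernel)

theorem l07 : Up (nat_lit 73333556) (nat_lit 1073741824) (nat_lit 75313560) (nat_lit 1073741824) :=
  Lcert (Nat.le_of_ble_eq_true l07p0) (by decide +kernel)

theorem l08 : Up (nat_lit 75313560) (nat_lit 1073741824) (nat_lit 77234054) (nat_lit 1073741824) :=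
  Lcert (Nat.le_of_ble_eq_true l08p0) (by decide +kernel)

theorem l09 : Up (nat_lit 77234054) (nat_lit 1073741824) (nat_lit 78778734) (nat_lit 1073741824) :=
  Lcert (Nat.le_of_ble_eq_true l09p0) (by decide +kernel)

theorem l10 : Up (nat_lit 78778734) (nat_lit 1073741824) (nat_lit 80748196) (nat_lit 1073741824) :=
  Lcert (Nat.le_of_ble_eq_true l10p0) (by decide +kernel)

theorem l11 : Up (nat_lit 80748196) (nat_lit 1073741824) (nat_lit 82201660) (nat_lit 1073741824) :=
  Lcert (Nat.le_of_ble_eq_true l11p0) (by decide +kernel)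

theorem l12 : Up (nat_lit 82201660) (nat_lit 1073741824) (nat_lit 83434682) (nat_lit 1073741824) :=
  Lcert (Nat.le_of_ble_eq_true l12p0) (by decide +kernel)

theorem l13 : Up (nat_lit 83434682) (nat_lit 1073741824) (nat_lit 84477613) (nat_lit 1073741824) :=
  Lcert (Nat.le_of_ble_eq_true l13p0) (by decide +kernel)

theorem l14 : Up (nat_lit 84477613) (nat_lit 1073741824) (nat_lit 85512462) (nat_lit 1073741824) :=
  Lcert (Nat.le_of_ble_eq_true l14p0) (by decide +kernel)

theorem l15 : Up (nat_lit 85512462) (nat_lit 1073741824) (nat_lit 86324828) (nat_lit 1073741824) :=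
  Lcert (Nat.le_of_ble_eq_true l15p0) (by decide +kernel)

theorem l16 : Up (nat_lit 86324828) (nat_lit 1073741824) (nat_lit 87088156) (nat_lit 1073741824) :=
  Lcert (Nat.le_of_ble_eq_true l16p0) (by decide +kernel)

theorem w00 : Dec (nat_lit 1073741824) (nat_lit 87088156) (nat_lit 89059478) :=
  Wcert (nat_lit 12) (gain_join (nat_lit 64) (nat_lit 3936799755216317) (Nat.le_of_ble_eq_true w00p0) (Nat.le_of_ble_eq_true w00p1) (by decide +kernel)) (Nat.le_of_ble_eq_true w00l) (by decide +kernel)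

theorem w01 : Dec (nat_lit 1073741824) (nat_lit 89059478) (nat_lit 91659945) :=
  Wcert (nat_lit 12) (gain_join (nat_lit 64) (nat_lit 3735029838441391) (Nat.le_of_ble_eq_true w01p0) (Nat.le_of_ble_eq_true w01p1) (by decide +kernel)) (Nat.le_of_ble_eq_true w01l) (by decide +kernel)

theorem w02 : Dec (nat_lit 1073741824) (nat_lit 91659945) (nat_lit 94260412) :=
  Wcert (nat_lit 11) (gain_join (nat_lit 64) (nat_lit 3735329364820762) (Nat.le_of_ble_eq_true w02p0) (Nat.le_of_ble_eq_true w02p1) (by decide +kernel)) (Nat.le_of_ble_eq_true w02l) (by decide +kernel)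

theorem w03 : Dec (nat_lit 1073741824) (nat_lit 94260412) (nat_lit 96776993) :=
  Wcert (nat_lit 11) (Nat.le_of_ble_eq_true w03p0) (Nat.le_of_ble_eq_true w03l) (by decide +kernel)

theorem w04 : Dec (nat_lit 1073741824) (nat_lit 96776993) (nat_lit 99419403) :=
  Wcert (nat_lit 11) (gain_join (nat_lit 64) (nat_lit 3324482549266845) (Nat.le_of_ble_eq_true w04p0) (Nat.le_of_ble_eq_true w04p1) (by decide +kernel)) (Nat.le_of_ble_eq_true w04l) (by decide +kernel)

theorem u00 : Dw (nat_lit 99417755) (nat_lit 1073741824) (nat_lit 100461641) (nat_lit 1073741824) :=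
  Ucert (Nat.le_of_ble_eq_true u00p0) (by decide +kernel)

theorem u01 : Dw (nat_lit 100461641) (nat_lit 1073741824) (nat_lit 101591832) (nat_lit 1073741824) :=
  Ucert (Nat.le_of_ble_eq_true u01p0) (by decide +kernel)

theorem u02 : Dw (nat_lit 101591832) (nat_lit 1073741824) (nat_lit 102810933) (nat_lit 1073741824) :=
  Ucert (Nat.le_of_ble_eq_true u02p0) (by decide +kernel)

theorem u03 : Dw (nat_lit 102810933) (nat_lit 1073741824) (nat_lit 104507310) (nat_lit 1073741824) :=
  Ucert (Nat.le_of_ble_eq_true u03p0) (by decide +kernel)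

theorem u04 : Dw (nat_lit 104507310) (nat_lit 1073741824) (nat_lit 107119991) (nat_lit 1073741824) :=
  Ucert (Nat.le_of_ble_eq_true u04p0) (by decide +kernel)

theorem u05 : Dw (nat_lit 107119991) (nat_lit 1073741824) (nat_lit 110547823) (nat_lit 1073741824) :=
  Ucert (Nat.le_of_ble_eq_true u05p0) (by decide +kernel)

theorem u06 : Dw (nat_lit 110547823) (nat_lit 1073741824) (nat_lit 114969733) (nat_lit 1073741824) :=
  Ucert (Nat.le_of_ble_eq_true u06p0) (by decide +kernel)

theorem u07 : Dw (nat_lit 114969733) (nat_lit 1073741824) (nat_lit 121408025) (nat_lit 1073741824) :=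
  Ucert (Nat.le_of_ble_eq_true u07p0) (by decide +kernel)

theorem u08 : Dw (nat_lit 121408025) (nat_lit 1073741824) (nat_lit 131606297) (nat_lit 1073741824) :=
  Ucert (Nat.le_of_ble_eq_true u08p0) (by decide +kernel)

theorem u09 : Dw (nat_lit 131606297) (nat_lit 1073741824) (nat_lit 148978322) (nat_lit 1073741824) :=
  Ucert (Nat.le_of_ble_eq_true u09p0) (by decide +kernel)

theorem u10 : Dw (nat_lit 148978322) (nat_lit 1073741824) (nat_lit 181753537) (nat_lit 1073741824) :=
  Ucert (Nat.le_of_ble_eq_true u10p0) (by decide +kernel)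

theorem u11 : Dw (nat_lit 181753537) (nat_lit 1073741824) (nat_lit 259544035) (nat_lit 1073741824) :=
  Ucert (Nat.le_of_ble_eq_true u11p0) (by decide +kernel)

theorem u12 : Dw (nat_lit 259544035) (nat_lit 1073741824) (nat_lit 532584323) (nat_lit 1073741824) :=
  Ucert (Nat.le_of_ble_eq_true u12p0) (by decide +kernel)

theorem u13 : Dw (nat_lit 532584323) (nat_lit 1073741824) (nat_lit 1073741824) (nat_lit 1073741824) :=
  Ucert (Nat.le_of_ble_eq_true u13p0) (by decide +kernel)

theorem pl : Up (nat_lit 92288109) (nat_lit 1073741824) (nat_lit 92288109) (nat_lit 1073741824) :=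
  Lcert (clo_join (nat_lit 64) (nat_lit 42950220315863) (clo_join (nat_lit 46) (nat_lit 27849479985949) (Nat.le_of_ble_eq_true plp0) (Nat.le_of_ble_eq_true plp1) (by decide +kernel)) (Nat.le_of_ble_eq_true plp2) (by decide +kernel)) (by decide +kernel)

theorem pu : Dw (nat_lit 95691871) (nat_lit 1073741824) (nat_lit 95691871) (nat_lit 1073741824) :=
  Ucert (chi_join (nat_lit 64) (nat_lit 32227590880928) (Nat.le_of_ble_eq_true pup0) (Nat.le_of_ble_eq_true pup1) (by decide +kernel)) (by decide +kernel)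

theorem upAll0 : Up (nat_lit 137) (nat_lit 70144) (nat_lit 617267) (nat_lit 261193728) :=
  Up.trans b00 b01 (by decide +kernel)

theorem upAll1 : Up (nat_lit 137) (nat_lit 70144) (nat_lit 615162) (nat_lit 237469696) :=
  Up.trans upAll0 b02 (by decide +kernel)

theorem upAll2 : Up (nat_lit 137) (nat_lit 70144) (nat_lit 615162) (nat_lit 216629248) :=
  Up.trans upAll1 b03 (by decide +kernel)

theorem upAll3 : Up (nat_lit 137) (nat_lit 70144) (nat_lit 617267) (nat_lit 197623808) :=
  Up.trans upAll2 b04 (by decide +kernel)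

theorem upAll4 : Up (nat_lit 137) (nat_lit 70144) (nat_lit 617968) (nat_lit 179666944) :=
  Up.trans upAll3 b05 (by decide +kernel)

theorem upAll5 : Up (nat_lit 137) (nat_lit 70144) (nat_lit 615162) (nat_lit 163151872) :=
  Up.trans upAll4 b06 (by decide +kernel)

theorem upAll6 : Up (nat_lit 137) (nat_lit 70144) (nat_lit 615864) (nat_lit 148832256) :=
  Up.trans upAll5 b07 (by decide +kernel)

theorem upAll7 : Up (nat_lit 137) (nat_lit 70144) (nat_lit 613759) (nat_lit 135626752) :=
  Up.trans upAll6 b08 (by decide +kernel)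

theorem upAll8 : Up (nat_lit 137) (nat_lit 70144) (nat_lit 615864) (nat_lit 124026880) :=
  Up.trans upAll7 b09 (by decide +kernel)

theorem upAll9 : Up (nat_lit 137) (nat_lit 70144) (nat_lit 613759) (nat_lit 113016832) :=
  Up.trans upAll8 b10 (by decide +kernel)

theorem upAll10 : Up (nat_lit 137) (nat_lit 70144) (nat_lit 614461) (nat_lit 103350272) :=
  Up.trans upAll9 b11 (by decide +kernel)

theorem upAll11 : Up (nat_lit 137) (nat_lit 70144) (nat_lit 611655) (nat_lit 94404608) :=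
  Up.trans upAll10 b12 (by decide +kernel)

theorem upAll12 : Up (nat_lit 137) (nat_lit 70144) (nat_lit 613058) (nat_lit 86638592) :=
  Up.trans upAll11 b13 (by decide +kernel)

theorem upAll13 : Up (nat_lit 137) (nat_lit 70144) (nat_lit 613058) (nat_lit 79331328) :=
  Up.trans upAll12 b14 (by decide +kernel)

theorem upAll14 : Up (nat_lit 137) (nat_lit 70144) (nat_lit 608849) (nat_lit 72646656) :=
  Up.trans upAll13 b15 (by decide +kernel)

theorem upAll15 : Up (nat_lit 137) (nat_lit 70144) (nat_lit 610953) (nat_lit 66977792) :=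
  Up.trans upAll14 b16 (by decide +kernel)

theorem upAll16 : Up (nat_lit 137) (nat_lit 70144) (nat_lit 613759) (nat_lit 61538304) :=
  Up.trans upAll15 b17 (by decide +kernel)

theorem upAll17 : Up (nat_lit 137) (nat_lit 70144) (nat_lit 611655) (nat_lit 56295424) :=
  Up.trans upAll16 b18 (by decide +kernel)

theorem upAll18 : Up (nat_lit 137) (nat_lit 70144) (nat_lit 754523) (nat_lit 63733760) :=
  Up.trans upAll17 b19 (by decide +kernel)

theorem upAll19 : Up (nat_lit 137) (nat_lit 70144) (nat_lit 759715) (nat_lit 58490880) :=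
  Up.trans upAll18 b20 (by decide +kernel)

theorem upAll20 : Up (nat_lit 137) (nat_lit 70144) (nat_lit 752792) (nat_lit 53313536) :=
  Up.trans upAll19 b21 (by decide +kernel)

theorem upAll21 : Up (nat_lit 137) (nat_lit 70144) (nat_lit 750196) (nat_lit 49053696) :=
  Up.trans upAll20 b22 (by decide +kernel)

theorem upAll22 : Up (nat_lit 137) (nat_lit 70144) (nat_lit 747601) (nat_lit 45285376) :=
  Up.trans upAll21 b23 (by decide +kernel)

theorem upAll23 : Up (nat_lit 137) (nat_lit 70144) (nat_lit 757984) (nat_lit 41943040) :=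
  Up.trans upAll22 b24 (by decide +kernel)

theorem upAll24 : Up (nat_lit 137) (nat_lit 70144) (nat_lit 747601) (nat_lit 38305792) :=
  Up.trans upAll23 b25 (by decide +kernel)

theorem upAll25 : Up (nat_lit 137) (nat_lit 70144) (nat_lit 898421) (nat_lit 42205184) :=
  Up.trans upAll24 b26 (by decide +kernel)

theorem upAll26 : Up (nat_lit 137) (nat_lit 70144) (nat_lit 885042) (nat_lit 38699008) :=
  Up.trans upAll25 b27 (by decide +kernel)

theorem upAll27 : Up (nat_lit 137) (nat_lit 70144) (nat_lit 1169560) (nat_lit 47480832) :=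
  Up.trans upAll26 b28 (by decide +kernel)

theorem upAll28 : Up (nat_lit 137) (nat_lit 70144) (nat_lit 887100) (nat_lit 33456128) :=
  Up.trans upAll27 b29 (by decide +kernel)

theorem upAll29 : Up (nat_lit 137) (nat_lit 70144) (nat_lit 1172274) (nat_lit 40960000) :=
  Up.trans upAll28 b30 (by decide +kernel)

theorem upAll30 : Up (nat_lit 137) (nat_lit 70144) (nat_lit 1150565) (nat_lit 37945344) :=
  Up.trans upAll29 b31 (by decide +kernel)

theorem upAll31 : Up (nat_lit 137) (nat_lit 70144) (nat_lit 1155992) (nat_lit 35815424) :=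
  Up.trans upAll30 b32 (by decide +kernel)

theorem upAll32 : Up (nat_lit 137) (nat_lit 70144) (nat_lit 1147851) (nat_lit 33652736) :=
  Up.trans upAll31 b33 (by decide +kernel)

theorem upAll33 : Up (nat_lit 137) (nat_lit 70144) (nat_lit 1708323) (nat_lit 47218688) :=
  Up.trans upAll32 b34 (by decide +kernel)

theorem upAll34 : Up (nat_lit 137) (nat_lit 70144) (nat_lit 1702286) (nat_lit 44498944) :=
  Up.trans upAll33 b35 (by decide +kernel)

theorem upAll35 : Up (nat_lit 137) (nat_lit 70144) (nat_lit 1688200) (nat_lit 42106880) :=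
  Up.trans upAll34 b36 (by decide +kernel)

theorem upAll36 : Up (nat_lit 137) (nat_lit 70144) (nat_lit 1676128) (nat_lit 40173568) :=
  Up.trans upAll35 b37 (by decide +kernel)

theorem upAll37 : Up (nat_lit 137) (nat_lit 70144) (nat_lit 2219376) (nat_lit 51150848) :=
  Up.trans upAll36 b38 (by decide +kernel)

theorem upAll38 : Up (nat_lit 137) (nat_lit 70144) (nat_lit 2208706) (nat_lit 49184768) :=
  Up.trans upAll37 b39 (by decide +kernel)

theorem upAll39 : Up (nat_lit 137) (nat_lit 70144) (nat_lit 2195368) (nat_lit 47546368) :=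
  Up.trans upAll38 b40 (by decide +kernel)

theorem upAll40 : Up (nat_lit 137) (nat_lit 70144) (nat_lit 2184698) (nat_lit 46235648) :=
  Up.trans upAll39 b41 (by decide +kernel)

theorem upAll41 : Up (nat_lit 137) (nat_lit 70144) (nat_lit 54793041) (nat_lit 1073741824) :=
  Up.trans upAll40 l00 (by decide +kernel)

theorem upAll42 : Up (nat_lit 137) (nat_lit 70144) (nat_lit 58518965) (nat_lit 1073741824) :=
  Up.trans upAll41 l01 (by decide +kernel)

theorem upAll43 : Up (nat_lit 137) (nat_lit 70144) (nat_lit 61913052) (nat_lit 1073741824) :=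
  Up.trans upAll42 l02 (by decide +kernel)

theorem upAll44 : Up (nat_lit 137) (nat_lit 70144) (nat_lit 65008702) (nat_lit 1073741824) :=
  Up.trans upAll43 l03 (by decide +kernel)

theorem upAll45 : Up (nat_lit 137) (nat_lit 70144) (nat_lit 68194118) (nat_lit 1073741824) :=
  Up.trans upAll44 l04 (by decide +kernel)

theorem upAll46 : Up (nat_lit 137) (nat_lit 70144) (nat_lit 70853684) (nat_lit 1073741824) :=
  Up.trans upAll45 l05 (by decide +kernel)

theorem upAll47 : Up (nat_lit 137) (nat_lit 70144) (nat_lit 73333556) (nat_lit 1073741824) :=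
  Up.trans upAll46 l06 (by decide +kernel)

theorem upAll48 : Up (nat_lit 137) (nat_lit 70144) (nat_lit 75313560) (nat_lit 1073741824) :=
  Up.trans upAll47 l07 (by decide +kernel)

theorem upAll49 : Up (nat_lit 137) (nat_lit 70144) (nat_lit 77234054) (nat_lit 1073741824) :=
  Up.trans upAll48 l08 (by decide +kernel)

theorem upAll50 : Up (nat_lit 137) (nat_lit 70144) (nat_lit 78778734) (nat_lit 1073741824) :=
  Up.trans upAll49 l09 (by decide +kernel)

theorem upAll51 : Up (nat_lit 137) (nat_lit 70144) (nat_lit 80748196) (nat_lit 1073741824) :=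
  Up.trans upAll50 l10 (by decide +kernel)

theorem upAll52 : Up (nat_lit 137) (nat_lit 70144) (nat_lit 82201660) (nat_lit 1073741824) :=
  Up.trans upAll51 l11 (by decide +kernel)

theorem upAll53 : Up (nat_lit 137) (nat_lit 70144) (nat_lit 83434682) (nat_lit 1073741824) :=
  Up.trans upAll52 l12 (by decide +kernel)

theorem upAll54 : Up (nat_lit 137) (nat_lit 70144) (nat_lit 84477613) (nat_lit 1073741824) :=
  Up.trans upAll53 l13 (by decide +kernel)

theorem upAll55 : Up (nat_lit 137) (nat_lit 70144) (nat_lit 85512462) (nat_lit 1073741824) :=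
  Up.trans upAll54 l14 (by decide +kernel)

theorem upAll56 : Up (nat_lit 137) (nat_lit 70144) (nat_lit 86324828) (nat_lit 1073741824) :=
  Up.trans upAll55 l15 (by decide +kernel)

theorem upAll : Up (nat_lit 137) (nat_lit 70144) (nat_lit 87088156) (nat_lit 1073741824) :=
  Up.trans upAll56 l16 (by decide +kernel)

theorem decAll0 : Dec (nat_lit 1073741824) (nat_lit 87088156) (nat_lit 91659945) :=
  Dec.trans w00 w01

theorem decAll1 : Dec (nat_lit 1073741824) (nat_lit 87088156) (nat_lit 94260412) :=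
  Dec.trans decAll0 w02

theorem decAll2 : Dec (nat_lit 1073741824) (nat_lit 87088156) (nat_lit 96776993) :=
  Dec.trans decAll1 w03

theorem decAll : Dec (nat_lit 1073741824) (nat_lit 87088156) (nat_lit 99419403) :=
  Dec.trans decAll2 w04

theorem dwAll0 : Dw (nat_lit 99417755) (nat_lit 1073741824) (nat_lit 101591832) (nat_lit 1073741824) :=
  Dw.trans u00 u01 (by decide +kernel)

theorem dwAll1 : Dw (nat_lit 99417755) (nat_lit 1073741824) (nat_lit 102810933) (nat_lit 1073741824) :=
  Dw.trans dwAll0 u02 (by decide +kernel)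

theorem dwAll2 : Dw (nat_lit 99417755) (nat_lit 1073741824) (nat_lit 104507310) (nat_lit 1073741824) :=
  Dw.trans dwAll1 u03 (by decide +kernel)

theorem dwAll3 : Dw (nat_lit 99417755) (nat_lit 1073741824) (nat_lit 107119991) (nat_lit 1073741824) :=
  Dw.trans dwAll2 u04 (by decide +kernel)

theorem dwAll4 : Dw (nat_lit 99417755) (nat_lit 1073741824) (nat_lit 110547823) (nat_lit 1073741824) :=
  Dw.trans dwAll3 u05 (by decide +kernel)

theorem dwAll5 : Dw (nat_lit 99417755) (nat_lit 1073741824) (nat_lit 114969733) (nat_lit 1073741824) :=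
  Dw.trans dwAll4 u06 (by decide +kernel)

theorem dwAll6 : Dw (nat_lit 99417755) (nat_lit 1073741824) (nat_lit 121408025) (nat_lit 1073741824) :=
  Dw.trans dwAll5 u07 (by decide +kernel)

theorem dwAll7 : Dw (nat_lit 99417755) (nat_lit 1073741824) (nat_lit 131606297) (nat_lit 1073741824) :=
  Dw.trans dwAll6 u08 (by decide +kernel)

theorem dwAll8 : Dw (nat_lit 99417755) (nat_lit 1073741824) (nat_lit 148978322) (nat_lit 1073741824) :=
  Dw.trans dwAll7 u09 (by decide +kernel)

theorem dwAll9 : Dw (nat_lit 99417755) (nat_lit 1073741824) (nat_lit 181753537) (nat_lit 1073741824) :=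
  Dw.trans dwAll8 u10 (by decide +kernel)

theorem dwAll10 : Dw (nat_lit 99417755) (nat_lit 1073741824) (nat_lit 259544035) (nat_lit 1073741824) :=
  Dw.trans dwAll9 u11 (by decide +kernel)

theorem dwAll11 : Dw (nat_lit 99417755) (nat_lit 1073741824) (nat_lit 532584323) (nat_lit 1073741824) :=
  Dw.trans dwAll10 u12 (by decide +kernel)

theorem dwAll : Dw (nat_lit 99417755) (nat_lit 1073741824) (nat_lit 1073741824) (nat_lit 1073741824) :=
  Dw.trans dwAll11 u13 (by decide +kernel)

end Pool.Agent.Lib.MP_a4d326_an.Q1
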