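/-! Integer programs run by the kernel. Their meaning is stated in `Stmt`. -/

namespace Pool.Agent.Lib.MP_a4d326_an.Q1

noncomputable def lit (x : Nat) (k : Nat → Nat) : Nat :=
  Nat.rec (nat_lit 0) (fun n _ => k n) (Nat.succ x)

noncomputable def sm (f : Nat → Nat) (lo n : Nat) : Nat :=
  Nat.rec (nat_lit 0) (fun i acc => Nat.add acc (f (Nat.add lo i))) n

noncomputable def smc (f : Nat → Nat) (q lo n : Nat) : Nat :=
  Nat.rec (nat_lit 0) (fun i acc => @Bool.rec (fun _ => Nat) acc (Nat.add acc (f (Nat.add lo i)))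
    (Nat.beq (Nat.gcd (Nat.add lo i) q) (nat_lit 1))) n

noncomputable def pre (f : Nat → Nat) (n : Nat) : Nat :=
  Nat.rec (nat_lit 0) (fun i acc => Nat.add acc (lit (Nat.succ i) f)) n

noncomputable def bld (b q : Nat) (leaf : Nat → Nat → Nat) (pos : Nat → Nat) (d : Nat) :
    Nat → Nat → Nat :=
  Nat.rec (fun _ _ => nat_lit 0)
    (fun _ ih lo hi => @Bool.rec (fun _ => Nat)
      (lit (Nat.div (Nat.add lo hi) (nat_lit 2)) fun mid =>
        Nat.add (ih lo mid) (Nat.shiftLeft (ih mid hi) (Nat.mul b (Nat.sub (pos mid) (pos lo)))))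
      (lit (pos lo) fun base => smc (leaf base) q lo (Nat.sub hi lo))
      (Nat.ble hi (Nat.add lo (nat_lit 8)))) d

noncomputable def phi (q : Nat) : Nat :=
  Nat.rec (nat_lit 0) (fun i acc => Nat.add acc (Nat.div (nat_lit 1) (Nat.gcd i q))) q

noncomputable def mx (a b : Nat) : Nat := Nat.add a (Nat.sub b a)

noncomputable def mn (a b : Nat) : Nat := Nat.sub a (Nat.sub a b)

noncomputable def cl2 (b S Y base e : Nat) : Nat :=
  Nat.shiftLeft (Nat.add S (Nat.mul (Nat.mod e S) Y)) (Nat.mul b (Nat.sub (Nat.div e S) base))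

noncomputable def comb (b Y R S RS q : Nat) : Nat :=
  bld b q (fun base r => cl2 b S Y base (Nat.div (Nat.mul r RS) q))
    (fun r => Nat.div (Nat.mul r R) q) (nat_lit 12) (nat_lit 0) q

noncomputable def ov (b Sb base st en j : Nat) : Nat :=
  Nat.shiftLeft
    (Nat.sub (Nat.sub en (Nat.sub en (Nat.mul (Nat.succ j) Sb)))
      (Nat.add st (Nat.sub (Nat.mul j Sb) st)))
    (Nat.mul b (Nat.sub j base))

noncomputable def piece (b Sb base st en : Nat) : Nat :=
  sm (ov b Sb base st en) (Nat.div st Sb) (Nat.sub (Nat.succ (Nat.div en Sb)) (Nat.div st Sb))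

noncomputable def pc3 (b Y Sb base st len : Nat) : Nat :=
  Nat.shiftLeft (Nat.add len (Nat.mul (Nat.sub (Nat.add (Nat.mod st Sb) len) Sb) Y))
    (Nat.mul b (Nat.sub (Nat.div st Sb) base))

noncomputable def pc2 (b Y Sb base st en : Nat) : Nat := pc3 b Y Sb base st (Nat.sub en st)

noncomputable def st0 (Q n r : Nat) : Nat := Nat.succ (Nat.div (Nat.mul r Q) n)

noncomputable def st2 (Q D n r u : Nat) : Nat :=
  Nat.succ (Nat.div (Nat.add (Nat.mul (Nat.div (Nat.mul u r) n) Q) D) u)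

noncomputable def st1 (Q D e n r : Nat) : Nat :=
  mx (st0 Q n r) (st2 Q D n r (Nat.mod (Nat.pow r e) n))

noncomputable def en0 (Q D n r : Nat) : Nat := Nat.div (Nat.add (Nat.mul r Q) D) n

noncomputable def lv (b R n : Nat) (leaf : Nat → Nat → Nat) : Nat :=
  bld b n leaf (fun r => Nat.div (Nat.mul r R) n) (nat_lit 12) (nat_lit 0) n

noncomputable def lv2 (b Y R Sb Q D n : Nat) (st : Nat → Nat) : Nat :=
  @Bool.rec (fun _ => Nat)
    (lv b R n fun base r => piece b Sb base (st r) (en0 Q D n r))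
    (lv b R n fun base r => pc2 b Y Sb base (st r) (en0 Q D n r))
    (Nat.ble D (Nat.mul n Sb))

noncomputable def lev (b Y R Sb Q D n : Nat) : Nat :=
  @Bool.rec (fun _ => Nat)
    (lit (Nat.sub (phi n) (nat_lit 1)) fun e => lv2 b Y R Sb Q D n (st1 Q D e n))
    (lv2 b Y R Sb Q D n (st0 Q n))
    (Nat.ble (Nat.mul n D) Q)

noncomputable def box (b Y a : Nat) : Nat :=
  Nat.div (Nat.sub (Nat.shiftLeft (nat_lit 1) (Nat.mul b a)) (nat_lit 1)) Y

noncomputable def kern (b Y S dc rs : Nat) : Nat :=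
  lit (Nat.div rs S) fun r =>
    Nat.add (Nat.mul S (Nat.mul (box b Y r) (box b Y (Nat.add dc r))))
      (Nat.mul (Nat.mod rs S) (box b Y (Nat.sub (Nat.add dc (Nat.add r r)) (nat_lit 1))))

noncomputable def rho (Dn cap q m : Nat) : Nat :=
  mx (mn cap (Nat.div (Nat.mul Dn (Nat.sub m q)) q)) (nat_lit 1)

noncomputable def kt (b Y S dc Dn cap q om num m : Nat) : Nat :=
  lit (rho Dn cap q m) fun rs =>
    Nat.shiftLeft (Nat.mul (Nat.div num (Nat.mul m rs)) (kern b Y S dc rs))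
      (Nat.mul b (Nat.sub om (Nat.div rs S)))

noncomputable def kg2 (b Y S dc Dn cap q om g Z lo hi : Nat) : Nat :=
  @Bool.rec (fun _ => Nat) (nat_lit 0)
    (lit (Nat.div (Nat.mul Z (lit (Nat.mul g q) phi)) (Nat.mul (phi q) g)) fun num =>
      lit lo fun lo' => smc (kt b Y S dc Dn cap q om num) q lo' (Nat.sub (Nat.succ hi) lo'))
    (Nat.ble lo hi)

noncomputable def kg (b Y S dc Dn cap Z m0 m1 q om g : Nat) : Nat :=
  kg2 b Y S dc Dn cap q om g Z
    (Nat.succ (mx q (Nat.div (Nat.sub m0 (nat_lit 1)) g))) (Nat.div m1 g)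

noncomputable def aq (b Y R S RS dc Dn cap Z m0 m1 q : Nat) : Nat :=
  lit (Nat.div (rho Dn cap q m1) S) fun om =>
  Nat.shiftLeft
    (Nat.mul (comb b Y R S RS q) (pre (kg b Y S dc Dn cap Z m0 m1 q om) (Nat.div m1 (Nat.succ q))))
    (Nat.mul b (Nat.sub (Nat.div cap S) om))

noncomputable def ext3 (s x : Nat) : Nat :=
  Nat.add x (Nat.shiftLeft (Nat.add x (Nat.shiftLeft x s)) s)

noncomputable def dig (b Y R S RS Sb Q dc Dn D cap Z m0 m1 : Nat) : Nat :=
  Nat.mod
    (Nat.shiftRight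
      (Nat.mul (pre (aq b Y R S RS dc Dn cap Z m0 m1) (Nat.sub m1 (nat_lit 1)))
        (ext3 (Nat.mul b R) (pre (lev b Y R Sb Q D) (Nat.succ m0))))
      (Nat.mul b (Nat.sub (Nat.add (Nat.add (Nat.add R R) (Nat.div cap S)) dc) (nat_lit 1))))
    (Nat.succ Y)

noncomputable def chunk (b Y R S RS Sb Q dc Dn D cap Z H m0 nb : Nat) : Nat :=
  Nat.rec (nat_lit 0)
    (fun i acc => lit (Nat.add m0 (Nat.mul i H)) fun m => lit (Nat.sub (Nat.add m H) (nat_lit 1)) fun m1 =>
      Nat.add acc (dig b Y R S RS Sb Q dc Dn D cap Z m m1)) nb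

noncomputable def ulev (Q D n : Nat) : Nat :=
  @Bool.rec (fun _ => Nat)
    (lit (Nat.sub (phi n) (nat_lit 1)) fun e =>
      smc (fun r => Nat.add (Nat.sub (en0 Q D n r) (st1 Q D e n r)) (nat_lit 2)) n (nat_lit 0) n)
    (Nat.mul (phi n) (Nat.succ (Nat.div D n))) (Nat.ble (Nat.mul n D) Q)

noncomputable def su (Q D M : Nat) : Nat := pre (fun m => pre (ulev Q D) (Nat.succ m)) M

noncomputable def sp (Q M : Nat) : Nat :=
  sm (fun m => pre (fun k => Nat.succ (Nat.div (Nat.mul (phi k) Q) k)) m) (nat_lit 0) M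

noncomputable def cnd (c : Bool) (x y : Nat) : Nat := @Bool.rec (fun _ => Nat) y x c

noncomputable def gr2 (G D0 D1 c lo fu : Nat) : Nat → Nat → Nat :=
  Nat.rec (fun n l => Nat.add l (Nat.mul G (Nat.add lo (Nat.mul (nat_lit 4096) n))))
    (fun _ ih n l => lit (Nat.mod (Nat.mul n c) G) fun a =>
      cnd (Nat.ble D0 a)
        (lit (mn l (Nat.succ (Nat.div (Nat.sub (cnd (Nat.ble D1 a) G D1) a) n))) fun l' =>
          lit (Nat.succ n) fun n' => ih n' l')
        (Nat.add (mn l (Nat.div (Nat.sub D0 a) n))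
          (Nat.mul G (Nat.add lo (Nat.mul (nat_lit 4096) n))))) fu

noncomputable def gr1 (G D0 D1 c fu : Nat) : Nat → Nat → Nat :=
  Nat.rec (fun n l => Nat.add l (Nat.mul G (Nat.add n (Nat.mul (nat_lit 4096) n))))
    (fun f ih n l => lit (Nat.mod (Nat.mul n c) G) fun a =>
      cnd (Nat.ble D1 a)
        (lit (mn l (Nat.div (Nat.sub G a) n)) fun l' => lit (Nat.succ n) fun n' => ih n' l')
        (gr2 G D0 D1 c n (Nat.succ f) n l)) fu

noncomputable def greedy (G D0 D1 n0 w c : Nat) : Nat := gr1 G D0 D1 c n0 (nat_lit 1) w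

noncomputable def cells (G : Nat) (g : Nat → Nat) (val : Nat → Nat → Nat → Nat) (top c1 fu : Nat) :
    Nat → Nat :=
  Nat.rec (fun c => Nat.mul (Nat.sub c1 c) top)
    (fun _ ih c => cnd (Nat.ble c1 c) (nat_lit 0)
      (lit (g c) fun x => lit (mx (mn (Nat.mod x G) (Nat.sub c1 c)) (nat_lit 1)) fun l =>
        Nat.add (Nat.mul l (val c l (Nat.div x G))) (lit (Nat.add c l) ih))) fu

noncomputable def segs (G : Nat) (g : Nat → Nat) (val : Nat → Nat → Nat → Nat)
    (top sg fu i0 k : Nat) : Nat :=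
  sm (fun i => lit (Nat.mul i sg) fun c => lit (Nat.add c sg) fun c1 => cells G g val top c1 fu c) i0 k

noncomputable def miss1 (G D l n a : Nat) : Bool :=
  @Bool.rec (fun _ => Bool) false (Nat.ble (Nat.add a (Nat.mul n l)) G) (Nat.ble D a)

noncomputable def allMiss (G D c l N : Nat) : Bool :=
  Nat.rec true (fun n ih => @Bool.rec (fun _ => Bool) false ih
    (miss1 G D l (Nat.succ n) (Nat.mod (Nat.mul (Nat.succ n) c) G))) N

noncomputable def hit (G D c l n : Nat) : Bool :=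
  @Bool.rec (fun _ => Bool) false
    (Nat.ble (Nat.add (Nat.mod (Nat.mul n c) G) (Nat.mul n l)) D) (Nat.ble (nat_lit 1) n)

noncomputable def pat (R e L m : Nat) : Nat :=
  Nat.rec (nat_lit 0)
    (fun p acc => Nat.lor acc
      (Nat.shiftLeft (Nat.sub (Nat.shiftLeft (nat_lit 1) L) (nat_lit 1))
        (Nat.add (Nat.div (Nat.mul p R) m) e))) (Nat.succ m)

noncomputable def pin (G R D w m : Nat) : Nat :=
  pat R (nat_lit 1) (Nat.sub (Nat.div (Nat.mul (Nat.sub D w) R) (Nat.mul G m)) (nat_lit 2)) m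

noncomputable def pout (G R D w m : Nat) : Nat :=
  pat R (nat_lit 0) (Nat.add (Nat.div (Nat.mul (Nat.add D w) R) (Nat.mul G m)) (nat_lit 3)) m

noncomputable def uin (G R D w c M : Nat) : Nat :=
  lit (Nat.div (Nat.mul c R) G) fun t =>
  Nat.rec (nat_lit 0) (fun i acc => lit (Nat.succ i) fun m =>
    Nat.lor acc (Nat.shiftRight (pin G R D w m) (Nat.div t m))) M

noncomputable def uout (G R D w c M : Nat) : Nat :=
  lit (Nat.div (Nat.mul c R) G) fun t =>
  Nat.rec (nat_lit 0) (fun i acc => lit (Nat.succ i) fun m =>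
    Nat.lor acc (Nat.shiftRight (pout G R D w m) (Nat.succ (Nat.div t m)))) M

noncomputable def msk (R k : Nat) : Nat :=
  Nat.div (Nat.sub (Nat.shiftLeft (nat_lit 1) R) (nat_lit 1))
    (Nat.succ (Nat.shiftLeft (nat_lit 1) k))

noncomputable def fold (R k x : Nat) : Nat :=
  Nat.add (Nat.land x (msk R k)) (Nat.land (Nat.shiftRight x k) (msk R k))

noncomputable def pop (R x : Nat) : Nat :=
  Nat.mod (fold R (nat_lit 16) (fold R (nat_lit 8) (fold R (nat_lit 4) (fold R (nat_lit 2)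
    (fold R (nat_lit 1) (Nat.land x (Nat.sub (Nat.shiftLeft (nat_lit 1) R) (nat_lit 1))))))))
    (nat_lit 4294967295)

noncomputable def lo (x : Nat) : Nat := Nat.mod x (nat_lit 4096)

noncomputable def hi (x : Nat) : Nat := Nat.div x (nat_lit 4096)

noncomputable def vlo (G R D1 D2 w thr c l x : Nat) : Nat :=
  cnd (Nat.ble l thr) (nat_lit 0) (cnd (Nat.ble l w)
    (cnd (allMiss G D2 c l (Nat.sub (lo x) (nat_lit 1)))
      (pop R (uin G R D1 w c (Nat.sub (lo x) (nat_lit 2)))) (nat_lit 0)) (nat_lit 0))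

noncomputable def vhi (G R D1 D2 w thr c l x : Nat) : Nat :=
  cnd (Nat.ble l thr) R (cnd (Nat.ble l w)
    (cnd (hit G D2 c l (hi x))
      (pop R (uout G R D1 w (Nat.add c l) (Nat.sub (hi x) (nat_lit 2)))) R) R)

noncomputable def clo (G R D1 D2 w thr n0 sg fu i0 k : Nat) : Nat :=
  segs G (greedy G D2 D2 n0 w) (vlo G R D1 D2 w thr) (nat_lit 0) sg fu i0 k

noncomputable def chi (G R D1 D2 w thr n0 sg fu i0 k : Nat) : Nat :=
  segs G (greedy G D2 D2 n0 w) (vhi G R D1 D2 w thr) R sg fu i0 k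

noncomputable def dead (M u e off lim k rest : Nat) : Nat :=
  Nat.rec rest (fun i ih => @Bool.rec (fun _ => Nat) (nat_lit 0) ih
    (Nat.ble lim (Nat.add (Nat.mod (Nat.add (Nat.mul i u) off) M) (Nat.mul i e)))) k

noncomputable def cnt2 (G M E e l1 l2 mi k2 off u0 m : Nat) : Nat :=
  Nat.rec (nat_lit 0) (fun p acc => lit (Nat.add (Nat.mul p G) u0) fun u =>
    Nat.add acc (dead M u e (Nat.add E u) l1 mi
      (dead M u e (Nat.add off (Nat.mul (Nat.succ mi) u)) l2 k2 (nat_lit 1)))) m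

noncomputable def cnt (G D0 e u0 Dd m : Nat) : Nat :=
  lit (Nat.mul m G) fun M => lit (Nat.mul m D0) fun E => lit (Nat.sub m (nat_lit 1)) fun m' =>
    lit (Nat.sub (Nat.succ (Nat.add E E)) e) fun l1 =>
    cnd (Nat.ble Dd m')
      (lit (Nat.sub (Nat.succ E) (Nat.mul (Nat.succ Dd) e)) fun l2 =>
        cnt2 G M E e l1 l2 Dd (Nat.sub m' Dd) (nat_lit 0) u0 m)
      (lit (Nat.sub E (Nat.mul m e)) fun l2 => cnt2 G M E e l1 l2 m' (Nat.sub Dd m') E u0 m)

noncomputable def rate (G D0 W e u0 nl nh : Nat) : Nat :=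
  pre (fun m => lit (Nat.sub (Nat.sub nl (nat_lit 2)) m) fun Dd =>
    Nat.succ (Nat.div (Nat.mul (cnt G D0 e u0 Dd m) W) m)) (Nat.sub nh (nat_lit 2))

noncomputable def vg2 (G D0 D1 W c l nl nh : Nat) : Nat :=
  lit (Nat.add (Nat.sub D1 D0) l) fun e => lit (Nat.sub (Nat.add D0 G) (Nat.add c l)) fun u0 =>
    rate G D0 W e u0 nl nh

noncomputable def vg (G D0 D1 W n0 tl top thr c l x : Nat) : Nat :=
  cnd (Nat.ble l thr) top
    (cnd (allMiss G D1 c l (Nat.sub (lo x) (nat_lit 1)))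
      (cnd (Nat.ble (hi x) n0)
        (cnd (hit G D0 c l (hi x)) (vg2 G D0 D1 W c l (lo x) (hi x)) top)
        (Nat.add (vg2 G D0 D1 W c l (lo x) (Nat.succ n0)) tl)) top)

noncomputable def gain (G D0 D1 W n0 tl top w thr sg fu i0 k : Nat) : Nat :=
  segs G (greedy G D0 D1 n0 w) (vg G D0 D1 W n0 tl top thr) top sg fu i0 k

noncomputable def run (G D c l n fu : Nat) : Nat :=
  Nat.rec n (fun i ih => cnd (miss1 G D l (Nat.sub n (Nat.succ i))
    (Nat.mod (Nat.mul (Nat.sub n (Nat.succ i)) c) G)) ih (Nat.sub n (Nat.succ i))) fu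

noncomputable def ls3 (R I O : Nat) : Nat := pop R (Nat.xor I (Nat.land I O))

noncomputable def ls2 (G R D0 D1 n0 n w c : Nat) : Nat :=
  cnd (allMiss G D1 c w (Nat.sub n (nat_lit 1)))
    (lit (run G D1 c w (Nat.succ n0) (Nat.sub n0 n)) fun N =>
      ls3 R (uin G R D0 w c (Nat.sub N (nat_lit 2)))
        (uout G R D1 w (Nat.add c w) (Nat.sub n (nat_lit 2)))) (nat_lit 0)

noncomputable def ls1 (G R D0 D1 W n0 n : Nat) : Nat :=
  lit (Nat.add (Nat.div (Nat.sub D1 D0) n) (nat_lit 2)) fun w =>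
    Nat.div (Nat.mul W (sm (fun r => lit (Nat.div (Nat.add (Nat.mul r G) D0) n) fun c =>
      ls2 G R D0 D1 n0 n w c) (nat_lit 0) n)) (Nat.mul n R)

noncomputable def loss (G R D0 D1 W n0 n1 : Nat) : Nat := pre (ls1 G R D0 D1 W n0) n1

end Pool.Agent.Lib.MP_a4d326_an.Q1
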