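import Mathlib
import Pool.Agent.Lib.MP_a4d326_an.Q1.Eng

/-! Definitions and basic facts for the sign of `μ(E¹) - μ(E²)`. -/

namespace Pool.Agent.Lib.MP_a4d326_an.Q1

open MeasureTheory Set

/-- None of `γ, 2γ, …, Nγ` has fractional part below `δ`. -/
def NoHit (δ : ℝ) (N : ℕ) (γ : ℝ) : Prop := ∀ n : ℕ, 1 ≤ n → n ≤ N → δ ≤ Int.fract (n * γ)

/-- The first orbit enters `[0, δ₁)` before the second one enters `[0, δ₂)`. -/
def Ev (δ₁ δ₂ α γ : ℝ) : Prop :=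
  ∃ m : ℕ, 1 ≤ m ∧ Int.fract (m * α + γ) < δ₁ ∧ NoHit δ₂ (m + 1) γ

noncomputable def sl (δ₁ δ₂ γ : ℝ) : ℝ := volume.real {α ∈ Ico (0 : ℝ) 1 | Ev δ₁ δ₂ α γ}

noncomputable def H (δ₁ δ₂ : ℝ) : ℝ := ∫ γ in (0 : ℝ)..1, sl δ₁ δ₂ γ

open Classical in
noncomputable def ind (p : Prop) : ℝ := if p then 1 else 0

noncomputable def nh (δ : ℝ) (N : ℕ) (γ : ℝ) : ℝ := ind (NoHit δ N γ)

noncomputable def fU (δ : ℝ) (m : ℕ) (α : ℝ) : ℝ :=
  volume.real {s ∈ Ico (0 : ℝ) δ | ∀ k : ℕ, 1 ≤ k → k < m → δ ≤ Int.fract (s - k * (α + s / m))}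

noncomputable def Im (δ₁ δ₂ : ℝ) (m : ℕ) : ℝ :=
  ∫ α in (0 : ℝ)..1, fU δ₁ m α * nh δ₂ (m + 1) (-(m * α))

noncomputable def Phi (n : ℕ) : ℝ := ∑ k ∈ Finset.Icc 1 n, (Nat.totient k : ℝ) / k

noncomputable def mU (δ : ℝ) (N : ℕ) : ℝ := volume.real {γ ∈ Ico (0 : ℝ) 1 | ¬ NoHit δ N γ}

/-- Residues prime to `k`. -/
def cop (k : ℕ) : Finset ℕ := (Finset.range k).filter fun p => Nat.gcd p k = 1

noncomputable def trap (δ ρ v : ℝ) : ℝ := max 0 (min δ (min (δ + v / ρ) (δ + (δ - v) / ρ)))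

noncomputable def TI (δ₁ δ₂ : ℝ) (N : ℕ) (ρ x : ℝ) : ℝ :=
  ∫ v : ℝ, trap δ₁ ρ v * (1 - nh δ₂ N (v - x))

noncomputable def Pm (δ₁ δ₂ : ℝ) (N m : ℕ) : ℝ :=
  ∑ k ∈ Finset.Ico 1 m, ∑ p ∈ cop k, 1 / (m : ℝ) * TI δ₁ δ₂ N ((m - k) / k) (m * p / k)

/-- Left end of the piece of level `n` and residue `r`, in units `1 / Q`. -/
noncomputable def stF (Q D n r : ℕ) : ℕ :=
  if n * D ≤ Q then st0 Q n r else st1 Q D (Nat.totient n - 1) n r

def ovn (Sb st en j : ℕ) : ℕ := min en ((j + 1) * Sb) - max st (j * Sb)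

noncomputable def bco (Sb Q D N j : ℕ) : ℕ :=
  ∑ n ∈ Finset.Icc 1 N, ∑ r ∈ cop n, ovn Sb (stF Q D n r) (en0 Q D n r) j

noncomputable def kz (S dc rs : ℕ) (l : ℤ) : ℝ :=
  if -((rs / S : ℕ) : ℤ) < l ∧ l < dc + ((rs / S : ℕ) : ℤ) then
    min (S * l + rs) (min rs (S * (dc - l) + rs)) else 0

noncomputable def lane (R S Sb D dc rs N q r : ℕ) : ℝ :=
  ∑ c ∈ Finset.range 3, ∑ j ∈ Finset.range R, (bco Sb (R * Sb) D N j : ℝ) *
    (((S : ℝ) - (r * (R * S) / q % S : ℕ)) *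
        kz S dc rs ((r * R / q : ℕ) + j + c * R - 2 * R) +
      (r * (R * S) / q % S : ℕ) * kz S dc rs ((r * R / q : ℕ) + j + c * R - 2 * R + 1))

/-- The values `m'` met for given `q` and `g` in the block `[m₀, m₁]`. -/
def blk (m₀ m₁ q g : ℕ) : Finset ℕ :=
  (Finset.Icc (q + 1) m₁).filter fun m => Nat.gcd m q = 1 ∧ m₀ ≤ g * m ∧ g * m ≤ m₁

noncomputable def gm (δ₀ a b : ℝ) (m Dd : ℕ) (γ : ℝ) : ℝ :=
  volume.real {α ∈ Ico (0 : ℝ) 1 | a ≤ Int.fract (m * α + γ) ∧ Int.fract (m * α + γ) < b ∧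
    (∀ j : ℕ, 1 ≤ j → j < m → δ₀ < Int.fract (j * α)) ∧
    (∀ j : ℕ, 1 ≤ j → j ≤ Dd → Int.fract (j * α) < 1 - δ₀)}

def cv : Fin 29 → ℕ := ![1, 2, 3, 5, 6, 7, 10, 11, 15, 20, 22, 30, 33, 44, 60, 66, 84, 105, 165,
  210, 220, 231, 308, 330, 420, 462, 1540, 2310, 4620]

def ev : Fin 29 → ℤ := ![1, -1, -1, -1, 1, -1, 1, -1, 1, -1, 1, -2, 1, -1, 1, -1, 1, -1, -1,
  1, 1, -1, -1, 1, -2, 1, -1, -1, -1]

def Gf (L : ℕ) : ℤ := ∑ i, ev i * ((L / cv i : ℕ) : ℤ)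

noncomputable def Ys (δ : ℝ) (N : ℕ) (γ : ℝ) : ℝ :=
  ∑ i, (ev i : ℝ) * ∑ n ∈ Finset.Icc 1 (N / cv i), ind (Int.fract (n * γ) < δ / cv i)

noncomputable def PhiP (N : ℕ) : ℝ := ∑ i, (ev i : ℝ) * ((N / cv i : ℕ) : ℝ) / cv i

noncomputable def H2 (n : ℕ) : ℝ := ∑ k ∈ Finset.Icc 1 n, 1 / (k : ℝ) ^ 2

noncomputable def ZP (N : ℕ) : ℝ := ∑ i, (ev i : ℝ) / (cv i : ℝ) ^ 3 * H2 (N / cv i)

noncomputable def beta (E : ℕ) : ℝ := ∑ i, (ev i : ℝ) / cv i * H2 (E / cv i)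

noncomputable def Sq (N : ℕ) : ℝ := ∑ f ∈ Finset.Icc 1 N, beta (N / f) ^ 2 / (f : ℝ) ^ 2

noncomputable def fc (f : ℝ → ℝ) (l : ℤ) : ℂ :=
  ∫ x in (0 : ℝ)..1, Complex.exp (-(2 * Real.pi * Complex.I * l * x)) * (f x : ℂ)

/-- A double sum over the terms of the majorant `Ys`. -/
noncomputable def pairs (N : ℕ) (F : ℕ → ℕ → ℕ → ℕ → ℝ) : ℝ :=
  ∑ i, ∑ i', ∑ n ∈ Finset.Icc 1 (N / cv i), ∑ n' ∈ Finset.Icc 1 (N / cv i'),
    (ev i : ℝ) * (ev i' : ℝ) * F (cv i) n (cv i') n'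

noncomputable def P4 (t : ℝ) : ℝ := t ^ 4 - 2 * |t| ^ 3 + t ^ 2

noncomputable def pterm (δ : ℝ) (c n c' n' : ℕ) : ℝ :=
  (Nat.gcd n n' : ℝ) ^ 4 / (24 * (n : ℝ) ^ 3 * (n' : ℝ) ^ 3) *
    (P4 (n' * δ / (c * Nat.gcd n n')) + P4 (n * δ / (c' * Nat.gcd n n')) -
      P4 (n' * δ / (c * Nat.gcd n n') - n * δ / (c' * Nat.gcd n n')))

/-- Bounded, measurable and `1`-periodic. -/
def Nice (f : ℝ → ℝ) : Prop :=
  Measurable f ∧ (∃ C : ℝ, ∀ x, |f x| ≤ C) ∧ Function.Periodic f 1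

/-- The bound `Q` on the squared negative Sobolev norm of `g`. -/
def HB (g : ℝ → ℝ) (Q : ℝ) : Prop :=
  ∀ s : Finset ℤ, 0 ∉ s → ∑ l ∈ s, ‖fc g l‖ ^ 2 / (2 * Real.pi * l) ^ 2 ≤ Q

noncomputable def lam (m₀ k : ℕ) : ℝ := max (1 / 6) (1 - k / (m₀ + 4 : ℝ))

noncomputable def aa (δ : ℝ) (m₀ k : ℕ) (y : ℝ) : ℝ := max 0 (min δ (y / lam m₀ k))

noncomputable def bb (δ : ℝ) (m₀ k : ℕ) (y : ℝ) : ℝ :=
  aa δ m₀ k (y + δ * (lam m₀ k + min 1 (k / (m₀ : ℝ))))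

noncomputable def fB (δ : ℝ) (m₀ : ℕ) (α : ℝ) : ℝ :=
  volume.real {s ∈ Ico (0 : ℝ) δ | ∀ k : ℕ, 1 ≤ k → k < m₀ + 4 → ∀ p : ℤ, Int.gcd p k = 1 →
    s < aa δ m₀ k (k * α - p) ∨ bb δ m₀ k (k * α - p) ≤ s}

noncomputable def xS (m₀ : ℕ) : ℝ :=
  ∑ k ∈ Finset.Ico 1 (m₀ + 4), (Nat.totient k : ℝ) / k * (lam m₀ k + min 1 (k / (m₀ : ℝ)))

noncomputable def kS (m₀ : ℕ) : ℝ :=
  ∑ k ∈ Finset.Ico 1 (m₀ + 4), (Nat.totient k : ℝ) * k / lam m₀ k

lemma ind_nonneg (p : Prop) : 0 ≤ ind p := by unfold ind; split_ifs <;> norm_num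

lemma ind_le_one (p : Prop) : ind p ≤ 1 := by unfold ind; split_ifs <;> norm_num

lemma ind_pos {p : Prop} (h : p) : ind p = 1 := if_pos h

lemma ind_neg {p : Prop} (h : ¬ p) : ind p = 0 := if_neg h

lemma measurable_ind {X : Type*} [MeasurableSpace X] {p : X → Prop}
    (h : MeasurableSet {x | p x}) : Measurable fun x => ind (p x) := by
  classical
  exact Measurable.ite h measurable_const measurable_const

lemma measurableSet_noHit {X : Type*} [MeasurableSpace X] (δ : ℝ) (N : ℕ) {g : X → ℝ}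
    (hg : Measurable g) : MeasurableSet {x | NoHit δ N (g x)} := by
  unfold NoHit
  simp only [ofPred_forall]
  refine MeasurableSet.iInter fun n => MeasurableSet.iInter fun _ => MeasurableSet.iInter fun _ => ?_
  exact measurableSet_le measurable_const (measurable_fract.comp (hg.const_mul _))

lemma measurableSet_ev {X : Type*} [MeasurableSpace X] (δ₁ δ₂ : ℝ) {f g : X → ℝ}
    (hf : Measurable f) (hg : Measurable g) : MeasurableSet {x | Ev δ₁ δ₂ (f x) (g x)} := by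
  unfold Ev
  simp only [ofPred_exists, ofPred_and]
  refine MeasurableSet.iUnion fun m => (MeasurableSet.const _).inter
    (MeasurableSet.inter ?_ (measurableSet_noHit _ _ hg))
  exact measurableSet_lt (measurable_fract.comp ((hf.const_mul _).add hg)) measurable_const

/-- Measurability of a slice measure. -/
lemma measurable_slice {p : ℝ → ℝ → Prop} (a b : ℝ)
    (h : MeasurableSet {z : ℝ × ℝ | p z.1 z.2}) :
    Measurable fun x => volume.real {y ∈ Ico a b | p x y} := by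
  have h1 : MeasurableSet {z : ℝ × ℝ | z.2 ∈ Ico a b ∧ p z.1 z.2} :=
    (measurable_snd measurableSet_Ico).inter h
  exact (measurable_measure_prodMk_left (ν := volume) h1).ennreal_toReal

lemma slice_ne_top (a b : ℝ) (p : ℝ → Prop) : volume {y ∈ Ico a b | p y} ≠ ⊤ :=
  measure_ne_top_of_subset (sep_subset _ _) measure_Ico_lt_top.ne

lemma slice_le {a b : ℝ} (hab : a ≤ b) (p : ℝ → Prop) :
    volume.real {y ∈ Ico a b | p y} ≤ b - a := by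
  have := measureReal_mono (μ := volume) (sep_subset (Ico a b) p) measure_Ico_lt_top.ne
  rwa [Real.volume_real_Ico_of_le hab] at this

lemma slice_mono (a b : ℝ) {p q : ℝ → Prop} (h : ∀ y ∈ Ico a b, p y → q y) :
    volume.real {y ∈ Ico a b | p y} ≤ volume.real {y ∈ Ico a b | q y} :=
  measureReal_mono (fun y hy => ⟨hy.1, h y hy.1 hy.2⟩) (slice_ne_top _ _ _)

lemma measurable_sl (δ₁ δ₂ : ℝ) : Measurable (sl δ₁ δ₂) :=
  measurable_slice (p := fun γ α => Ev δ₁ δ₂ α γ) 0 1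
    (measurableSet_ev _ _ measurable_snd measurable_fst)

lemma sl_nonneg (δ₁ δ₂ γ : ℝ) : 0 ≤ sl δ₁ δ₂ γ := measureReal_nonneg

lemma sl_le_one (δ₁ δ₂ γ : ℝ) : sl δ₁ δ₂ γ ≤ 1 := by
  have := slice_le zero_le_one fun α => Ev δ₁ δ₂ α γ
  rwa [sub_zero] at this

lemma NoHit.mono {δ δ' : ℝ} {N N' : ℕ} {γ : ℝ} (h : NoHit δ N γ) (hδ : δ' ≤ δ) (hN : N' ≤ N) :
    NoHit δ' N' γ := fun n h1 h2 => hδ.trans (h n h1 (h2.trans hN))

lemma Ev.mono {δ₁ δ₂ δ₁' δ₂' α γ : ℝ} (h : Ev δ₁ δ₂ α γ) (h1 : δ₁ ≤ δ₁') (h2 : δ₂' ≤ δ₂) :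
    Ev δ₁' δ₂' α γ := by
  obtain ⟨m, a, b, c⟩ := h
  exact ⟨m, a, b.trans_le h1, c.mono h2 le_rfl⟩

lemma sl_mono {δ₁ δ₂ δ₁' δ₂' : ℝ} (h1 : δ₁ ≤ δ₁') (h2 : δ₂' ≤ δ₂) (γ : ℝ) :
    sl δ₁ δ₂ γ ≤ sl δ₁' δ₂' γ := slice_mono _ _ fun _ _ h => h.mono h1 h2

lemma bdd_ii {f : ℝ → ℝ} (hf : Measurable f) (C : ℝ) (hb : ∀ x, |f x| ≤ C) (a b : ℝ) :
    IntervalIntegrable f volume a b := by
  rw [intervalIntegrable_iff]
  exact Measure.integrableOn_of_bounded (M := C) measure_Ioc_lt_top.ne hf.aestronglyMeasurable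
    (Filter.Eventually.of_forall hb)

lemma ii_sl (δ₁ δ₂ a b : ℝ) : IntervalIntegrable (sl δ₁ δ₂) volume a b :=
  bdd_ii (measurable_sl _ _) 1
    (fun x => by rw [abs_of_nonneg (sl_nonneg _ _ _)]; exact sl_le_one _ _ _) a b

lemma H_mono {δ₁ δ₂ δ₁' δ₂' : ℝ} (h1 : δ₁ ≤ δ₁') (h2 : δ₂' ≤ δ₂) : H δ₁ δ₂ ≤ H δ₁' δ₂' :=
  intervalIntegral.integral_mono zero_le_one (ii_sl _ _ _ _) (ii_sl _ _ _ _) (sl_mono h1 h2)

lemma measurable_nh (δ : ℝ) (N : ℕ) : Measurable (nh δ N) :=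
  measurable_ind (measurableSet_noHit δ N measurable_id)

lemma nh_nonneg (δ : ℝ) (N : ℕ) (γ : ℝ) : 0 ≤ nh δ N γ := ind_nonneg _

lemma nh_le_one (δ : ℝ) (N : ℕ) (γ : ℝ) : nh δ N γ ≤ 1 := ind_le_one _

lemma noHit_add_int (δ : ℝ) (N : ℕ) (γ : ℝ) (z : ℤ) : NoHit δ N (γ + z) ↔ NoHit δ N γ := by
  refine forall₃_congr fun n _ _ => ?_
  rw [mul_add, show (n : ℝ) * z = ((n * z : ℤ) : ℝ) by push_cast; ring, Int.fract_add_intCast]

lemma nh_add_int (δ : ℝ) (N : ℕ) (γ : ℝ) (z : ℤ) : nh δ N (γ + z) = nh δ N γ := by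
  simp only [nh, noHit_add_int]

lemma nh_anti (δ : ℝ) {N N' : ℕ} (h : N ≤ N') (γ : ℝ) : nh δ N' γ ≤ nh δ N γ := by
  by_cases h1 : NoHit δ N' γ
  · rw [nh, nh, ind_pos h1, ind_pos (h1.mono le_rfl h)]
  · rw [nh, ind_neg h1]; exact nh_nonneg _ _ _

lemma measurable_fU (δ : ℝ) (m : ℕ) : Measurable (fU δ m) := by
  refine measurable_slice (p := fun α s => ∀ k : ℕ, 1 ≤ k → k < m →
    δ ≤ Int.fract (s - k * (α + s / m))) 0 δ ?_
  simp only [ofPred_forall]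
  refine MeasurableSet.iInter fun k => MeasurableSet.iInter fun _ => MeasurableSet.iInter fun _ => ?_
  exact measurableSet_le measurable_const (measurable_fract.comp (by fun_prop))

lemma fU_nonneg (δ : ℝ) (m : ℕ) (α : ℝ) : 0 ≤ fU δ m α := measureReal_nonneg

lemma fU_le {δ : ℝ} (hδ : 0 ≤ δ) (m : ℕ) (α : ℝ) : fU δ m α ≤ δ := by
  simpa [fU] using slice_le hδ fun s => ∀ k : ℕ, 1 ≤ k → k < m →
    δ ≤ Int.fract (s - k * (α + s / m))

/-- A `1`-periodic measurable condition has the same measure in every window of length one. -/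
lemma vol_shift {p : ℝ → Prop} (hm : MeasurableSet {x | p x}) (hp : ∀ x, p (x + 1) ↔ p x)
    (t : ℝ) : volume.real {x ∈ Ico (0 : ℝ) 1 | p x} = volume.real {x ∈ Ico t (t + 1) | p x} := by
  have key : ∀ a : ℝ, volume.real {x ∈ Ico a (a + 1) | p x} = ∫ x in a..a + 1, ind (p x) := by
    intro a
    have : (fun x => ind (p x)) = {x | p x}.indicator 1 := by
      ext x
      by_cases h : p x
      · rw [ind_pos h, indicator_of_mem (show x ∈ {x | p x} from h)]; rfl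
      · rw [ind_neg h, indicator_of_notMem (show x ∉ {x | p x} from h)]
    rw [intervalIntegral.integral_of_le (by linarith), this, integral_indicator_one hm,
      ← Measure.restrict_congr_set Ico_ae_eq_Ioc, measureReal_restrict_apply hm]
    congr 1
    ext x
    simp only [mem_ofPred_eq, mem_inter_iff, and_comm]
  have hper : Function.Periodic (fun x => ind (p x)) 1 := fun x => by simp only [hp]
  have := hper.intervalIntegral_add_eq 0 t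
  rw [← key, ← key, zero_add] at this
  exact this

lemma card_cop (k : ℕ) : (cop k).card = Nat.totient k := by
  rw [cop, Nat.totient_eq_card_coprime]
  congr 1
  ext p
  simp [Nat.Coprime, Nat.gcd_comm]

lemma lit_eq (x : ℕ) (k : ℕ → ℕ) : lit x k = k x := rfl

lemma cnd_eq (c : Bool) (x y : ℕ) : cnd c x y = if c = true then x else y := by
  cases c <;> rfl

lemma mx_eq (a b : ℕ) : mx a b = max a b := by
  show a + (b - a) = max a b
  omega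

lemma mn_eq (a b : ℕ) : mn a b = min a b := by
  show a - (a - b) = min a b
  omega

lemma sm_eq (f : ℕ → ℕ) (lo n : ℕ) : sm f lo n = ∑ i ∈ Finset.Ico lo (lo + n), f i := by
  induction n with
  | zero => simp [sm]
  | succ n ih =>
    rw [← add_assoc, Finset.sum_Ico_succ_top (by omega), ← ih]
    rfl

lemma pre_eq (f : ℕ → ℕ) (n : ℕ) : pre f n = ∑ i ∈ Finset.Icc 1 n, f i := by
  induction n with
  | zero => simp [pre]
  | succ n ih =>
    rw [Finset.sum_Icc_succ_top (by omega), ← ih]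
    rfl

lemma smc_eq (f : ℕ → ℕ) (q lo n : ℕ) :
    smc f q lo n = ∑ i ∈ (Finset.Ico lo (lo + n)).filter fun i => Nat.gcd i q = 1, f i := by
  rw [Finset.sum_filter]
  induction n with
  | zero => simp [smc]
  | succ n ih =>
    rw [← add_assoc, Finset.sum_Ico_succ_top (by omega), ← ih]
    show @Bool.rec (fun _ => ℕ) (smc f q lo n) (smc f q lo n + f (lo + n))
      (Nat.beq (Nat.gcd (lo + n) q) 1) = _
    by_cases h : Nat.gcd (lo + n) q = 1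
    · rw [if_pos h, h]; rfl
    · rw [if_neg h, Bool.eq_false_iff.2 fun h' => h (Nat.eq_of_beq_eq_true h')]; rfl

lemma phi_eq {q : ℕ} (hq : 1 ≤ q) : phi q = Nat.totient q := by
  have : ∀ n, (Nat.rec (nat_lit 0) (fun i acc => Nat.add acc (Nat.div (nat_lit 1) (Nat.gcd i q))) n : ℕ)
      = ∑ i ∈ Finset.range n, if Nat.gcd i q = 1 then 1 else 0 := by
    intro n
    induction n with
    | zero => rfl
    | succ n ih =>
      rw [Finset.sum_range_succ, ← ih]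
      show _ + 1 / Nat.gcd n q = _
      congr 1
      have := Nat.gcd_pos_of_pos_right n hq
      split_ifs with h
      · rw [h]
      · exact Nat.div_eq_of_lt (by omega)
  rw [phi, this, ← card_cop, cop, Finset.card_filter]

end Pool.Agent.Lib.MP_a4d326_an.Q1
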