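import Pool.Agent.Lib.MP_a4d326_an.Q1.Stmt

/-! First-hit decomposition. -/

namespace Pool.Agent.Lib.MP_a4d326_an.Q1

open MeasureTheory Set

namespace FHx

/-- The first entrance of the first orbit happens at time `m`. -/
def Fm (δ₁ δ₂ : ℝ) (m : ℕ) (α γ : ℝ) : Prop :=
  Int.fract (m * α + γ) < δ₁ ∧ (∀ j : ℕ, 1 ≤ j → j < m → δ₁ ≤ Int.fract (j * α + γ)) ∧
    NoHit δ₂ (m + 1) γ

lemma mF {X : Type*} [MeasurableSpace X] (δ₁ δ₂ : ℝ) (m : ℕ) {f g : X → ℝ}
    (hf : Measurable f) (hg : Measurable g) : MeasurableSet {x | Fm δ₁ δ₂ m (f x) (g x)} := by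
  unfold Fm
  simp only [ofPred_and]
  refine (measurableSet_lt (measurable_fract.comp ((hf.const_mul _).add hg))
    measurable_const).inter (MeasurableSet.inter ?_ (measurableSet_noHit _ _ hg))
  simp only [ofPred_forall]
  refine MeasurableSet.iInter fun j => MeasurableSet.iInter fun _ => MeasurableSet.iInter fun _ => ?_
  exact measurableSet_le measurable_const (measurable_fract.comp ((hf.const_mul _).add hg))

lemma per (δ₁ δ₂ : ℝ) (m : ℕ) (α γ : ℝ) (a b : ℤ) :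
    Fm δ₁ δ₂ m (α + a) (γ + b) ↔ Fm δ₁ δ₂ m α γ := by
  have h : ∀ j : ℕ, Int.fract (j * (α + a) + (γ + b)) = Int.fract (j * α + γ) := fun j => by
    rw [show (j : ℝ) * (α + a) + (γ + b) = j * α + γ + ((j * a + b : ℤ) : ℝ) by push_cast; ring,
      Int.fract_add_intCast]
  simp only [Fm, h, noHit_add_int]

lemma abs_ind (p : Prop) : |ind p| ≤ 1 := by
  rw [abs_of_nonneg (ind_nonneg p)]; exact ind_le_one p

lemma vol_ind {p : ℝ → Prop} (hm : MeasurableSet {x | p x}) :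
    volume.real {x ∈ Ico (0 : ℝ) 1 | p x} = ∫ x in (0 : ℝ)..1, ind (p x) := by
  have : (fun x => ind (p x)) = {x | p x}.indicator 1 := by
    ext x
    by_cases h : p x
    · rw [ind_pos h, indicator_of_mem (show x ∈ {x | p x} from h)]; rfl
    · rw [ind_neg h, indicator_of_notMem (show x ∉ {x | p x} from h)]
  rw [intervalIntegral.integral_of_le zero_le_one, this, integral_indicator_one hm,
    ← Measure.restrict_congr_set Ico_ae_eq_Ioc, measureReal_restrict_apply hm]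
  congr 1
  ext x
  simp only [mem_ofPred_eq, mem_inter_iff, and_comm]

lemma swap {p : ℝ → ℝ → Prop} (hm : MeasurableSet {z : ℝ × ℝ | p z.1 z.2}) :
    ∫ x in (0 : ℝ)..1, ∫ y in (0 : ℝ)..1, ind (p x y) =
      ∫ y in (0 : ℝ)..1, ∫ x in (0 : ℝ)..1, ind (p x y) := by
  simp only [intervalIntegral.integral_of_le (zero_le_one' ℝ)]
  exact integral_integral_swap (Integrable.of_bound (measurable_ind hm).aestronglyMeasurable 1
    (Filter.Eventually.of_forall fun z => abs_ind _))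

lemma shift {f : ℝ → ℝ} (hf : Function.Periodic f 1) (c : ℝ) :
    ∫ x in (0 : ℝ)..1, f x = ∫ x in (0 : ℝ)..1, f (x + c) := by
  have := hf.intervalIntegral_add_eq 0 c
  rw [intervalIntegral.integral_comp_add_right f c, zero_add, add_comm 1 c, ← this, zero_add]

lemma one (δ₁ δ₂ : ℝ) (h1 : δ₁ ≤ 1) {m : ℕ} (hm : 1 ≤ m) :
    ∫ γ in (0 : ℝ)..1, ∫ α in (0 : ℝ)..1, ind (Fm δ₁ δ₂ m α γ) = Im δ₁ δ₂ m := by
  have hm0 : (m : ℝ) ≠ 0 := Nat.cast_ne_zero.2 (by omega)
  have e1 : ∀ α : ℝ, ∫ γ in (0 : ℝ)..1, ind (Fm δ₁ δ₂ m α γ) =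
      ∫ s in (0 : ℝ)..1, ind (Fm δ₁ δ₂ m α (s + -(m * α))) := fun α =>
    shift (f := fun γ => ind (Fm δ₁ δ₂ m α γ)) (fun γ => by
      have := per δ₁ δ₂ m α γ 0 1
      rw [Int.cast_zero, add_zero, Int.cast_one] at this
      simp only [this]) _
  have e2 : ∀ s : ℝ, ∫ α in (0 : ℝ)..1, ind (Fm δ₁ δ₂ m α (s + -(m * α))) =
      ∫ α in (0 : ℝ)..1, ind (Fm δ₁ δ₂ m (α + s / m) (-(m * α))) := fun s => by
    rw [shift (f := fun α => ind (Fm δ₁ δ₂ m α (s + -(m * α)))) (fun α => by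
      have := per δ₁ δ₂ m α (s + -(m * α)) 1 (-m)
      rw [Int.cast_one, show s + -(m * α) + ((-m : ℤ) : ℝ) = s + -(m * (α + 1)) by
        push_cast; ring] at this
      simp only [this]) (s / m)]
    refine intervalIntegral.integral_congr fun α _ => ?_
    rw [show s + -(m * (α + s / m)) = -(m * α) by field_simp; ring]
  rw [swap (p := fun γ α => Fm δ₁ δ₂ m α γ) (mF _ _ _ measurable_snd measurable_fst)]
  simp only [e1]
  rw [swap (p := fun α s => Fm δ₁ δ₂ m α (s + -(m * α))) (mF _ _ _ measurable_fst (by fun_prop))]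
  simp only [e2]
  rw [swap (p := fun s α => Fm δ₁ δ₂ m (α + s / m) (-(m * α)))
    (mF _ _ _ (by fun_prop) (by fun_prop))]
  refine intervalIntegral.integral_congr fun α _ => ?_
  show _ = fU δ₁ m α * nh δ₂ (m + 1) (-(m * α))
  rw [← vol_ind (mF δ₁ δ₂ m (f := fun s => α + s / m) (g := fun _ => -(m * α)) (by fun_prop)
    measurable_const)]
  by_cases hn : NoHit δ₂ (m + 1) (-(m * α))
  · rw [nh, ind_pos hn, mul_one, fU]
    congr 1
    ext s
    have h2 : ∀ j k : ℕ, j + k = m → j * (α + s / m) + -(m * α) = s - k * (α + s / m) := by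
      intro j k h
      have h3 : (j : ℝ) = m - k := by rw [← h]; push_cast; ring
      rw [h3]; field_simp; ring
    have h4 : m * (α + s / m) + -(m * α) = s := by simpa using h2 m 0 rfl
    simp only [mem_ofPred_eq, mem_Ico, Fm, h4]
    constructor
    · rintro ⟨⟨a, b⟩, c, d, -⟩
      rw [Int.fract_eq_self.2 ⟨a, b⟩] at c
      refine ⟨⟨a, c⟩, fun k k1 k2 => ?_⟩
      rw [← h2 (m - k) k (by omega)]
      exact d _ (by omega) (by omega)
    · rintro ⟨⟨a, b⟩, c⟩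
      refine ⟨⟨a, b.trans_le h1⟩, by rwa [Int.fract_eq_self.2 ⟨a, b.trans_le h1⟩],
        fun j j1 j2 => ?_, hn⟩
      rw [h2 j (m - j) (by omega)]
      exact c _ (by omega) (by omega)
  · rw [nh, ind_neg hn, mul_zero]
    have : {s ∈ Ico (0 : ℝ) 1 | Fm δ₁ δ₂ m (α + s / m) (-(m * α))} = ∅ :=
      eq_empty_of_forall_notMem fun s hs => hn hs.2.2.2
    rw [this, measureReal_empty]

lemma pt (δ₁ δ₂ : ℝ) (M : ℕ) (α γ : ℝ) :
    ∑ m ∈ Finset.Icc 1 M, ind (Fm δ₁ δ₂ m α γ) ≤ ind (Ev δ₁ δ₂ α γ) := by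
  by_cases h : ∃ m ∈ Finset.Icc 1 M, Fm δ₁ δ₂ m α γ
  · obtain ⟨m, hm, hF⟩ := h
    have h1 := (Finset.mem_Icc.1 hm).1
    rw [Finset.sum_eq_single_of_mem m hm fun n hn hne => ind_neg fun hG => ?_, ind_pos hF,
      ind_pos ⟨m, h1, hF.1, hF.2.2⟩]
    rcases lt_or_gt_of_ne hne with h | h
    · exact absurd hG.1 (not_lt.2 (hF.2.1 n (Finset.mem_Icc.1 hn).1 h))
    · exact absurd hF.1 (not_lt.2 (hG.2.1 m h1 h))
  · rw [Finset.sum_eq_zero fun m hm => ind_neg fun hF => h ⟨m, hm, hF⟩]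
    exact ind_nonneg _

end FHx

open FHx in
theorem FH_pf : FH := by
  intro δ₁ δ₂ _ h1 M
  have hs : ∀ (m : ℕ) (γ : ℝ), MeasurableSet {α | Fm δ₁ δ₂ m α γ} := fun m γ =>
    mF δ₁ δ₂ m (f := fun α => α) (g := fun _ => γ) measurable_id measurable_const
  have hi : ∀ m : ℕ, IntervalIntegrable
      (fun γ => ∫ α in (0 : ℝ)..1, ind (Fm δ₁ δ₂ m α γ)) volume 0 1 := fun m => by
    simp only [← vol_ind (hs m _)]
    refine bdd_ii (measurable_slice (p := fun γ α => Fm δ₁ δ₂ m α γ) 0 1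
      (mF _ _ _ measurable_snd measurable_fst)) 1 (fun γ => ?_) 0 1
    rw [abs_of_nonneg measureReal_nonneg]
    simpa using slice_le zero_le_one fun α => Fm δ₁ δ₂ m α γ
  rw [← Finset.sum_congr rfl fun m hm => one δ₁ δ₂ h1 (Finset.mem_Icc.1 hm).1,
    ← intervalIntegral.integral_finsetSum fun m _ => hi m]
  refine intervalIntegral.integral_mono zero_le_one ?_ (ii_sl _ _ _ _) fun γ => ?_
  · have := IntervalIntegrable.sum (Finset.Icc 1 M) fun m _ => hi m
    rwa [Finset.sum_fn] at this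
  · have he : MeasurableSet {α | Ev δ₁ δ₂ α γ} :=
      measurableSet_ev δ₁ δ₂ (f := fun α => α) (g := fun _ => γ) measurable_id measurable_const
    have hj : ∀ m : ℕ, IntervalIntegrable (fun α => ind (Fm δ₁ δ₂ m α γ)) volume 0 1 := fun m =>
      bdd_ii (measurable_ind (hs m γ)) 1 (fun _ => abs_ind _) 0 1
    show _ ≤ sl δ₁ δ₂ γ
    rw [sl, vol_ind he, ← intervalIntegral.integral_finsetSum fun m _ => hj m]
    refine intervalIntegral.integral_mono zero_le_one ?_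
      (bdd_ii (measurable_ind he) 1 (fun _ => abs_ind _) 0 1) fun α => pt δ₁ δ₂ M α γ
    have := IntervalIntegrable.sum (Finset.Icc 1 M) fun m _ => hj m
    rwa [Finset.sum_fn] at this

end Pool.Agent.Lib.MP_a4d326_an.Q1
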