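import Pool.Agent.Lib.MP_a4d326_an.Q1.Stmt

/-! A lower bound for the cubic term. -/

namespace Pool.Agent.Lib.MP_a4d326_an.Q1

namespace PCx

noncomputable def kk (a b : ℝ) : ℝ := a ^ 3 + b ^ 3 - |a - b| ^ 3

lemma cvx (x d e : ℝ) (hd : 0 ≤ d) (he : 0 ≤ e) :
    |x + d| ^ 3 + |x + e| ^ 3 ≤ |x| ^ 3 + |x + d + e| ^ 3 := by
  have hc : ConvexOn ℝ Set.univ fun t : ℝ => |t| ^ 3 :=
    (convexOn_univ_norm (E := ℝ)).pow (fun t _ => norm_nonneg t) 3
  rcases (add_nonneg hd he).eq_or_lt with h | h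
  · have h1 : d = 0 := by linarith
    have h2 : e = 0 := by linarith
    simp [h1, h2]
  · have s1 : e / (d + e) + d / (d + e) = 1 := by field_simp; ring
    have a1 := hc.2 (Set.mem_univ x) (Set.mem_univ (x + d + e)) (div_nonneg he h.le)
      (div_nonneg hd h.le) s1
    have a2 := hc.2 (Set.mem_univ x) (Set.mem_univ (x + d + e)) (div_nonneg hd h.le)
      (div_nonneg he h.le) (by linarith)
    simp only [smul_eq_mul] at a1 a2
    rw [show e / (d + e) * x + d / (d + e) * (x + d + e) = x + d by field_simp; ring] at a1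
    rw [show d / (d + e) * x + e / (d + e) * (x + d + e) = x + e by field_simp; ring] at a2
    have : (e / (d + e) + d / (d + e)) * (|x| ^ 3 + |x + d + e| ^ 3) =
        |x| ^ 3 + |x + d + e| ^ 3 := by rw [s1, one_mul]
    linarith

lemma kk_mixed {a₁ a₂ b₁ b₂ : ℝ} (ha : a₂ ≤ a₁) (hb : b₂ ≤ b₁) :
    kk a₁ b₂ - kk a₂ b₂ ≤ kk a₁ b₁ - kk a₂ b₁ := by
  have := cvx (a₂ - b₁) (a₁ - a₂) (b₁ - b₂) (by linarith) (by linarith)
  rw [show a₂ - b₁ + (a₁ - a₂) = a₁ - b₁ by ring, show a₂ - b₁ + (b₁ - b₂) = a₂ - b₂ by ring,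
    show a₁ - b₁ + (b₁ - b₂) = a₁ - b₂ by ring] at this
  unfold kk
  linarith

lemma kk_zero_right {a : ℝ} (ha : 0 ≤ a) : kk a 0 = 0 := by
  simp [kk, abs_of_nonneg ha]

lemma kk_zero_left {b : ℝ} (hb : 0 ≤ b) : kk 0 b = 0 := by
  simp [kk, abs_of_nonneg hb]

lemma kk_scale (a b f : ℝ) (hf : 0 < f) : kk (a / f) (b / f) = kk a b / f ^ 3 := by
  unfold kk
  rw [← sub_div, abs_div, abs_of_pos hf]
  field_simp

/-- The functional with weights `ev`. -/
noncomputable def La (E : ℕ) (g : ℕ → ℝ) : ℝ :=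
  ∑ i, (ev i : ℝ) * ∑ t ∈ Finset.Icc 1 (E / cv i), g (cv i * t)

lemma La_succ (E : ℕ) (g : ℕ → ℝ) :
    La (E + 1) g = La E g + ((Gf (E + 1) : ℝ) - Gf E) * g (E + 1) := by
  unfold La Gf
  simp only [Int.cast_sum, Int.cast_mul, Int.cast_natCast]
  rw [← Finset.sum_sub_distrib, Finset.sum_mul, ← Finset.sum_add_distrib]
  refine Finset.sum_congr rfl fun i _ => ?_
  by_cases h : cv i ∣ E + 1
  · have a := Nat.succ_div_of_dvd h
    have b := Nat.mul_div_cancel' h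
    rw [a] at b
    rw [a, Finset.sum_Icc_succ_top (Nat.le_add_left 1 _), b, Nat.cast_add, Nat.cast_one]
    ring
  · rw [Nat.succ_div_of_not_dvd h]
    ring

lemma La_sub (E : ℕ) (g h : ℕ → ℝ) : La E (fun l => g l - h l) = La E g - La E h := by
  unfold La
  rw [← Finset.sum_sub_distrib]
  refine Finset.sum_congr rfl fun i _ => ?_
  rw [Finset.sum_sub_distrib]
  ring

lemma abel (h1 : N1) (g : ℕ → ℝ) (ha : ∀ l, 1 ≤ l → g (l + 1) ≤ g l) (h0 : ∀ l, 1 ≤ l → 0 ≤ g l)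
    (E : ℕ) (hE : 1 ≤ E) : g 1 ≤ La E g := by
  have key : ∀ E, 1 ≤ E → g 1 - g E + Gf E * g E ≤ La E g := by
    intro E hE
    induction E, hE using Nat.le_induction with
    | base =>
      have := La_succ 0 g
      simp only [La, Gf, Nat.zero_div, zero_add] at this ⊢
      simp only [Nat.lt_one_iff, Finset.Icc_eq_empty_of_lt, Finset.sum_empty, mul_zero,
        Finset.sum_const_zero, zero_add, CharP.cast_eq_zero, Int.cast_zero, sub_zero] at this
      rw [this]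
      linarith
    | succ E hE ih =>
      rw [La_succ]
      have a : (1 : ℝ) ≤ Gf E := by exact_mod_cast h1 E hE
      nlinarith [mul_nonneg (sub_nonneg.2 a) (sub_nonneg.2 (ha E hE))]
  have a : (1 : ℝ) ≤ Gf E := by exact_mod_cast h1 E hE
  nlinarith [key E hE, mul_nonneg (sub_nonneg.2 a) (h0 E hE)]

lemma inv_anti (l : ℕ) (hl : 1 ≤ l) : (1 : ℝ) / ((l + 1 : ℕ) : ℝ) ≤ 1 / (l : ℝ) :=
  one_div_le_one_div_of_le (by exact_mod_cast hl) (by exact_mod_cast Nat.le_succ l)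

lemma inner (h1 : N1) {a₁ a₂ : ℝ} (h2 : 0 ≤ a₂) (h : a₂ ≤ a₁) (E : ℕ) (hE : 1 ≤ E) :
    0 ≤ kk a₁ 1 - kk a₂ 1 ∧ kk a₁ 1 - kk a₂ 1 ≤
      La E (fun l => kk a₁ (1 / (l : ℝ))) - La E (fun l => kk a₂ (1 / (l : ℝ))) := by
  have z : ∀ b : ℝ, 0 ≤ b → 0 ≤ kk a₁ b - kk a₂ b := fun b hb => by
    have := kk_mixed h hb
    rwa [kk_zero_right h2, kk_zero_right (h2.trans h), sub_zero] at this
  refine ⟨z 1 zero_le_one, ?_⟩
  rw [← La_sub]
  have := abel h1 (fun l => kk a₁ (1 / (l : ℝ)) - kk a₂ (1 / (l : ℝ)))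
    (fun l hl => kk_mixed h (inv_anti l hl)) (fun l _ => z _ (by positivity)) E hE
  simpa using this

lemma two_le (h1 : N1) (E : ℕ) (hE : 1 ≤ E) :
    2 ≤ La E fun l => La E fun l' => kk (1 / (l : ℝ)) (1 / (l' : ℝ)) := by
  have z : La E (fun l => kk 0 (1 / (l : ℝ))) = 0 := by
    unfold La
    refine Finset.sum_eq_zero fun i _ => ?_
    rw [Finset.sum_eq_zero fun t _ => kk_zero_left (by positivity), mul_zero]
  have a := abel h1 (fun l => La E fun l' => kk (1 / (l : ℝ)) (1 / (l' : ℝ)))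
    (fun l hl => by
      have := inner h1 (by positivity) (inv_anti l hl) E hE
      linarith [this.1, this.2])
    (fun l _ => by
      have := inner h1 le_rfl (show (0 : ℝ) ≤ 1 / (l : ℝ) by positivity) E hE
      linarith [this.1, this.2]) E hE
  have b := (inner h1 le_rfl (show (0 : ℝ) ≤ 1 / ((1 : ℕ) : ℝ) by positivity) E hE).2
  rw [z, kk_zero_left zero_le_one] at b
  have c : kk (1 / ((1 : ℕ) : ℝ)) 1 = 2 := by norm_num [kk]
  linarith

lemma sum_dvd (f M : ℕ) (_hf : 0 < f) (G : ℕ → ℝ) :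
    ∑ n ∈ Finset.Icc 1 M, (if f ∣ n then G n else 0) = ∑ t ∈ Finset.Icc 1 (M / f), G (f * t) := by
  induction M with
  | zero => simp
  | succ M ih =>
    rw [Finset.sum_Icc_succ_top (by omega), ih]
    by_cases h : f ∣ M + 1
    · rw [if_pos h, Nat.succ_div_of_dvd h, Finset.sum_Icc_succ_top (Nat.le_add_left 1 _),
        ← Nat.succ_div_of_dvd h, Nat.mul_div_cancel' h]
    · rw [if_neg h, Nat.succ_div_of_not_dvd h, add_zero]

lemma gcd_eq {N n : ℕ} (n' : ℕ) (h1 : 1 ≤ n) (h2 : n ≤ N) : (Nat.gcd n n' : ℝ) =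
    ∑ f ∈ Finset.Icc 1 N, if f ∣ n ∧ f ∣ n' then (Nat.totient f : ℝ) else 0 := by
  rw [← Finset.sum_filter, ← Nat.sum_totient (Nat.gcd n n')]
  push_cast
  refine Finset.sum_congr ?_ fun _ _ => rfl
  ext f
  simp only [Nat.mem_divisors, Finset.mem_filter, Finset.mem_Icc, Nat.dvd_gcd_iff]
  constructor
  · rintro ⟨h, -⟩
    exact ⟨⟨Nat.pos_of_dvd_of_pos h.1 h1, (Nat.le_of_dvd h1 h.1).trans h2⟩, h⟩
  · rintro ⟨-, h⟩
    exact ⟨h, (Nat.gcd_pos_of_pos_left n' h1).ne'⟩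

lemma block (N c c' : ℕ) (e : ℝ) :
    ∑ n ∈ Finset.Icc 1 (N / c), ∑ n' ∈ Finset.Icc 1 (N / c'),
      e * ((Nat.gcd n n' : ℝ) * kk (1 / (c * n : ℝ)) (1 / (c' * n' : ℝ))) =
    ∑ f ∈ Finset.Icc 1 N, (Nat.totient f : ℝ) / (f : ℝ) ^ 3 *
      ∑ t ∈ Finset.Icc 1 (N / f / c), ∑ t' ∈ Finset.Icc 1 (N / f / c'),
        e * kk (1 / ((c * t : ℕ) : ℝ)) (1 / ((c' * t' : ℕ) : ℝ)) := by
  have s1 : ∀ n ∈ Finset.Icc 1 (N / c), ∑ n' ∈ Finset.Icc 1 (N / c'),
      e * ((Nat.gcd n n' : ℝ) * kk (1 / (c * n : ℝ)) (1 / (c' * n' : ℝ))) =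
      ∑ f ∈ Finset.Icc 1 N, if f ∣ n then ∑ n' ∈ Finset.Icc 1 (N / c'), (if f ∣ n' then
        e * ((Nat.totient f : ℝ) * kk (1 / (c * n : ℝ)) (1 / (c' * n' : ℝ))) else 0) else 0 := by
    intro n hn
    obtain ⟨a, b⟩ := Finset.mem_Icc.1 hn
    have b' : n ≤ N := b.trans (Nat.div_le_self _ _)
    simp only [gcd_eq _ a b', Finset.sum_mul, Finset.mul_sum]
    rw [Finset.sum_comm]
    refine Finset.sum_congr rfl fun f _ => ?_
    by_cases h : f ∣ n
    · rw [if_pos h]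
      refine Finset.sum_congr rfl fun n' _ => ?_
      by_cases h' : f ∣ n' <;> simp [h, h']
    · simp [h]
  rw [Finset.sum_congr rfl s1, Finset.sum_comm]
  refine Finset.sum_congr rfl fun f hf => ?_
  have hf0 : 0 < f := (Finset.mem_Icc.1 hf).1
  have hf1 : (0 : ℝ) < f := by exact_mod_cast hf0
  rw [sum_dvd f _ hf0, Nat.div_div_eq_div_mul, mul_comm c f, ← Nat.div_div_eq_div_mul,
    Finset.mul_sum]
  refine Finset.sum_congr rfl fun t _ => ?_
  rw [sum_dvd f _ hf0, Nat.div_div_eq_div_mul, mul_comm c' f, ← Nat.div_div_eq_div_mul,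
    Finset.mul_sum]
  refine Finset.sum_congr rfl fun t' _ => ?_
  push_cast
  rw [show 1 / ((c : ℝ) * (f * t)) = 1 / (c * t) / f by rw [div_div]; congr 1; ring,
    show 1 / ((c' : ℝ) * (f * t')) = 1 / (c' * t') / f by rw [div_div]; congr 1; ring,
    kk_scale _ _ _ hf1]
  ring

end PCx

open PCx in
theorem PC_pf (h1 : N1) : PC := by
  intro N
  have e1 : (pairs N fun c n c' n' => (Nat.gcd n n' : ℝ) *
      ((1 / (c * n : ℝ)) ^ 3 + (1 / (c' * n' : ℝ)) ^ 3 -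
        |1 / (c * n : ℝ) - 1 / (c' * n' : ℝ)| ^ 3)) =
      ∑ f ∈ Finset.Icc 1 N, (Nat.totient f : ℝ) / (f : ℝ) ^ 3 *
        La (N / f) fun l => La (N / f) fun l' => kk (1 / (l : ℝ)) (1 / (l' : ℝ)) := by
    unfold pairs
    have := fun i i' => block N (cv i) (cv i') ((ev i : ℝ) * (ev i' : ℝ))
    simp only [kk] at this
    simp only [this]
    rw [Finset.sum_congr rfl fun i _ => Finset.sum_comm, Finset.sum_comm]
    refine Finset.sum_congr rfl fun f _ => ?_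
    simp only [La, kk, ← Finset.mul_sum]
    congr 1
    refine Finset.sum_congr rfl fun i _ => ?_
    simp only [Finset.mul_sum]
    rw [Finset.sum_comm]
    refine Finset.sum_congr rfl fun t _ => Finset.sum_congr rfl fun i' _ =>
      Finset.sum_congr rfl fun t' _ => ?_
    ring
  rw [e1, Finset.mul_sum]
  refine Finset.sum_le_sum fun f hf => ?_
  obtain ⟨a, b⟩ := Finset.mem_Icc.1 hf
  rw [mul_comm]
  exact mul_le_mul_of_nonneg_left (two_le h1 _ (Nat.div_pos b a)) (by positivity)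

end Pool.Agent.Lib.MP_a4d326_an.Q1
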