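import Pool.Agent.Lib.MP_a4d326_an.Q1.Stmt

/-! The discrete kernel lies below the trapezoid. -/

namespace Pool.Agent.Lib.MP_a4d326_an.Q1

open MeasureTheory Set

namespace SBx

lemma base (S rs : ℕ) : (S : ℝ) * ((rs / S : ℕ) : ℝ) ≤ rs := by
  exact_mod_cast Nat.mul_div_le rs S

lemma kz_le (S dc rs : ℕ) (l : ℤ) (h1 : -((rs / S : ℕ) : ℤ) ≤ l)
    (h2 : l ≤ dc + ((rs / S : ℕ) : ℤ)) :
    0 ≤ kz S dc rs l ∧ kz S dc rs l ≤ S * l + rs ∧ kz S dc rs l ≤ rs ∧
      kz S dc rs l ≤ S * (dc - l) + rs := by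
  have hb := base S rs
  have hS : (0 : ℝ) ≤ S := Nat.cast_nonneg _
  have h1' : -((rs / S : ℕ) : ℝ) ≤ l := by exact_mod_cast h1
  have h2' : (l : ℝ) ≤ dc + ((rs / S : ℕ) : ℝ) := by
    have := (Int.cast_le (R := ℝ)).2 h2
    rwa [Int.cast_add, Int.cast_natCast, Int.cast_natCast] at this
  have a1 : (0 : ℝ) ≤ S * l + rs := by nlinarith [mul_le_mul_of_nonneg_left h1' hS]
  have a2 : (0 : ℝ) ≤ rs := Nat.cast_nonneg _
  have a3 : (0 : ℝ) ≤ S * (dc - l) + rs := by nlinarith [mul_le_mul_of_nonneg_left h2' hS]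
  unfold kz
  split_ifs
  · exact ⟨le_min a1 (le_min a2 a3), min_le_left _ _, (min_le_right _ _).trans (min_le_left _ _),
      (min_le_right _ _).trans (min_le_right _ _)⟩
  · exact ⟨le_rfl, a1, a2, a3⟩

lemma kz_nonneg (S dc rs : ℕ) (l : ℤ) : 0 ≤ kz S dc rs l := by
  by_cases h : -((rs / S : ℕ) : ℤ) < l ∧ l < dc + ((rs / S : ℕ) : ℤ)
  · exact (kz_le S dc rs l h.1.le h.2.le).1
  · rw [kz, if_neg h]

lemma trap_nonneg (δ ρ v : ℝ) : 0 ≤ trap δ ρ v := le_max_left _ _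

lemma side {Dn W S rs ρ z a : ℝ} (hD : 0 < Dn) (hρ : 0 < ρ) (hS : 0 ≤ S) (hr : 0 ≤ rs)
    (h1 : W ≤ S * rs) (h2 : W ≤ S * (a + rs)) (h3 : a ≤ z) (h4 : a < 0 → rs ≤ Dn * ρ) :
    Dn * W ≤ S * rs * (Dn + z / ρ) := by
  rcases le_or_gt 0 z with hz | hz
  · have : 0 ≤ S * rs * (z / ρ) := mul_nonneg (mul_nonneg hS hr) (div_nonneg hz hρ.le)
    nlinarith [mul_le_mul_of_nonneg_left h1 hD.le]
  · have h5 := h4 (h3.trans_lt hz)
    have h6 : z / ρ < 0 := div_neg_of_neg_of_pos hz hρ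
    have h7 : Dn * z ≤ rs * (z / ρ) := by
      have : Dn * z = Dn * ρ * (z / ρ) := by field_simp
      rw [this]
      exact mul_le_mul_of_nonpos_right h5 h6.le
    have h8 : W ≤ S * (z + rs) := h2.trans (mul_le_mul_of_nonneg_left (by linarith) hS)
    nlinarith [mul_le_mul_of_nonneg_left h8 hD.le, mul_le_mul_of_nonneg_left h7 hS]

lemma key (S dc rs f : ℕ) (hS : 2 ≤ S) (hf : f < S) (l : ℤ) (Dn ρ T z : ℝ)
    (hDn : Dn = S * (dc + 1) + 1) (hρ : 0 < ρ) (hT : 0 < T) (hrs : 2 ≤ rs → (rs : ℝ) ≤ Dn * ρ)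
    (h1 : S * l + f ≤ z) (h2 : z ≤ S * l + f + S + 1) :
    Dn / T * (((S : ℝ) - f) * kz S dc rs l + f * kz S dc rs (l + 1)) ≤
      S * rs * trap (Dn / T) ρ (z / T) := by
  have hS0 : (0 : ℝ) ≤ S := Nat.cast_nonneg _
  have hr0 : (0 : ℝ) ≤ rs := Nat.cast_nonneg _
  have hf0 : (0 : ℝ) ≤ f := Nat.cast_nonneg _
  have hf1 : (f : ℝ) < S := by exact_mod_cast hf
  have hD : 0 < Dn := by rw [hDn]; positivity
  by_cases h : -((rs / S : ℕ) : ℤ) ≤ l ∧ l < dc + ((rs / S : ℕ) : ℤ)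
  swap
  · have e1 : kz S dc rs l = 0 := by rw [kz, if_neg]; omega
    have e2 : kz S dc rs (l + 1) = 0 := by rw [kz, if_neg]; omega
    rw [e1, e2]
    simpa using mul_nonneg (mul_nonneg hS0 hr0) (trap_nonneg _ _ _)
  obtain ⟨-, a1, a2, a3⟩ := kz_le S dc rs l h.1 h.2.le
  obtain ⟨-, b1, b2, b3⟩ := kz_le S dc rs (l + 1) (by omega) (by omega)
  push_cast at b1 b3
  have hbig : 1 ≤ rs / S → (rs : ℝ) ≤ Dn * ρ := fun hh => hrs (by
    have := (Nat.le_div_iff_mul_le (by omega : 0 < S)).1 hh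
    omega)
  have hg : (0 : ℝ) ≤ S - f := by linarith
  generalize kz S dc rs l = x at *
  generalize kz S dc rs (l + 1) = y at *
  have w2 : ((S : ℝ) - f) * x + f * y ≤ S * rs := by
    nlinarith [mul_le_mul_of_nonneg_left a2 hg, mul_le_mul_of_nonneg_left b2 hf0]
  have w1 : ((S : ℝ) - f) * x + f * y ≤ S * ((S * l + f) + rs) := by
    nlinarith [mul_le_mul_of_nonneg_left a1 hg, mul_le_mul_of_nonneg_left b1 hf0]
  have w3 : ((S : ℝ) - f) * x + f * y ≤ S * ((S * (dc - l) - f) + rs) := by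
    nlinarith [mul_le_mul_of_nonneg_left a3 hg, mul_le_mul_of_nonneg_left b3 hf0]
  generalize ((S : ℝ) - f) * x + f * y = W at *
  have s1 := side hD hρ hS0 hr0 w2 w1 h1 fun ha => hbig (by
    have : (l : ℝ) < 0 := by
      by_contra hc
      nlinarith [mul_nonneg hS0 (not_lt.1 hc)]
    have : l < 0 := by exact_mod_cast this
    omega)
  have s3 := side (z := Dn - z) hD hρ hS0 hr0 w2 w3 (by rw [hDn]; linarith) fun ha => hbig (by
    have : (dc : ℝ) - l < 1 := by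
      by_contra hc
      nlinarith [mul_le_mul_of_nonneg_left (not_lt.1 hc) hS0]
    have : (dc : ℤ) - l < 1 := by exact_mod_cast this
    omega)
  refine le_trans ?_ (mul_le_mul_of_nonneg_left (le_max_right _ _) (mul_nonneg hS0 hr0))
  rw [mul_min_of_nonneg _ _ (mul_nonneg hS0 hr0), mul_min_of_nonneg _ _ (mul_nonneg hS0 hr0)]
  have hdiv : ∀ X : ℝ, Dn * W ≤ S * rs * X → Dn / T * W ≤ S * rs * (X / T) := fun X hX => by
    have := div_le_div_of_nonneg_right hX hT.le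
    calc Dn / T * W = Dn * W / T := by ring
      _ ≤ S * rs * X / T := this
      _ = _ := by ring
  refine le_min (hdiv _ (by nlinarith [mul_le_mul_of_nonneg_left w2 hD.le])) (le_min ?_ ?_)
  · have := hdiv _ s1
    rwa [show (Dn + z / ρ) / T = Dn / T + z / T / ρ by ring] at this
  · have := hdiv _ s3
    rwa [show (Dn + (Dn - z) / ρ) / T = Dn / T + (Dn / T - z / T) / ρ by ring] at this

lemma int_F (δ : ℝ) {ρ : ℝ} (hρ : 0 < ρ) (δ₂ : ℝ) (N : ℕ) (x : ℝ) :
    Integrable fun v : ℝ => trap δ ρ v * (1 - nh δ₂ N (v - x)) := by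
  have hc : Continuous (trap δ ρ) := by unfold trap; fun_prop
  have ht : Integrable (trap δ ρ) := by
    refine hc.integrable_of_hasCompactSupport
      (HasCompactSupport.intro (isCompact_Icc (a := -(ρ * δ)) (b := δ + ρ * δ)) fun v hv => ?_)
    rw [mem_Icc, not_and_or, not_le, not_le] at hv
    refine max_eq_left ((min_le_right _ _).trans ?_)
    rcases hv with hv | hv
    · refine (min_le_left _ _).trans ?_
      have : v / ρ ≤ -δ := by rw [div_le_iff₀ hρ]; linarith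
      linarith
    · refine (min_le_right _ _).trans ?_
      have : (δ - v) / ρ ≤ -δ := by rw [div_le_iff₀ hρ]; linarith
      linarith
  refine ht.mul_bdd (c := 1) ?_ (Filter.Eventually.of_forall fun v => ?_)
  · exact (measurable_const.sub ((measurable_nh δ₂ N).comp
      (measurable_id.sub_const x))).aestronglyMeasurable
  · rw [Real.norm_eq_abs, abs_le]
    constructor <;> linarith [nh_nonneg δ₂ N (v - x), nh_le_one δ₂ N (v - x)]

/-- The part of a shifted lane with a hit. -/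
def B (R : ℕ) (δ₂ : ℝ) (N : ℕ) (x : ℝ) (p : ℕ × ℕ) : Set ℝ :=
  (fun v => v + (2 - p.1 - x)) ⁻¹'
    {γ ∈ Ico ((p.2 : ℝ) / R) ((p.2 + 1) / R) | ¬ NoHit δ₂ N γ}

lemma B_meas (R : ℕ) (δ₂ : ℝ) (N : ℕ) (x : ℝ) (p : ℕ × ℕ) : MeasurableSet (B R δ₂ N x p) :=
  (measurableSet_Ico.inter (measurableSet_noHit δ₂ N measurable_id).compl).preimage
    (measurable_id.add_const _)

lemma B_vol (R : ℕ) (δ₂ : ℝ) (N : ℕ) (x : ℝ) (p : ℕ × ℕ) : volume (B R δ₂ N x p) =
    volume {γ ∈ Ico ((p.2 : ℝ) / R) ((p.2 + 1) / R) | ¬ NoHit δ₂ N γ} :=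
  measure_preimage_add_right _ _ _

lemma B_mem {R : ℕ} (hR : 0 < R) {δ₂ : ℝ} {N : ℕ} {x : ℝ} {p : ℕ × ℕ} {v : ℝ}
    (h : v ∈ B R δ₂ N x p) : (p.2 : ℝ) + p.1 * R ≤ (v - x + 2) * R ∧
      (v - x + 2) * R < p.2 + p.1 * R + 1 ∧ nh δ₂ N (v - x) = 0 := by
  have hR' : (0 : ℝ) < R := by exact_mod_cast hR
  obtain ⟨⟨h1, h2⟩, h3⟩ := h
  rw [div_le_iff₀ hR'] at h1
  rw [lt_div_iff₀ hR'] at h2
  refine ⟨by linarith, by linarith, ind_neg fun hc => h3 ?_⟩
  have := (noHit_add_int δ₂ N (v - x) (2 - p.1)).2 hc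
  push_cast at this
  rwa [show v - x + (2 - (p.1 : ℝ)) = v + (2 - p.1 - x) by ring] at this

lemma B_disj {R : ℕ} (hR : 0 < R) (δ₂ : ℝ) (N : ℕ) (x : ℝ) :
    Set.Pairwise (↑(Finset.range 3 ×ˢ Finset.range R) : Set (ℕ × ℕ))
      (Function.onFun Disjoint (B R δ₂ N x)) := by
  intro p hp p' hp' hne
  refine Set.disjoint_left.2 fun v h h' => hne ?_
  obtain ⟨a1, a2, -⟩ := B_mem hR h
  obtain ⟨b1, b2, -⟩ := B_mem hR h'
  have c1 : p.2 + p.1 * R < p'.2 + p'.1 * R + 1 := by exact_mod_cast a1.trans_lt b2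
  have c2 : p'.2 + p'.1 * R < p.2 + p.1 * R + 1 := by exact_mod_cast b1.trans_lt a2
  simp only [Finset.coe_product, Finset.coe_range, mem_prod, mem_Iio] at hp hp'
  obtain ⟨c, j⟩ := p
  obtain ⟨c', j'⟩ := p'
  simp only at *
  obtain ⟨d1, d2⟩ := hp
  obtain ⟨d3, d4⟩ := hp'
  have : c = c' ∧ j = j' := by
    interval_cases c <;> interval_cases c' <;> omega
  rw [this.1, this.2]

end SBx

open SBx in
theorem SB_pf (h1 : LaneB) : SB := by
  intro R S Sb dc D cap N q m r hR hS hSb hD hDQ hq hqm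
  have hR' : (0 : ℝ) < R := by exact_mod_cast hR
  have hS' : (0 : ℝ) < S := by exact_mod_cast (by omega : 0 < S)
  have hq' : (0 : ℝ) < q := by exact_mod_cast hq
  have hqm' : (q : ℝ) < m := by exact_mod_cast hqm
  have hρ : (0 : ℝ) < (m - q) / q := div_pos (by linarith) hq'
  have hT : (0 : ℝ) < R * S := mul_pos hR' hS'
  set Dn : ℕ := S * (dc + 1) + 1 with hDn
  set rs := rho Dn cap q m with hrs
  have hrs2 : 2 ≤ rs → (rs : ℝ) ≤ Dn * ((m - q) / q) := fun h2 => by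
    have e : rs = max (min cap (Dn * (m - q) / q)) 1 := by
      rw [hrs, rho, mx_eq, mn_eq]; rfl
    have e2 : rs ≤ Dn * (m - q) / q := by omega
    have e3 : (rs : ℝ) ≤ ((Dn * (m - q) : ℕ) : ℝ) / q :=
      (Nat.cast_le.2 e2).trans Nat.cast_div_le
    rw [Nat.cast_mul, Nat.cast_sub hqm.le] at e3
    rwa [← mul_div_assoc]
  set f := r * (R * S) / q % S with hf
  set i := r * R / q with hi
  have hfS : f < S := Nat.mod_lt _ (by omega)
  have he : r * (R * S) / q = S * i + f := by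
    have : r * (R * S) / q / S = i := by
      rw [Nat.div_div_eq_div_mul, ← mul_assoc, Nat.mul_div_mul_right _ _ (by omega : 0 < S)]
    rw [← this, hf, Nat.div_add_mod]
  have e1 : (S : ℝ) * i + f ≤ r / q * (R * S) := by
    have : ((r * (R * S) / q : ℕ) : ℝ) ≤ ((r * (R * S) : ℕ) : ℝ) / q := Nat.cast_div_le
    rw [he] at this
    push_cast at this
    rwa [div_mul_eq_mul_div]
  have e2 : (r : ℝ) / q * (R * S) < S * i + f + 1 := by
    have : r * (R * S) < (r * (R * S) / q + 1) * q :=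
      (Nat.div_lt_iff_lt_mul hq).1 (Nat.lt_succ_self _)
    rw [he] at this
    rw [div_mul_eq_mul_div, div_lt_iff₀ hq']
    exact_mod_cast this
  have hδ : (0 : ℝ) ≤ (Dn : ℝ) / (R * S) := by positivity
  have hI := int_F ((Dn : ℝ) / (R * S)) hρ (D / (R * Sb)) N (r / q)
  have hnn : ∀ v : ℝ, 0 ≤ trap ((Dn : ℝ) / (R * S)) ((m - q) / q) v *
      (1 - nh (D / (R * Sb)) N (v - r / q)) := fun v =>
    mul_nonneg (trap_nonneg _ _ _) (sub_nonneg.2 (nh_le_one _ _ _))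
  have hU := integral_biUnion_finset (μ := volume) (Finset.range 3 ×ˢ Finset.range R)
    (fun p _ => B_meas R (D / (R * Sb)) N (r / q) p) (B_disj hR _ _ _)
    (fun p _ => hI.integrableOn)
  have hle := setIntegral_le_integral
    (s := ⋃ p ∈ Finset.range 3 ×ˢ Finset.range R, B R (D / (R * Sb)) N (r / q) p) hI
    (Filter.Eventually.of_forall hnn)
  rw [hU, Finset.sum_product] at hle
  have hc : (0 : ℝ) ≤ S * rs * (R * Sb) := by positivity
  refine le_trans ?_ (mul_le_mul_of_nonneg_left hle hc)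
  rw [lane, Finset.mul_sum, Finset.mul_sum]
  refine Finset.sum_le_sum fun c _ => ?_
  rw [Finset.mul_sum, Finset.mul_sum]
  refine Finset.sum_le_sum fun j _ => ?_
  rw [← hf, ← hi]
  set w : ℝ := ((S : ℝ) - f) * kz S dc rs ((i : ℤ) + j + c * R - 2 * R) +
    f * kz S dc rs ((i : ℤ) + j + c * R - 2 * R + 1) with hw
  have hw0 : 0 ≤ w := add_nonneg (mul_nonneg (sub_nonneg.2 (by exact_mod_cast hfS.le))
    (kz_nonneg _ _ _ _)) (mul_nonneg (Nat.cast_nonneg _) (kz_nonneg _ _ _ _))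
  have hb := h1 R Sb D N j hR hSb hD hDQ
  have hv : volume.real (B R (D / (R * Sb)) N (r / q) (c, j)) =
      volume.real {γ ∈ Ico ((j : ℝ) / R) ((j + 1) / R) | ¬ NoHit (D / (R * Sb)) N γ} := by
    rw [Measure.real, B_vol]; rfl
  have hg := setIntegral_ge_of_const_le_real (μ := volume)
    (c := (Dn : ℝ) / (R * S) * w) (B_meas R (D / (R * Sb)) N (r / q) (c, j))
    (by rw [B_vol]; exact slice_ne_top _ _ _)
    (f := fun v => (S : ℝ) * rs * (trap ((Dn : ℝ) / (R * S)) ((m - q) / q) v *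
      (1 - nh (D / (R * Sb)) N (v - r / q)))) (fun v hv => by
      obtain ⟨a1, a2, a3⟩ := B_mem hR hv
      simp only at a1 a2
      have := key S dc rs f hS hfS ((i : ℤ) + j + c * R - 2 * R) Dn ((m - q) / q) (R * S)
        (v * (R * S)) (by rw [hDn]; push_cast; ring) hρ hT hrs2
        (by push_cast; nlinarith [mul_le_mul_of_nonneg_left a1 hS'.le])
        (by push_cast; nlinarith [mul_le_mul_of_nonneg_left a2.le hS'.le])
      rw [mul_div_cancel_right₀ _ hT.ne'] at this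
      simp only [a3, sub_zero, mul_one]
      exact this) (hI.const_mul _).integrableOn
  rw [integral_const_mul, hv] at hg
  have hQ : (0 : ℝ) ≤ R * Sb := by positivity
  have t1 := mul_le_mul_of_nonneg_left hb (mul_nonneg hδ hw0)
  have t2 := mul_le_mul_of_nonneg_left hg hQ
  nlinarith

end Pool.Agent.Lib.MP_a4d326_an.Q1
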