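import Pool.Agent.Lib.MP_a4d326_an.Q1.Defs

/-! The statements of the steps. -/

namespace Pool.Agent.Lib.MP_a4d326_an.Q1

open MeasureTheory Set

/-- First-hit decomposition. -/
def FH : Prop := ∀ δ₁ δ₂ : ℝ, 0 < δ₁ → δ₁ ≤ 1 → ∀ M : ℕ,
  ∑ m ∈ Finset.Icc 1 M, Im δ₁ δ₂ m ≤ H δ₁ δ₂

/-- The set of the problem has measure `(2π)² H`. -/
def Link : Prop := ∀ ε : ℝ, 0 < ε → ε ≤ 2 * Real.pi → ∀ S : Set (ℝ × ℝ),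
  S = {p ∈ Ico 0 (2 * Real.pi) ×ˢ Ico 0 (2 * Real.pi) | ∃ n : ℕ, 1 ≤ n ∧
    toIcoMod Real.two_pi_pos 0 (n * p.1 - p.2) < ε ∧
    ∀ k : ℕ, 1 ≤ k → k ≤ n → ε ≤ toIcoMod Real.two_pi_pos 0 (k * p.1 - k * p.2)} →
  MeasurableSet S ∧
    volume.real S = (2 * Real.pi) ^ 2 * H (ε / (2 * Real.pi)) (ε / (2 * Real.pi))

/-- Unfolding. -/
def Unf : Prop := ∀ (k : ℕ), 1 ≤ k → ∀ (P : Finset ℤ) (g ψ : ℝ → ℝ), Measurable g →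
  Integrable g → (∀ x, 0 ≤ g x) → Measurable ψ → (∀ x, 0 ≤ ψ x) → (∀ x, ψ x ≤ 1) →
  Function.Periodic ψ 1 →
  ∑ p ∈ P.filter (fun p => Int.gcd p k = 1), ∫ α in (0 : ℝ)..1, g (k * α - p) * ψ α ≤
    ∑ p ∈ cop k, ∫ α : ℝ, g (k * α - p) * ψ α

/-- One step of inclusion and exclusion. -/
def B1 : Prop := ∀ δ₁ δ₂ : ℝ, 0 < δ₁ → δ₁ ≤ 1 → ∀ m : ℕ, 1 ≤ m →
  δ₁ * (1 - mU δ₂ (m + 1)) - δ₁ ^ 2 * Phi (m - 1) + Pm δ₁ δ₂ (m + 1) m ≤ Im δ₁ δ₂ m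

/-- The pieces are disjoint parts of the set of `γ` with a hit. -/
def LaneB : Prop := ∀ R Sb D N j : ℕ, 0 < R → 0 < Sb → 0 < D → D ≤ R * Sb →
  (bco Sb (R * Sb) D N j : ℝ) ≤ (R * Sb : ℝ) *
    volume.real {γ ∈ Ico ((j : ℝ) / R) ((j + 1) / R) | ¬ NoHit (D / (R * Sb)) N γ}

/-- Upper bounds for the measure of the set of `γ` with a hit. -/
def MT : Prop :=
  (∀ δ : ℝ, 0 ≤ δ → δ ≤ 1 → ∀ N : ℕ, mU δ N ≤ δ * Phi N) ∧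
  (∀ Q D M : ℕ, 0 < D → D ≤ Q →
    (Q : ℝ) * ∑ m ∈ Finset.Icc 1 M, mU (D / Q) (m + 1) ≤ su Q D M) ∧
  (∀ Q M : ℕ, (Q : ℝ) * ∑ m ∈ Finset.Icc 1 M, Phi (m - 1) ≤ sp Q M)

/-- The tree builder. -/
def Bld : Prop := ∀ (b q : ℕ) (leaf : ℕ → ℕ → ℕ) (pos val : ℕ → ℕ), Monotone pos →
  (∀ base r, base ≤ pos r → leaf base r = val r * (2 ^ b) ^ (pos r - base)) →
  ∀ d l h : ℕ, l ≤ h → h - l ≤ 4 * 2 ^ d → 1 ≤ d →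
  bld b q leaf pos d l h =
    ∑ r ∈ (Finset.Ico l h).filter (fun r => Nat.gcd r q = 1), val r * (2 ^ b) ^ (pos r - pos l)

def EB1 : Prop := ∀ b R S q : ℕ, 0 < S → 1 ≤ q → q ≤ 16384 →
  comb b (2 ^ b - 1) R S (R * S) q = ∑ r ∈ cop q,
    (S - r * (R * S) / q % S + r * (R * S) / q % S * 2 ^ b) * (2 ^ b) ^ (r * R / q)

def EB2 : Prop := ∀ b R Sb D N : ℕ, 0 < R → 0 < Sb → 0 < D → D ≤ R * Sb → N ≤ 16384 →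
  pre (lev b (2 ^ b - 1) R Sb (R * Sb) D) N =
    ∑ j ∈ Finset.range R, bco Sb (R * Sb) D N j * (2 ^ b) ^ j

def EB3 : Prop := ∀ b S dc rs : ℕ, 1 ≤ b → 0 < S → 1 ≤ dc → ∃ K : Polynomial ℕ,
  kern b (2 ^ b - 1) S dc rs = K.eval (2 ^ b) ∧ ∀ e : ℕ, K.coeff e ≤ rs ∧
    (K.coeff e : ℝ) ≤ kz S dc rs ((dc : ℤ) + (rs / S : ℕ) - 1 - e)

/-- Reading one digit. -/
def Dgt : Prop := ∀ (p : Polynomial ℕ) (X C o : ℕ), 2 ≤ X → (∀ i, p.coeff i ≤ C) →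
  ((p.eval X / X ^ o % X : ℕ) : ℝ) ≤ p.coeff o + (C : ℝ) / (X - 1)

def EB4 : Prop := ∀ b R S Sb dc Dn D cap Z m₀ m₁ : ℕ, 1 ≤ b → 0 < R → 0 < S → 0 < Sb → 1 ≤ dc →
  0 < D → D ≤ R * Sb → 1 ≤ cap → 1 ≤ m₀ → m₀ ≤ m₁ → m₁ < 16384 →
  (dig b (2 ^ b - 1) R S (R * S) Sb (R * Sb) dc Dn D cap Z m₀ m₁ : ℝ) ≤
    ∑ q ∈ Finset.Ico 1 m₁, ∑ g ∈ Finset.Icc 1 m₁, ∑ m ∈ blk m₀ m₁ q g,
      (Z : ℝ) * Nat.totient (g * q) / (Nat.totient q * g * m * rho Dn cap q m) *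
        ∑ r ∈ cop q, lane R S Sb D dc (rho Dn cap q m) (m₀ + 1) q r +
    3 * (S : ℝ) * Z * Sb * R * (m₁ + 1) ^ 5 / (2 ^ b - 1)

/-- The discrete kernel lies below the trapezoid. -/
def SB : Prop := ∀ R S Sb dc D cap N q m r : ℕ, 0 < R → 2 ≤ S → 0 < Sb → 0 < D → D ≤ R * Sb →
  1 ≤ q → q < m →
  ((S * (dc + 1) + 1 : ℕ) : ℝ) / (R * S) *
      lane R S Sb D dc (rho (S * (dc + 1) + 1) cap q m) N q r ≤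
    (S : ℝ) * rho (S * (dc + 1) + 1) cap q m * (R * Sb) *
      TI (((S * (dc + 1) + 1 : ℕ) : ℝ) / (R * S)) (D / (R * Sb)) N ((m - q) / q) (r / q)

/-- Folding the residues. -/
def RI : Prop := ∀ (F : ℝ → ℝ → ℝ), (∀ ρ x, 0 ≤ F ρ x) → (∀ ρ x, ∀ z : ℤ, F ρ (x + z) = F ρ x) →
  ∀ m₀ m₁ : ℕ,
  ∑ q ∈ Finset.Ico 1 m₁, ∑ g ∈ Finset.Icc 1 m₁, ∑ m ∈ blk m₀ m₁ q g,
      (Nat.totient (g * q) : ℝ) / (Nat.totient q * g * m) *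
        ∑ r ∈ cop q, F ((m - q) / q) (r / q) ≤
    ∑ m ∈ Finset.Icc m₀ m₁, ∑ k ∈ Finset.Ico 1 m, ∑ p ∈ cop k,
      1 / (m : ℝ) * F ((m - k) / k) (m * p / k)

/-- The certificate of the middle range. -/
def BF : Prop := ∀ b R S Sb dc D cap Z Hh m₀ nb M x y z : ℕ, 1 ≤ b → 0 < R → 2 ≤ S → 0 < Sb →
  1 ≤ dc → 0 < D → D ≤ R * Sb → 1 ≤ cap → 0 < Z → 1 ≤ Hh → 1 ≤ m₀ → m₀ + nb * Hh ≤ M + 1 →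
  M < 16384 → S * (dc + 1) + 1 ≤ R * S →
  su (R * Sb) D M ≤ x → sp (R * Sb) M ≤ y →
  z ≤ chunk b (2 ^ b - 1) R S (R * S) Sb (R * Sb) dc (S * (dc + 1) + 1) D cap Z Hh m₀ nb →
  ((S * (dc + 1) + 1 : ℕ) : ℝ) / (R * S) *
      (M - x / (R * Sb) - ((S * (dc + 1) + 1 : ℕ) : ℝ) / (R * S) * y / (R * Sb) +
        (z - nb * (3 * (S : ℝ) * Z * Sb * R * (M + 1) ^ 5 / (2 ^ b - 1))) / (Z * S * (R * Sb))) ≤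
    H (((S * (dc + 1) + 1 : ℕ) : ℝ) / (R * S)) (D / (R * Sb))

/-- Counting bits. -/
def Pop : Prop := ∀ R x : ℕ, 32 ∣ R → R < 4294967295 →
  pop R x = ((Finset.range R).filter fun i => x.testBit i = true).card

def Inner : Prop := ∀ G R D w c M i : ℕ, 0 < G → 0 < R →
  (uin G R D w c M).testBit i = true → ∀ α γ : ℝ, i ≤ R * α → R * α < i + 1 →
  c ≤ G * γ → G * γ ≤ c + w →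
  ∃ m : ℕ, 1 ≤ m ∧ m ≤ M ∧ Int.fract (m * α + γ) < D / G

def Outer : Prop := ∀ G R D w c M i m : ℕ, 0 < G → 0 < R → i < R → 1 ≤ m → m ≤ M →
  ∀ α γ : ℝ, i ≤ R * α → R * α < i + 1 → 0 ≤ γ → γ < 1 → c ≤ G * γ + w → G * γ ≤ c →
  Int.fract (m * α + γ) < D / G → (uout G R D w c M).testBit i = true

/-- From bits to measure. -/
def Bits : Prop := ∀ (R : ℕ) (t : ℕ → Prop) [DecidablePred t] (p : ℝ → Prop), 0 < R →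
  ((∀ i < R, t i → ∀ α : ℝ, i ≤ R * α → R * α < i + 1 → p α) →
    (((Finset.range R).filter t).card : ℝ) ≤ R * volume.real {α ∈ Ico (0 : ℝ) 1 | p α}) ∧
  ((∀ i < R, ∀ α : ℝ, i ≤ R * α → R * α < i + 1 → p α → t i) →
    R * volume.real {α ∈ Ico (0 : ℝ) 1 | p α} ≤ (((Finset.range R).filter t).card : ℝ))

def Scan : Prop :=
  (∀ G D c l N : ℕ, 0 < G → allMiss G D c l N = true → ∀ γ : ℝ, c ≤ G * γ → G * γ < c + l →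
    NoHit (D / G) N γ) ∧
  (∀ G D c l n : ℕ, 0 < G → hit G D c l n = true → ∀ γ : ℝ, c ≤ G * γ → G * γ < c + l →
    1 ≤ n ∧ Int.fract (n * γ) < D / G) ∧
  (∀ G D c l n fu : ℕ, 0 < G → fu ≤ n → ∀ γ : ℝ, c ≤ G * γ → G * γ < c + l →
    ∀ k : ℕ, 1 ≤ k → n - fu ≤ k → k < run G D c l n fu → D / G ≤ Int.fract (k * γ))

/-- The loop over cells. -/
def Cells : Prop := ∀ (G : ℕ) (g : ℕ → ℕ) (val : ℕ → ℕ → ℕ → ℕ) (sg fu k : ℕ) (f : ℝ → ℝ),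
  0 < G → k * sg = G → IntervalIntegrable f volume 0 1 →
  ((∀ γ, 0 ≤ f γ) → (∀ c l x : ℕ, 1 ≤ l → c + l ≤ G → ∀ γ : ℝ, c ≤ G * γ → G * γ < c + l →
      (val c l x : ℝ) ≤ f γ) →
    (segs G g val 0 sg fu 0 k : ℝ) ≤ G * ∫ γ in (0 : ℝ)..1, f γ) ∧
  (∀ top : ℕ, (∀ᵐ γ : ℝ, 0 ≤ γ → γ < 1 → f γ ≤ top ∧ ∀ c l x : ℕ, 1 ≤ l → c + l ≤ G →
      c ≤ G * γ → G * γ < c + l → f γ ≤ val c l x) →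
    G * ∫ γ in (0 : ℝ)..1, f γ ≤ (segs G g val top sg fu 0 k : ℝ))

def CL : Prop := ∀ G R D₁ D₂ w thr n₀ sg fu k : ℕ, 0 < G → 0 < R → 32 ∣ R → R < 4294967295 →
  k * sg = G → (clo G R D₁ D₂ w thr n₀ sg fu 0 k : ℝ) ≤ G * R * H (D₁ / G) (D₂ / G)

def CU : Prop := ∀ G R D₁ D₂ w thr n₀ sg fu k : ℕ, 0 < G → 0 < R → 32 ∣ R → R < 4294967295 →
  k * sg = G → G * R * H (D₁ / G) (D₂ / G) ≤ (chi G R D₁ D₂ w thr n₀ sg fu 0 k : ℝ)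

/-- Dirichlet's theorem and a hit along a progression. -/
def DI : Prop :=
  (∀ (x : ℝ) (K : ℕ), 1 ≤ K →
    (∃ b : ℕ, 1 ≤ b ∧ b ≤ K ∧ Int.fract (b * x) ≤ 1 / (K + 1)) ∨
    (∃ (b : ℕ) (a : ℤ), 1 ≤ b ∧ b ≤ K ∧ Int.gcd a b = 1 ∧ 0 < a - b * x ∧
      a - b * x ≤ 1 / (K + 1))) ∧
  (∀ (x : ℝ) (b : ℕ) (a : ℤ), 1 ≤ b → Int.gcd a b = 1 → 0 < a - b * x → b * (a - b * x) ≤ 1 →
    ∃ j : ℕ, 1 ≤ j ∧ j * (a - b * x) ≤ 1 ∧ Int.fract (j * x) < a - b * x)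

/-- Late hits are rare. -/
def Nf : Prop := ∀ (δ : ℝ) (K : ℕ), 1 ≤ K → 1 / (K + 1 : ℝ) < δ →
  (∀ n : ℕ, K ≤ n → volume.real {γ ∈ Ico (0 : ℝ) 1 | NoHit δ n γ} ≤ K / n) ∧
  ∀ᵐ γ : ℝ, 0 ≤ γ → γ < 1 → ∃ n : ℕ, 1 ≤ n ∧ Int.fract (n * γ) < δ

/-- An arc has the measure it should have under multiplication. -/
def GM1 : Prop := ∀ (a b γ : ℝ) (m : ℕ), 1 ≤ m → a ≤ b →
  volume.real {α ∈ Ico (0 : ℝ) 1 | a ≤ Int.fract (m * α + γ) ∧ Int.fract (m * α + γ) < b} ≤ b - a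

def CT : Prop := ∀ x y : ℝ, 0 < x → ContinuousOn (fun δ => H δ δ) (Icc x y)

def GS : Prop := ∀ (δ₀ a b γ : ℝ) (N : ℕ), 0 ≤ δ₀ → δ₀ ≤ a → a ≤ b → 1 ≤ N →
  Int.fract (N * γ) < b →
  NoHit b (N - 1) γ →
  sl b b γ - sl a b γ ≤ ∑ m ∈ Finset.Icc 1 (N - 2), gm δ₀ a b m (N - 2 - m) γ

def TL : Prop := ∀ (δ₀ a b γ : ℝ) (K n₀ N : ℕ), 1 ≤ K → K < n₀ → 1 / (K + 1 : ℝ) ≤ δ₀ → a ≤ b →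
  ∑ m ∈ Finset.Icc n₀ (N - 2), gm δ₀ a b m (N - 2 - m) γ ≤
    (b - a) * (∑ k ∈ Finset.Icc 1 K, (Nat.totient k : ℝ)) / n₀

def CN : Prop := ∀ (G D₀ D₁ c l m Dd : ℕ) (a b γ : ℝ), 0 < G → D₀ ≤ D₁ → D₁ ≤ G → c + l ≤ G →
  1 ≤ m → D₀ / G ≤ a → a ≤ b → b ≤ D₁ / G → c ≤ G * γ → G * γ < c + l →
  gm (D₀ / G) a b m Dd γ ≤ cnt G D₀ (D₁ - D₀ + l) (D₀ + G - (c + l)) Dd m * (b - a) / m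

def WG : Prop := ∀ (G D₀ D₁ W n₀ tl top w thr sg fu k K : ℕ) (a b : ℝ), 0 < G → D₀ ≤ D₁ →
  D₁ ≤ G → k * sg = G → 1 ≤ K → K < n₀ → G < D₀ * (K + 1) →
  (∑ i ∈ Finset.Icc 1 K, Nat.totient i) * W ≤ tl * n₀ → n₀ * W + tl ≤ top →
  D₀ / G ≤ a → a ≤ b → b ≤ D₁ / G →
  G * W * (H b b - H a b) ≤ (b - a) * gain G D₀ D₁ W n₀ tl top w thr sg fu 0 k

def WL : Prop := ∀ (G R D₀ D₁ W n₀ n₁ : ℕ) (a b : ℝ), 0 < G → 0 < R → 32 ∣ R → R < 4294967295 →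
  D₀ ≤ D₁ → D₁ ≤ G → n₁ ≤ n₀ → D₀ / G ≤ a → a ≤ b → b ≤ D₁ / G →
  (b - a) * loss G R D₀ D₁ W n₀ n₁ ≤ W * (H a a - H a b)

/-- Numerical facts on the weights. -/
def N1 : Prop := ∀ L : ℕ, 1 ≤ L → 1 ≤ Gf L

def N2 : Prop := (∀ N : ℕ, PhiP N ≤ 0.61027 * N + 0.651) ∧ (∀ N : ℕ, 159 ≤ N → ZP N ≤ 1.375) ∧
  (∀ N : ℕ, 30 ≤ N → 1.348 ≤ ∑ f ∈ Finset.Icc 1 N, (Nat.totient f : ℝ) / (f : ℝ) ^ 3)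

def N3 : Prop := ∀ N : ℕ, Phi N ≤ PhiP N

def N4 : Prop := ∀ E : ℕ, (1 ≤ E → |beta E| ≤ 1) ∧ (2 ≤ E → |beta E| ≤ 0.75) ∧
  (3 ≤ E → |beta E| ≤ 0.5278) ∧ (4 ≤ E → |beta E| ≤ 0.4653) ∧ (5 ≤ E → |beta E| ≤ 0.3609) ∧
  (7 ≤ E → |beta E| ≤ 0.2384) ∧ (11 ≤ E → |beta E| ≤ 0.1785) ∧ (20 ≤ E → |beta E| ≤ 0.1441) ∧
  (25 ≤ E → |beta E| ≤ 0.1377) ∧ (28 ≤ E → |beta E| ≤ 0.1245) ∧ (30 ≤ E → |beta E| ≤ 0.1007) ∧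
  (35 ≤ E → |beta E| ≤ 0.0931) ∧ (40 ≤ E → |beta E| ≤ 0.0817) ∧ (44 ≤ E → |beta E| ≤ 0.0667) ∧
  (55 ≤ E → |beta E| ≤ 0.0607) ∧ (63 ≤ E → |beta E| ≤ 0.0569) ∧ (88 ≤ E → |beta E| ≤ 0.0517) ∧
  (90 ≤ E → |beta E| ≤ 0.047) ∧ (105 ≤ E → |beta E| ≤ 0.0376) ∧ (126 ≤ E → |beta E| ≤ 0.0348) ∧
  (132 ≤ E → |beta E| ≤ 0.0314) ∧ (150 ≤ E → |beta E| ≤ 0.0273) ∧ (165 ≤ E → |beta E| ≤ 0.0256)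

def SN : Prop := ∀ N : ℕ, 159 ≤ N → N * Sq N ≤ 3.61 + 0.00108 * N

/-- The majorant. -/
def Y1 : Prop := ∀ (δ : ℝ) (N : ℕ), 0 < δ → δ ≤ 1 →
  (∀ γ, 1 - Ys δ N γ ≤ nh δ N γ ∧ 0 ≤ Ys δ N γ) ∧ Nice (Ys δ N) ∧
    ∫ γ in (0 : ℝ)..1, Ys δ N γ = δ * PhiP N

/-- Fourier coefficients under dilation. -/
def DL : Prop := ∀ (F : ℝ → ℝ), Nice F → ∀ M l : ℤ, M ≠ 0 →
  fc (fun x => F (M * x)) l = if M ∣ l then fc F (l / M) else 0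

def PS : Prop := ∀ (δ : ℝ) (N : ℕ), 0 < δ → δ ≤ 1 → N * δ ≤ 2 → HB (Ys δ N) (pairs N (pterm δ))

def PQ : Prop := ∀ N : ℕ,
  pairs N (fun c n c' n' => (Nat.gcd n n' : ℝ) ^ 2 / ((n : ℝ) ^ 2 * (n' : ℝ) ^ 2 * c * c')) ≤ Sq N

def PC : Prop := ∀ N : ℕ, 2 * ∑ f ∈ Finset.Icc 1 N, (Nat.totient f : ℝ) / (f : ℝ) ^ 3 ≤
  pairs N fun c n c' n' => (Nat.gcd n n' : ℝ) *
    ((1 / (c * n : ℝ)) ^ 3 + (1 / (c' * n' : ℝ)) ^ 3 - |1 / (c * n : ℝ) - 1 / (c' * n' : ℝ)| ^ 3)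

def PT : Prop := ∀ (δ : ℝ) (N : ℕ), 0 < δ → pairs N (pterm δ) ≤
  δ ^ 2 / 12 * Sq N + δ ^ 4 / 3 * (PhiP N * ZP N) -
    δ ^ 3 / 6 * ∑ f ∈ Finset.Icc 1 N, (Nat.totient f : ℝ) / (f : ℝ) ^ 3

def QQ : Prop := ∀ (F : ℝ → ℝ) (y ψ : ℝ) (m₀ : ℕ), 1 ≤ m₀ → Nice F → (∀ x, 0 ≤ F x) →
  ∫ x in (0 : ℝ)..1, F x ≤ y → HB F ψ →
  HB (fun α => ∑ m ∈ Finset.Icc m₀ (m₀ + 4), F (-(m * α)))
    (10 * ψ / (m₀ : ℝ) ^ 2 + 175 * y ^ 2 / (m₀ : ℝ) ^ 6)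

/-- Duality between the Sobolev spaces of order `1` and `-1`. -/
def DU : Prop := ∀ (f g : ℝ → ℝ) (K Q : ℝ), Nice f → Nice g → HB g Q →
  (∀ h : ℝ, 0 < h → h ≤ 1 → ∫ x in (0 : ℝ)..1, (f (x + h) - f x) ^ 2 ≤ K * h ^ 2) →
  ∫ x in (0 : ℝ)..1, f x * g x ≤
    (∫ x in (0 : ℝ)..1, f x) * (∫ x in (0 : ℝ)..1, g x) + √(K * Q)

def FB1 : Prop := ∀ (δ : ℝ) (m₀ : ℕ), 0 < δ → 1 ≤ m₀ → Nice (fB δ m₀) ∧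
  ∀ m : ℕ, m₀ ≤ m → m ≤ m₀ + 4 → ∀ α, fB δ m₀ α ≤ fU δ m α

/-- The integral of an increment of a clipped linear function. -/
def Clip : Prop := ∀ δ l σ : ℝ, 0 < δ → 0 < l → 0 ≤ σ →
  Integrable (fun y : ℝ => max 0 (min δ ((y + σ) / l)) - max 0 (min δ (y / l))) ∧
  ∫ y : ℝ, (max 0 (min δ ((y + σ) / l)) - max 0 (min δ (y / l))) = σ * δ

def FB2 : Prop := ∀ (δ : ℝ) (m₀ : ℕ), 0 < δ → δ ≤ 1 → 1 ≤ m₀ →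
  δ - δ ^ 2 * xS m₀ ≤ ∫ α in (0 : ℝ)..1, fB δ m₀ α

def FB3 : Prop := ∀ (δ : ℝ) (m₀ : ℕ), 0 < δ → δ ≤ 1 → 1 ≤ m₀ → ∀ h : ℝ, 0 < h → h ≤ 1 →
  ∫ α in (0 : ℝ)..1, (fB δ m₀ (α + h) - fB δ m₀ α) ^ 2 ≤ 2 * δ * kS m₀ * h ^ 2

def AB : Prop := ∀ (w : ℕ → ℝ), Monotone w → (∀ k, 0 ≤ w k) → ∀ n : ℕ,
  ∑ k ∈ Finset.Icc 1 n, (Nat.totient k : ℝ) / k * w k ≤
    0.62694 * ∑ k ∈ Finset.Icc 1 n, w k + 0.5286 * w n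

def KX : Prop := ∀ m₀ : ℕ, 154 ≤ m₀ → xS m₀ ≤ 0.61898 * m₀ + 3.905 ∧
  kS m₀ ≤ 0.91152 * (m₀ : ℝ) ^ 3 + 14.57 * (m₀ : ℝ) ^ 2

/-- The error term. -/
def NE : Prop := ∀ δ m K y ψ : ℝ, 0 < δ → δ ≤ 1 / 512 → 0.3 ≤ m * δ → m * δ ≤ 1.35 → 0 ≤ K →
  K ≤ 2 * δ * (0.91152 * m ^ 3 + 14.57 * m ^ 2) → 0 ≤ y → y ≤ δ * (0.61027 * (m + 5) + 0.651) →
  ψ ≤ δ ^ 2 / 12 * (3.61 / m + 0.00108) + δ ^ 3 / 3 * (y * 1.375) - δ ^ 3 / 6 * 1.348 →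
  √(K * (10 * ψ / m ^ 2 + 175 * y ^ 2 / m ^ 6)) ≤
    5 * δ * (0.02475 - 0.01097 * (m * δ) + 0.0112 * (m * δ) ^ 2)

/-- One block of five values of `m`. -/
def BL : Prop := ∀ (δ : ℝ) (m₀ : ℕ), 0 < δ → δ ≤ 1 / 512 → 0.3 ≤ m₀ * δ → m₀ * δ ≤ 1.35 →
  5 * δ * (0.9604 - 1.2092 * (m₀ * δ) + 0.3665 * (m₀ * δ) ^ 2) ≤
    ∑ m ∈ Finset.Icc m₀ (m₀ + 4), Im δ δ m

/-- The range of small `δ`. -/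
def AF : Prop := ∀ δ : ℝ, 0 < δ → δ ≤ 1 / 512 → 1 / 2 < H δ δ

end Pool.Agent.Lib.MP_a4d326_an.Q1
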